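import Mathlib

/-!
The absorption argument (purely numerical).
-/

namespace Pool.Agent.LBern

open Finset

lemma exists_geo_bound (d : ℕ) : ∃ K : ℝ, 0 < K ∧ ∀ n : ℕ,
    ∑ j ∈ Finset.range n, (3 / 4 : ℝ) ^ j * ((j : ℝ) + 1) ^ d ≤ K := by
  have hs : Summable (fun n : ℕ => (n : ℝ) ^ d * (3 / 4 : ℝ) ^ n) :=
    summable_pow_mul_geometric_of_norm_lt_one d (by rw [Real.norm_eq_abs, abs_of_pos] <;> norm_num)
  have hs1 : Summable (fun n : ℕ => (3 / 4 : ℝ) ^ n * ((n : ℝ) + 1) ^ d) := by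
    have h1 := (summable_nat_add_iff 1).2 hs
    have h2 := h1.mul_left (4 / 3 : ℝ)
    refine h2.congr fun n => ?_
    push_cast
    rw [pow_succ]; ring
  refine ⟨∑' n : ℕ, (3 / 4 : ℝ) ^ n * ((n : ℝ) + 1) ^ d + 1, ?_, fun n => ?_⟩
  · have : 0 ≤ ∑' n : ℕ, (3 / 4 : ℝ) ^ n * ((n : ℝ) + 1) ^ d := tsum_nonneg fun n => by positivity
    linarith
  · have := hs1.sum_le_tsum (Finset.range n) fun i _ => by positivity
    linarith

lemma exists_q (d : ℕ) (ε : ℝ) (hε : 0 < ε) : ∃ q : ℕ, ((q : ℝ) + 1) ^ d * (3 / 4 : ℝ) ^ q ≤ ε := by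
  have ht := tendsto_pow_const_mul_const_pow_of_abs_lt_one d (r := (3 / 4 : ℝ))
    (by rw [abs_of_pos] <;> norm_num)
  have h1 := (Filter.tendsto_add_atTop_iff_nat 1).2 ht
  have h2 := h1.eventually (ge_mem_nhds (by positivity : (0 : ℝ) < ε * (3 / 4)))
  obtain ⟨q, hq⟩ := h2.exists
  refine ⟨q, ?_⟩
  push_cast at hq
  rw [pow_succ, ← mul_assoc] at hq
  have : (0 : ℝ) < 3 / 4 := by norm_num
  exact le_of_mul_le_mul_right hq this

/-- absorption (purely numerical) -/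
theorem absorb (d : ℕ) (C : ℝ) (hC : 0 < C) : ∃ C' : ℝ, 0 < C' ∧ ∀ (L : ℕ) (N : ℕ → ℝ) (X : ℝ),
    0 ≤ X → (∀ l, 0 ≤ N l) →
    (∀ m, L ≤ m → ∀ l, l ≤ L → N l ≤ C * ((m - l : ℕ) + 1 : ℝ) ^ d *
        (X + C * ∑ l' ∈ Finset.range (L + 1), (3 / 4 : ℝ) ^ (m - l') * N l')) →
    ∀ l, l ≤ L → N l ≤ C' * ((L - l : ℕ) + 1 : ℝ) ^ d * X := by
  obtain ⟨K, hK, hKb⟩ := exists_geo_bound d
  obtain ⟨q, hq⟩ := exists_q d (1 / (2 * C ^ 2 * K)) (by positivity)
  set Q : ℝ := ((q : ℝ) + 1) ^ d with hQ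
  have hQ0 : 0 < Q := by positivity
  set t : ℝ := (3 / 4 : ℝ) ^ q with ht
  have ht0 : 0 < t := by positivity
  have hq' : C ^ 2 * K * (Q * t) ≤ 1 / 2 := by
    calc C ^ 2 * K * (Q * t) ≤ C ^ 2 * K * (1 / (2 * C ^ 2 * K)) :=
          mul_le_mul_of_nonneg_left hq (by positivity)
      _ = 1 / 2 := by field_simp
  refine ⟨2 * C * Q, by positivity, ?_⟩
  intro L N X hX hN h l hl
  set S : ℝ := ∑ l' ∈ Finset.range (L + 1), (3 / 4 : ℝ) ^ (L - l') * N l' with hS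
  have hS0 : 0 ≤ S := Finset.sum_nonneg fun l' _ => mul_nonneg (by positivity) (hN l')
  -- basic inequality with `m = L + q`
  have h1 : ∀ l, l ≤ L → N l ≤ C * Q * ((L - l : ℕ) + 1 : ℝ) ^ d * (X + C * (t * S)) := by
    intro l hl
    have h2 := h (L + q) (Nat.le_add_right L q) l hl
    have e1 : ∑ l' ∈ Finset.range (L + 1), (3 / 4 : ℝ) ^ (L + q - l') * N l' = t * S := by
      rw [hS, Finset.mul_sum]
      refine Finset.sum_congr rfl fun l' hl' => ?_
      rw [Finset.mem_range] at hl'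
      rw [show L + q - l' = q + (L - l') by omega, pow_add, ht]; ring
    rw [e1] at h2
    refine h2.trans ?_
    have e2 : (((L + q - l : ℕ) : ℝ) + 1) ^ d ≤ Q * ((L - l : ℕ) + 1 : ℝ) ^ d := by
      rw [hQ, ← mul_pow]
      apply pow_le_pow_left₀ (by positivity)
      rw [show L + q - l = q + (L - l) by omega]
      push_cast
      nlinarith [Nat.cast_nonneg (α := ℝ) q, Nat.cast_nonneg (α := ℝ) (L - l)]
    have e3 : 0 ≤ X + C * (t * S) := by positivity
    calc C * (((L + q - l : ℕ) : ℝ) + 1) ^ d * (X + C * (t * S))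
        ≤ C * (Q * ((L - l : ℕ) + 1 : ℝ) ^ d) * (X + C * (t * S)) := by gcongr
      _ = _ := by ring
  -- bound of `S`
  have h3 : S ≤ C * Q * K * (X + C * (t * S)) := by
    have hY0 : 0 ≤ X + C * (t * S) := by positivity
    have h1' : ∀ l' ∈ Finset.range (L + 1), (3 / 4 : ℝ) ^ (L - l') * N l' ≤
        (3 / 4 : ℝ) ^ (L - l') * (C * Q * ((L - l' : ℕ) + 1 : ℝ) ^ d * (X + C * (t * S))) := by
      intro l' hl'
      rw [Finset.mem_range] at hl'
      exact mul_le_mul_of_nonneg_left (h1 l' (by omega)) (by positivity)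
    have h1'' := Finset.sum_le_sum h1'
    rw [← hS] at h1''
    generalize X + C * (t * S) = Y at h1'' hY0 ⊢
    refine h1''.trans ?_
    calc ∑ l' ∈ Finset.range (L + 1), (3 / 4 : ℝ) ^ (L - l') *
          (C * Q * ((L - l' : ℕ) + 1 : ℝ) ^ d * Y)
        = C * Q * Y *
          ∑ l' ∈ Finset.range (L + 1), (3 / 4 : ℝ) ^ (L - l') * ((L - l' : ℕ) + 1 : ℝ) ^ d := by
          rw [Finset.mul_sum]
          refine Finset.sum_congr rfl fun l' _ => by ring
      _ = C * Q * Y *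
          ∑ j ∈ Finset.range (L + 1), (3 / 4 : ℝ) ^ j * ((j : ℝ) + 1) ^ d := by
          congr 1
          rw [← Finset.sum_range_reflect (fun j => (3 / 4 : ℝ) ^ j * ((j : ℝ) + 1) ^ d)]
          refine Finset.sum_congr rfl fun j hj => ?_
          rw [show L + 1 - 1 - j = L - j by omega]
      _ ≤ C * Q * Y * K := by
          apply mul_le_mul_of_nonneg_left (hKb _)
          positivity
      _ = _ := by ring
  have h4 : S ≤ 2 * (C * Q * K * X) := by
    have e : C * Q * K * (X + C * (t * S)) = C * Q * K * X + C ^ 2 * K * (Q * t) * S := by ring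
    rw [e] at h3
    have e2 : C ^ 2 * K * (Q * t) * S ≤ 1 / 2 * S := mul_le_mul_of_nonneg_right hq' hS0
    linarith
  refine (h1 l hl).trans ?_
  have h5 : X + C * (t * S) ≤ 2 * X := by
    have e : C * (t * S) ≤ C * (t * (2 * (C * Q * K * X))) := by gcongr
    have e2 : C * (t * (2 * (C * Q * K * X))) = 2 * (C ^ 2 * K * (Q * t)) * X := by ring
    have e3 : 2 * (C ^ 2 * K * (Q * t)) * X ≤ 1 * X :=
      mul_le_mul_of_nonneg_right (by linarith) hX
    linarith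
  calc C * Q * ((L - l : ℕ) + 1 : ℝ) ^ d * (X + C * (t * S))
      ≤ C * Q * ((L - l : ℕ) + 1 : ℝ) ^ d * (2 * X) := by gcongr
    _ = _ := by ring

end Pool.Agent.LBern
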