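import Mathlib

/-!
Kernel bounds: trigonometric sums with smooth compactly supported coefficients.
-/

set_option autoImplicit false
open Finset

namespace Pool.Agent.LBern

/-- `e(t) = exp (2 π i t)` -/
noncomputable def ee (t : ℝ) : ℂ := Complex.exp (Complex.I * ((2 * Real.pi * t : ℝ) : ℂ))

theorem ee_add (s t : ℝ) : ee (s + t) = ee s * ee t := by
  unfold ee
  rw [← Complex.exp_add]
  congr 1
  push_cast
  ring

theorem ee_zero : ee 0 = 1 := by
  unfold ee; simp

theorem norm_ee (t : ℝ) : ‖ee t‖ = 1 := by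
  unfold ee
  rw [mul_comm]
  exact Complex.norm_exp_ofReal_mul_I _

theorem ee_int (k : ℤ) : ee k = 1 := by
  unfold ee
  rw [Complex.exp_eq_one_iff]
  exact ⟨k, by push_cast; ring⟩

theorem hasDerivAt_ee (k x : ℝ) :
    HasDerivAt (fun x : ℝ => ee (k * x)) (2 * Real.pi * k * Complex.I * ee (k * x)) x := by
  unfold ee
  have h1 : HasDerivAt (fun x : ℝ => Complex.I * ((2 * Real.pi * (k * x) : ℝ) : ℂ))
      (Complex.I * ((2 * Real.pi * (k * 1) : ℝ) : ℂ)) x := by
    apply HasDerivAt.const_mul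
    apply HasDerivAt.ofReal_comp
    exact ((hasDerivAt_id x).const_mul k).const_mul (2 * Real.pi)
  have h2 := h1.cexp
  refine h2.congr_deriv ?_
  push_cast
  ring

/-- distance to the nearest integer -/
noncomputable def nd (x : ℝ) : ℝ := |x - round x|

theorem nd_nonneg (x : ℝ) : 0 ≤ nd x := abs_nonneg _

theorem nd_le_half (x : ℝ) : nd x ≤ 1 / 2 := abs_sub_round x

theorem nd_le_add (x y : ℝ) : nd x ≤ nd y + |x - y| := by
  unfold nd
  calc |x - round x| ≤ |x - round y| := round_le x (round y)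
    _ = |(y - round y) + (x - y)| := by congr 1; ring
    _ ≤ |y - round y| + |x - y| := abs_add_le _ _

/-- `|1 - e(x)| ≥ 4 ‖x‖`. -/
theorem four_nd_le (x : ℝ) : 4 * nd x ≤ ‖ee x - 1‖ := by
  have h1 : ee x = ee (x - round x) := by
    have : x = (x - round x) + (round x : ℤ) := by ring
    conv_lhs => rw [this]
    rw [ee_add, ee_int, mul_one]
  rw [h1]
  unfold ee
  rw [Complex.norm_exp_I_mul_ofReal_sub_one, Real.norm_eq_abs, abs_mul, abs_two]
  have h2 : |2 * Real.pi * (x - round x) / 2| ≤ Real.pi / 2 := by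
    have h3 := nd_le_half x
    unfold nd at h3
    rw [show 2 * Real.pi * (x - round x) / 2 = Real.pi * (x - round x) by ring, abs_mul,
      abs_of_pos Real.pi_pos]
    nlinarith [Real.pi_pos]
  have h4 := Real.mul_abs_le_abs_sin h2
  have h5 : 2 / Real.pi * |2 * Real.pi * (x - round x) / 2| = 2 * nd x := by
    rw [show 2 * Real.pi * (x - round x) / 2 = Real.pi * (x - round x) by ring, abs_mul,
      abs_of_pos Real.pi_pos]
    unfold nd
    field_simp
  rw [h5] at h4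
  linarith

/-- the trigonometric sum -/
noncomputable def trig (c : ℤ → ℂ) (x : ℝ) : ℂ := ∑' k : ℤ, c k * ee (k * x)

theorem trig_eq_sum {c : ℤ → ℂ} {s : Finset ℤ} (h : ∀ k ∉ s, c k = 0) (x : ℝ) :
    trig c x = ∑ k ∈ s, c k * ee (k * x) := by
  unfold trig
  apply tsum_eq_sum
  intro k hk
  rw [h k hk, zero_mul]

theorem mem_Icc_of_le {L : ℝ} {k : ℤ} (h : |(k:ℝ)| ≤ L) : k ∈ Finset.Icc (-⌊L⌋) ⌊L⌋ := by
  rw [Finset.mem_Icc]
  rw [abs_le] at h
  constructor
  · have : -k ≤ ⌊L⌋ := by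
      rw [Int.le_floor]
      push_cast
      linarith [h.1]
    omega
  · rw [Int.le_floor]
    exact h.2

theorem norm_trig_le {c : ℤ → ℂ} {L M : ℝ} (hL : 0 ≤ L) (hM0 : 0 ≤ M)
    (hc : ∀ k : ℤ, L < |(k:ℝ)| → c k = 0) (hM : ∀ k, ‖c k‖ ≤ M) (x : ℝ) :
    ‖trig c x‖ ≤ (2 * L + 1) * M := by
  have h1 : ∀ k ∉ Finset.Icc (-⌊L⌋) ⌊L⌋, c k = 0 := by
    intro k hk
    apply hc
    by_contra hcon
    exact hk (mem_Icc_of_le (not_lt.mp hcon))
  rw [trig_eq_sum h1]
  refine (norm_sum_le _ _).trans ?_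
  calc ∑ k ∈ Finset.Icc (-⌊L⌋) ⌊L⌋, ‖c k * ee (k * x)‖ ≤ ∑ _k ∈ Finset.Icc (-⌊L⌋) ⌊L⌋, M := by
        apply Finset.sum_le_sum
        intro k _
        rw [norm_mul, norm_ee, mul_one]
        exact hM k
    _ = ((Finset.Icc (-⌊L⌋) ⌊L⌋).card : ℝ) * M := by rw [Finset.sum_const, nsmul_eq_mul]
    _ ≤ (2 * L + 1) * M := by
        apply mul_le_mul_of_nonneg_right _ hM0
        rw [Int.card_Icc]
        have h2 : 0 ≤ ⌊L⌋ := Int.floor_nonneg.mpr hL
        have h3 : (((⌊L⌋ + 1 - -⌊L⌋).toNat : ℕ) : ℝ) = 2 * (⌊L⌋ : ℝ) + 1 := by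
          have h4 : (((⌊L⌋ + 1 - -⌊L⌋).toNat : ℕ) : ℤ) = 2 * ⌊L⌋ + 1 := by
            rw [Int.toNat_of_nonneg (by omega)]
            ring
          exact_mod_cast h4
        rw [h3]
        linarith [Int.floor_le L]

/-- summation by parts -/
theorem trig_diff {c : ℤ → ℂ} (hc : (Function.support c).Finite) (x : ℝ) :
    trig (fun k => c (k - 1) - c k) x = (ee x - 1) * trig c x := by
  have hs : ∀ d : ℤ → ℂ, (Function.support d).Finite → Summable (fun k : ℤ => d k * ee (k * x)) := by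
    intro d hd
    apply summable_of_hasFiniteSupport
    apply hd.subset
    intro k hk hdk
    apply hk
    simp only
    rw [hdk, zero_mul]
  have hc1 : (Function.support (fun k : ℤ => c (k - 1))).Finite := by
    have : Function.support (fun k : ℤ => c (k - 1)) = (fun k : ℤ => k - 1) ⁻¹' Function.support c :=
      rfl
    rw [this]
    apply hc.preimage
    intro a _ b _ hab
    simpa using hab
  have h1 : trig (fun k => c (k - 1)) x = ee x * trig c x := by
    unfold trig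
    rw [← tsum_mul_left, ← (Equiv.addRight (1 : ℤ)).tsum_eq]
    apply tsum_congr
    intro k
    simp only [Equiv.coe_addRight, add_sub_cancel_right]
    rw [show ((k + 1 : ℤ) : ℝ) * x = x + k * x by push_cast; ring, ee_add]
    ring
  calc trig (fun k => c (k - 1) - c k) x = trig (fun k => c (k - 1)) x - trig c x := by
        unfold trig
        rw [← (hs _ hc1).tsum_sub (hs _ hc)]
        apply tsum_congr
        intro k
        ring
    _ = (ee x - 1) * trig c x := by rw [h1]; ring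

/-- backward difference -/
noncomputable def dif (h : ℝ) (F : ℝ → ℂ) (t : ℝ) : ℂ := F (t - h) - F t

theorem norm_dif_le {F F' : ℝ → ℂ} {M : ℝ} (hF : ∀ t, HasDerivAt F (F' t) t)
    (hM : ∀ t, ‖F' t‖ ≤ M) (h : ℝ) (t : ℝ) : ‖dif h F t‖ ≤ M * |h| := by
  have h1 := Convex.norm_image_sub_le_of_norm_hasDerivWithin_le (f := F) (f' := F') (s := Set.univ)
    (C := M) (fun x _ => (hF x).hasDerivWithinAt) (fun x _ => hM x) convex_univ
    (Set.mem_univ t) (Set.mem_univ (t - h))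
  unfold dif
  refine h1.trans (le_of_eq ?_)
  rw [sub_sub_cancel_left, norm_neg, Real.norm_eq_abs]

theorem hasDerivAt_dif {F F' : ℝ → ℂ} (hF : ∀ t, HasDerivAt F (F' t) t) (h t : ℝ) :
    HasDerivAt (dif h F) (dif h F' t) t := by
  unfold dif
  exact ((hF (t - h)).comp_sub_const t h).sub (hF t)

theorem norm_dif3_le {F F1 F2 F3 : ℝ → ℂ} {M : ℝ} (hF : ∀ t, HasDerivAt F (F1 t) t)
    (hF1 : ∀ t, HasDerivAt F1 (F2 t) t) (hF2 : ∀ t, HasDerivAt F2 (F3 t) t)
    (hM : ∀ t, ‖F3 t‖ ≤ M) (h : ℝ) (t : ℝ) :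
    ‖dif h (dif h (dif h F)) t‖ ≤ M * |h| ^ 3 := by
  have h1 : ∀ t, ‖dif h F2 t‖ ≤ M * |h| := norm_dif_le hF2 hM h
  have h2 : ∀ t, ‖dif h (dif h F1) t‖ ≤ M * |h| * |h| :=
    norm_dif_le (fun t => hasDerivAt_dif hF1 h t) h1 h
  have h3 : ∀ t, ‖dif h (dif h (dif h F)) t‖ ≤ M * |h| * |h| * |h| :=
    norm_dif_le (fun t => hasDerivAt_dif (fun t => hasDerivAt_dif hF h t) h t) h2 h
  refine (h3 t).trans (le_of_eq ?_)
  ring

/-- **Kernel bound.** -/
theorem kernel_core {F F1 F2 F3 : ℝ → ℂ} {A B : ℝ} (hB : 0 ≤ B)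
    (hF : ∀ t, HasDerivAt F (F1 t) t) (hF1 : ∀ t, HasDerivAt F1 (F2 t) t)
    (hF2 : ∀ t, HasDerivAt F2 (F3 t) t) (hsupp : ∀ t, B < |t| → F t = 0)
    (h0 : ∀ t, ‖F t‖ ≤ A) (h3 : ∀ t, ‖F3 t‖ ≤ A) {R : ℝ} (hR : 1 ≤ R) (x : ℝ) :
    ‖trig (fun k => F (k / R)) x‖ ≤ (16 * B + 32) * A * R / (1 + R * nd x) ^ 3 := by
  have hR0 : 0 < R := by linarith
  have hA0 : 0 ≤ A := (norm_nonneg _).trans (h0 0)
  have hnd := nd_nonneg x
  -- trivial bound
  have hT0 : ‖trig (fun k => F (k / R)) x‖ ≤ (2 * (B * R) + 1) * A := by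
    apply norm_trig_le (by positivity) hA0
    · intro k hk
      apply hsupp
      rw [abs_div, abs_of_pos hR0, lt_div_iff₀ hR0]
      exact hk
    · intro k; exact h0 _
  -- three summations by parts
  have hdif : ∀ (G : ℝ → ℂ) (B' : ℝ), (∀ t, B' < |t| → G t = 0) →
      ∀ t, B' + 1 / R < |t| → dif (1 / R) G t = 0 := by
    intro G B' hG t ht
    unfold dif
    have hR1 : 0 < 1 / R := by positivity
    rw [hG t (by linarith), hG (t - 1 / R) _, sub_zero]
    have := abs_sub_abs_le_abs_sub t (1 / R)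
    rw [abs_of_pos hR1] at this
    linarith
  have hfin : ∀ (G : ℝ → ℂ) (B' : ℝ), (∀ t, B' < |t| → G t = 0) →
      (Function.support (fun k : ℤ => G (k / R))).Finite := by
    intro G B' hG
    apply (Finset.finite_toSet (Finset.Icc (-⌊B' * R⌋) ⌊B' * R⌋)).subset
    intro k hk
    by_contra hcon
    apply hk
    apply hG
    rw [abs_div, abs_of_pos hR0, lt_div_iff₀ hR0]
    by_contra hcon2
    exact hcon (mem_Icc_of_le (not_lt.mp hcon2))
  have hstep : ∀ (G : ℝ → ℂ) (B' : ℝ), (∀ t, B' < |t| → G t = 0) →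
      trig (fun k => dif (1 / R) G (k / R)) x = (ee x - 1) * trig (fun k => G (k / R)) x := by
    intro G B' hG
    rw [← trig_diff (hfin G B' hG)]
    congr 1
    funext k
    unfold dif
    congr 2
    push_cast
    ring
  set G1 := dif (1 / R) F with hG1
  set G2 := dif (1 / R) G1 with hG2
  set G3 := dif (1 / R) G2 with hG3
  have s1 : ∀ t, B + 1 / R < |t| → G1 t = 0 := hdif F B hsupp
  have s2 : ∀ t, B + 1 / R + 1 / R < |t| → G2 t = 0 := hdif G1 _ s1
  have s3 : ∀ t, B + 1 / R + 1 / R + 1 / R < |t| → G3 t = 0 := hdif G2 _ s2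
  have hprod : trig (fun k => G3 (k / R)) x = (ee x - 1) ^ 3 * trig (fun k => F (k / R)) x := by
    rw [hG3, hstep G2 _ s2, hG2, hstep G1 _ s1, hG1, hstep F _ hsupp]
    ring
  have hT3 : ‖trig (fun k => G3 (k / R)) x‖ ≤ (2 * (B * R + 3) + 1) * (A * |1 / R| ^ 3) := by
    apply norm_trig_le (by positivity) (by positivity)
    · intro k hk
      apply s3
      rw [abs_div, abs_of_pos hR0, lt_div_iff₀ hR0]
      have : (B + 1 / R + 1 / R + 1 / R) * R = B * R + 3 := by field_simp; ring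
      rw [this]
      exact hk
    · intro k
      exact norm_dif3_le hF hF1 hF2 h3 (1 / R) _
  rw [hprod, norm_mul, norm_pow] at hT3
  have h4 := four_nd_le x
  have h5 : (4 * nd x) ^ 3 * ‖trig (fun k => F (k / R)) x‖ ≤
      (2 * (B * R + 3) + 1) * (A * |1 / R| ^ 3) := by
    refine le_trans ?_ hT3
    apply mul_le_mul_of_nonneg_right _ (norm_nonneg _)
    exact pow_le_pow_left₀ (by positivity) h4 3
  rw [abs_of_pos (by positivity)] at h5
  set T := ‖trig (fun k => F (k / R)) x‖ with hT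
  have hTnn : 0 ≤ T := norm_nonneg _
  have h6 : (R * nd x) ^ 3 * T ≤ (2 * (B * R + 3) + 1) * A := by
    have h7 : 64 * ((R * nd x) ^ 3 * T) = R ^ 3 * ((4 * nd x) ^ 3 * T) := by ring
    have h8 : R ^ 3 * ((4 * nd x) ^ 3 * T) ≤ R ^ 3 * ((2 * (B * R + 3) + 1) * (A * (1 / R) ^ 3)) :=
      mul_le_mul_of_nonneg_left h5 (by positivity)
    have h9 : R ^ 3 * ((2 * (B * R + 3) + 1) * (A * (1 / R) ^ 3)) = (2 * (B * R + 3) + 1) * A := by
      field_simp
    have h10 : 0 ≤ (R * nd x) ^ 3 * T := by positivity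
    linarith
  rw [le_div_iff₀ (by positivity)]
  set u := R * nd x with hu
  have hu0 : 0 ≤ u := by positivity
  have h11 : (1 + u) ^ 3 ≤ 4 * (1 + u ^ 3) := by nlinarith [mul_nonneg hu0 hu0, sq_nonneg (u - 1)]
  calc T * (1 + u) ^ 3 ≤ T * (4 * (1 + u ^ 3)) := mul_le_mul_of_nonneg_left h11 hTnn
    _ = 4 * (T + u ^ 3 * T) := by ring
    _ ≤ 4 * ((2 * (B * R) + 1) * A + (2 * (B * R + 3) + 1) * A) := by linarith
    _ = (16 * B * R + 32) * A := by ring
    _ ≤ (16 * B * R + 32 * R) * A := by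
        apply mul_le_mul_of_nonneg_right _ hA0
        linarith
    _ = (16 * B + 32) * A * R := by ring

/-- **Kernel difference bound.** -/
theorem kernel_diff_core {F : ℝ → ℂ} {A B : ℝ} {R : ℝ} (hR : 1 ≤ R)
    (hsupp : ∀ t, B < |t| → F t = 0) (hA : 0 ≤ A)
    (hder : ∀ y, ‖trig (fun k => ((k / R : ℝ) : ℂ) * F (k / R)) y‖ ≤ A * R / (1 + R * nd y) ^ 3)
    {x y : ℝ} (hxy : |x - y| ≤ 1 / R) :
    ‖trig (fun k => F (k / R)) x - trig (fun k => F (k / R)) y‖ ≤
      16 * Real.pi * A * R ^ 2 * |x - y| / (1 + R * nd x) ^ 3 := by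
  have hR0 : 0 < R := by linarith
  have hs : ∀ k ∉ Finset.Icc (-⌊B * R⌋) ⌊B * R⌋, F ((k : ℤ) / R) = 0 := by
    intro k hk
    apply hsupp
    rw [abs_div, abs_of_pos hR0, lt_div_iff₀ hR0]
    by_contra hcon2
    exact hk (mem_Icc_of_le (not_lt.mp hcon2))
  have hs' : ∀ k ∉ Finset.Icc (-⌊B * R⌋) ⌊B * R⌋,
      (((k : ℤ) / R : ℝ) : ℂ) * F ((k : ℤ) / R) = 0 := by
    intro k hk; rw [hs k hk, mul_zero]
  have hd : ∀ z, HasDerivAt (trig (fun k => F (k / R)))
      (2 * Real.pi * R * Complex.I * trig (fun k => ((k / R : ℝ) : ℂ) * F (k / R)) z) z := by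
    intro z
    have h1 : trig (fun k => F (k / R)) =
        fun z => ∑ k ∈ Finset.Icc (-⌊B * R⌋) ⌊B * R⌋, F ((k : ℤ) / R) * ee (k * z) := by
      funext z; exact trig_eq_sum hs z
    rw [h1, trig_eq_sum hs' z, Finset.mul_sum]
    apply HasDerivAt.fun_sum
    intro k _
    refine ((hasDerivAt_ee k z).const_mul _).congr_deriv ?_
    push_cast
    have : (R : ℂ) ≠ 0 := by exact_mod_cast hR0.ne'
    field_simp
  have hseg : ∀ z ∈ segment ℝ y x, ‖2 * Real.pi * R * Complex.I *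
      trig (fun k => ((k / R : ℝ) : ℂ) * F (k / R)) z‖ ≤
      16 * Real.pi * A * R ^ 2 / (1 + R * nd x) ^ 3 := by
    intro z hz
    have hzx : |x - z| ≤ |x - y| := by
      have h2 := norm_sub_le_of_mem_segment hz
      rw [Real.norm_eq_abs, Real.norm_eq_abs] at h2
      have h3 := (norm_sub_le_of_mem_segment (segment_symm ℝ y x ▸ hz))
      rw [Real.norm_eq_abs, Real.norm_eq_abs, abs_sub_comm z x, abs_sub_comm y x] at h3
      exact h3
    have h4 : 1 + R * nd x ≤ 2 * (1 + R * nd z) := by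
      have h5 := nd_le_add x z
      have h6 : R * |x - z| ≤ 1 := by
        calc R * |x - z| ≤ R * (1 / R) := mul_le_mul_of_nonneg_left (hzx.trans hxy) hR0.le
          _ = 1 := by field_simp
      have h7 := mul_le_mul_of_nonneg_left h5 hR0.le
      have h8 := mul_nonneg hR0.le (nd_nonneg z)
      linarith
    have hx0 : 0 < 1 + R * nd x := by
      have := mul_nonneg hR0.le (nd_nonneg x)
      linarith
    have hz0 : 0 < 1 + R * nd z := by
      have := mul_nonneg hR0.le (nd_nonneg z)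
      linarith
    have hn : ‖(2 * Real.pi * R * Complex.I : ℂ)‖ = 2 * Real.pi * R := by
      rw [norm_mul, Complex.norm_I, mul_one, norm_mul, norm_mul, Complex.norm_real,
        Complex.norm_real, Real.norm_of_nonneg Real.pi_pos.le, Real.norm_of_nonneg hR0.le]
      norm_num
    rw [norm_mul, hn]
    calc 2 * Real.pi * R * ‖trig (fun k => ((k / R : ℝ) : ℂ) * F (k / R)) z‖
        ≤ 2 * Real.pi * R * (A * R / (1 + R * nd z) ^ 3) :=
          mul_le_mul_of_nonneg_left (hder z) (by positivity)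
      _ ≤ 2 * Real.pi * R * (8 * (A * R / (1 + R * nd x) ^ 3)) := by
          apply mul_le_mul_of_nonneg_left _ (by positivity)
          rw [mul_div_assoc', div_le_div_iff₀ (by positivity) (by positivity)]
          have h9 : (1 + R * nd x) ^ 3 ≤ (2 * (1 + R * nd z)) ^ 3 :=
            pow_le_pow_left₀ hx0.le h4 3
          calc A * R * (1 + R * nd x) ^ 3 ≤ A * R * (2 * (1 + R * nd z)) ^ 3 :=
                mul_le_mul_of_nonneg_left h9 (by positivity)
            _ = 8 * (A * R) * (1 + R * nd z) ^ 3 := by ring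
      _ = 16 * Real.pi * A * R ^ 2 / (1 + R * nd x) ^ 3 := by ring
  have h10 := Convex.norm_image_sub_le_of_norm_hasDerivWithin_le
    (f := trig (fun k => F (k / R)))
    (f' := fun z => 2 * Real.pi * R * Complex.I *
      trig (fun k => ((k / R : ℝ) : ℂ) * F (k / R)) z)
    (s := segment ℝ y x) (C := 16 * Real.pi * A * R ^ 2 / (1 + R * nd x) ^ 3)
    (fun z _ => (hd z).hasDerivWithinAt) hseg (convex_segment y x)
    (left_mem_segment ℝ y x) (right_mem_segment ℝ y x)
  refine h10.trans (le_of_eq ?_)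
  rw [Real.norm_eq_abs]
  ring

end Pool.Agent.LBern
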