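import Mathlib
import Pool.Agent.LBern.Kernel

/-!
Kernel bounds, uniform in the depth of the dyadic grid.
-/

set_option autoImplicit false
open Finset

namespace Pool.Agent.LBern

/-- chain of three derivatives with bounds on `[-B, B]` -/
def Bdd3 (B : ℝ) (F : ℝ → ℂ) (A : ℝ) : Prop :=
  ∃ F1 F2 F3 : ℝ → ℂ, (∀ t, HasDerivAt F (F1 t) t) ∧ (∀ t, HasDerivAt F1 (F2 t) t) ∧
    (∀ t, HasDerivAt F2 (F3 t) t) ∧
    ∀ t, |t| ≤ B → ‖F t‖ ≤ A ∧ ‖F1 t‖ ≤ A ∧ ‖F2 t‖ ≤ A ∧ ‖F3 t‖ ≤ A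

theorem Bdd3.mul {B : ℝ} {F G : ℝ → ℂ} {A A' : ℝ} (hA : 0 ≤ A) (hF : Bdd3 B F A)
    (hG : Bdd3 B G A') : Bdd3 B (fun t => F t * G t) (8 * A * A') := by
  obtain ⟨F1, F2, F3, f1, f2, f3, fb⟩ := hF
  obtain ⟨G1, G2, G3, g1, g2, g3, gb⟩ := hG
  refine ⟨fun t => F1 t * G t + F t * G1 t,
    fun t => (F2 t * G t + F1 t * G1 t) + (F1 t * G1 t + F t * G2 t),
    fun t => ((F3 t * G t + F2 t * G1 t) + (F2 t * G1 t + F1 t * G2 t)) +
      ((F2 t * G1 t + F1 t * G2 t) + (F1 t * G2 t + F t * G3 t)), ?_, ?_, ?_, ?_⟩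
  · intro t; exact (f1 t).mul (g1 t)
  · intro t; exact ((f2 t).mul (g1 t)).add ((f1 t).mul (g2 t))
  · intro t
    exact (((f3 t).mul (g1 t)).add ((f2 t).mul (g2 t))).add
      (((f2 t).mul (g2 t)).add ((f1 t).mul (g3 t)))
  · intro t ht
    obtain ⟨a0, a1, a2, a3⟩ := fb t ht
    obtain ⟨b0, b1, b2, b3⟩ := gb t ht
    have hm : ∀ {u v : ℂ}, ‖u‖ ≤ A → ‖v‖ ≤ A' → ‖u * v‖ ≤ A * A' := by
      intro u v hu hv
      rw [norm_mul]
      exact mul_le_mul hu hv (norm_nonneg _) hA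
    have hp : 0 ≤ A * A' := (norm_nonneg _).trans (hm a0 b0)
    refine ⟨?_, ?_, ?_, ?_⟩
    · have := hm a0 b0
      linarith
    · refine (norm_add_le _ _).trans ?_
      have := hm a1 b0
      have := hm a0 b1
      linarith
    · refine (norm_add_le _ _).trans ?_
      have h1 := norm_add_le (F2 t * G t) (F1 t * G1 t)
      have h2 := norm_add_le (F1 t * G1 t) (F t * G2 t)
      have := hm a2 b0
      have := hm a1 b1
      have := hm a0 b2
      linarith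
    · refine (norm_add_le _ _).trans ?_
      have h0 := norm_add_le (F3 t * G t + F2 t * G1 t) (F2 t * G1 t + F1 t * G2 t)
      have h0' := norm_add_le (F2 t * G1 t + F1 t * G2 t) (F1 t * G2 t + F t * G3 t)
      have h1 := norm_add_le (F3 t * G t) (F2 t * G1 t)
      have h2 := norm_add_le (F2 t * G1 t) (F1 t * G2 t)
      have h3 := norm_add_le (F1 t * G2 t) (F t * G3 t)
      have := hm a3 b0
      have := hm a2 b1
      have := hm a1 b2
      have := hm a0 b3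
      linarith

theorem Bdd3.one (B : ℝ) : Bdd3 B (fun _ => 1) 1 := by
  refine ⟨fun _ => 0, fun _ => 0, fun _ => 0, ?_, ?_, ?_, ?_⟩
  · intro t; exact hasDerivAt_const t _
  · intro t; exact hasDerivAt_const t _
  · intro t; exact hasDerivAt_const t _
  · intro t _; simp

theorem Bdd3.mono {B : ℝ} {F : ℝ → ℂ} {A A' : ℝ} (hF : Bdd3 B F A) (h : A ≤ A') : Bdd3 B F A' := by
  obtain ⟨F1, F2, F3, f1, f2, f3, fb⟩ := hF
  refine ⟨F1, F2, F3, f1, f2, f3, fun t ht => ?_⟩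
  obtain ⟨a0, a1, a2, a3⟩ := fb t ht
  exact ⟨a0.trans h, a1.trans h, a2.trans h, a3.trans h⟩

theorem Bdd3.pow {B : ℝ} {F : ℝ → ℂ} {A : ℝ} (hA : 0 ≤ A) (hF : Bdd3 B F A) (n : ℕ) :
    Bdd3 B (fun t => F t ^ n) ((8 * A) ^ n) := by
  induction n with
  | zero => simpa using Bdd3.one B
  | succ n ih =>
    have h := Bdd3.mul (by positivity) ih hF
    have h1 : (fun t => F t ^ n * F t) = fun t => F t ^ (n + 1) := by
      funext t; rw [pow_succ]
    rw [h1] at h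
    refine h.mono (le_of_eq ?_)
    rw [pow_succ]; ring

theorem exists_bdd3 {B : ℝ} {F : ℝ → ℂ} (hF : ContDiff ℝ 3 F) : ∃ A, 0 ≤ A ∧ Bdd3 B F A := by
  have h1 : ContDiff ℝ 2 (deriv F) := by
    have := (contDiff_succ_iff_deriv (n := 2) (f := F)).mp hF
    exact this.2.2
  have h2 : ContDiff ℝ 1 (deriv (deriv F)) := by
    have := (contDiff_succ_iff_deriv (n := 1) (f := deriv F)).mp h1
    exact this.2.2
  have h3 : ContDiff ℝ 0 (deriv (deriv (deriv F))) := by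
    have := (contDiff_succ_iff_deriv (n := 0) (f := deriv (deriv F))).mp h2
    exact this.2.2
  have hb : ∀ G : ℝ → ℂ, Continuous G → ∃ A, ∀ t, |t| ≤ B → ‖G t‖ ≤ A := by
    intro G hG
    obtain ⟨A, hA⟩ := (isCompact_Icc (a := -B) (b := B)).exists_bound_of_continuousOn
      (f := G) hG.continuousOn
    exact ⟨A, fun t ht => hA t (abs_le.mp ht)⟩
  obtain ⟨A0, hA0⟩ := hb F hF.continuous
  obtain ⟨A1, hA1⟩ := hb _ h1.continuous
  obtain ⟨A2, hA2⟩ := hb _ h2.continuous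
  obtain ⟨A3, hA3⟩ := hb _ h3.continuous
  refine ⟨|A0| + |A1| + |A2| + |A3|, by positivity, deriv F, deriv (deriv F),
    deriv (deriv (deriv F)), ?_, ?_, ?_, ?_⟩
  · intro t; exact (hF.differentiable (by norm_num) t).hasDerivAt
  · intro t; exact (h1.differentiable (by norm_num) t).hasDerivAt
  · intro t; exact (h2.differentiable (by norm_num) t).hasDerivAt
  · intro t ht
    have := le_abs_self A0
    have := le_abs_self A1
    have := le_abs_self A2
    have := le_abs_self A3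
    have := abs_nonneg A0
    have := abs_nonneg A1
    have := abs_nonneg A2
    have := abs_nonneg A3
    refine ⟨(hA0 t ht).trans (by linarith), (hA1 t ht).trans (by linarith),
      (hA2 t ht).trans (by linarith), (hA3 t ht).trans (by linarith)⟩

/-- derivatives vanish outside the support -/
theorem eventually_zero {F F1 : ℝ → ℂ} {B : ℝ} (hF : ∀ t, HasDerivAt F (F1 t) t)
    (h : ∀ t, B < |t| → F t = 0) : ∀ t, B < |t| → F1 t = 0 := by
  intro t ht
  have h1 : HasDerivAt (fun _ : ℝ => (0 : ℂ)) 0 t := hasDerivAt_const t _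
  have h2 : (fun _ : ℝ => (0 : ℂ)) =ᶠ[nhds t] F := by
    have : ∀ᶠ s in nhds t, B < |s| := (continuous_abs.tendsto t).eventually (lt_mem_nhds ht)
    filter_upwards [this] with s hs
    rw [h s hs]
  exact (hF t).unique (h1.congr_of_eventuallyEq h2.symm)

/-- **Kernel bounds from `Bdd3`.** -/
theorem kernel_of_bdd3 {F : ℝ → ℂ} {A B : ℝ} (hB : 0 ≤ B) (hA : 0 ≤ A) (hF : Bdd3 B F A)
    (hsupp : ∀ t, B < |t| → F t = 0) {R : ℝ} (hR : 1 ≤ R) (x : ℝ) :
    ‖trig (fun k => F (k / R)) x‖ ≤ (16 * B + 32) * A * R / (1 + R * nd x) ^ 3 := by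
  obtain ⟨F1, F2, F3, f1, f2, f3, fb⟩ := hF
  have z1 := eventually_zero f1 hsupp
  have z2 := eventually_zero f2 z1
  have z3 := eventually_zero f3 z2
  apply kernel_core hB f1 f2 f3 hsupp _ _ hR
  · intro t
    by_cases h : |t| ≤ B
    · exact (fb t h).1
    · rw [hsupp t (not_le.mp h), norm_zero]; exact hA
  · intro t
    by_cases h : |t| ≤ B
    · exact (fb t h).2.2.2
    · rw [z3 t (not_le.mp h), norm_zero]; exact hA

theorem bdd3_id (B : ℝ) (hB : 0 ≤ B) : Bdd3 B (fun t => (t : ℂ)) (1 + B) := by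
  refine ⟨fun _ => 1, fun _ => 0, fun _ => 0, ?_, ?_, ?_, ?_⟩
  · intro t
    have := (hasDerivAt_id t).ofReal_comp
    simpa using this
  · intro t; exact hasDerivAt_const t _
  · intro t; exact hasDerivAt_const t _
  · intro t ht
    refine ⟨?_, ?_, ?_, ?_⟩
    · rw [Complex.norm_real, Real.norm_eq_abs]; linarith
    · simp only [norm_one]; linarith
    · rw [norm_zero]; linarith
    · rw [norm_zero]; linarith

theorem kernel_diff_of_bdd3 {F : ℝ → ℂ} {A B : ℝ} (hB : 0 ≤ B) (hA : 0 ≤ A) (hF : Bdd3 B F A)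
    (hsupp : ∀ t, B < |t| → F t = 0) {R : ℝ} (hR : 1 ≤ R) {x y : ℝ} (hxy : |x - y| ≤ 1 / R) :
    ‖trig (fun k => F (k / R)) x - trig (fun k => F (k / R)) y‖ ≤
      16 * Real.pi * ((16 * B + 32) * (8 * (1 + B) * A)) * R ^ 2 * |x - y| /
        (1 + R * nd x) ^ 3 := by
  apply kernel_diff_core hR hsupp (by positivity) _ hxy
  intro y
  have h1 := Bdd3.mul (by positivity) (bdd3_id B hB) hF
  have h2 := kernel_of_bdd3 (F := fun t => (t : ℂ) * F t) hB (by positivity) h1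
    (fun t ht => by rw [hsupp t ht, mul_zero]) hR y
  exact h2

/-- the multiplier of a dyadic martingale difference with `L` further levels -/
noncomputable def phiL (L : ℕ) (ξ : ℝ) : ℝ :=
  Real.sin (Real.pi * ξ) ^ 2 * ∏ i ∈ range L, Real.cos (Real.pi * ξ / 2 ^ (i + 1)) ^ 2

/-- `2 ^ L sin (π ξ / 2 ^ L)` -/
noncomputable def sL (L : ℕ) (ξ : ℝ) : ℝ := 2 ^ L * Real.sin (Real.pi * ξ / 2 ^ L)

theorem sin_eq_sL (L : ℕ) (ξ : ℝ) :
    Real.sin (Real.pi * ξ) = sL L ξ * ∏ i ∈ range L, Real.cos (Real.pi * ξ / 2 ^ (i + 1)) := by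
  induction L with
  | zero => simp [sL]
  | succ L ih =>
    rw [ih, prod_range_succ]
    have h : sL L ξ = sL (L + 1) ξ * Real.cos (Real.pi * ξ / 2 ^ (L + 1)) := by
      unfold sL
      have h1 : Real.pi * ξ / 2 ^ L = 2 * (Real.pi * ξ / 2 ^ (L + 1)) := by
        rw [pow_succ]; field_simp
      rw [h1, Real.sin_two_mul, pow_succ]
      ring
    rw [h]
    ring

theorem phiL_mul (L : ℕ) (ξ : ℝ) : phiL L ξ * sL L ξ ^ 2 = Real.sin (Real.pi * ξ) ^ 4 := by
  unfold phiL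
  rw [prod_pow]
  have h := sin_eq_sL L ξ
  calc Real.sin (Real.pi * ξ) ^ 2 *
        (∏ i ∈ range L, Real.cos (Real.pi * ξ / 2 ^ (i + 1))) ^ 2 * sL L ξ ^ 2
      = Real.sin (Real.pi * ξ) ^ 2 *
        (sL L ξ * ∏ i ∈ range L, Real.cos (Real.pi * ξ / 2 ^ (i + 1))) ^ 2 := by ring
    _ = Real.sin (Real.pi * ξ) ^ 4 := by rw [← h]; ring

theorem bdd3_sL (L : ℕ) : Bdd3 1 (fun t => (sL L t : ℂ)) 32 := by
  have hπ : Real.pi ^ 3 ≤ 32 := by
    have h1 := Real.pi_lt_d2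
    have h2 := Real.pi_pos
    calc Real.pi ^ 3 ≤ 3.15 ^ 3 := pow_le_pow_left₀ h2.le h1.le 3
      _ ≤ 32 := by norm_num
  have hπ2 : Real.pi ^ 2 ≤ 32 := by
    have h1 := Real.pi_lt_d2
    have h2 := Real.pi_pos
    calc Real.pi ^ 2 ≤ 3.15 ^ 2 := pow_le_pow_left₀ h2.le h1.le 2
      _ ≤ 32 := by norm_num
  have hπ1 : Real.pi ≤ 32 := by have := Real.pi_lt_d2; linarith
  have h2L : (1:ℝ) ≤ 2 ^ L := one_le_pow₀ (by norm_num)
  have hder : ∀ t, HasDerivAt (fun t : ℝ => Real.pi * t / 2 ^ L) (Real.pi / 2 ^ L) t := by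
    intro t
    have := ((hasDerivAt_id t).const_mul Real.pi).div_const (2 ^ L)
    simpa using this
  refine ⟨fun t => ((Real.pi * Real.cos (Real.pi * t / 2 ^ L) : ℝ) : ℂ),
    fun t => ((-(Real.pi ^ 2 / 2 ^ L * Real.sin (Real.pi * t / 2 ^ L)) : ℝ) : ℂ),
    fun t => ((-(Real.pi ^ 3 / (2 ^ L * 2 ^ L) * Real.cos (Real.pi * t / 2 ^ L)) : ℝ) : ℂ),
    ?_, ?_, ?_, ?_⟩
  · intro t
    apply HasDerivAt.ofReal_comp
    have := ((hder t).sin).const_mul ((2:ℝ) ^ L)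
    refine this.congr_deriv ?_
    field_simp
  · intro t
    apply HasDerivAt.ofReal_comp
    have := ((hder t).cos).const_mul Real.pi
    refine this.congr_deriv ?_
    ring
  · intro t
    apply HasDerivAt.ofReal_comp
    have := (((hder t).sin).const_mul (Real.pi ^ 2 / 2 ^ L)).neg
    refine this.congr_deriv ?_
    field_simp
  · intro t ht
    simp only [Complex.norm_real, Real.norm_eq_abs]
    refine ⟨?_, ?_, ?_, ?_⟩
    · unfold sL
      rw [abs_mul, abs_of_pos (by positivity)]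
      have h3 : |Real.sin (Real.pi * t / 2 ^ L)| ≤ |Real.pi * t / 2 ^ L| := Real.abs_sin_le_abs
      calc 2 ^ L * |Real.sin (Real.pi * t / 2 ^ L)| ≤ 2 ^ L * |Real.pi * t / 2 ^ L| :=
            mul_le_mul_of_nonneg_left h3 (by positivity)
        _ = Real.pi * |t| := by
            rw [abs_div, abs_mul, abs_of_pos Real.pi_pos, abs_of_pos (by positivity : (0:ℝ) < 2 ^ L)]
            field_simp
        _ ≤ Real.pi * 1 := mul_le_mul_of_nonneg_left ht Real.pi_pos.le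
        _ ≤ 32 := by linarith
    · rw [abs_mul, abs_of_pos Real.pi_pos]
      have := Real.abs_cos_le_one (Real.pi * t / 2 ^ L)
      calc Real.pi * |Real.cos (Real.pi * t / 2 ^ L)| ≤ Real.pi * 1 :=
            mul_le_mul_of_nonneg_left this Real.pi_pos.le
        _ ≤ 32 := by linarith
    · rw [abs_neg, abs_mul, abs_of_pos (by positivity)]
      have h4 := Real.abs_sin_le_one (Real.pi * t / 2 ^ L)
      have h5 : Real.pi ^ 2 / 2 ^ L ≤ Real.pi ^ 2 := div_le_self (by positivity) h2L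
      calc Real.pi ^ 2 / 2 ^ L * |Real.sin (Real.pi * t / 2 ^ L)| ≤ Real.pi ^ 2 * 1 :=
            mul_le_mul h5 h4 (abs_nonneg _) (by positivity)
        _ ≤ 32 := by linarith
    · rw [abs_neg, abs_mul, abs_of_pos (by positivity)]
      have h4 := Real.abs_cos_le_one (Real.pi * t / 2 ^ L)
      have h5 : Real.pi ^ 3 / (2 ^ L * 2 ^ L) ≤ Real.pi ^ 3 := by
        apply div_le_self (by positivity)
        nlinarith
      calc Real.pi ^ 3 / (2 ^ L * 2 ^ L) * |Real.cos (Real.pi * t / 2 ^ L)| ≤ Real.pi ^ 3 * 1 :=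
            mul_le_mul h5 h4 (abs_nonneg _) (by positivity)
        _ ≤ 32 := by linarith

theorem sin_ne_zero_of_mem {ξ : ℝ} (h1 : 1 / 8 ≤ |ξ|) (h2 : |ξ| ≤ 1 / 2) :
    Real.sin (Real.pi * ξ) ≠ 0 := by
  intro h
  rw [Real.sin_eq_zero_iff] at h
  obtain ⟨n, hn⟩ := h
  have hξ : (n : ℝ) = ξ := by
    have := Real.pi_ne_zero
    have h3 : Real.pi * (n : ℝ) = Real.pi * ξ := by rw [← hn]; ring
    exact mul_left_cancel₀ this h3
  rw [← hξ] at h1 h2
  have h4 : |(n : ℝ)| = ((|n| : ℤ) : ℝ) := by push_cast; rfl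
  rw [h4] at h1 h2
  have h5 : |n| < 1 := by
    have : ((|n| : ℤ) : ℝ) < 1 := by linarith
    exact_mod_cast this
  have h6 : n = 0 := Int.abs_lt_one_iff.mp h5
  rw [h6] at h1
  norm_num at h1

/-- dividing a function supported in `1/8 ≤ |ξ| ≤ 1/2` by a power of the sine -/
theorem contDiff_div_sin {Θ : ℝ → ℂ} (hΘ : ContDiff ℝ 3 Θ)
    (hsupp : ∀ ξ, Θ ξ ≠ 0 → 1 / 8 ≤ |ξ| ∧ |ξ| ≤ 1 / 2) (j : ℕ) :
    ContDiff ℝ 3 (fun ξ => Θ ξ / ((Real.sin (Real.pi * ξ) : ℝ) : ℂ) ^ j) := by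
  have hsin : ContDiff ℝ 3 (fun ξ : ℝ => ((Real.sin (Real.pi * ξ) : ℝ) : ℂ)) :=
    Complex.ofRealCLM.contDiff.comp (Real.contDiff_sin.comp (contDiff_const.mul contDiff_id))
  rw [contDiff_iff_contDiffAt]
  intro ξ
  by_cases hs : Real.sin (Real.pi * ξ) = 0
  · have hξ : ¬ (1 / 8 ≤ |ξ| ∧ |ξ| ≤ 1 / 2) := fun h => sin_ne_zero_of_mem h.1 h.2 hs
    have hopen : ∀ᶠ s in nhds ξ, Θ s / ((Real.sin (Real.pi * s) : ℝ) : ℂ) ^ j = 0 := by
      have h1 : ∀ᶠ s in nhds ξ, ¬ (1 / 8 ≤ |s| ∧ |s| ≤ 1 / 2) := by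
        rw [not_and_or, not_le, not_le] at hξ
        rcases hξ with h | h
        · filter_upwards [(continuous_abs.tendsto ξ).eventually (gt_mem_nhds h)] with s hs'
          intro h'
          exact absurd h'.1 (not_le.mpr hs')
        · filter_upwards [(continuous_abs.tendsto ξ).eventually (lt_mem_nhds h)] with s hs'
          intro h'
          exact absurd h'.2 (not_le.mpr hs')
      filter_upwards [h1] with s hs'
      have : Θ s = 0 := by
        by_contra hne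
        exact hs' (hsupp s hne)
      rw [this, zero_div]
    exact (contDiffAt_const (c := (0:ℂ))).congr_of_eventuallyEq hopen
  · have h1 : ContDiffAt ℝ 3 (fun s : ℝ => (((Real.sin (Real.pi * s) : ℝ) : ℂ) ^ j)⁻¹) ξ := by
      apply ContDiffAt.inv (hsin.contDiffAt.pow j)
      apply pow_ne_zero
      exact_mod_cast hs
    have h2 := hΘ.contDiffAt (x := ξ) |>.mul h1
    refine h2.congr_of_eventuallyEq ?_
    filter_upwards with s
    exact div_eq_mul_inv _ _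

/-- **Kernel bounds uniform in the depth.** -/
theorem kernel_family {Θ : ℝ → ℂ} (hΘ : ContDiff ℝ 3 Θ)
    (hsupp : ∀ ξ, Θ ξ ≠ 0 → 1 / 8 ≤ |ξ| ∧ |ξ| ≤ 1 / 2) (j : ℕ) :
    ∃ C : ℝ, 0 ≤ C ∧ ∀ (L : ℕ) (R : ℝ), 1 ≤ R →
      (∀ x : ℝ, ‖trig (fun k => Θ (k / R) / ((phiL L (k / R) : ℝ) : ℂ) ^ j) x‖ ≤
        C * R / (1 + R * nd x) ^ 3) ∧
      (∀ x y : ℝ, |x - y| ≤ 1 / R →
        ‖trig (fun k => Θ (k / R) / ((phiL L (k / R) : ℝ) : ℂ) ^ j) x -
          trig (fun k => Θ (k / R) / ((phiL L (k / R) : ℝ) : ℂ) ^ j) y‖ ≤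
        C * R ^ 2 * |x - y| / (1 + R * nd x) ^ 3) := by
  obtain ⟨A, hA, hb⟩ := exists_bdd3 (B := 1) (contDiff_div_sin hΘ hsupp (4 * j))
  set A' : ℝ := 8 * A * (8 * 32) ^ (2 * j) with hA'
  have hA'0 : 0 ≤ A' := by positivity
  set C : ℝ := 16 * Real.pi * ((16 * 1 + 32) * (8 * (1 + 1) * A')) with hC
  have hC0 : 0 ≤ C := by positivity
  have hC1 : (16 * 1 + 32) * A' ≤ C := by
    rw [hC]
    have h1 : (1:ℝ) ≤ 16 * Real.pi * (8 * (1 + 1)) := by
      have := Real.pi_gt_three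
      nlinarith
    have h2 : 0 ≤ (16 * 1 + 32) * A' := by positivity
    calc (16 * 1 + 32) * A' = 1 * ((16 * 1 + 32) * A') := (one_mul _).symm
      _ ≤ (16 * Real.pi * (8 * (1 + 1))) * ((16 * 1 + 32) * A') :=
          mul_le_mul_of_nonneg_right h1 h2
      _ = _ := by ring
  refine ⟨C, hC0, ?_⟩
  intro L R hR
  set F : ℝ → ℂ := fun ξ => Θ ξ / ((phiL L ξ : ℝ) : ℂ) ^ j with hF
  have hFeq : F = fun ξ => Θ ξ / ((Real.sin (Real.pi * ξ) : ℝ) : ℂ) ^ (4 * j) *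
      ((sL L ξ : ℝ) : ℂ) ^ (2 * j) := by
    funext ξ
    rw [hF]
    simp only
    by_cases hz : Θ ξ = 0
    · rw [hz, zero_div, zero_div, zero_mul]
    obtain ⟨h1, h2⟩ := hsupp ξ hz
    have hs := sin_ne_zero_of_mem h1 h2
    have hid := phiL_mul L ξ
    have hphi : phiL L ξ ≠ 0 := by
      intro h
      rw [h, zero_mul] at hid
      exact pow_ne_zero 4 hs hid.symm
    have hid' : ((phiL L ξ : ℝ) : ℂ) * ((sL L ξ : ℝ) : ℂ) ^ 2 =
        ((Real.sin (Real.pi * ξ) : ℝ) : ℂ) ^ 4 := by exact_mod_cast hid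
    have hsc : ((Real.sin (Real.pi * ξ) : ℝ) : ℂ) ≠ 0 := by exact_mod_cast hs
    have hpc : ((phiL L ξ : ℝ) : ℂ) ≠ 0 := by exact_mod_cast hphi
    rw [pow_mul, pow_mul, ← hid', mul_pow]
    have hsL : ((sL L ξ : ℝ) : ℂ) ^ 2 ≠ 0 := by
      intro h
      rw [h, mul_zero] at hid'
      exact pow_ne_zero 4 hsc hid'.symm
    field_simp
  have hFb : Bdd3 1 F A' := by
    rw [hFeq]
    exact Bdd3.mul hA hb (Bdd3.pow (by norm_num) (bdd3_sL L) (2 * j))
  have hFs : ∀ t, 1 < |t| → F t = 0 := by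
    intro t ht
    rw [hF]
    simp only
    have : Θ t = 0 := by
      by_contra hne
      have := (hsupp t hne).2
      linarith
    rw [this, zero_div]
  constructor
  · intro x
    have h1 := kernel_of_bdd3 (by norm_num) hA'0 hFb hFs hR x
    refine h1.trans ?_
    apply div_le_div_of_nonneg_right _ _
    · apply mul_le_mul_of_nonneg_right hC1 (by linarith)
    · have := mul_nonneg (by linarith : (0:ℝ) ≤ R) (nd_nonneg x)
      positivity
  · intro x y hxy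
    exact kernel_diff_of_bdd3 (by norm_num) hA'0 hFb hFs hR hxy

/-- Kernel bounds for one function. -/
theorem kernel_bound {Ψ : ℝ → ℂ} (hΨ : ContDiff ℝ 3 Ψ) (hc : HasCompactSupport Ψ) :
    ∃ C : ℝ, 0 < C ∧ ∀ (R : ℝ), 1 ≤ R → ∀ x : ℝ,
      ‖∑' k : ℤ, Ψ (k / R) * Complex.exp (2 * Real.pi * Complex.I * k * x)‖ ≤
        C * R / (1 + R * |x - round x|) ^ 3 ∧
      ∀ y : ℝ, |x - y| ≤ 1 / R →
        ‖∑' k : ℤ, Ψ (k / R) * Complex.exp (2 * Real.pi * Complex.I * k * x) -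
          ∑' k : ℤ, Ψ (k / R) * Complex.exp (2 * Real.pi * Complex.I * k * y)‖ ≤
        C * R ^ 2 * |x - y| / (1 + R * |x - round x|) ^ 3 := by
  obtain ⟨B, hB⟩ := hc.isCompact.isBounded.exists_norm_le
  have hsupp : ∀ t, |B| < |t| → Ψ t = 0 := by
    intro t ht
    by_contra hne
    have h1 := hB t (subset_tsupport _ hne)
    rw [Real.norm_eq_abs] at h1
    have := le_abs_self B
    linarith
  obtain ⟨A, hA, hb⟩ := exists_bdd3 (B := |B|) hΨ
  have htr : ∀ (R x : ℝ), ∑' k : ℤ, Ψ (k / R) * Complex.exp (2 * Real.pi * Complex.I * k * x) =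
      trig (fun k => Ψ (k / R)) x := by
    intro R x
    unfold trig
    apply tsum_congr
    intro k
    unfold ee
    congr 2
    push_cast
    ring
  refine ⟨16 * Real.pi * ((16 * |B| + 32) * (8 * (1 + |B|) * A)) + 1, by positivity, ?_⟩
  intro R hR x
  have hden : 0 < (1 + R * |x - round x|) ^ 3 := by positivity
  have hBn := abs_nonneg B
  constructor
  · rw [htr]
    refine (kernel_of_bdd3 hBn hA hb hsupp hR x).trans ?_
    unfold nd
    apply div_le_div_of_nonneg_right _ hden.le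
    apply mul_le_mul_of_nonneg_right _ (by linarith)
    have h1 : (1:ℝ) ≤ 16 * Real.pi * (8 * (1 + |B|)) := by
      have := Real.pi_gt_three
      nlinarith
    have h2 : 0 ≤ (16 * |B| + 32) * A := by positivity
    nlinarith [mul_le_mul_of_nonneg_right h1 h2]
  · intro y hxy
    rw [htr, htr]
    refine (kernel_diff_of_bdd3 hBn hA hb hsupp hR hxy).trans ?_
    unfold nd
    apply div_le_div_of_nonneg_right _ hden.le
    have h3 : 0 ≤ R ^ 2 * |x - y| := by positivity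
    nlinarith

end Pool.Agent.LBern
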