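import Mathlib
import Pool.Agent.LBern.Kernel2

/-!
The smooth dyadic partition of unity and the multipliers of the fractional derivative.
-/

set_option autoImplicit false
open Finset

namespace Pool.Agent.LBern

/-- smooth even cutoff, `1` for `|ξ| ≤ 1/4` and `0` for `|ξ| ≥ 1/2` -/
noncomputable def chi (ξ : ℝ) : ℝ := Real.smoothTransition (2 - 4 * ξ) * Real.smoothTransition (2 + 4 * ξ)

theorem chi_contDiff {n : ℕ∞} : ContDiff ℝ n chi := by
  unfold chi
  apply ContDiff.mul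
  · exact Real.smoothTransition.contDiff.comp (contDiff_const.sub (contDiff_const.mul contDiff_id))
  · exact Real.smoothTransition.contDiff.comp (contDiff_const.add (contDiff_const.mul contDiff_id))

theorem chi_neg (ξ : ℝ) : chi (-ξ) = chi ξ := by
  unfold chi
  rw [mul_comm]
  congr 2 <;> ring

theorem chi_one {ξ : ℝ} (h : |ξ| ≤ 1 / 4) : chi ξ = 1 := by
  rw [abs_le] at h
  unfold chi
  rw [Real.smoothTransition.one_of_one_le (by linarith),
    Real.smoothTransition.one_of_one_le (by linarith), mul_one]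

theorem chi_zero {ξ : ℝ} (h : 1 / 2 ≤ |ξ|) : chi ξ = 0 := by
  unfold chi
  rcases le_abs.mp h with h | h
  · rw [Real.smoothTransition.zero_of_nonpos (by linarith : 2 - 4 * ξ ≤ 0), zero_mul]
  · rw [Real.smoothTransition.zero_of_nonpos (by linarith : 2 + 4 * ξ ≤ 0), mul_zero]

/-- the dyadic piece -/
noncomputable def Psi (ξ : ℝ) : ℝ := chi ξ - chi (2 * ξ)

theorem Psi_contDiff {n : ℕ∞} : ContDiff ℝ n Psi :=
  chi_contDiff.sub (chi_contDiff.comp (contDiff_const.mul contDiff_id))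

theorem Psi_neg (ξ : ℝ) : Psi (-ξ) = Psi ξ := by
  unfold Psi
  rw [chi_neg, show 2 * -ξ = -(2 * ξ) by ring, chi_neg]

theorem Psi_supp {ξ : ℝ} (h : Psi ξ ≠ 0) : 1 / 8 ≤ |ξ| ∧ |ξ| ≤ 1 / 2 := by
  constructor
  · by_contra hcon
    push Not at hcon
    apply h
    unfold Psi
    rw [chi_one (by linarith), chi_one (by rw [abs_mul, abs_two]; linarith), sub_self]
  · by_contra hcon
    push Not at hcon
    apply h
    unfold Psi
    rw [chi_zero hcon.le, chi_zero (by rw [abs_mul, abs_two]; linarith), sub_self]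

theorem Psi_zero : Psi 0 = 0 := by
  by_contra h
  have := (Psi_supp h).1
  norm_num at this

/-- telescoping -/
theorem sum_Psi (k : ℝ) (n : ℕ) :
    ∑ a ∈ range n, Psi (k / 2 ^ (a + 1)) = chi (k / 2 ^ n) - chi k := by
  have h : ∀ a : ℕ, Psi (k / 2 ^ (a + 1)) = chi (k / 2 ^ (a + 1)) - chi (k / 2 ^ a) := by
    intro a
    unfold Psi
    congr 2
    rw [pow_succ]
    field_simp
  simp_rw [h]
  rw [Finset.sum_range_sub (fun a => chi (k / 2 ^ a))]
  simp

theorem sum_Psi_int {k : ℤ} (hk : k ≠ 0) {n : ℕ} (hn : 4 * |(k:ℝ)| ≤ 2 ^ n) :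
    ∑ a ∈ range n, Psi (k / 2 ^ (a + 1)) = 1 := by
  rw [sum_Psi]
  have h1 : chi (k / 2 ^ n) = 1 := by
    apply chi_one
    rw [abs_div, abs_of_pos (by positivity : (0:ℝ) < 2 ^ n), div_le_iff₀ (by positivity)]
    linarith
  have h2 : chi k = 0 := by
    apply chi_zero
    have h3 : 1 ≤ |k| := Int.one_le_abs hk
    have h4 : (1:ℝ) ≤ |(k:ℝ)| := by exact_mod_cast h3
    linarith
  rw [h1, h2, sub_zero]

/-- the dyadic piece of the multiplier of the `(r, α)` derivative -/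
noncomputable def psiR (r α : ℝ) (ξ : ℝ) : ℂ :=
  ((Psi ξ * |ξ| ^ r : ℝ) : ℂ) * Complex.exp (Complex.I * ((SignType.sign ξ : ℝ) * α * Real.pi / 2 : ℝ))

theorem psiR_supp {r α ξ : ℝ} (h : psiR r α ξ ≠ 0) : 1 / 8 ≤ |ξ| ∧ |ξ| ≤ 1 / 2 := by
  apply Psi_supp
  intro h'
  apply h
  unfold psiR
  rw [h', zero_mul, Complex.ofReal_zero, zero_mul]

theorem psiR_contDiff (r α : ℝ) : ContDiff ℝ 3 (psiR r α) := by
  rw [contDiff_iff_contDiffAt]
  intro ξ
  rcases lt_trichotomy ξ 0 with h | h | h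
  · have h1 : ContDiffAt ℝ 3 (fun ξ : ℝ => ((Psi ξ * Real.exp (r * Real.log (-ξ)) : ℝ) : ℂ) *
        Complex.exp (Complex.I * ((-1 : ℝ) * α * Real.pi / 2 : ℝ))) ξ := by
      apply ContDiffAt.mul _ contDiffAt_const
      apply Complex.ofRealCLM.contDiff.contDiffAt.comp
      apply ContDiffAt.mul
      · exact (Psi_contDiff (n := 3)).contDiffAt
      · apply Real.contDiff_exp.contDiffAt.comp
        apply contDiffAt_const.mul
        apply ContDiffAt.comp (g := Real.log) (f := fun ξ : ℝ => -ξ)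
        · exact Real.contDiffAt_log.mpr (by simpa using h.ne)
        · exact contDiffAt_id.neg
    refine h1.congr_of_eventuallyEq ?_
    filter_upwards [gt_mem_nhds h] with s hs
    unfold psiR
    rw [sign_neg hs, abs_of_neg hs, Real.rpow_def_of_pos (by linarith : 0 < -s), mul_comm r]
    simp
  · subst h
    have h1 : ContDiffAt ℝ 3 (fun _ : ℝ => (0:ℂ)) 0 := contDiffAt_const
    refine h1.congr_of_eventuallyEq ?_
    have : ∀ᶠ s in nhds (0:ℝ), |s| < 1 / 8 :=
      (continuous_abs.tendsto (0:ℝ)).eventually (gt_mem_nhds (by norm_num))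
    filter_upwards [this] with s hs
    by_contra hne
    have := (psiR_supp hne).1
    linarith
  · have h1 : ContDiffAt ℝ 3 (fun ξ : ℝ => ((Psi ξ * Real.exp (r * Real.log ξ) : ℝ) : ℂ) *
        Complex.exp (Complex.I * ((1 : ℝ) * α * Real.pi / 2 : ℝ))) ξ := by
      apply ContDiffAt.mul _ contDiffAt_const
      apply Complex.ofRealCLM.contDiff.contDiffAt.comp
      apply ContDiffAt.mul
      · exact (Psi_contDiff (n := 3)).contDiffAt
      · apply Real.contDiff_exp.contDiffAt.comp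
        apply contDiffAt_const.mul
        exact Real.contDiffAt_log.mpr h.ne'
    refine h1.congr_of_eventuallyEq ?_
    filter_upwards [lt_mem_nhds h] with s hs
    unfold psiR
    rw [sign_pos hs, abs_of_pos hs, Real.rpow_def_of_pos hs, mul_comm r]
    simp

theorem PsiC_contDiff : ContDiff ℝ 3 (fun ξ => (Psi ξ : ℂ)) :=
  Complex.ofRealCLM.contDiff.comp (Psi_contDiff (n := 3))

/-- kernels of the dyadic pieces, divided by powers of the martingale multiplier -/
theorem kernel_Psi (j : ℕ) :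
    ∃ C : ℝ, 0 ≤ C ∧ ∀ (L : ℕ) (R : ℝ), 1 ≤ R →
      (∀ x : ℝ, ‖trig (fun k => (Psi (k / R) : ℂ) / ((phiL L (k / R) : ℝ) : ℂ) ^ j) x‖ ≤
        C * R / (1 + R * nd x) ^ 3) ∧
      (∀ x y : ℝ, |x - y| ≤ 1 / R →
        ‖trig (fun k => (Psi (k / R) : ℂ) / ((phiL L (k / R) : ℝ) : ℂ) ^ j) x -
          trig (fun k => (Psi (k / R) : ℂ) / ((phiL L (k / R) : ℝ) : ℂ) ^ j) y‖ ≤
        C * R ^ 2 * |x - y| / (1 + R * nd x) ^ 3) :=
  kernel_family (Θ := fun ξ => (Psi ξ : ℂ)) PsiC_contDiff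
    (fun _ h => Psi_supp (by exact_mod_cast h)) j

theorem kernel_psiR (r α : ℝ) (j : ℕ) :
    ∃ C : ℝ, 0 ≤ C ∧ ∀ (L : ℕ) (R : ℝ), 1 ≤ R →
      (∀ x : ℝ, ‖trig (fun k => psiR r α (k / R) / ((phiL L (k / R) : ℝ) : ℂ) ^ j) x‖ ≤
        C * R / (1 + R * nd x) ^ 3) ∧
      (∀ x y : ℝ, |x - y| ≤ 1 / R →
        ‖trig (fun k => psiR r α (k / R) / ((phiL L (k / R) : ℝ) : ℂ) ^ j) x -
          trig (fun k => psiR r α (k / R) / ((phiL L (k / R) : ℝ) : ℂ) ^ j) y‖ ≤
        C * R ^ 2 * |x - y| / (1 + R * nd x) ^ 3) :=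
  kernel_family (psiR_contDiff r α) (fun _ h => psiR_supp h) j

end Pool.Agent.LBern
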