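import Pool.Agent.LBern.Norms
import Pool.Agent.LBern.Kernel3

/-!
Definitions for the final statements (hyperbolic cross, multiplier), grid version.
-/

set_option linter.unusedSectionVars false

namespace Pool.Agent.LBern

open Finset

/-- the hyperbolic cross -/
noncomputable def Gam (d N : ℕ) : Finset (Fin d → ℤ) :=
  (Fintype.piFinset fun _ => Finset.Icc (-(N : ℤ)) N).filter fun k => ∏ j, max |k j| 1 ≤ (N : ℤ)

/-- one dimensional factor of the multiplier of the `(r, α)`-derivative -/
noncomputable def mu (r α : ℝ) (k : ℤ) : ℂ :=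
  if k = 0 then 1 else ((|(k : ℝ)| ^ r : ℝ) : ℂ) *
    Complex.exp (((SignType.sign (k : ℝ) : ℝ) * α * Real.pi / 2 : ℝ) * Complex.I)

/-- the multiplier of the `(r, α)`-derivative -/
noncomputable def muv {d : ℕ} (r : ℝ) (α : Fin d → ℝ) (k : Fin d → ℤ) : ℂ := ∏ j, mu r (α j) (k j)

end Pool.Agent.LBern
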