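import Pool.Agent.LBern.Cplx
import Pool.Agent.LBern.Absorb
import Pool.Agent.LBern.Fin0

/-!
Assembly: bounds of the layers and the discrete Bernstein inequality.
-/

set_option linter.unusedSectionVars false

namespace Pool.Agent.LBern

open Finset

lemma exists_geo_bound' (d : ℕ) (ρ : ℝ) (h0 : 0 < ρ) (h1 : ρ < 1) : ∃ K : ℝ, 0 < K ∧ ∀ n : ℕ,
    ∑ j ∈ Finset.range n, ρ ^ j * ((j : ℝ) + 1) ^ d ≤ K := by
  have hs : Summable (fun n : ℕ => (n : ℝ) ^ d * ρ ^ n) :=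
    summable_pow_mul_geometric_of_norm_lt_one d (by rwa [Real.norm_eq_abs, abs_of_pos h0])
  have hs1 : Summable (fun n : ℕ => ρ ^ n * ((n : ℝ) + 1) ^ d) := by
    have h1 := (summable_nat_add_iff 1).2 hs
    have h2 := h1.mul_left (ρ⁻¹)
    refine h2.congr fun n => ?_
    push_cast
    rw [pow_succ]
    field_simp
  refine ⟨∑' n : ℕ, ρ ^ n * ((n : ℝ) + 1) ^ d + 1, ?_, fun n => ?_⟩
  · have : 0 ≤ ∑' n : ℕ, ρ ^ n * ((n : ℝ) + 1) ^ d := tsum_nonneg fun n => by positivity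
    linarith
  · have := hs1.sum_le_tsum (Finset.range n) fun i _ => by positivity
    linarith

lemma geo_sum_rev (d : ℕ) (R : ℝ) (hR : 1 < R) : ∃ K : ℝ, 0 < K ∧ ∀ L : ℕ,
    ∑ l ∈ Finset.range (L + 1), R ^ l * ((L - l : ℕ) + 1 : ℝ) ^ d ≤ K * R ^ L := by
  have hR0 : 0 < R := by linarith
  obtain ⟨K, hK, h⟩ := exists_geo_bound' d R⁻¹ (by positivity) (inv_lt_one_of_one_lt₀ hR)
  refine ⟨K, hK, fun L => ?_⟩
  have e : ∑ l ∈ Finset.range (L + 1), R ^ l * ((L - l : ℕ) + 1 : ℝ) ^ d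
      = R ^ L * ∑ j ∈ Finset.range (L + 1), R⁻¹ ^ j * ((j : ℝ) + 1) ^ d := by
    rw [← Finset.sum_range_reflect (fun j => R⁻¹ ^ j * ((j : ℝ) + 1) ^ d), Finset.mul_sum]
    refine Finset.sum_congr rfl fun l hl => ?_
    rw [Finset.mem_range] at hl
    rw [show L + 1 - 1 - l = L - l by omega]
    have h3 : R ^ L = R ^ l * R ^ (L - l) := by rw [← pow_add]; congr 1; omega
    rw [h3, inv_pow]
    have h4 : R ^ (L - l) ≠ 0 := pow_ne_zero _ hR0.ne'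
    field_simp
  rw [e, mul_comm K]
  exact mul_le_mul_of_nonneg_left (h _) (by positivity)

/-- the statement of `tail_q` -/
def TqS (d : ℕ) (C : ℝ) : Prop := ∀ (M l : ℕ) (f : Gr d M → ℂ) (w0 : Gr d M)
    (q : Fin d → ℕ),
    E (fun z : Cu d M => Real.sqrt (∑ a ∈ levw d M l,
        (Av (DDq q a) (fun z => Wa f a (posd z + w0)) z) ^ 2))
      ≤ C * (∏ i, (2 * q i + 1 : ℝ)) * Nl f l

/-- a family of multipliers which decomposes the polynomials of `T(N)` into blocks -/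
def DecS (d : ℕ) (B : ℝ) (η : ℕ → ℤ → ℂ) : Prop := ∀ (M n N : ℕ), N ≤ 2 ^ n → n + 3 * d + 2 ≤ M →
    (∀ (c : (Fin d → ℤ) → ℂ), ∀ a ∈ lev d M, wt a ≤ n + 3 * d →
      Blk (M := M) B a (tp (Gam d N) c) (tp (Gam d N) fun k => c k * ∏ i, η (a i) (k i))) ∧
    ∀ k ∈ Gam d N, ∑ a ∈ (lev d M).filter (fun a => wt a ≤ n + 3 * d), ∏ i, η (a i) (k i) = 1

lemma tp_sum_mul {d M : ℕ} {σ : Type} (S : Finset σ) (Λ : Finset (Fin d → ℤ))
    (c : (Fin d → ℤ) → ℂ) (x : σ → ℂ) (y : σ → (Fin d → ℤ) → ℂ) (g : Gr d M) :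
    ∑ a ∈ S, x a * tp Λ (fun k => c k * y a k) g = tp Λ (fun k => c k * ∑ a ∈ S, x a * y a k) g := by
  simp only [tp]
  simp only [Finset.mul_sum, Finset.sum_mul]
  rw [Finset.sum_comm]
  refine Finset.sum_congr rfl fun k _ => Finset.sum_congr rfl fun a _ => by ring

lemma tp_congr {d M : ℕ} {Λ : Finset (Fin d → ℤ)} {c c' : (Fin d → ℤ) → ℂ}
    (h : ∀ k ∈ Λ, c k = c' k) (g : Gr d M) : tp Λ c g = tp Λ c' g :=
  Finset.sum_congr rfl fun k hk => by rw [h k hk]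

theorem layers_of {d : ℕ} {Cl Cs Ct B : ℝ} {η : ℕ → ℤ → ℂ} (hCl : 0 < Cl) (hl : LowS d Cl)
    (hCs : 0 < Cs) (hs : Sl1S d Cs) (hCt : 0 < Ct) (ht : TqS d Ct) (hB : 0 < B)
    (hb : DecS d B η) :
    ∃ C : ℝ, 0 < C ∧ ∀ (M n N : ℕ), N ≤ 2 ^ n → n + 3 * d + 2 ≤ M →
    ∀ (c : (Fin d → ℤ) → ℂ) (l : ℕ), l ≤ n + 3 * d →
    Nl (M := M) (tp (Gam d N) c) l ≤ C * ((n + 3 * d - l : ℕ) + 1 : ℝ) ^ d *
      n1 (M := M) (tp (Gam d N) c) := by
  set C0 : ℝ := 2 * Cl + 2 * Cs * (B * Ct * 144 ^ d) with hC0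
  have hC0p : 0 < C0 := by positivity
  obtain ⟨C', hC', habs⟩ := absorb d C0 hC0p
  refine ⟨C', hC', ?_⟩
  intro M n N hN hM c l hlL
  set L := n + 3 * d with hL
  set f : Gr d M → ℂ := tp (Gam d N) c with hf
  refine habs L (fun l => Nl f l) (n1 f) (n1_nonneg f) (fun l => Nl_nonneg f l) ?_ l hlL
  intro m hm l hl'
  obtain ⟨hblk, hsum⟩ := hb M n N hN hM
  have hdec : ∀ g, f g = ∑ a ∈ (lev d M).filter (fun a => wt a ≤ L),
      (fun a => tp (Gam d N) fun k => c k * ∏ i, η (a i) (k i)) a g := by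
    intro g
    have h1 := tp_sum_mul ((lev d M).filter (fun a => wt a ≤ L)) (Gam d N) c (fun _ => 1)
      (fun a k => ∏ i, η (a i) (k i)) g
    simp only [one_mul] at h1
    rw [h1, hf]
    refine tp_congr (fun k hk => ?_) g
    rw [hsum k hk, mul_one]
  have hT := fun w0 : Gr d M => smooth_tail_of (d := d) (M := M) Ct hCt (ht M) B hB L m
    ((lev d M).filter (fun a => wt a ≤ L)) f
    (fun a => tp (Gam d N) fun k => c k * ∏ i, η (a i) (k i)) (Finset.filter_subset _ _)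
    (fun a ha => (Finset.mem_filter.1 ha).2) hm
    (fun a ha => hblk c a (Finset.mem_filter.1 ha).1 (Finset.mem_filter.1 ha).2) hdec w0
  have h2 := Nl_le hCl hl hCs hs f m l (hl'.trans hm) _ hT
  refine h2.trans ?_
  set T0 := ∑ l' ∈ Finset.range (L + 1), (3 / 4 : ℝ) ^ (m - l') * Nl f l' with hT01
  have hT00 : 0 ≤ T0 := Finset.sum_nonneg fun l' _ => mul_nonneg (by positivity) (Nl_nonneg f l')
  have hn := n1_nonneg f
  have e1 : n1 f + 2 * Cs * (B * Ct * 144 ^ d * T0) ≤ n1 f + C0 * T0 := by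
    have : 2 * Cs * (B * Ct * 144 ^ d * T0) = (2 * Cs * (B * Ct * 144 ^ d)) * T0 := by ring
    rw [this]
    have h3 : (2 * Cs * (B * Ct * 144 ^ d)) * T0 ≤ C0 * T0 := by
      apply mul_le_mul_of_nonneg_right _ hT00
      rw [hC0]; linarith
    linarith
  have e2 : 2 * Cl ≤ C0 := by
    rw [hC0]
    have : 0 ≤ 2 * Cs * (B * Ct * 144 ^ d) := by positivity
    linarith
  calc 2 * Cl * ((m - l : ℕ) + 1 : ℝ) ^ d * (n1 f + 2 * Cs * (B * Ct * 144 ^ d * T0))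
      ≤ C0 * ((m - l : ℕ) + 1 : ℝ) ^ d * (n1 f + C0 * T0) := by
        apply mul_le_mul _ e1 (by positivity) (by positivity)
        exact mul_le_mul_of_nonneg_right e2 (by positivity)
    _ = _ := rfl

/-- the statement of `layer_bound` -/
def LbS (d : ℕ) (C : ℝ) : Prop := ∀ (M l : ℕ) (B : ℝ), 0 < B →
    ∀ (f : Gr d M → ℂ) (h : (Fin d → ℕ) → Gr d M → ℂ) (A : Finset (Fin d → ℕ)), A ⊆ levw d M l →
    (∀ a ∈ A, Blk B a f (h a)) →
    n1 (fun g => ∑ a ∈ A, E (fun w : Cu d M => Dl a (fw (h a) (posd w)) (ptd (g - posd w))))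
      ≤ C * B * Nl f l

/-- the statement of `avg_Dl` -/
def AvgS (d : ℕ) : Prop := ∀ (M : ℕ) (a : Fin d → ℕ), a ∈ lev d M → ∀ (Λ : Finset (Fin d → ℤ))
    (c : (Fin d → ℤ) → ℂ) (g : Gr d M),
    E (fun w : Cu d M => Dl a (fw (tp Λ c) (posd w)) (ptd (g - posd w)))
      = tp Λ (fun k => c k * ((∏ i, ph M (a i) (k i) : ℝ) : ℂ)) g

/-- dyadic decomposition of a multiplier `μ` with blocks -/
def PsiS (d : ℕ) (r B : ℝ) (ψ : Fin d → ℕ → ℤ → ℂ) (μ : (Fin d → ℤ) → ℂ) : Prop :=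
    ∀ (M n N : ℕ), N ≤ 2 ^ n → n + 3 * d + 2 ≤ M →
    (∀ (c : (Fin d → ℤ) → ℂ), ∀ a ∈ lev d M, wt a ≤ n + 3 * d →
      Blk (M := M) B a (tp (Gam d N) c) (tp (Gam d N) fun k =>
        c k * ∏ i, (ψ i (a i) (k i) / ((ph M (a i) (k i) : ℝ) : ℂ)))) ∧
    (∀ i, ∀ a ≤ M, ∀ k : ℤ,
      ψ i a k / ((ph M a k : ℝ) : ℂ) * ((ph M a k : ℝ) : ℂ) = ψ i a k) ∧
    ∀ k ∈ Gam d N, ∑ a ∈ (lev d M).filter (fun a => wt a ≤ n + 3 * d),
      ((((2 : ℝ) ^ wt a) ^ r : ℝ) : ℂ) * ∏ i, ψ i (a i) (k i) = μ k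

theorem discrete_of {d : ℕ} {r C1 C2 B : ℝ} (hr : 0 < r) {ψ : Fin d → ℕ → ℤ → ℂ}
    {μ : (Fin d → ℤ) → ℂ} (hC1 : 0 < C1)
    (h1 : ∀ (M n N : ℕ), N ≤ 2 ^ n → n + 3 * d + 2 ≤ M →
      ∀ (c : (Fin d → ℤ) → ℂ) (l : ℕ), l ≤ n + 3 * d →
      Nl (M := M) (tp (Gam d N) c) l ≤ C1 * ((n + 3 * d - l : ℕ) + 1 : ℝ) ^ d *
        n1 (M := M) (tp (Gam d N) c))
    (hC2 : 0 < C2) (h2 : LbS d C2) (h3 : AvgS d) (hB : 0 < B) (h4 : PsiS d r B ψ μ) :
    ∃ C : ℝ, 0 < C ∧ ∀ (M n N : ℕ), N ≤ 2 ^ n → n + 3 * d + 2 ≤ M → ∀ c : (Fin d → ℤ) → ℂ,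
    n1 (M := M) (tp (Gam d N) fun k => c k * μ k)
      ≤ C * ((2 : ℝ) ^ n) ^ r * n1 (M := M) (tp (Gam d N) c) := by
  classical
  obtain ⟨K, hK, hKb⟩ := geo_sum_rev d ((2 : ℝ) ^ r) (Real.one_lt_rpow (by norm_num) hr)
  refine ⟨C2 * B * C1 * K * ((2 : ℝ) ^ (3 * d)) ^ r, by positivity, ?_⟩
  intro M n N hN hM c
  set L := n + 3 * d with hL
  set f : Gr d M → ℂ := tp (Gam d N) c with hf
  obtain ⟨hblk, hph, hsum⟩ := h4 M n N hN hM
  set A := (lev d M).filter (fun a => wt a ≤ L) with hA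
  -- the layers
  set v : ℕ → Gr d M → ℂ := fun l g => ∑ a ∈ levw d M l,
    tp (Gam d N) (fun k => c k * ∏ i, ψ i (a i) (k i)) g with hv
  have hv1 : ∀ l, l ≤ L → n1 (v l) ≤ C2 * B * (C1 * ((L - l : ℕ) + 1 : ℝ) ^ d * n1 f) := by
    intro l hl
    have h5 := h2 M l B hB f (fun a => tp (Gam d N) fun k =>
        c k * ∏ i, (ψ i (a i) (k i) / ((ph M (a i) (k i) : ℝ) : ℂ))) (levw d M l) subset_rfl
        (fun a ha => hblk c a (Finset.mem_filter.1 ha).1 (by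
          rw [(Finset.mem_filter.1 ha).2]; exact hl))
    have h6 : (fun g : Gr d M => ∑ a ∈ levw d M l, E (fun w : Cu d M =>
        Dl a (fw (tp (Gam d N) fun k =>
        c k * ∏ i, (ψ i (a i) (k i) / ((ph M (a i) (k i) : ℝ) : ℂ))) (posd w))
          (ptd (g - posd w)))) = v l := by
      funext g
      rw [hv]
      refine Finset.sum_congr rfl fun a ha => ?_
      rw [h3 M a (Finset.mem_filter.1 ha).1]
      refine tp_congr (fun k _ => ?_) g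
      rw [mul_assoc]
      congr 1
      rw [Complex.ofReal_prod, ← Finset.prod_mul_distrib]
      refine Finset.prod_congr rfl fun i _ => ?_
      exact hph i (a i) (mem_lev.1 (Finset.mem_filter.1 ha).1 i) (k i)
    rw [h6] at h5
    refine h5.trans ?_
    exact mul_le_mul_of_nonneg_left (h1 M n N hN hM c l hl) (by positivity)
  have hsplit : ∀ g : Gr d M, tp (Gam d N) (fun k => c k * μ k) g
      = ∑ l ∈ Finset.range (L + 1), ((((2 : ℝ) ^ l) ^ r : ℝ) : ℂ) * v l g := by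
    intro g
    have e1 : tp (Gam d N) (fun k => c k * μ k) g
        = ∑ a ∈ A, ((((2 : ℝ) ^ wt a) ^ r : ℝ) : ℂ) *
          tp (Gam d N) (fun k => c k * ∏ i, ψ i (a i) (k i)) g := by
      rw [tp_sum_mul]
      refine tp_congr (fun k hk => ?_) g
      rw [hsum k hk]
    rw [e1]
    have e2 : ∀ a ∈ A, wt a ∈ Finset.range (L + 1) := fun a ha =>
      Finset.mem_range.2 (Nat.lt_succ_of_le (Finset.mem_filter.1 ha).2)
    rw [← Finset.sum_fiberwise_of_maps_to e2]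
    refine Finset.sum_congr rfl fun l hl => ?_
    rw [Finset.mem_range] at hl
    rw [hv, Finset.mul_sum]
    have e3 : A.filter (fun a => wt a = l) = levw d M l := by
      ext a
      simp only [hA, levw, Finset.mem_filter]
      constructor
      · rintro ⟨⟨h1, _⟩, h2⟩; exact ⟨h1, h2⟩
      · rintro ⟨h1, h2⟩; exact ⟨⟨h1, by omega⟩, h2⟩
    rw [e3]
    refine Finset.sum_congr rfl fun a ha => ?_
    rw [(Finset.mem_filter.1 ha).2]
  have hn : n1 (fun g : Gr d M => tp (Gam d N) (fun k => c k * μ k) g)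
      ≤ ∑ l ∈ Finset.range (L + 1), ((2 : ℝ) ^ l) ^ r * n1 (v l) := by
    simp only [n1]
    simp only [← E_mul_left]
    rw [← E_sum]
    refine E_mono fun z => ?_
    rw [hsplit]
    refine (norm_sum_le _ _).trans (Finset.sum_le_sum fun l _ => ?_)
    rw [norm_mul, Complex.norm_real, Real.norm_eq_abs, abs_of_nonneg (by positivity)]
  refine hn.trans ?_
  have hRl : ∀ l : ℕ, ((2 : ℝ) ^ l) ^ r = ((2 : ℝ) ^ r) ^ l := fun l =>
    (Real.rpow_pow_comm (by norm_num) r l).symm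
  calc ∑ l ∈ Finset.range (L + 1), ((2 : ℝ) ^ l) ^ r * n1 (v l)
      ≤ ∑ l ∈ Finset.range (L + 1), (C2 * B * C1 * n1 f) *
          (((2 : ℝ) ^ r) ^ l * ((L - l : ℕ) + 1 : ℝ) ^ d) := by
        refine Finset.sum_le_sum fun l hl => ?_
        rw [Finset.mem_range] at hl
        rw [hRl]
        calc ((2 : ℝ) ^ r) ^ l * n1 (v l)
            ≤ ((2 : ℝ) ^ r) ^ l * (C2 * B * (C1 * ((L - l : ℕ) + 1 : ℝ) ^ d * n1 f)) :=
              mul_le_mul_of_nonneg_left (hv1 l (by omega)) (by positivity)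
          _ = _ := by ring
    _ = (C2 * B * C1 * n1 f) * ∑ l ∈ Finset.range (L + 1),
          (((2 : ℝ) ^ r) ^ l * ((L - l : ℕ) + 1 : ℝ) ^ d) := by rw [Finset.mul_sum]
    _ ≤ (C2 * B * C1 * n1 f) * (K * ((2 : ℝ) ^ r) ^ L) := by
        apply mul_le_mul_of_nonneg_left (hKb L)
        have := n1_nonneg f
        positivity
    _ = _ := by
        have e : ((2 : ℝ) ^ r) ^ L = ((2 : ℝ) ^ n) ^ r * ((2 : ℝ) ^ (3 * d)) ^ r := by
          rw [hRl, hRl, ← pow_add]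
        rw [e]; ring

end Pool.Agent.LBern
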