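import Pool.Agent.LBern.Grid

/-!
Definitions for the assembly.
-/

set_option linter.unusedSectionVars false

namespace Pool.Agent.LBern

open Finset

variable {d M : ℕ}

/-- the weight `2^a (1 + 2^a ‖g‖)^{-3}` -/
noncomputable def wg (a : ℕ) (g : ZMod (2 ^ M)) : ℝ := 2 ^ a / (1 + 2 ^ a * cd g) ^ 3

/-- levels of weight `l` -/
def levw (d M l : ℕ) : Finset (Fin d → ℕ) := (lev d M).filter fun a => wt a = l

/-- mean of `|f|` over the grid -/
noncomputable def n1 (f : Gr d M → ℂ) : ℝ := E (fun z : Cu d M => ‖f (posd z)‖)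

/-- the averaged norm of the square function of the layer `l` -/
noncomputable def Nl (f : Gr d M → ℂ) (l : ℕ) : ℝ :=
  E (fun w : Cu d M => E (fun z : Cu d M =>
    Real.sqrt (∑ a ∈ levw d M l, ‖Dl a (fw f (posd w)) z‖ ^ 2)))

/-- the majorant of level `a` -/
noncomputable def Wa (f : Gr d M → ℂ) (a : Fin d → ℕ) (g : Gr d M) : ℝ :=
  E (fun w : Cu d M => E (fun z : Cu d M =>
    (∏ i, wg (a i) (g i - posd z i - posd w i)) * ‖Dl a (fw f (posd w)) z‖))

/-- digits over which one averages when a function of level `a` is tested at level `s` -/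
def DD (s a : Fin d → ℕ) : Finset (Dg d M) :=
  univ.filter fun p => s p.1 ≤ a p.1 ∧ s p.1 - 1 ≤ p.2.val

/-- the same with a lag `q` -/
def DDq (q a : Fin d → ℕ) : Finset (Dg d M) :=
  univ.filter fun p => 1 ≤ q p.1 ∧ a p.1 - q p.1 ≤ p.2.val

/-- one dimensional kernel bounds -/
def KB (a : ℕ) (C : ℝ) (K : ZMod (2 ^ M) → ℂ) : Prop :=
  (∀ g, ‖K g‖ ≤ C * wg a g) ∧
    ∀ g h, cd (g - h) ≤ (1 / 2 : ℝ) ^ a → ‖K g - K h‖ ≤ C * 2 ^ a * cd (g - h) * wg a g

/-- the convolution of the kernel `K` with the random grid difference of level `a` -/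
noncomputable def cv (K : Gr d M → ℂ) (a : Fin d → ℕ) (f : Gr d M → ℂ) (g : Gr d M) : ℂ :=
  E (fun w : Cu d M => E (fun z : Cu d M =>
        K (g - posd z - posd w) * Dl a (fw f (posd w)) z))

/-- property of a block of level `a`: its difference of level `s` is controlled by the majorant -/
def Blk (B : ℝ) (a : Fin d → ℕ) (f u : Gr d M → ℂ) : Prop :=
  ∀ s ∈ lev d M, ∀ (w0 : Gr d M) (z : Cu d M),
    ‖Dl s (fw u w0) z‖ ≤ B * (∏ i, (1 / 2 : ℝ) ^ (s i - a i)) *
      Av (DD s a) (fun z => Wa f a (posd z + w0)) z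

end Pool.Agent.LBern
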