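import Pool.Agent.LBern.Pos
import Pool.Agent.LBern.Norms

/-!
Blocks: the difference of level `s` of a convolution with a product kernel of level `a`.
-/

set_option linter.unusedSectionVars false

namespace Pool.Agent.LBern

open Finset

variable {d M : ℕ}

namespace Blocks

/-- the `i`-th coordinate -/
def cz (i : Fin d) (z : Cu d M) : Fin M → Bool := fun j => z (i, j)

/-- norm inequality for means -/
lemma norm_E_le {𝒟 : Type} [Fintype 𝒟] [DecidableEq 𝒟] (f : (𝒟 → Bool) → ℂ) :
    ‖E f‖ ≤ E (fun x => ‖f x‖) := by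
  simp only [E, smul_eq_mul]
  rw [norm_smul, Real.norm_of_nonneg (by positivity)]
  exact mul_le_mul_of_nonneg_left (norm_sum_le _ _) (by positivity)

/-- independence of the coordinates -/
lemma E_prod_cz {R : Type} [CommRing R] [Algebra ℝ R] (G : Fin d → (Fin M → Bool) → R) :
    E (fun z : Cu d M => ∏ i, G i (cz i z)) = ∏ i, E (G i) := by
  have h1 : ∑ z : Cu d M, ∏ i, G i (cz i z) = ∏ i, ∑ x, G i x := by
    rw [Finset.prod_univ_sum]
    simp only [Fintype.piFinset_univ]
    exact Fintype.sum_equiv (Equiv.curry (Fin d) (Fin M) Bool) _ _ (fun z => rfl)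
  simp only [E, h1]
  have h2 : ∀ i : Fin d, ((Fintype.card (Fin M → Bool) : ℝ)⁻¹) • ∑ x, G i x
      = algebraMap ℝ R ((Fintype.card (Fin M → Bool) : ℝ)⁻¹) * ∑ x, G i x := fun i =>
    Algebra.smul_def _ _
  simp only [h2]
  rw [Finset.prod_mul_distrib, Algebra.smul_def]
  congr 1
  rw [Finset.prod_const, ← map_pow]
  congr 1
  rw [inv_pow]
  congr 1
  simp [pow_mul, mul_comm d M]

/-- digits of `D` in coordinate `i` -/
def sl (D : Finset (Dg d M)) (i : Fin d) : Finset (Fin M) := univ.filter fun j => (i, j) ∈ D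

lemma cz_mix (D : Finset (Dg d M)) (y z : Cu d M) (i : Fin d) :
    cz i (mix D y z) = mix (sl D i) (cz i y) (cz i z) := by
  funext j
  simp [cz, mix, sl]

lemma Av_prod_cz {R : Type} [CommRing R] [Algebra ℝ R] (D : Finset (Dg d M))
    (G : Fin d → (Fin M → Bool) → R) (z : Cu d M) :
    Av D (fun z => ∏ i, G i (cz i z)) z = ∏ i, Av (sl D i) (G i) (cz i z) := by
  simp only [Av, cz_mix]
  exact E_prod_cz (fun i y => G i (mix (sl D i) y (cz i z)))

lemma sl_dig (a : Fin d → ℕ) (i : Fin d) : sl (dig (M := M) a) i = dig1 (a i) := by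
  ext j; simp [sl, dig, dig1]

lemma sgl_eq (i : Fin d) (a : ℕ) (z : Cu d M) : sgl i a z = sgl1 a (cz i z) := by
  unfold sgl sgl1
  split_ifs
  · rfl
  · rfl

lemma Dl_prod_cz (s : Fin d → ℕ) (G : Fin d → (Fin M → Bool) → ℂ) (z : Cu d M) :
    Dl s (fun z => ∏ i, G i (cz i z)) z = ∏ i, Dl1 (s i) (G i) (cz i z) := by
  simp only [Dl, AL]
  have h1 : (fun y : Cu d M => epsL s y • ∏ i, G i (cz i y))
      = fun y => ∏ i, (fun x : Fin M → Bool => sgl1 (s i) x • G i x) (cz i y) := by
    funext y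
    rw [epsL]
    simp only [sgl_eq]
    rw [← Finset.prod_smul]
  rw [h1, Av_prod_cz (dig fun i => s i - 1)
    (fun (i : Fin d) (x : Fin M → Bool) => sgl1 (s i) x • G i x) z, epsL]
  simp only [sgl_eq, sl_dig]
  rw [← Finset.prod_smul]
  rfl

lemma abs_sgl1 (a : ℕ) (x : Fin M → Bool) : |sgl1 a x| = 1 := by
  unfold sgl1
  split_ifs
  · exact abs_rad _ _
  · simp

lemma norm_Dl1_le (s : ℕ) (F : (Fin M → Bool) → ℂ) (x : Fin M → Bool) :
    ‖Dl1 s F x‖ ≤ Av (dig1 (s - 1)) (fun y => ‖F y‖) x := by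
  unfold Dl1
  rw [norm_smul, Real.norm_eq_abs, abs_sgl1, one_mul]
  refine (norm_E_le _).trans ?_
  apply E_mono
  intro y
  rw [norm_smul, Real.norm_eq_abs, abs_sgl1, one_mul]

/-- the difference of level `s` kills constants -/
lemma Dl1_sub_const {s : ℕ} (hs : 1 ≤ s) (hsM : s ≤ M) (F : (Fin M → Bool) → ℂ) (c : ℂ)
    (x : Fin M → Bool) : Dl1 s (fun y => F y - c) x = Dl1 s F x := by
  unfold Dl1
  congr 1
  have h1 : (fun y : Fin M → Bool => sgl1 s y • (F y - c))
      = fun y => sgl1 s y • F y - sgl1 s y • c := by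
    funext y; rw [smul_sub]
  rw [h1, Av_sub]
  have h2 : Av (dig1 (s - 1)) (fun y : Fin M → Bool => sgl1 s y • c) x = 0 := by
    have h3 : (fun y : Fin M → Bool => sgl1 s y • c)
        = fun y => ((rad (⟨s - 1, by omega⟩ : Fin M) y * 1 : ℝ) : ℂ) * c := by
      funext y
      unfold sgl1
      rw [dif_pos ⟨hs, hsM⟩, mul_one, Complex.real_smul]
    have h4 : Av (dig1 (s - 1)) (fun y : Fin M → Bool => rad (⟨s - 1, by omega⟩ : Fin M) y * 1) x = 0 := by
      have hmem : (⟨s - 1, by omega⟩ : Fin M) ∈ dig1 (M := M) (s - 1) := by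
        rw [mem_dig1]
      have := Av_rad_mul hmem (f := fun _ : Fin M → Bool => (1 : ℝ)) (Inv_const _ _)
      exact congrFun this x
    rw [h3]
    simp only [Av, E, smul_eq_mul] at h4 ⊢
    rw [← Finset.sum_mul, ← Complex.ofReal_sum, Complex.real_smul, ← mul_assoc, ← Complex.ofReal_mul,
      h4]
    simp
  simp only [h2, sub_zero]

/-- one dimensional estimate -/
lemma norm_Dl1_KB {a s : ℕ} (hs : s ≤ M) {C : ℝ} (hC : 0 < C) {K : ZMod (2 ^ M) → ℂ}
    (hK : KB a C K) (h : ZMod (2 ^ M)) (x : Fin M → Bool) :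
    ‖Dl1 s (fun y => K (pos y + h)) x‖
      ≤ 2 * C * (1 / 2 : ℝ) ^ (s - a) *
        Av (univ.filter fun j : Fin M => s ≤ a ∧ s - 1 ≤ j.val)
          (fun y => wg a (pos y + h)) x := by
  have hwg : ∀ g : ZMod (2 ^ M), 0 ≤ wg a g := fun g => by
    unfold wg; have := cd_nonneg g; positivity
  rcases le_or_gt s a with hsa | hsa
  · have h1 : (univ.filter fun j : Fin M => s ≤ a ∧ s - 1 ≤ j.val) = dig1 (s - 1) := by
      ext j; simp [dig1, hsa]
    rw [h1, Nat.sub_eq_zero_of_le hsa, pow_zero, mul_one]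
    refine (norm_Dl1_le _ _ _).trans ?_
    have h2 : Av (dig1 (s - 1)) (fun y => ‖K (pos y + h)‖) x
        ≤ Av (dig1 (s - 1)) (fun y => C * wg a (pos y + h)) x :=
      Av_mono _ (fun y => hK.1 _) x
    rw [Av_mul_left] at h2
    refine h2.trans ?_
    have h3 : 0 ≤ Av (dig1 (s - 1)) (fun y => wg a (pos y + h)) x := Av_nonneg _ (fun y => hwg _) x
    nlinarith
  · have h1 : (univ.filter fun j : Fin M => s ≤ a ∧ s - 1 ≤ j.val) = ∅ := by
      ext j; simp [not_le.2 hsa]
    rw [h1, Av_empty]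
    rw [← Dl1_sub_const (by omega : 1 ≤ s) hs _ (K (pos x + h))]
    refine (norm_Dl1_le _ _ _).trans ?_
    have hbound : ∀ y, ‖K (pos (mix (dig1 (s - 1)) y x) + h) - K (pos x + h)‖
        ≤ 2 * C * (1 / 2 : ℝ) ^ (s - a) * wg a (pos x + h) := by
      intro y
      set x' := mix (dig1 (s - 1)) y x with hx'
      have hcd : cd (pos x - pos x') ≤ (1 / 2 : ℝ) ^ (s - 1) := by
        apply cd_pos_le (s - 1) (by omega)
        intro j hj
        have : j ∉ dig1 (M := M) (s - 1) := by rw [mem_dig1]; omega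
        simp [hx', mix, this]
      have hcd2 : cd ((pos x + h) - (pos x' + h)) ≤ (1 / 2 : ℝ) ^ (s - 1) := by
        rw [add_sub_add_right_eq_sub]; exact hcd
      have hcd3 : cd ((pos x + h) - (pos x' + h)) ≤ (1 / 2 : ℝ) ^ a := by
        refine hcd2.trans ?_
        apply pow_le_pow_of_le_one (by norm_num) (by norm_num)
        omega
      have h5 := hK.2 (pos x + h) (pos x' + h) hcd3
      rw [norm_sub_rev]
      refine h5.trans ?_
      have h6 : C * 2 ^ a * cd ((pos x + h) - (pos x' + h)) ≤ 2 * C * (1 / 2 : ℝ) ^ (s - a) := by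
        have h7 : C * 2 ^ a * cd ((pos x + h) - (pos x' + h)) ≤ C * 2 ^ a * (1 / 2 : ℝ) ^ (s - 1) :=
          mul_le_mul_of_nonneg_left hcd2 (by positivity)
        refine h7.trans (le_of_eq ?_)
        obtain ⟨e, rfl⟩ : ∃ e, s = a + 1 + e := ⟨s - (a + 1), by omega⟩
        have e1 : a + 1 + e - 1 = a + e := by omega
        have e2 : a + 1 + e - a = e + 1 := by omega
        rw [e1, e2, pow_add, pow_succ (1 / 2 : ℝ) e]
        rw [one_div, inv_pow, inv_pow]
        field_simp
      exact mul_le_mul_of_nonneg_right h6 (hwg _)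
    have h8 : Av (dig1 (s - 1)) (fun y => ‖K (pos y + h) - K (pos x + h)‖) x
        ≤ E (fun _ : Fin M → Bool => 2 * C * (1 / 2 : ℝ) ^ (s - a) * wg a (pos x + h)) :=
      E_mono hbound
    rw [E_const] at h8
    exact h8

end Blocks

open Blocks in
theorem blk_cv (d : ℕ) (C : ℝ) (hC : 0 < C) : ∃ B : ℝ, 0 < B ∧ ∀ (M : ℕ) (a : Fin d → ℕ),
    a ∈ lev d M → ∀ (K1 : Fin d → ZMod (2 ^ M) → ℂ), (∀ i, KB (a i) C (K1 i)) →
    ∀ f : Gr d M → ℂ, Blk B a f (cv (fun g => ∏ i, K1 i (g i)) a f) := by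
  refine ⟨(2 * C) ^ d, by positivity, ?_⟩
  intro M a ha K1 hK f s hs w0 z0
  have hs' : ∀ i, s i ≤ M := by
    intro i
    have := Fintype.mem_piFinset.1 hs i
    rw [Finset.mem_range] at this
    omega
  -- coefficients
  set c : Cu d M → Cu d M → ℂ := fun w z => Dl a (fw f (posd w)) z with hc
  -- linearity
  have hlin : Dl s (fw (cv (fun g => ∏ i, K1 i (g i)) a f) w0) z0
      = E (fun w : Cu d M => E (fun z : Cu d M =>
          c w z * Dl s (fun z' : Cu d M => ∏ i, K1 i (posd z' i + w0 i - posd z i - posd w i)) z0)) := by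
    have e1 : fw (cv (fun g => ∏ i, K1 i (g i)) a f) w0
        = fun z' : Cu d M => E (fun w : Cu d M => E (fun z : Cu d M =>
          c w z * ∏ i, K1 i (posd z' i + w0 i - posd z i - posd w i))) := by
      funext z'
      simp only [fw, cv, hc]
      congr 1; funext w; congr 1; funext z
      rw [mul_comm]; rfl
    have e2 : ∀ (F : Cu d M → Cu d M → ℂ) (z' : Cu d M), Dl s (fun z => E (fun w => F z w)) z'
        = E (fun w => Dl s (fun z => F z w) z') := by
      intro F z'
      simp only [E]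
      rw [Dl_smul, Dl_sum]
    rw [e1, e2]
    congr 1; funext w
    rw [e2]
    congr 1; funext z
    rw [Dl_mul_left]
  rw [hlin]
  -- product formula and the one dimensional estimate
  have hwg : ∀ (i : Fin d) (g : ZMod (2 ^ M)), 0 ≤ wg (a i) g := fun i g => by
    unfold wg; have := cd_nonneg g; positivity
  have hprod : ∀ w z : Cu d M,
      ‖Dl s (fun z' : Cu d M => ∏ i, K1 i (posd z' i + w0 i - posd z i - posd w i)) z0‖
        ≤ (2 * C) ^ d * (∏ i, (1 / 2 : ℝ) ^ (s i - a i)) *
          Av (DD s a) (fun z' : Cu d M => ∏ i, wg (a i) (posd z' i + w0 i - posd z i - posd w i)) z0 := by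
    intro w z
    have e1 : (fun z' : Cu d M => ∏ i, K1 i (posd z' i + w0 i - posd z i - posd w i))
        = fun z' => ∏ i, (fun x : Fin M → Bool => K1 i (pos x + (w0 i - posd z i - posd w i))) (cz i z') := by
      funext z'
      apply Finset.prod_congr rfl
      intro i _
      have h0 : posd z' i = pos (cz i z') := rfl
      have : posd z' i + w0 i - posd z i - posd w i
          = pos (cz i z') + (w0 i - posd z i - posd w i) := by
        rw [h0]; ring
      rw [this]
    have e2 : (fun z' : Cu d M => ∏ i, wg (a i) (posd z' i + w0 i - posd z i - posd w i))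
        = fun z' => ∏ i, (fun x : Fin M → Bool => wg (a i) (pos x + (w0 i - posd z i - posd w i))) (cz i z') := by
      funext z'
      apply Finset.prod_congr rfl
      intro i _
      have h0 : posd z' i = pos (cz i z') := rfl
      have : posd z' i + w0 i - posd z i - posd w i
          = pos (cz i z') + (w0 i - posd z i - posd w i) := by
        rw [h0]; ring
      rw [this]
    rw [e1, e2, Dl_prod_cz s (fun (i : Fin d) (x : Fin M → Bool) =>
        K1 i (pos x + (w0 i - posd z i - posd w i))) z0,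
      Av_prod_cz (DD s a) (fun (i : Fin d) (x : Fin M → Bool) =>
        wg (a i) (pos x + (w0 i - posd z i - posd w i))) z0, norm_prod]
    have e3 : (2 * C) ^ d = ∏ _i : Fin d, (2 * C) := by simp
    rw [e3, ← Finset.prod_mul_distrib, ← Finset.prod_mul_distrib]
    apply Finset.prod_le_prod
    · intro i _; exact norm_nonneg _
    · intro i _
      have e4 : sl (DD (M := M) s a) i = univ.filter fun j : Fin M => s i ≤ a i ∧ s i - 1 ≤ j.val := by
        ext j; simp [sl, DD]
      rw [e4]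
      exact norm_Dl1_KB (hs' i) hC (hK i) _ _
  refine (norm_E_le _).trans ?_
  have hstep : E (fun w : Cu d M => ‖E (fun z : Cu d M =>
          c w z * Dl s (fun z' : Cu d M => ∏ i, K1 i (posd z' i + w0 i - posd z i - posd w i)) z0)‖)
      ≤ E (fun w : Cu d M => E (fun z : Cu d M =>
          ((2 * C) ^ d * (∏ i, (1 / 2 : ℝ) ^ (s i - a i))) *
          (Av (DD s a) (fun z' : Cu d M => ∏ i, wg (a i) (posd z' i + w0 i - posd z i - posd w i)) z0
            * ‖c w z‖))) := by
    apply E_mono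
    intro w
    refine (norm_E_le _).trans ?_
    apply E_mono
    intro z
    rw [norm_mul]
    have := mul_le_mul_of_nonneg_left (hprod w z) (norm_nonneg (c w z))
    refine this.trans (le_of_eq ?_)
    ring
  refine hstep.trans (le_of_eq ?_)
  have e5 : ∀ w : Cu d M, E (fun z : Cu d M =>
          ((2 * C) ^ d * (∏ i, (1 / 2 : ℝ) ^ (s i - a i))) *
          (Av (DD s a) (fun z' : Cu d M => ∏ i, wg (a i) (posd z' i + w0 i - posd z i - posd w i)) z0
            * ‖c w z‖))
      = ((2 * C) ^ d * (∏ i, (1 / 2 : ℝ) ^ (s i - a i))) * E (fun z : Cu d M =>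
          (Av (DD s a) (fun z' : Cu d M => ∏ i, wg (a i) (posd z' i + w0 i - posd z i - posd w i)) z0
            * ‖c w z‖)) := fun w => E_mul_left _ _
  simp only [e5]
  rw [E_mul_left]
  congr 1
  -- exchange of averages
  have e6 : ∀ w z : Cu d M,
      Av (DD s a) (fun z' : Cu d M => ∏ i, wg (a i) (posd z' i + w0 i - posd z i - posd w i)) z0 * ‖c w z‖
      = E (fun y : Cu d M => (∏ i, wg (a i) (posd (mix (DD s a) y z0) i + w0 i - posd z i - posd w i))
          * ‖c w z‖) := fun w z => by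
    rw [E_mul_right]; rfl
  simp only [e6]
  have e7 : ∀ w : Cu d M, E (fun z : Cu d M => E (fun y : Cu d M =>
        (∏ i, wg (a i) (posd (mix (DD s a) y z0) i + w0 i - posd z i - posd w i)) * ‖c w z‖))
      = E (fun y : Cu d M => E (fun z : Cu d M =>
        (∏ i, wg (a i) (posd (mix (DD s a) y z0) i + w0 i - posd z i - posd w i)) * ‖c w z‖)) :=
    fun w => E_comm _
  simp only [e7]
  rw [E_comm]
  rfl

end Pool.Agent.LBern
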