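import Mathlib

/-!
Elementary inequalities for square functions (finite sums).
-/

namespace Pool.Agent.LBern

open Finset

variable {σ π : Type}

lemma sqrt_sum_add_le (S : Finset σ) (f g : σ → ℝ) :
    Real.sqrt (∑ s ∈ S, (f s + g s) ^ 2)
      ≤ Real.sqrt (∑ s ∈ S, f s ^ 2) + Real.sqrt (∑ s ∈ S, g s ^ 2) := by
  have hf : 0 ≤ ∑ s ∈ S, f s ^ 2 := Finset.sum_nonneg fun _ _ => sq_nonneg _
  have hg : 0 ≤ ∑ s ∈ S, g s ^ 2 := Finset.sum_nonneg fun _ _ => sq_nonneg _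
  rw [Real.sqrt_le_left (by positivity)]
  have h1 : ∑ s ∈ S, (f s + g s) ^ 2
      = ∑ s ∈ S, f s ^ 2 + 2 * ∑ s ∈ S, f s * g s + ∑ s ∈ S, g s ^ 2 := by
    rw [Finset.mul_sum, ← Finset.sum_add_distrib, ← Finset.sum_add_distrib]
    refine Finset.sum_congr rfl fun s _ => by ring
  have h2 : ∑ s ∈ S, f s * g s ≤ Real.sqrt (∑ s ∈ S, f s ^ 2) * Real.sqrt (∑ s ∈ S, g s ^ 2) :=
    Real.sum_mul_le_sqrt_mul_sqrt S f g
  rw [h1, add_sq, Real.sq_sqrt hf, Real.sq_sqrt hg]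
  linarith

lemma sqrt_sum_sum_le (S : Finset σ) (P : Finset π) (y : π → σ → ℝ) :
    Real.sqrt (∑ s ∈ S, (∑ p ∈ P, y p s) ^ 2) ≤ ∑ p ∈ P, Real.sqrt (∑ s ∈ S, (y p s) ^ 2) := by
  classical
  induction P using Finset.induction_on with
  | empty => simp
  | insert a P ha ih =>
    rw [Finset.sum_insert ha]
    have h : ∀ s, ∑ p ∈ insert a P, y p s = y a s + ∑ p ∈ P, y p s := fun s =>
      Finset.sum_insert ha
    simp only [h]
    exact (sqrt_sum_add_le S (y a) fun s => ∑ p ∈ P, y p s).trans (add_le_add le_rfl ih)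

lemma sqrt_sum_mono {S : Finset σ} {f g : σ → ℝ} (h : ∀ s ∈ S, |f s| ≤ g s) :
    Real.sqrt (∑ s ∈ S, f s ^ 2) ≤ Real.sqrt (∑ s ∈ S, g s ^ 2) := by
  apply Real.sqrt_le_sqrt
  apply Finset.sum_le_sum
  intro s hs
  rw [← sq_abs (f s)]
  exact pow_le_pow_left₀ (abs_nonneg _) (h s hs) 2

lemma sqrt_sum_subset {S T : Finset σ} (h : S ⊆ T) (f : σ → ℝ) :
    Real.sqrt (∑ s ∈ S, f s ^ 2) ≤ Real.sqrt (∑ s ∈ T, f s ^ 2) := by
  apply Real.sqrt_le_sqrt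
  exact Finset.sum_le_sum_of_subset_of_nonneg h fun _ _ _ => sq_nonneg _

lemma sqrt_sum_mul_left (S : Finset σ) (c : ℝ) (hc : 0 ≤ c) (f : σ → ℝ) :
    Real.sqrt (∑ s ∈ S, (c * f s) ^ 2) = c * Real.sqrt (∑ s ∈ S, f s ^ 2) := by
  have : ∑ s ∈ S, (c * f s) ^ 2 = c ^ 2 * ∑ s ∈ S, f s ^ 2 := by
    rw [Finset.mul_sum]; refine Finset.sum_congr rfl fun s _ => by ring
  rw [this, Real.sqrt_mul (sq_nonneg c), Real.sqrt_sq hc]

lemma sqrt_sum_le_sum_sqrt (P : Finset π) (x : π → ℝ) (hx : ∀ p ∈ P, 0 ≤ x p) :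
    Real.sqrt (∑ p ∈ P, x p) ≤ ∑ p ∈ P, Real.sqrt (x p) := by
  classical
  induction P using Finset.induction_on with
  | empty => simp
  | insert a P ha ih =>
    rw [Finset.sum_insert ha, Finset.sum_insert ha]
    have hxa : 0 ≤ x a := hx a (Finset.mem_insert_self a P)
    have hxP : 0 ≤ ∑ p ∈ P, x p := Finset.sum_nonneg fun p hp => hx p (Finset.mem_insert_of_mem hp)
    refine le_trans ?_ (add_le_add le_rfl (ih fun p hp => hx p (Finset.mem_insert_of_mem hp)))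
    rw [Real.sqrt_le_left (by positivity), add_sq, Real.sq_sqrt hxa, Real.sq_sqrt hxP]
    have : 0 ≤ 2 * Real.sqrt (x a) * Real.sqrt (∑ p ∈ P, x p) := by positivity
    linarith

/-- splitting an index set -/
lemma sqrt_sum_biUnion_le [DecidableEq σ] (P : Finset π) (T : π → Finset σ) (S : Finset σ)
    (hS : S ⊆ P.biUnion T) (f : σ → ℝ) :
    Real.sqrt (∑ s ∈ S, f s ^ 2) ≤ ∑ p ∈ P, Real.sqrt (∑ s ∈ T p, f s ^ 2) := by
  classical
  have h1 : ∑ s ∈ S, f s ^ 2 ≤ ∑ p ∈ P, ∑ s ∈ T p, f s ^ 2 := by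
    refine (Finset.sum_le_sum_of_subset_of_nonneg hS fun _ _ _ => sq_nonneg _).trans ?_
    have : ∀ (P : Finset π), ∑ s ∈ P.biUnion T, f s ^ 2 ≤ ∑ p ∈ P, ∑ s ∈ T p, f s ^ 2 := by
      intro P
      induction P using Finset.induction_on with
      | empty => simp
      | insert a P ha ih =>
        rw [Finset.biUnion_insert, Finset.sum_insert ha]
        have h2 : ∑ s ∈ T a ∪ P.biUnion T, f s ^ 2 + ∑ s ∈ T a ∩ P.biUnion T, f s ^ 2
            = ∑ s ∈ T a, f s ^ 2 + ∑ s ∈ P.biUnion T, f s ^ 2 := Finset.sum_union_inter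
        have h3 : 0 ≤ ∑ s ∈ T a ∩ P.biUnion T, f s ^ 2 := Finset.sum_nonneg fun _ _ => sq_nonneg _
        linarith
    exact this P
  exact (Real.sqrt_le_sqrt h1).trans
    (sqrt_sum_le_sum_sqrt P _ fun p _ => Finset.sum_nonneg fun _ _ => sq_nonneg _)

lemma sq_sum_le_of_card_le_one {F : Finset σ} (hF : ∀ a ∈ F, ∀ b ∈ F, a = b) (x : σ → ℝ) :
    (∑ a ∈ F, x a) ^ 2 = ∑ a ∈ F, x a ^ 2 := by
  rcases F.eq_empty_or_nonempty with h | ⟨a, ha⟩
  · simp [h]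
  · have : F = {a} := by
      ext b; constructor
      · intro hb; rw [Finset.mem_singleton]; exact hF b hb a ha
      · intro hb; rw [Finset.mem_singleton] at hb; rwa [hb]
    rw [this]; simp

lemma sum_le_of_card_le_one {F : Finset σ} (hF : ∀ a ∈ F, ∀ b ∈ F, a = b) {x : σ → ℝ} {B : ℝ}
    (hB : 0 ≤ B) (h : ∀ a ∈ F, x a ≤ B) : ∑ a ∈ F, x a ≤ B := by
  rcases F.eq_empty_or_nonempty with h' | ⟨a, ha⟩
  · simp [h', hB]
  · have : F = {a} := by
      ext b; constructor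
      · intro hb; rw [Finset.mem_singleton]; exact hF b hb a ha
      · intro hb; rw [Finset.mem_singleton] at hb; rwa [hb]
    rw [this, Finset.sum_singleton]; exact h a ha

lemma geo1 (N : ℕ) : ∑ n ∈ Finset.range N, (3 / 4 : ℝ) ^ n ≤ 4 := by
  have h : ∑ n ∈ Finset.range N, (3 / 4 : ℝ) ^ n = 4 - 4 * (3 / 4 : ℝ) ^ N := by
    induction N with
    | zero => simp
    | succ N ih => rw [Finset.sum_range_succ, ih, pow_succ]; ring
  rw [h]
  have : (0 : ℝ) ≤ (3 / 4 : ℝ) ^ N := by positivity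
  linarith

lemma geo2 (N : ℕ) : ∑ n ∈ Finset.range N, (3 / 4 : ℝ) ^ n * (2 * n + 3) ≤ 36 := by
  have h : ∑ n ∈ Finset.range N, (3 / 4 : ℝ) ^ n * (2 * n + 3)
      = 36 - (8 * N + 36) * (3 / 4 : ℝ) ^ N := by
    induction N with
    | zero => simp
    | succ N ih => rw [Finset.sum_range_succ, ih, pow_succ]; push_cast; ring
  rw [h]
  have : (0 : ℝ) ≤ (8 * (N : ℝ) + 36) * (3 / 4 : ℝ) ^ N := by positivity
  linarith

end Pool.Agent.LBern
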