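import Pool.Agent.LBern.Cube

/-!
Levels on the cube `Fin d × Fin M → Bool`: definitions.
-/

set_option linter.unusedSectionVars false

namespace Pool.Agent.LBern

open Finset

variable {d M : ℕ}
variable {V : Type} [AddCommGroup V] [Module ℝ V]

/-- digit set: `(i, j)` is the `j`-th binary digit of the `i`-th coordinate -/
abbrev Dg (d M : ℕ) : Type := Fin d × Fin M

/-- the cube = the grid `([0,1) ∩ 2^{-M} ℤ)^d` -/
abbrev Cu (d M : ℕ) : Type := Dg d M → Bool

/-- digits at position `≥ a i` in coordinate `i` -/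
def dig (a : Fin d → ℕ) : Finset (Dg d M) := univ.filter fun p => a p.1 ≤ p.2.val

/-- conditional expectation on the cells of level `a` -/
noncomputable def AL (a : Fin d → ℕ) (f : Cu d M → V) : Cu d M → V := Av (dig a) f

/-- the sign of digit number `a` (counted from 1) of coordinate `i`; `1` for `a = 0` -/
noncomputable def sgl (i : Fin d) (a : ℕ) (x : Cu d M) : ℝ :=
  if h : 1 ≤ a ∧ a ≤ M then rad (i, ⟨a - 1, by omega⟩) x else 1

noncomputable def epsL (a : Fin d → ℕ) (x : Cu d M) : ℝ := ∏ i, sgl i (a i) x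

/-- the product martingale difference of level `a` -/
noncomputable def Dl (a : Fin d → ℕ) (f : Cu d M → V) : Cu d M → V :=
  fun x => epsL a x • AL (fun i => a i - 1) (fun y => epsL a y • f y) x

/-- all levels -/
def lev (d M : ℕ) : Finset (Fin d → ℕ) := Fintype.piFinset fun _ => Finset.range (M + 1)

/-- the weight of a level -/
def wt (a : Fin d → ℕ) : ℕ := ∑ i, a i

/-! ### one dimensional versions (cube `Fin M → Bool`) -/

def dig1 (a : ℕ) : Finset (Fin M) := univ.filter fun j => a ≤ j.val

noncomputable def sgl1 (a : ℕ) (x : Fin M → Bool) : ℝ :=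
  if h : 1 ≤ a ∧ a ≤ M then rad (⟨a - 1, by omega⟩ : Fin M) x else 1

noncomputable def Dl1 (a : ℕ) (f : (Fin M → Bool) → V) : (Fin M → Bool) → V :=
  fun x => sgl1 a x • Av (dig1 (a - 1)) (fun y => sgl1 a y • f y) x

/-- position of a point of the one dimensional cube: top digit first -/
def pos (x : Fin M → Bool) : ZMod (2 ^ M) :=
  ∑ j : Fin M, if x j then (2 : ZMod (2 ^ M)) ^ (M - 1 - j.val) else 0

/-- distance to `0` on the circle `ℝ/ℤ` of the grid point `g / 2^M` -/
noncomputable def cd (g : ZMod (2 ^ M)) : ℝ := (min g.val (2 ^ M - g.val) : ℕ) / (2 : ℝ) ^ M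

end Pool.Agent.LBern
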