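import Pool.Agent.LBern.Lep
import Pool.Agent.LBern.Lev

/-!
From the square function to the `L¹` norm, and one-coordinate calculus.
-/

set_option linter.unusedSectionVars false

namespace Pool.Agent.LBern

open Finset

section abstract_chain

variable {𝒟 : Type} [Fintype 𝒟] [DecidableEq 𝒟]

/-- one-parameter vector valued inequality on a decreasing chain -/
lemma sl1_chain {α : Type} (D : ℕ → Finset 𝒟) (hD : ∀ s t, s ≤ t → D t ⊆ D s) (M : ℕ)
    (S : Finset α) (G : ℕ → α → (𝒟 → Bool) → ℝ)
    (h0 : ∀ s ∈ S, Inv (D 0) (G 0 s))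
    (h1 : ∀ k < M, ∀ s ∈ S, Inv (D k) (fun x => (G (k + 1) s x) ^ 2))
    (h2 : ∀ k < M, ∀ s ∈ S, Av (D k) (G (k + 1) s) = fun _ => 0)
    (h3 : ∀ k < M, ∀ s ∈ S, Inv (D k) (fun x => ∑ j ∈ range (k + 1), G j s x)) :
    E (fun x => Real.sqrt (∑ s ∈ S, (∑ k ∈ range (M + 1), G k s x) ^ 2))
      ≤ (3 / 2) * E (fun x => Real.sqrt (∑ k ∈ range (M + 1), ∑ s ∈ S, (G k s x) ^ 2)) := by
  set b : ℕ → (𝒟 → Bool) → ℝ := fun k x => ∑ s ∈ S, (G k s x) ^ 2 with hb
  set T : ℕ → (𝒟 → Bool) → ℝ := fun k x => Real.sqrt (∑ j ∈ range (k + 1), b j x) with hT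
  set A : ℕ → (𝒟 → Bool) → ℝ :=
    fun k x => ∑ s ∈ S, (∑ j ∈ range (k + 1), G j s x) ^ 2 with hA
  have hb0 : ∀ k x, 0 ≤ b k x := fun k x => Finset.sum_nonneg fun s _ => sq_nonneg _
  have hT0 : ∀ k x, 0 ≤ T k x := fun k x => Real.sqrt_nonneg _
  have hA0 : ∀ k x, 0 ≤ A k x := fun k x => Finset.sum_nonneg fun s _ => sq_nonneg _
  have hTmono : ∀ k x, T k x ≤ T (k + 1) x := fun k x => by
    apply Real.sqrt_le_sqrt
    rw [Finset.sum_range_succ _ (k + 1)]
    linarith [hb0 (k + 1) x]
  have hbinv : ∀ k < M, ∀ j ≤ k + 1, Inv (D k) (b j) := by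
    intro k hk j hj x y hxy
    simp only [hb]
    apply Finset.sum_congr rfl
    intro s hs
    rcases Nat.eq_zero_or_pos j with h | h
    · subst h
      rw [(h0 s hs).mono (hD 0 k (Nat.zero_le _)) x y hxy]
    · obtain ⟨i, rfl⟩ := Nat.exists_eq_succ_of_ne_zero h.ne'
      exact (h1 i (by omega) s hs).mono (hD i k (by omega)) x y hxy
  have hTinv : ∀ k < M, Inv (D k) (T (k + 1)) := by
    intro k hk x y hxy
    simp only [hT]
    congr 1
    apply Finset.sum_congr rfl
    intro j hj
    exact hbinv k hk j (by have := Finset.mem_range.mp hj; omega) x y hxy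
  -- the key induction
  have key : ∀ ε > 0, ∀ k ≤ M, E (fun x => A k x / (T k x + ε))
      ≤ E (fun x => ∑ j ∈ range (k + 1), b j x / (T j x + ε)) := by
    intro ε hε k
    induction k with
    | zero =>
      intro _
      apply E_mono; intro x
      simp [hA, hb]
    | succ k ih =>
      intro hk
      have hk' : k < M := hk
      have e1 : E (fun x => A (k + 1) x / (T (k + 1) x + ε))
          = E (fun x => A k x / (T (k + 1) x + ε))
            + 2 * E (fun x => ∑ s ∈ S, (∑ j ∈ range (k + 1), G j s x) / (T (k + 1) x + ε)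
                * G (k + 1) s x)
            + E (fun x => b (k + 1) x / (T (k + 1) x + ε)) := by
        rw [← E_mul_left, ← E_add, ← E_add]
        congr 1; funext x
        have : A (k + 1) x = A k x
            + 2 * ∑ s ∈ S, (∑ j ∈ range (k + 1), G j s x) * G (k + 1) s x + b (k + 1) x := by
          simp only [hA, hb]
          rw [Finset.mul_sum, ← Finset.sum_add_distrib, ← Finset.sum_add_distrib]
          apply Finset.sum_congr rfl
          intro s _
          rw [Finset.sum_range_succ _ (k + 1)]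
          ring
        rw [this, add_div, add_div]
        congr 2
        rw [mul_div_assoc, Finset.sum_div]
        congr 1
        apply Finset.sum_congr rfl
        intro s _
        ring
      have e2 : E (fun x => ∑ s ∈ S, (∑ j ∈ range (k + 1), G j s x) / (T (k + 1) x + ε)
                * G (k + 1) s x) = 0 := by
        rw [E_sum S (fun s x => (∑ j ∈ range (k + 1), G j s x) / (T (k + 1) x + ε)
                * G (k + 1) s x)]
        apply Finset.sum_eq_zero
        intro s hs
        have hinv : Inv (D k)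
            (fun x => (∑ j ∈ range (k + 1), G j s x) / (T (k + 1) x + ε)) := by
          intro x y hxy
          have a1 : ∑ j ∈ range (k + 1), G j s x = ∑ j ∈ range (k + 1), G j s y :=
            h3 k hk' s hs x y hxy
          have a2 : T (k + 1) x = T (k + 1) y := hTinv k hk' x y hxy
          show (∑ j ∈ range (k + 1), G j s x) / (T (k + 1) x + ε)
            = (∑ j ∈ range (k + 1), G j s y) / (T (k + 1) y + ε)
          rw [a1, a2]
        rw [← E_Av (D k), Av_mul_of_Inv hinv, h2 k hk' s hs]
        simp only [mul_zero]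
        exact E_zero
      have e3 : E (fun x => A k x / (T (k + 1) x + ε)) ≤ E (fun x => A k x / (T k x + ε)) := by
        apply E_mono; intro x
        apply div_le_div_of_nonneg_left (hA0 k x)
        · have := hT0 k x; linarith
        · have := hTmono k x; linarith
      have e4 := ih (by omega)
      have e5 : E (fun x => ∑ j ∈ range (k + 1 + 1), b j x / (T j x + ε))
          = E (fun x => ∑ j ∈ range (k + 1), b j x / (T j x + ε))
            + E (fun x => b (k + 1) x / (T (k + 1) x + ε)) := by
        rw [← E_add]; congr 1; funext x; rw [Finset.sum_range_succ _ (k + 1)]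
      rw [e1, e2, e5]
      linarith
  -- the sum of the increments
  have hsum : ∀ ε > 0, ∀ x, ∑ j ∈ range (M + 1), b j x / (T j x + ε) ≤ 2 * T M x := by
    intro ε hε x
    have h := sum_sq_div_sqrt_le (range (M + 1)) (fun j => Real.sqrt (b j x))
    have hsq : ∀ j, Real.sqrt (b j x) ^ 2 = b j x := fun j => Real.sq_sqrt (hb0 j x)
    simp only [hsq] at h
    refine le_trans (Finset.sum_le_sum ?_) h
    intro j hj
    have hj' : (range (M + 1)).filter (fun i => i ≤ j) = range (j + 1) := by
      ext i
      simp only [Finset.mem_filter, Finset.mem_range]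
      have := Finset.mem_range.mp hj
      omega
    rw [hj']
    show b j x / (T j x + ε) ≤ b j x / T j x
    rcases eq_or_lt_of_le (hT0 j x) with h' | h'
    · have : b j x ≤ 0 := by
        have h3 : ∑ i ∈ range (j + 1), b i x = 0 := by
          have := (Real.sqrt_eq_zero (Finset.sum_nonneg fun i _ => hb0 i x)).mp h'.symm
          exact this
        have h4 : b j x ≤ ∑ i ∈ range (j + 1), b i x :=
          Finset.single_le_sum (f := fun i => b i x) (fun i _ => hb0 i x)
            (Finset.self_mem_range_succ j)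
        linarith
      have : b j x = 0 := le_antisymm this (hb0 j x)
      rw [this]; simp
    · exact div_le_div_of_nonneg_left (hb0 j x) h' (by linarith)
  -- conclusion
  have concl : ∀ ε > 0, E (fun x => Real.sqrt (A M x)) ≤ (3 / 2) * E (T M) + ε := by
    intro ε hε
    have c1 : ∀ x, Real.sqrt (A M x)
        ≤ (1 / 2) * (A M x / (T M x + ε)) + (1 / 2) * (T M x + ε) := by
      intro x
      have hpos : 0 < T M x + ε := by have := hT0 M x; linarith
      have hs : Real.sqrt (A M x) ^ 2 = A M x := Real.sq_sqrt (hA0 M x)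
      have : 0 ≤ (Real.sqrt (A M x) - (T M x + ε)) ^ 2 / (T M x + ε) := by positivity
      have e : (Real.sqrt (A M x) - (T M x + ε)) ^ 2 / (T M x + ε)
          = A M x / (T M x + ε) - 2 * Real.sqrt (A M x) + (T M x + ε) := by
        rw [sub_sq, hs]; field_simp
      rw [e] at this
      linarith
    calc E (fun x => Real.sqrt (A M x))
        ≤ E (fun x => (1 / 2) * (A M x / (T M x + ε)) + (1 / 2) * (T M x + ε)) := E_mono c1
      _ = (1 / 2) * E (fun x => A M x / (T M x + ε)) + (1 / 2) * (E (T M) + ε) := by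
          rw [E_add, E_mul_left, E_mul_left, E_add, E_const]
      _ ≤ (1 / 2) * (2 * E (T M)) + (1 / 2) * (E (T M) + ε) := by
          have a1 := key ε hε M le_rfl
          have a2 := E_mono (hsum ε hε)
          rw [E_mul_left] at a2
          linarith
      _ ≤ (3 / 2) * E (T M) + ε := by linarith
  exact le_of_forall_pos_le_add concl

end abstract_chain

/-! ### one coordinate -/

section coord

variable {𝒟 : Type} [Fintype 𝒟] [DecidableEq 𝒟]

lemma E_apply_digit (e : 𝒟) (G : Bool → ℝ) :
    E (fun y : 𝒟 → Bool => G (y e)) = (G true + G false) / 2 := by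
  have h : (fun y : 𝒟 → Bool => G (y e))
      = fun y => (G true + G false) / 2 + ((G true - G false) / 2) * (rad e y * 1) := by
    funext y
    unfold rad
    cases y e <;> simp <;> ring
  rw [h, E_add, E_const, E_mul_left, E_rad_mul (Inv_const _ _)]
  ring

lemma rad_Av_rad (e : 𝒟) (g : (𝒟 → Bool) → ℝ) (x : 𝒟 → Bool) :
    rad e x * Av {e} (fun y => rad e y * g y) x = g x - Av {e} g x := by
  have hm : ∀ y : 𝒟 → Bool, mix {e} y x = Function.update x e (y e) := by
    intro y; funext e'
    by_cases h : e' = e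
    · subst h; simp [mix]
    · simp [mix, h]
  have h1 : Av {e} g x = (g (Function.update x e true) + g (Function.update x e false)) / 2 := by
    simp only [Av, hm]
    exact E_apply_digit e (fun b => g (Function.update x e b))
  have h2 : Av {e} (fun y => rad e y * g y) x
      = (g (Function.update x e true) - g (Function.update x e false)) / 2 := by
    simp only [Av, hm]
    rw [E_apply_digit e (fun b => rad e (Function.update x e b) * g (Function.update x e b))]
    simp [rad]; ring
  rw [h1, h2]
  unfold rad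
  have h3 : x = Function.update x e (x e) := (Function.update_eq_self e x).symm
  cases hx : x e
  · have h4 : g x = g (Function.update x e false) := by rw [← hx, ← h3]
    rw [h4]; simp; ring
  · have h4 : g x = g (Function.update x e true) := by rw [← hx, ← h3]
    rw [h4]; simp; ring

lemma rad_Av_insert {e : 𝒟} {D : Finset 𝒟} (he : e ∉ D) (g : (𝒟 → Bool) → ℝ) (x : 𝒟 → Bool) :
    rad e x * Av (insert e D) (fun y => rad e y * g y) x = Av D g x - Av (insert e D) g x := by
  have h1 : insert e D = {e} ∪ D := Finset.insert_eq e D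
  rw [h1, ← Av_Av, ← Av_Av, Av_mul_of_Inv (Inv_rad he)]
  exact rad_Av_rad e (Av D g) x

end coord

variable {d M : ℕ}

/-- digits of coordinate `i` at position `≥ k` -/
def digc (i : Fin d) (k : ℕ) : Finset (Dg d M) := univ.filter fun p => p.1 = i ∧ k ≤ p.2.val

lemma digc_anti (i : Fin d) {k l : ℕ} (h : k ≤ l) : (digc i l : Finset (Dg d M)) ⊆ digc i k := by
  intro p hp
  simp only [digc, mem_filter, mem_univ, true_and] at hp ⊢
  exact ⟨hp.1, h.trans hp.2⟩

lemma digc_top (i : Fin d) {k : ℕ} (h : M ≤ k) : (digc i k : Finset (Dg d M)) = ∅ := by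
  ext p
  simp only [digc, mem_filter, mem_univ, true_and, notMem_empty, iff_false, not_and, not_le]
  intro _
  exact lt_of_lt_of_le p.2.isLt h

lemma digc_insert (i : Fin d) {k : ℕ} (h : k < M) :
    (digc i k : Finset (Dg d M)) = insert (i, ⟨k, h⟩) (digc i (k + 1)) := by
  ext ⟨p, j⟩
  simp only [digc, mem_filter, mem_univ, true_and, mem_insert, Prod.mk.injEq, Fin.ext_iff]
  constructor
  · rintro ⟨h1, h2⟩
    rcases Nat.eq_or_lt_of_le h2 with h3 | h3
    · left; exact ⟨h1, h3.symm⟩
    · right; exact ⟨h1, h3⟩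
  · rintro (⟨h1, h2⟩ | ⟨h1, h2⟩)
    · exact ⟨h1, h2.symm.le⟩
    · exact ⟨h1, by omega⟩

lemma notMem_digc_succ (i : Fin d) {k : ℕ} (h : k < M) :
    ((i, ⟨k, h⟩) : Dg d M) ∉ digc i (k + 1) := by
  simp [digc]

/-- one-coordinate martingale difference -/
noncomputable def D1 (i : Fin d) (k : ℕ) (f : Cu d M → ℝ) : Cu d M → ℝ :=
  fun x => sgl i k x * Av (digc i (k - 1)) (fun y => sgl i k y * f y) x

lemma sgl_zero (i : Fin d) (x : Cu d M) : sgl i 0 x = 1 := by simp [sgl]

lemma sgl_succ (i : Fin d) {k : ℕ} (h : k < M) (x : Cu d M) :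
    sgl i (k + 1) x = rad (i, ⟨k, h⟩) x := by
  have : 1 ≤ k + 1 ∧ k + 1 ≤ M := ⟨by omega, h⟩
  simp only [sgl, this, and_self, dif_pos]
  rfl

lemma sgl_sq (i : Fin d) (k : ℕ) (x : Cu d M) : sgl i k x * sgl i k x = 1 := by
  unfold sgl
  split_ifs
  · exact rad_sq _ _
  · ring

lemma D1_zero (i : Fin d) (f : Cu d M → ℝ) : D1 i 0 f = Av (digc i 0) f := by
  funext x
  simp [D1, sgl_zero]

lemma D1_succ (i : Fin d) {k : ℕ} (h : k < M) (f : Cu d M → ℝ) (x : Cu d M) :
    D1 i (k + 1) f x = Av (digc i (k + 1)) f x - Av (digc i k) f x := by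
  simp only [D1, sgl_succ i h, Nat.add_sub_cancel]
  rw [digc_insert i h]
  exact rad_Av_insert (notMem_digc_succ i h) f x

lemma sum_D1 (i : Fin d) (f : Cu d M → ℝ) {k : ℕ} (hk : k ≤ M) (x : Cu d M) :
    ∑ j ∈ range (k + 1), D1 i j f x = Av (digc i k) f x := by
  induction k with
  | zero => simp [D1_zero]
  | succ k ih =>
    rw [Finset.sum_range_succ, ih (by omega), D1_succ i hk]
    ring

lemma Inv_sgl {D : Finset (Dg d M)} {i : Fin d} {k : ℕ}
    (h : ∀ j : Fin M, j.val + 1 = k → (i, j) ∉ D) : Inv D (sgl (M := M) i k) := by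
  intro x y hxy
  by_cases hk : 1 ≤ k ∧ k ≤ M
  · simp only [sgl, hk, and_self, dif_pos, rad]
    have := hxy (i, ⟨k - 1, by omega⟩) (h ⟨k - 1, by omega⟩ (by simp; omega))
    rw [this]
  · simp only [sgl, hk, dif_neg, not_false_eq_true]

lemma Inv_D1_sq (i : Fin d) (k : ℕ) (f : Cu d M → ℝ) :
    Inv (digc i (k - 1)) (fun x => (D1 i k f x) ^ 2) := by
  intro x y hxy
  have h := Inv_Av (digc i (k - 1)) (fun y => sgl i k y * f y) x y hxy
  have hs : ∀ z : Cu d M, (sgl i k z) ^ 2 = 1 := fun z => by rw [sq]; exact sgl_sq i k z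
  simp only [D1, mul_pow, hs, h]

lemma Av_D1 (i : Fin d) {k : ℕ} (hk : k < M) (f : Cu d M → ℝ) :
    Av (digc i k) (D1 i (k + 1) f) = fun _ => 0 := by
  funext x
  have h1 : D1 i (k + 1) f = fun x => Av (digc i (k + 1)) f x - Av (digc i k) f x := by
    funext x; exact D1_succ i hk f x
  rw [h1, Av_sub, Av_Av, Av_Av, Finset.union_self,
    Finset.union_eq_left.mpr (digc_anti i (Nat.le_succ k))]
  ring

/-- vector valued one-coordinate inequality -/
lemma sl1_coord {α : Type} (i : Fin d) (S : Finset α) (F : α → Cu d M → ℝ) :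
    E (fun x => Real.sqrt (∑ s ∈ S, (F s x) ^ 2))
      ≤ (3 / 2) * E (fun x => Real.sqrt (∑ k ∈ range (M + 1), ∑ s ∈ S, (D1 i k (F s) x) ^ 2)) := by
  have h := sl1_chain (𝒟 := Dg d M) (fun k => digc i k) (fun s t hst => digc_anti i hst) M S
    (fun k s => D1 i k (F s))
    (fun s _ => by rw [D1_zero]; exact Inv_Av _ _)
    (fun k _ s _ => by
      have := Inv_D1_sq i (k + 1) (F s)
      simpa using this)
    (fun k hk s _ => Av_D1 i hk (F s))
    (fun k hk s _ => by
      have : (fun x => ∑ j ∈ range (k + 1), D1 i j (F s) x) = Av (digc i k) (F s) := by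
        funext x; exact sum_D1 i (F s) hk.le x
      rw [this]; exact Inv_Av _ _)
  have e : ∀ s x, ∑ k ∈ range (M + 1), D1 i k (F s) x = F s x := by
    intro s x
    rw [sum_D1 i (F s) le_rfl, digc_top i le_rfl, Av_empty]
  simp only [e] at h
  exact h

/-! ### several coordinates -/

def digW (W : Finset (Fin d)) (a : Fin d → ℕ) : Finset (Dg d M) :=
  univ.filter fun p => p.1 ∈ W ∧ a p.1 ≤ p.2.val

noncomputable def epsW (W : Finset (Fin d)) (a : Fin d → ℕ) (x : Cu d M) : ℝ :=
  ∏ i ∈ W, sgl i (a i) x

noncomputable def DlW (W : Finset (Fin d)) (a : Fin d → ℕ) (f : Cu d M → ℝ) : Cu d M → ℝ :=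
  fun x => epsW W a x * Av (digW W (fun i => a i - 1)) (fun y => epsW W a y * f y) x

lemma DlW_univ (a : Fin d → ℕ) (f : Cu d M → ℝ) : DlW univ a f = Dl a f := by
  funext x
  have h : (digW univ (fun i => a i - 1) : Finset (Dg d M)) = dig (fun i => a i - 1) := by
    ext p; simp [digW, dig]
  simp only [DlW, Dl, AL, h, epsW, epsL, smul_eq_mul]

lemma DlW_empty (a : Fin d → ℕ) (f : Cu d M → ℝ) : DlW ∅ a f = f := by
  funext x
  have h : (digW ∅ (fun i => a i - 1) : Finset (Dg d M)) = ∅ := by
    ext p; simp [digW]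
  simp only [DlW, epsW, h, Av_empty, Finset.prod_empty, one_mul]

lemma Inv_epsW {W : Finset (Fin d)} {i : Fin d} (hi : i ∉ W) (a : Fin d → ℕ) (k : ℕ) :
    Inv (digc i k) (epsW (M := M) W a) := by
  unfold epsW
  apply Inv.prod
  intro j hj
  apply Inv_sgl
  intro l _ hmem
  simp only [digc, mem_filter, mem_univ, true_and] at hmem
  exact hi (hmem.1 ▸ hj)

lemma Inv_sgl_digW {W : Finset (Fin d)} {i : Fin d} (hi : i ∉ W) (a : Fin d → ℕ) (k : ℕ) :
    Inv (digW W a) (sgl (M := M) i k) := by
  apply Inv_sgl
  intro l _ hmem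
  simp only [digW, mem_filter, mem_univ, true_and] at hmem
  exact hi hmem.1

lemma DlW_insert {W : Finset (Fin d)} {i : Fin d} (hi : i ∉ W) (a : Fin d → ℕ)
    (f : Cu d M → ℝ) : DlW (insert i W) a f = D1 i (a i) (DlW W a f) := by
  have hdig : (digW (insert i W) (fun i => a i - 1) : Finset (Dg d M))
      = digc i (a i - 1) ∪ digW W (fun i => a i - 1) := by
    ext ⟨p, j⟩
    simp only [digW, digc, mem_filter, mem_univ, true_and, mem_insert, mem_union]
    constructor
    · rintro ⟨h1 | h1, h2⟩
      · left; subst h1; exact ⟨rfl, h2⟩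
      · right; exact ⟨h1, h2⟩
    · rintro (⟨h1, h2⟩ | ⟨h1, h2⟩)
      · subst h1; exact ⟨Or.inl rfl, h2⟩
      · exact ⟨Or.inr h1, h2⟩
  have heps : ∀ x : Cu d M, epsW (insert i W) a x = sgl i (a i) x * epsW W a x := fun x => by
    simp only [epsW]; rw [Finset.prod_insert hi]
  funext x
  simp only [DlW, D1, heps, hdig]
  rw [← Av_Av]
  have e1 : Av (digW W fun i => a i - 1) (fun y => sgl i (a i) y * epsW W a y * f y)
      = fun y => sgl i (a i) y * Av (digW W fun i => a i - 1) (fun y => epsW W a y * f y) y := by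
    have : (fun y : Cu d M => sgl i (a i) y * epsW W a y * f y)
        = fun y => sgl i (a i) y * (epsW W a y * f y) := by funext y; ring
    rw [this, Av_mul_of_Inv (Inv_sgl_digW hi _ _)]
  have e2 : Av (digc i (a i - 1)) (fun y => sgl i (a i) y * (epsW W a y *
        Av (digW W fun i => a i - 1) (fun y => epsW W a y * f y) y))
      = fun y => epsW W a y * Av (digc i (a i - 1)) (fun y => sgl i (a i) y *
        Av (digW W fun i => a i - 1) (fun y => epsW W a y * f y) y) y := by
    rw [← Av_mul_of_Inv (Inv_epsW hi a _)]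
    congr 1
    funext y; ring
  rw [e1, e2]
  ring

/-- levels supported on `W` -/
def levW (M : ℕ) (W : Finset (Fin d)) : Finset (Fin d → ℕ) :=
  Fintype.piFinset fun i => if i ∈ W then Finset.range (M + 1) else {0}

lemma sum_levW_insert {W : Finset (Fin d)} {i : Fin d} (hi : i ∉ W) (g : (Fin d → ℕ) → ℝ) :
    ∑ a ∈ levW M (insert i W), g a
      = ∑ k ∈ range (M + 1), ∑ a ∈ levW M W, g (Function.update a i k) := by
  rw [← Finset.sum_product']
  symm
  refine Finset.sum_bij' (fun p _ => Function.update p.2 i p.1)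
    (fun a _ => (a i, Function.update a i 0)) ?_ ?_ ?_ ?_ ?_
  · intro p hp
    simp only [Finset.mem_product, levW, Fintype.mem_piFinset] at hp ⊢
    intro j
    by_cases hj : j = i
    · subst hj
      simpa using hp.1
    · have := hp.2 j
      simp only [Function.update_of_ne hj, Finset.mem_insert, hj, false_or]
      exact this
  · intro a ha
    simp only [Finset.mem_product, levW, Fintype.mem_piFinset] at ha ⊢
    refine ⟨?_, ?_⟩
    · have := ha i
      simpa using this
    · intro j
      by_cases hj : j = i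
      · subst hj
        simp [hi]
      · have := ha j
        simp only [Finset.mem_insert, hj, false_or] at this
        simp only [Function.update_of_ne hj]
        exact this
  · intro p hp
    simp only [Finset.mem_product, levW, Fintype.mem_piFinset] at hp
    have h0 : p.2 i = 0 := by
      have := hp.2 i
      simpa [hi] using this
    ext j
    · simp
    · by_cases hj : j = i
      · subst hj; simp [h0]
      · simp [hj]
  · intro a ha
    simp
  · intro p hp
    rfl

lemma DlW_congr {W : Finset (Fin d)} {a b : Fin d → ℕ} (h : ∀ i ∈ W, a i = b i)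
    (f : Cu d M → ℝ) : DlW W a f = DlW W b f := by
  have h1 : (digW W (fun i => a i - 1) : Finset (Dg d M)) = digW W (fun i => b i - 1) := by
    ext p
    simp only [digW, mem_filter, mem_univ, true_and]
    constructor
    · rintro ⟨h1, h2⟩; exact ⟨h1, by rw [← h _ h1]; exact h2⟩
    · rintro ⟨h1, h2⟩; exact ⟨h1, by rw [h _ h1]; exact h2⟩
  have h2 : ∀ x : Cu d M, epsW W a x = epsW W b x := fun x =>
    Finset.prod_congr rfl fun i hi => by rw [h i hi]
  funext x
  simp only [DlW, h1, h2]

lemma sl1_W (W : Finset (Fin d)) (f : Cu d M → ℝ) :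
    E (fun x => |f x|)
      ≤ (3 / 2) ^ W.card * E (fun x => Real.sqrt (∑ a ∈ levW M W, (DlW W a f x) ^ 2)) := by
  induction W using Finset.induction_on with
  | empty =>
    have h : levW M (∅ : Finset (Fin d)) = {fun _ => 0} := by
      ext a
      simp only [levW, Finset.notMem_empty, if_false, Fintype.mem_piFinset,
        Finset.mem_singleton]
      constructor
      · intro h; funext i; exact h i
      · intro h i; rw [h]
    simp only [h, Finset.sum_singleton, DlW_empty, Real.sqrt_sq_eq_abs, Finset.card_empty,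
      pow_zero, one_mul]
    exact le_rfl
  | insert i W hi ih =>
    have h1 := sl1_coord i (levW M W) (fun a => DlW W a f)
    have h2 : ∀ x, ∑ k ∈ range (M + 1), ∑ a ∈ levW M W, (D1 i k (DlW W a f) x) ^ 2
        = ∑ a ∈ levW M (insert i W), (DlW (insert i W) a f x) ^ 2 := by
      intro x
      rw [sum_levW_insert hi (fun a => (DlW (insert i W) a f x) ^ 2)]
      apply Finset.sum_congr rfl
      intro k _
      apply Finset.sum_congr rfl
      intro a _
      rw [DlW_insert hi]
      have e1 : Function.update a i k i = k := by simp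
      have e2 : DlW W (Function.update a i k) f = DlW W a f := by
        apply DlW_congr
        intro j hj
        have : j ≠ i := fun h => hi (h ▸ hj)
        simp [this]
      rw [e1, e2]
    simp only [h2] at h1
    rw [Finset.card_insert_of_notMem hi, pow_succ]
    calc E (fun x => |f x|)
        ≤ (3 / 2) ^ W.card * E (fun x => Real.sqrt (∑ a ∈ levW M W, (DlW W a f x) ^ 2)) := ih
      _ ≤ (3 / 2) ^ W.card * ((3 / 2) *
          E (fun x => Real.sqrt (∑ a ∈ levW M (insert i W), (DlW (insert i W) a f x) ^ 2))) := by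
          gcongr
      _ = _ := by ring

/-- S → L1 -/
theorem sl1 (d : ℕ) : ∃ C : ℝ, 0 < C ∧ ∀ (M : ℕ) (f : Cu d M → ℝ),
    E (fun x => |f x|) ≤ C * E (fun x => Real.sqrt (∑ a ∈ lev d M, (Dl a f x) ^ 2)) := by
  refine ⟨(3 / 2) ^ d, by positivity, fun M f => ?_⟩
  have h := sl1_W (M := M) (univ : Finset (Fin d)) f
  have e : levW M (univ : Finset (Fin d)) = lev d M := by
    simp [levW, lev]
  simp only [DlW_univ, e, Finset.card_univ, Fintype.card_fin] at h
  exact h

end Pool.Agent.LBern
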