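import Pool.Agent.LBern.Norms
import Pool.Agent.LBern.L2

/-!
The smooth tail: the high levels of a sum of blocks.
-/

set_option linter.unusedSectionVars false

namespace Pool.Agent.LBern

open Finset

variable {d M : ℕ}

lemma mem_lev {s : Fin d → ℕ} : s ∈ lev d M ↔ ∀ i, s i ≤ M := by
  simp only [lev, Fintype.mem_piFinset, Finset.mem_range]
  exact forall_congr' fun i => Nat.lt_succ_iff

/-- lag of a pair of displacements -/
def qp (p : (Fin d → ℕ) × (Fin d → ℕ)) (i : Fin d) : ℕ := if p.1 i = 0 then p.2 i + 1 else 0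

/-- displacements `(s - a, a - s)` -/
def dsp (s a : Fin d → ℕ) : (Fin d → ℕ) × (Fin d → ℕ) := (fun i => s i - a i, fun i => a i - s i)

lemma dsp_inj_left {s s' a : Fin d → ℕ} (h : dsp s a = dsp s' a) : s = s' := by
  funext i
  have h1 := congrFun (congrArg Prod.fst h) i
  have h2 := congrFun (congrArg Prod.snd h) i
  simp only [dsp] at h1 h2
  omega

lemma dsp_inj_right {s a a' : Fin d → ℕ} (h : dsp s a = dsp s a') : a = a' := by
  funext i
  have h1 := congrFun (congrArg Prod.fst h) i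
  have h2 := congrFun (congrArg Prod.snd h) i
  simp only [dsp] at h1 h2
  omega

lemma qp_dsp (s a : Fin d → ℕ) (i : Fin d) :
    qp (dsp s a) i = if s i ≤ a i then a i - s i + 1 else 0 := by
  unfold qp dsp
  by_cases h : s i ≤ a i
  · rw [if_pos h]; exact if_pos (Nat.sub_eq_zero_of_le h)
  · rw [if_neg h]; exact if_neg (fun h' => h (Nat.sub_eq_zero_iff_le.1 h'))

lemma DD_eq_DDq (s a : Fin d → ℕ) : (DD s a : Finset (Dg d M)) = DDq (qp (dsp s a)) a := by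
  ext p
  simp only [DD, DDq, Finset.mem_filter, Finset.mem_univ, true_and, qp_dsp]
  by_cases h : s p.1 ≤ a p.1
  · rw [if_pos h]; omega
  · rw [if_neg h]; omega

lemma wt_dsp (s a : Fin d → ℕ) : wt s + wt (dsp s a).2 = wt a + wt (dsp s a).1 := by
  simp only [wt, dsp, ← Finset.sum_add_distrib]
  refine Finset.sum_congr rfl fun i _ => by omega

lemma prod_half (s a : Fin d → ℕ) :
    ∏ i, (1 / 2 : ℝ) ^ (s i - a i) = (1 / 2 : ℝ) ^ wt (dsp s a).1 := by
  simp only [wt, dsp, Finset.prod_pow_eq_pow_sum]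

/-- decay constant -/
noncomputable def kap (m l : ℕ) (p : (Fin d → ℕ) × (Fin d → ℕ)) : ℝ :=
  (3 / 4 : ℝ) ^ (wt p.1 + (m - l) + wt p.2)

lemma kap_nonneg (m l : ℕ) (p : (Fin d → ℕ) × (Fin d → ℕ)) : 0 ≤ kap m l p := by
  unfold kap; positivity

lemma half_le_kap {m : ℕ} {s a : Fin d → ℕ} (hs : m < wt s) (ha : wt a ≤ m) :
    (1 / 2 : ℝ) ^ wt (dsp s a).1 ≤ kap m (wt a) (dsp s a) := by
  have h := wt_dsp s a
  have h1 : wt (dsp s a).1 + (m - wt a) + wt (dsp s a).2 ≤ 2 * wt (dsp s a).1 := by omega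
  calc (1 / 2 : ℝ) ^ wt (dsp s a).1 ≤ ((3 / 4 : ℝ) ^ 2) ^ wt (dsp s a).1 :=
        pow_le_pow_left₀ (by norm_num) (by norm_num) _
    _ = (3 / 4 : ℝ) ^ (2 * wt (dsp s a).1) := by rw [← pow_mul]
    _ ≤ _ := pow_le_pow_of_le_one (by norm_num) (by norm_num) h1

lemma Wa_nn (f : Gr d M → ℂ) (a : Fin d → ℕ) (g : Gr d M) : 0 ≤ Wa f a g := by
  unfold Wa
  refine E_nonneg fun w => E_nonneg fun z => mul_nonneg (Finset.prod_nonneg fun i _ => ?_)
    (norm_nonneg _)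
  unfold wg cd
  positivity

/-- pointwise form -/
lemma tail_pointwise (B : ℝ) (hB : 0 < B) (L m : ℕ) (A : Finset (Fin d → ℕ)) (f : Gr d M → ℂ)
    (u : (Fin d → ℕ) → Gr d M → ℂ) (hA : A ⊆ lev d M) (hAL : ∀ a ∈ A, wt a ≤ L) (hLm : L ≤ m)
    (hblk : ∀ a ∈ A, Blk B a f (u a)) (hf : ∀ g, f g = ∑ a ∈ A, u a g)
    (w0 : Gr d M) (z : Cu d M) :
    Real.sqrt (∑ s ∈ (lev d M).filter (fun s => m < wt s), ‖Dl s (fw f w0) z‖ ^ 2)
      ≤ ∑ p ∈ lev d M ×ˢ lev d M, ∑ l ∈ Finset.range (L + 1), B * kap m l p *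
        Real.sqrt (∑ a ∈ levw d M l, (Av (DDq (qp p) a) (fun z => Wa f a (posd z + w0)) z) ^ 2) := by
  classical
  set S := (lev d M).filter (fun s => m < wt s) with hS
  set G : (Fin d → ℕ) → (Fin d → ℕ) → ℝ := fun q a => Av (DDq q a) (fun z => Wa f a (posd z + w0)) z
    with hG
  have hG0 : ∀ q a, 0 ≤ G q a := fun q a => Av_nonneg _ (fun z => Wa_nn f a _) z
  set X : (Fin d → ℕ) → (Fin d → ℕ) → ℝ := fun s a =>
    B * (1 / 2 : ℝ) ^ wt (dsp s a).1 * G (qp (dsp s a)) a with hX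
  have hX0 : ∀ s a, 0 ≤ X s a := fun s a => mul_nonneg (by positivity) (hG0 _ _)
  set P := lev d M ×ˢ lev d M with hP
  have hS' : ∀ s ∈ S, s ∈ lev d M ∧ m < wt s := fun s hs => Finset.mem_filter.1 hs
  -- step 1
  have h1 : ∀ s ∈ S, |‖Dl s (fw f w0) z‖| ≤ ∑ p ∈ P, ∑ a ∈ A.filter (fun a => dsp s a = p), X s a := by
    intro s hs
    rw [abs_of_nonneg (norm_nonneg _)]
    have e1 : fw f w0 = fun z => ∑ a ∈ A, fw (u a) w0 z := by
      funext z; exact hf _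
    rw [e1, Dl_sum]
    refine (norm_sum_le _ _).trans ?_
    have e2 : ∑ a ∈ A, X s a = ∑ p ∈ P, ∑ a ∈ A.filter (fun a => dsp s a = p), X s a := by
      rw [Finset.sum_fiberwise_of_maps_to]
      intro a ha
      rw [hP, Finset.mem_product, mem_lev, mem_lev]
      have ha' := mem_lev.1 (hA ha)
      have hs' := mem_lev.1 (hS' s hs).1
      simp only [dsp]
      exact ⟨fun i => (Nat.sub_le _ _).trans (hs' i), fun i => (Nat.sub_le _ _).trans (ha' i)⟩
    rw [← e2]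
    refine Finset.sum_le_sum fun a ha => ?_
    refine (hblk a ha s (hS' s hs).1 w0 z).trans ?_
    rw [prod_half, DD_eq_DDq]
  refine (sqrt_sum_mono h1).trans ?_
  refine (sqrt_sum_sum_le S P _).trans ?_
  refine Finset.sum_le_sum fun p hp => ?_
  -- step 2
  have h2 : ∑ s ∈ S, (∑ a ∈ A.filter (fun a => dsp s a = p), X s a) ^ 2
      ≤ ∑ a ∈ A, (B * kap m (wt a) p * G (qp p) a) ^ 2 := by
    have e1 : ∀ s ∈ S, (∑ a ∈ A.filter (fun a => dsp s a = p), X s a) ^ 2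
        = ∑ a ∈ A.filter (fun a => dsp s a = p), X s a ^ 2 := by
      intro s _
      apply sq_sum_le_of_card_le_one
      intro a ha b hb
      rw [Finset.mem_filter] at ha hb
      exact dsp_inj_right (ha.2.trans hb.2.symm)
    rw [Finset.sum_congr rfl e1]
    have e2 : ∑ s ∈ S, ∑ a ∈ A.filter (fun a => dsp s a = p), X s a ^ 2
        = ∑ a ∈ A, ∑ s ∈ S.filter (fun s => dsp s a = p), X s a ^ 2 := by
      simp only [Finset.sum_filter]
      exact Finset.sum_comm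
    rw [e2]
    refine Finset.sum_le_sum fun a ha => ?_
    apply sum_le_of_card_le_one
    · intro s hs s' hs'
      rw [Finset.mem_filter] at hs hs'
      exact dsp_inj_left (hs.2.trans hs'.2.symm)
    · positivity
    · intro s hs
      rw [Finset.mem_filter] at hs
      apply pow_le_pow_left₀ (hX0 s a)
      have h3 := half_le_kap (a := a) (hS' s hs.1).2 ((hAL a ha).trans hLm)
      simp only [hX]
      rw [← hs.2]
      have := hG0 (qp (dsp s a)) a
      gcongr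
  refine (Real.sqrt_le_sqrt h2).trans ?_
  -- step 3
  have h3 : A ⊆ (Finset.range (L + 1)).biUnion (levw d M) := by
    intro a ha
    rw [Finset.mem_biUnion]
    exact ⟨wt a, Finset.mem_range.2 (Nat.lt_succ_of_le (hAL a ha)),
      Finset.mem_filter.2 ⟨hA ha, rfl⟩⟩
  refine (sqrt_sum_biUnion_le (Finset.range (L + 1)) (levw d M) A h3 _).trans ?_
  refine Finset.sum_le_sum fun l _ => ?_
  have h4 : ∑ a ∈ levw d M l, (B * kap m (wt a) p * G (qp p) a) ^ 2
      = ∑ a ∈ levw d M l, (B * kap m l p * G (qp p) a) ^ 2 := by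
    refine Finset.sum_congr rfl fun a ha => ?_
    rw [(Finset.mem_filter.1 ha).2]
  rw [h4, sqrt_sum_mul_left _ _ (mul_nonneg hB.le (kap_nonneg _ _ _))]

lemma sum_kap (m l : ℕ) :
    ∑ p ∈ lev d M ×ˢ lev d M, kap m l p * ∏ i, (2 * qp p i + 1 : ℝ)
      ≤ 144 ^ d * (3 / 4 : ℝ) ^ (m - l) := by
  have h1 : ∀ p : (Fin d → ℕ) × (Fin d → ℕ), kap m l p * ∏ i, (2 * qp p i + 1 : ℝ)
      ≤ (3 / 4 : ℝ) ^ (m - l) * ((∏ i, (3 / 4 : ℝ) ^ p.1 i) *
        ∏ i, ((3 / 4 : ℝ) ^ p.2 i * (2 * p.2 i + 3))) := by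
    intro p
    have e1 : kap m l p = (3 / 4 : ℝ) ^ (m - l) * ((∏ i, (3 / 4 : ℝ) ^ p.1 i) *
        ∏ i, (3 / 4 : ℝ) ^ p.2 i) := by
      rw [kap, pow_add, pow_add, wt, wt, Finset.prod_pow_eq_pow_sum, Finset.prod_pow_eq_pow_sum]
      ring
    have e2 : ∏ i, (2 * qp p i + 1 : ℝ) ≤ ∏ i, (2 * p.2 i + 3 : ℝ) := by
      apply Finset.prod_le_prod
      · intro i _; positivity
      · intro i _
        unfold qp
        split_ifs
        · push_cast; linarith
        · push_cast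
          have : (0 : ℝ) ≤ p.2 i := by positivity
          linarith
    rw [e1, Finset.prod_mul_distrib]
    calc (3 / 4 : ℝ) ^ (m - l) * ((∏ i, (3 / 4 : ℝ) ^ p.1 i) * ∏ i, (3 / 4 : ℝ) ^ p.2 i) *
          ∏ i, (2 * qp p i + 1 : ℝ)
        ≤ (3 / 4 : ℝ) ^ (m - l) * ((∏ i, (3 / 4 : ℝ) ^ p.1 i) * ∏ i, (3 / 4 : ℝ) ^ p.2 i) *
          ∏ i, (2 * p.2 i + 3 : ℝ) := by
          apply mul_le_mul_of_nonneg_left e2
          have : 0 ≤ ∏ i, (3 / 4 : ℝ) ^ p.1 i := Finset.prod_nonneg fun i _ => by positivity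
          have : 0 ≤ ∏ i, (3 / 4 : ℝ) ^ p.2 i := Finset.prod_nonneg fun i _ => by positivity
          positivity
      _ = _ := by ring
  refine (Finset.sum_le_sum fun p _ => h1 p).trans ?_
  rw [← Finset.mul_sum, Finset.sum_product, mul_comm]
  apply mul_le_mul_of_nonneg_right _ (by positivity)
  have e3 : ∑ x ∈ lev d M, ∑ y ∈ lev d M, ((∏ i, (3 / 4 : ℝ) ^ x i) *
        ∏ i, ((3 / 4 : ℝ) ^ y i * (2 * y i + 3)))
      = (∏ _i : Fin d, ∑ n ∈ Finset.range (M + 1), (3 / 4 : ℝ) ^ n) *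
        ∏ _i : Fin d, ∑ n ∈ Finset.range (M + 1), (3 / 4 : ℝ) ^ n * (2 * n + 3) := by
    rw [Finset.prod_univ_sum, Finset.prod_univ_sum, Finset.sum_mul_sum]
    rfl
  rw [e3, Finset.prod_const, Finset.prod_const, Finset.card_univ, Fintype.card_fin, ← mul_pow]
  apply pow_le_pow_left₀
  · apply mul_nonneg
    · exact Finset.sum_nonneg fun _ _ => by positivity
    · exact Finset.sum_nonneg fun _ _ => by positivity
  · calc _ ≤ (4 : ℝ) * 36 := mul_le_mul (geo1 _) (geo2 _)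
          (Finset.sum_nonneg fun _ _ => by positivity) (by norm_num)
      _ = 144 := by norm_num

lemma Nl_nonneg (f : Gr d M → ℂ) (l : ℕ) : 0 ≤ Nl f l :=
  E_nonneg fun _ => E_nonneg fun _ => Real.sqrt_nonneg _

theorem smooth_tail_of (Ct : ℝ) (hCt : 0 < Ct)
    (htq : ∀ (l : ℕ) (f : Gr d M → ℂ) (w0 : Gr d M) (q : Fin d → ℕ),
      E (fun z : Cu d M => Real.sqrt (∑ a ∈ levw d M l,
        (Av (DDq q a) (fun z => Wa f a (posd z + w0)) z) ^ 2))
      ≤ Ct * (∏ i, (2 * q i + 1 : ℝ)) * Nl f l)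
    (B : ℝ) (hB : 0 < B) (L m : ℕ) (A : Finset (Fin d → ℕ)) (f : Gr d M → ℂ)
    (u : (Fin d → ℕ) → Gr d M → ℂ) (hA : A ⊆ lev d M) (hAL : ∀ a ∈ A, wt a ≤ L) (hLm : L ≤ m)
    (hblk : ∀ a ∈ A, Blk B a f (u a)) (hf : ∀ g, f g = ∑ a ∈ A, u a g)
    (w0 : Gr d M) :
    E (fun z : Cu d M => Real.sqrt (∑ s ∈ (lev d M).filter (fun s => m < wt s),
        ‖Dl s (fw f w0) z‖ ^ 2))
      ≤ (B * Ct * 144 ^ d) * ∑ l ∈ Finset.range (L + 1), (3 / 4 : ℝ) ^ (m - l) * Nl f l := by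
  refine (E_mono fun z => tail_pointwise B hB L m A f u hA hAL hLm hblk hf w0 z).trans ?_
  rw [E_sum]
  simp only [E_sum, E_mul_left]
  rw [Finset.sum_comm, Finset.mul_sum]
  refine Finset.sum_le_sum fun l _ => ?_
  calc ∑ p ∈ lev d M ×ˢ lev d M, B * kap m l p * E (fun z : Cu d M =>
          Real.sqrt (∑ a ∈ levw d M l, (Av (DDq (qp p) a) (fun z => Wa f a (posd z + w0)) z) ^ 2))
      ≤ ∑ p ∈ lev d M ×ˢ lev d M, B * kap m l p * (Ct * (∏ i, (2 * qp p i + 1 : ℝ)) * Nl f l) := by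
        refine Finset.sum_le_sum fun p _ => ?_
        exact mul_le_mul_of_nonneg_left (htq l f w0 (qp p))
          (mul_nonneg hB.le (kap_nonneg _ _ _))
    _ = (B * Ct * Nl f l) *
        ∑ p ∈ lev d M ×ˢ lev d M, kap m l p * ∏ i, (2 * qp p i + 1 : ℝ) := by
        rw [Finset.mul_sum]
        refine Finset.sum_congr rfl fun p _ => by ring
    _ ≤ (B * Ct * Nl f l) * (144 ^ d * (3 / 4 : ℝ) ^ (m - l)) := by
        apply mul_le_mul_of_nonneg_left (sum_kap m l)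
        have := Nl_nonneg f l
        positivity
    _ = _ := by ring

end Pool.Agent.LBern
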