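import Pool.Agent.LBern.PosD
import Pool.Agent.LBern.L2
import Pool.Agent.LBern.Tail
import Pool.Agent.LBern.SL1

/-!
Complex versions of `lower` and `sl1`, and the passage to layers.
-/

set_option linter.unusedSectionVars false

namespace Pool.Agent.LBern

open Finset

variable {d M : ℕ}

section
variable {V W : Type} [AddCommGroup V] [Module ℝ V] [AddCommGroup W] [Module ℝ W]

lemma E_map {𝒟 : Type} [Fintype 𝒟] [DecidableEq 𝒟] (φ : V →ₗ[ℝ] W) (f : (𝒟 → Bool) → V) :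
    E (fun x => φ (f x)) = φ (E f) := by
  simp only [E, map_smul, map_sum]

lemma Dl_map (φ : V →ₗ[ℝ] W) (a : Fin d → ℕ) (f : Cu d M → V) (x : Cu d M) :
    Dl a (fun x => φ (f x)) x = φ (Dl a f x) := by
  simp only [Dl, AL, Av, ← map_smul]
  rw [E_map, map_smul]

end

lemma Dl_re (a : Fin d → ℕ) (f : Cu d M → ℂ) (x : Cu d M) :
    Dl a (fun x => (f x).re) x = (Dl a f x).re := Dl_map Complex.reLm a f x

lemma Dl_im (a : Fin d → ℕ) (f : Cu d M → ℂ) (x : Cu d M) :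
    Dl a (fun x => (f x).im) x = (Dl a f x).im := Dl_map Complex.imLm a f x

lemma sqrt_sum_norm_le {σ : Type} (S : Finset σ) (z : σ → ℂ) :
    Real.sqrt (∑ s ∈ S, ‖z s‖ ^ 2)
      ≤ Real.sqrt (∑ s ∈ S, (z s).re ^ 2) + Real.sqrt (∑ s ∈ S, (z s).im ^ 2) := by
  have h : ∑ s ∈ S, ‖z s‖ ^ 2 = ∑ s ∈ S, (z s).re ^ 2 + ∑ s ∈ S, (z s).im ^ 2 := by
    rw [← Finset.sum_add_distrib]
    refine Finset.sum_congr rfl fun s _ => ?_
    rw [← Complex.normSq_eq_norm_sq, Complex.normSq_apply]; ring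
  rw [h]
  have h1 : 0 ≤ ∑ s ∈ S, (z s).re ^ 2 := Finset.sum_nonneg fun _ _ => sq_nonneg _
  have h2 : 0 ≤ ∑ s ∈ S, (z s).im ^ 2 := Finset.sum_nonneg fun _ _ => sq_nonneg _
  rw [Real.sqrt_le_left (by positivity), add_sq, Real.sq_sqrt h1, Real.sq_sqrt h2]
  have : 0 ≤ 2 * Real.sqrt (∑ s ∈ S, (z s).re ^ 2) * Real.sqrt (∑ s ∈ S, (z s).im ^ 2) := by
    positivity
  linarith

/-- the statement of `lower` -/
def LowS (d : ℕ) (C : ℝ) : Prop := ∀ (M : ℕ) (g : Cu d M → ℝ) (m : ℕ),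
    (∀ a ∈ lev d M, m < wt a → Dl a g = fun _ => 0) → ∀ l, l ≤ m →
    E (fun x => Real.sqrt (∑ a ∈ (lev d M).filter (fun a => wt a = l), (Dl a g x) ^ 2))
      ≤ C * ((m - l : ℕ) + 1 : ℝ) ^ d * E (fun x => |g x|)

/-- the statement of `sl1` -/
def Sl1S (d : ℕ) (C : ℝ) : Prop := ∀ (M : ℕ) (f : Cu d M → ℝ),
    E (fun x => |f x|) ≤ C * E (fun x => Real.sqrt (∑ a ∈ lev d M, (Dl a f x) ^ 2))

lemma lower_complex {C : ℝ} (hC : 0 < C) (h : LowS d C) (g : Cu d M → ℂ) (m : ℕ)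
    (hg : ∀ a ∈ lev d M, m < wt a → Dl a g = fun _ => 0) (l : ℕ) (hl : l ≤ m) :
    E (fun x => Real.sqrt (∑ a ∈ levw d M l, ‖Dl a g x‖ ^ 2))
      ≤ 2 * C * ((m - l : ℕ) + 1 : ℝ) ^ d * E (fun x => ‖g x‖) := by
  have h1 := h M (fun x => (g x).re) m (fun a ha hm => by
    funext x; rw [Dl_re, hg a ha hm]; simp) l hl
  have h2 := h M (fun x => (g x).im) m (fun a ha hm => by
    funext x; rw [Dl_im, hg a ha hm]; simp) l hl
  have h3 : E (fun x => Real.sqrt (∑ a ∈ levw d M l, ‖Dl a g x‖ ^ 2))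
      ≤ E (fun x => Real.sqrt (∑ a ∈ levw d M l, (Dl a (fun x => (g x).re) x) ^ 2))
        + E (fun x => Real.sqrt (∑ a ∈ levw d M l, (Dl a (fun x => (g x).im) x) ^ 2)) := by
    rw [← E_add]
    refine E_mono fun x => ?_
    simp only [Dl_re, Dl_im]
    exact sqrt_sum_norm_le _ _
  have h4 : E (fun x => |(g x).re|) ≤ E (fun x => ‖g x‖) := E_mono fun x => Complex.abs_re_le_norm _
  have h5 : E (fun x => |(g x).im|) ≤ E (fun x => ‖g x‖) := E_mono fun x => Complex.abs_im_le_norm _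
  have h6 : 0 ≤ C * ((m - l : ℕ) + 1 : ℝ) ^ d := by positivity
  have h7 := mul_le_mul_of_nonneg_left h4 h6
  have h8 := mul_le_mul_of_nonneg_left h5 h6
  simp only [levw] at h3 ⊢
  linarith

lemma sl1_complex {C : ℝ} (hC : 0 < C) (h : Sl1S d C) (f : Cu d M → ℂ) :
    E (fun x => ‖f x‖) ≤ 2 * C * E (fun x => Real.sqrt (∑ a ∈ lev d M, ‖Dl a f x‖ ^ 2)) := by
  have h1 := h M (fun x => (f x).re)
  have h2 := h M (fun x => (f x).im)
  have h3 : E (fun x => ‖f x‖) ≤ E (fun x => |(f x).re|) + E (fun x => |(f x).im|) := by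
    rw [← E_add]; exact E_mono fun x => Complex.norm_le_abs_re_add_abs_im _
  have h4 : E (fun x => Real.sqrt (∑ a ∈ lev d M, (Dl a (fun x => (f x).re) x) ^ 2))
      ≤ E (fun x => Real.sqrt (∑ a ∈ lev d M, ‖Dl a f x‖ ^ 2)) := by
    refine E_mono fun x => sqrt_sum_mono fun a _ => ?_
    rw [Dl_re]; exact Complex.abs_re_le_norm _
  have h5 : E (fun x => Real.sqrt (∑ a ∈ lev d M, (Dl a (fun x => (f x).im) x) ^ 2))
      ≤ E (fun x => Real.sqrt (∑ a ∈ lev d M, ‖Dl a f x‖ ^ 2)) := by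
    refine E_mono fun x => sqrt_sum_mono fun a _ => ?_
    rw [Dl_im]; exact Complex.abs_im_le_norm _
  have h7 := mul_le_mul_of_nonneg_left h4 hC.le
  have h8 := mul_le_mul_of_nonneg_left h5 hC.le
  linarith

/-- lower layers of an arbitrary function, with the high levels as an error term -/
lemma lower_with_tail {Cl Cs : ℝ} (hCl : 0 < Cl) (hl : LowS d Cl) (hCs : 0 < Cs) (hs : Sl1S d Cs)
    (F : Cu d M → ℂ) (m l : ℕ) (hlm : l ≤ m) :
    E (fun x => Real.sqrt (∑ a ∈ levw d M l, ‖Dl a F x‖ ^ 2))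
      ≤ 2 * Cl * ((m - l : ℕ) + 1 : ℝ) ^ d * (E (fun x => ‖F x‖) +
        2 * Cs * E (fun x => Real.sqrt (∑ s ∈ (lev d M).filter (fun s => m < wt s),
          ‖Dl s F x‖ ^ 2))) := by
  classical
  set g : Cu d M → ℂ := fun x => ∑ a ∈ (lev d M).filter (fun a => wt a ≤ m), Dl a F x with hg
  have hDg : ∀ b ∈ lev d M, Dl b g = if wt b ≤ m then Dl b F else fun _ => 0 := by
    intro b hb
    rw [hg, Dl_sum]
    funext x
    have e1 : ∀ a ∈ (lev d M).filter (fun a => wt a ≤ m), Dl b (Dl a F) x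
        = if b = a then Dl b F x else 0 := by
      intro a ha
      rw [Dl_Dl hb (Finset.mem_filter.1 ha).1]
      by_cases hba : b = a
      · rw [if_pos hba, if_pos hba]
      · rw [if_neg hba, if_neg hba]
    rw [Finset.sum_congr rfl e1, Finset.sum_ite_eq]
    by_cases hm : wt b ≤ m
    · rw [if_pos (Finset.mem_filter.2 ⟨hb, hm⟩), if_pos hm]
    · have hnot : b ∉ (lev d M).filter (fun a => wt a ≤ m) := fun h => hm (Finset.mem_filter.1 h).2
      rw [if_neg hnot, if_neg hm]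
  have h1 := lower_complex hCl hl g m (fun a ha hm => by
    rw [hDg a ha, if_neg (by omega)]) l hlm
  have h2 : E (fun x => Real.sqrt (∑ a ∈ levw d M l, ‖Dl a g x‖ ^ 2))
      = E (fun x => Real.sqrt (∑ a ∈ levw d M l, ‖Dl a F x‖ ^ 2)) := by
    congr 1
    funext x
    congr 1
    refine Finset.sum_congr rfl fun a ha => ?_
    have ha' := Finset.mem_filter.1 ha
    rw [hDg a ha'.1, if_pos (by omega)]
  rw [h2] at h1
  refine h1.trans (mul_le_mul_of_nonneg_left ?_ (by positivity))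
  set h : Cu d M → ℂ := fun x => F x - g x with hh
  have h3 : E (fun x => ‖g x‖) ≤ E (fun x => ‖F x‖) + E (fun x => ‖h x‖) := by
    rw [← E_add]
    refine E_mono fun x => ?_
    have : g x = F x - h x := by simp [hh]
    rw [this]; exact norm_sub_le _ _
  refine h3.trans (add_le_add le_rfl ?_)
  refine (sl1_complex hCs hs h).trans (mul_le_mul_of_nonneg_left ?_ (by positivity))
  refine E_mono fun x => Real.sqrt_le_sqrt ?_
  have h4 : ∀ b ∈ lev d M, ‖Dl b h x‖ ^ 2 = if m < wt b then ‖Dl b F x‖ ^ 2 else 0 := by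
    intro b hb
    have e : Dl b h x = Dl b F x - Dl b g x := by
      rw [hh, Dl_sub]
    rw [e, hDg b hb]
    by_cases hm : wt b ≤ m
    · rw [if_pos hm, if_neg (by omega)]; simp
    · rw [if_neg hm, if_pos (by omega)]; simp
  rw [Finset.sum_congr rfl h4, ← Finset.sum_filter]

/-- averaged form -/
lemma Nl_le {Cl Cs : ℝ} (hCl : 0 < Cl) (hl : LowS d Cl) (hCs : 0 < Cs) (hs : Sl1S d Cs)
    (f : Gr d M → ℂ) (m l : ℕ) (hlm : l ≤ m) (T : ℝ)
    (hT : ∀ w0 : Gr d M, E (fun z : Cu d M => Real.sqrt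
      (∑ s ∈ (lev d M).filter (fun s => m < wt s), ‖Dl s (fw f w0) z‖ ^ 2)) ≤ T) :
    Nl f l ≤ 2 * Cl * ((m - l : ℕ) + 1 : ℝ) ^ d * (n1 f + 2 * Cs * T) := by
  have h1 : ∀ w : Cu d M, E (fun z : Cu d M => Real.sqrt
      (∑ a ∈ levw d M l, ‖Dl a (fw f (posd w)) z‖ ^ 2))
      ≤ 2 * Cl * ((m - l : ℕ) + 1 : ℝ) ^ d * (n1 f + 2 * Cs * T) := by
    intro w
    refine (lower_with_tail hCl hl hCs hs (fw f (posd w)) m l hlm).trans ?_
    apply mul_le_mul_of_nonneg_left _ (by positivity)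
    rw [n1_eq]
    exact add_le_add le_rfl (mul_le_mul_of_nonneg_left (hT _) (by positivity))
  calc Nl f l ≤ E (fun _ : Cu d M => 2 * Cl * ((m - l : ℕ) + 1 : ℝ) ^ d * (n1 f + 2 * Cs * T)) :=
        E_mono h1
    _ = _ := E_const _

end Pool.Agent.LBern
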