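import Pool.Agent.LBern.Lev

/-!
Positions of the points of the one dimensional cube on the cyclic grid `ZMod (2 ^ M)`.
-/

set_option linter.unusedSectionVars false

namespace Pool.Agent.LBern

open Finset

variable {M : ℕ}

/-- natural number position -/
def posN (x : Fin M → Bool) : ℕ := ∑ j : Fin M, if x j then 2 ^ (M - 1 - j.val) else 0

lemma pos_eq_posN (x : Fin M → Bool) : pos x = (posN x : ZMod (2 ^ M)) := by
  simp only [pos, posN, Nat.cast_sum]
  apply Finset.sum_congr rfl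
  intro j _
  split_ifs <;> simp

/-- the positions as an equivalence -/
def posE : (Fin M → Bool) ≃ Fin (2 ^ M) :=
  (Equiv.arrowCongr Fin.revPerm finTwoEquiv.symm).trans finFunctionFinEquiv

lemma posE_val (x : Fin M → Bool) : (posE x : ℕ) = posN x := by
  simp only [posE, Equiv.trans_apply, finFunctionFinEquiv_apply]
  rw [← Equiv.sum_comp Fin.revPerm]
  simp only [posN]
  apply Finset.sum_congr rfl
  intro j _
  simp only [Equiv.arrowCongr_apply, Function.comp_apply, Fin.revPerm_apply, Fin.revPerm_symm,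
    Fin.rev_rev, Fin.val_rev]
  have hexp : M - (j.val + 1) = M - 1 - j.val := by omega
  rw [hexp]
  cases h : x j
  · simp [finTwoEquiv]
  · simp [finTwoEquiv]

lemma posN_lt (x : Fin M → Bool) : posN x < 2 ^ M := by
  rw [← posE_val]; exact (posE x).isLt

lemma posN_injective : Function.Injective (posN (M := M)) := by
  intro x y h
  apply (posE (M := M)).injective
  apply Fin.ext
  rw [posE_val, posE_val, h]

lemma val_pos (x : Fin M → Bool) : (pos x).val = posN x := by
  rw [pos_eq_posN, ZMod.val_natCast, Nat.mod_eq_of_lt (posN_lt x)]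

theorem pos_bijective : Function.Bijective (pos (M := M)) := by
  rw [Fintype.bijective_iff_injective_and_card]
  constructor
  · intro x y h
    apply posN_injective
    rw [← val_pos, ← val_pos, h]
  · rw [ZMod.card]; simp

/-- the grid point with a given position -/
noncomputable def posEquiv : (Fin M → Bool) ≃ ZMod (2 ^ M) :=
  Equiv.ofBijective _ (pos_bijective (M := M))

lemma posEquiv_apply (x : Fin M → Bool) : posEquiv x = pos x := rfl

/-- the point with a given position -/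
noncomputable def pt (g : ZMod (2 ^ M)) : Fin M → Bool := posEquiv.symm g

@[simp] lemma pos_pt (g : ZMod (2 ^ M)) : pos (pt g) = g := posEquiv.apply_symm_apply g

@[simp] lemma pt_pos (x : Fin M → Bool) : pt (pos x) = x := posEquiv.symm_apply_apply x

/-- translation on the one dimensional grid -/
noncomputable def tr1 (g : ZMod (2 ^ M)) : (Fin M → Bool) ≃ (Fin M → Bool) :=
  (Equiv.ofBijective _ (pos_bijective (M := M))).trans
    ((Equiv.addRight g).trans (Equiv.ofBijective _ (pos_bijective (M := M))).symm)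

theorem pos_tr1 (g : ZMod (2 ^ M)) (x : Fin M → Bool) : pos (tr1 g x) = pos x + g := by
  have : tr1 g x = posEquiv.symm (pos x + g) := rfl
  rw [this]
  exact pos_pt _

lemma tr1_eq (g : ZMod (2 ^ M)) (x : Fin M → Bool) : tr1 g x = pt (pos x + g) := rfl

lemma tr1_tr1 (g h : ZMod (2 ^ M)) (x : Fin M → Bool) : tr1 g (tr1 h x) = tr1 (h + g) x := by
  rw [tr1_eq, pos_tr1, tr1_eq, add_assoc]

lemma tr1_zero (x : Fin M → Bool) : tr1 0 x = x := by
  rw [tr1_eq, add_zero, pt_pos]

section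
variable {V : Type} [AddCommGroup V] [Module ℝ V]

/-- translation invariance of the mean -/
lemma E_tr1 (g : ZMod (2 ^ M)) (f : (Fin M → Bool) → V) : E (fun x => f (tr1 g x)) = E f := by
  simp only [E]
  rw [Equiv.sum_comp (tr1 g) f]

/-- the mean as a mean over positions -/
lemma E_eq_sum_pt (f : (Fin M → Bool) → V) :
    E f = ((2 : ℝ) ^ M)⁻¹ • ∑ g : ZMod (2 ^ M), f (pt g) := by
  have h : (Fintype.card (Fin M → Bool) : ℝ) = 2 ^ M := by simp
  simp only [E, h]
  congr 1
  exact (Equiv.sum_comp (posEquiv (M := M)).symm f).symm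

end

/-! ### high and low digits -/

/-- contribution of the digits `≥ a` -/
def loN (a : ℕ) (x : Fin M → Bool) : ℕ :=
  ∑ j ∈ dig1 a, if x j then 2 ^ (M - 1 - j.val) else 0

/-- contribution of the digits `< a` -/
def hiN (a : ℕ) (x : Fin M → Bool) : ℕ :=
  ∑ j ∈ (dig1 a)ᶜ, if x j then 2 ^ (M - 1 - j.val) else 0

lemma mem_dig1 {a : ℕ} {j : Fin M} : j ∈ dig1 a ↔ a ≤ j.val := by simp [dig1]

lemma posN_eq (a : ℕ) (x : Fin M → Bool) : posN x = hiN a x + loN a x := by
  simp only [posN, hiN, loN]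
  rw [add_comm]
  exact (Finset.sum_add_sum_compl (dig1 a) _).symm

lemma loN_lt {a : ℕ} (ha : a ≤ M) (x : Fin M → Bool) : loN a x < 2 ^ (M - a) := by
  have h1 : loN a x ≤ ∑ j ∈ dig1 (M := M) a, 2 ^ (M - 1 - j.val) := by
    apply Finset.sum_le_sum
    intro j _
    split_ifs
    · exact le_rfl
    · exact Nat.zero_le _
  have h2 : ∑ j ∈ dig1 (M := M) a, 2 ^ (M - 1 - j.val)
      = ∑ i ∈ (dig1 (M := M) a).image (fun j => M - 1 - j.val), 2 ^ i := by
    rw [Finset.sum_image]
    intro i _ j _ hij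
    have := i.isLt; have := j.isLt
    simp only at hij
    apply Fin.ext; omega
  rw [h2] at h1
  refine lt_of_le_of_lt h1 ?_
  apply Nat.geomSum_lt le_rfl
  intro k hk
  rw [Finset.mem_image] at hk
  obtain ⟨j, hj, rfl⟩ := hk
  rw [mem_dig1] at hj
  have := j.isLt
  omega

lemma dvd_hiN (a : ℕ) (x : Fin M → Bool) : 2 ^ (M - a) ∣ hiN a x := by
  apply Finset.dvd_sum
  intro j hj
  rw [Finset.mem_compl, mem_dig1, not_le] at hj
  split_ifs
  · exact pow_dvd_pow 2 (by omega)
  · exact dvd_zero _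

lemma posN_div {a : ℕ} (ha : a ≤ M) (x : Fin M → Bool) :
    posN x / 2 ^ (M - a) * 2 ^ (M - a) = hiN a x := by
  obtain ⟨q, hq⟩ := dvd_hiN a x
  have hlt := loN_lt ha x
  have hpos : 0 < 2 ^ (M - a) := by positivity
  rw [posN_eq a x, hq]
  have : (2 ^ (M - a) * q + loN a x) / 2 ^ (M - a) = q := by
    rw [Nat.mul_add_div hpos, Nat.div_eq_of_lt hlt, add_zero]
  rw [this, mul_comm]

lemma posN_mod {a : ℕ} (ha : a ≤ M) (x : Fin M → Bool) :
    posN x % 2 ^ (M - a) = loN a x := by
  obtain ⟨q, hq⟩ := dvd_hiN a x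
  have hlt := loN_lt ha x
  rw [posN_eq a x, hq, Nat.mul_add_mod, Nat.mod_eq_of_lt hlt]

lemma hiN_congr {a : ℕ} {x y : Fin M → Bool} (h : ∀ j : Fin M, j.val < a → x j = y j) :
    hiN a x = hiN a y := by
  apply Finset.sum_congr rfl
  intro j hj
  rw [Finset.mem_compl, mem_dig1, not_le] at hj
  rw [h j hj]

lemma loN_congr {a : ℕ} {x y : Fin M → Bool} (h : ∀ j : Fin M, a ≤ j.val → x j = y j) :
    loN a x = loN a y := by
  apply Finset.sum_congr rfl
  intro j hj
  rw [mem_dig1] at hj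
  rw [h j hj]

lemma hiN_mix (a : ℕ) (x y : Fin M → Bool) : hiN a (mix (dig1 a) y x) = hiN a x := by
  apply hiN_congr
  intro j hj
  simp [mix, mem_dig1, not_le.2 hj]

lemma loN_mix (a : ℕ) (x y : Fin M → Bool) : loN a (mix (dig1 a) y x) = loN a y := by
  apply loN_congr
  intro j hj
  simp [mix, mem_dig1, hj]

lemma posN_mix (a : ℕ) (x y : Fin M → Bool) :
    posN (mix (dig1 a) y x) = hiN a x + loN a y := by
  rw [posN_eq a, hiN_mix, loN_mix]

/-- same cell: same quotient -/
lemma agree_of_div_eq {a : ℕ} (ha : a ≤ M) {x y : Fin M → Bool}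
    (h : posN x / 2 ^ (M - a) = posN y / 2 ^ (M - a)) (j : Fin M) (hj : j.val < a) : x j = y j := by
  have h1 : hiN a x = hiN a y := by rw [← posN_div ha, ← posN_div ha, h]
  have h2 : posN (mix (dig1 a) y x) = posN y := by
    rw [posN_mix, h1, ← posN_eq]
  have h3 := posN_injective h2
  have h4 := congrFun h3 j
  simpa [mix, mem_dig1, not_le.2 hj] using h4

lemma Inv.eq_of_div_eq {V : Type} [AddCommGroup V] [Module ℝ V] {a : ℕ} (ha : a ≤ M)
    {f : (Fin M → Bool) → V} (hf : Inv (dig1 a) f) {x y : Fin M → Bool}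
    (h : posN x / 2 ^ (M - a) = posN y / 2 ^ (M - a)) : f x = f y := by
  apply hf
  intro e he
  rw [mem_dig1, not_le] at he
  exact agree_of_div_eq ha h e he

lemma dvd_pow_M {a : ℕ} : 2 ^ (M - a) ∣ 2 ^ M := pow_dvd_pow 2 (Nat.sub_le _ _)

/-- adding a multiple of `b ∣ N` does not change the residue mod `b` of the representative -/
lemma val_add_mul_mod {N b : ℕ} [NeZero N] (hb : b ∣ N) (g : ZMod N) (k : ℤ) :
    (g + ((k * b : ℤ) : ZMod N)).val % b = g.val % b := by
  have key : ∀ h : ZMod N, ((h.val : ℕ) : ZMod b) = ZMod.castHom hb (ZMod b) h := by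
    intro h
    conv_rhs => rw [← ZMod.natCast_zmod_val h]
    rw [map_natCast]
  have h1 : ZMod.castHom hb (ZMod b) (g + ((k * b : ℤ) : ZMod N)) = ZMod.castHom hb (ZMod b) g := by
    rw [map_add, map_intCast]
    push_cast
    simp
  have h2 : (((g + ((k * b : ℤ) : ZMod N)).val : ℕ) : ZMod b) = ((g.val : ℕ) : ZMod b) := by
    rw [key, key, h1]
  exact (ZMod.natCast_eq_natCast_iff' _ _ _).1 h2

/-- moving inside a cell does not change the quotient -/
lemma val_add_div {N b : ℕ} [NeZero N] (hb : b ∣ N) (hb0 : 0 < b) (g : ZMod N) (t : ℤ)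
    (h0 : 0 ≤ (g.val % b : ℕ) + t) (h1 : (g.val % b : ℕ) + t < b) :
    (g + (t : ZMod N)).val / b = g.val / b ∧
      ((g + (t : ZMod N)).val : ℤ) = g.val + t := by
  obtain ⟨q, hq⟩ := hb
  have hg := ZMod.val_lt g
  have hdm := Nat.div_add_mod g.val b
  set c := g.val / b with hc
  set r := g.val % b with hr
  have hcq : c < q := by
    rw [hc]
    rw [Nat.div_lt_iff_lt_mul hb0]
    calc g.val < N := hg
      _ = q * b := by rw [hq, mul_comm]
  -- the natural number `n = g.val + t`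
  obtain ⟨n, hn⟩ : ∃ n : ℕ, (n : ℤ) = (r : ℤ) + t := ⟨((r : ℤ) + t).toNat, Int.toNat_of_nonneg h0⟩
  have hnb : n < b := by
    have : (n : ℤ) < b := by rw [hn]; exact h1
    exact_mod_cast this
  have hval : (g + (t : ZMod N)) = ((b * c + n : ℕ) : ZMod N) := by
    have e1 : g = ((b * c + r : ℕ) : ZMod N) := by
      rw [hdm]; exact (ZMod.natCast_zmod_val g).symm
    conv_lhs => rw [e1]
    have e2 : (t : ℤ) = (n : ℤ) - r := by rw [hn]; ring
    rw [e2]
    push_cast
    ring
  have hlt : b * c + n < N := by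
    rw [hq]
    calc b * c + n < b * c + b := by omega
      _ = b * (c + 1) := by ring
      _ ≤ b * q := Nat.mul_le_mul_left _ hcq
  have hv : (g + (t : ZMod N)).val = b * c + n := by
    rw [hval, ZMod.val_natCast, Nat.mod_eq_of_lt hlt]
  constructor
  · rw [hv, Nat.mul_add_div hb0, Nat.div_eq_of_lt hnb, add_zero]
  · rw [hv]
    push_cast
    rw [hn]
    have : (g.val : ℤ) = b * c + r := by exact_mod_cast hdm.symm
    rw [this]; ring

/-! ### the circle distance -/

lemma cd_nonneg (g : ZMod (2 ^ M)) : 0 ≤ cd g := by unfold cd; positivity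

lemma cd_intCast_le (n : ℤ) : cd (M := M) (n : ZMod (2 ^ M)) ≤ |(n : ℝ)| / 2 ^ M := by
  unfold cd
  apply div_le_div_of_nonneg_right _ (by positivity)
  set N : ℕ := 2 ^ M with hN
  have hN0 : 0 < N := by positivity
  have : NeZero N := ⟨hN0.ne'⟩
  set v : ℕ := ((n : ZMod N)).val with hv
  have hvlt : v < N := ZMod.val_lt _
  have hmod : (v : ℤ) = n % (N : ℤ) := by
    rw [hv]; exact ZMod.val_intCast n
  have hdiv : n = N * (n / N) + v := by
    rw [hmod]; exact (Int.mul_ediv_add_emod n N).symm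
  have hgoal : ((min v (N - v) : ℕ) : ℤ) ≤ |n| := by
    rcases le_or_gt 0 n with hn | hn
    · rw [abs_of_nonneg hn]
      have h1 : (v : ℤ) ≤ n := by
        have : 0 ≤ n / (N : ℤ) := Int.ediv_nonneg hn (by positivity)
        have h2 : 0 ≤ (N : ℤ) * (n / N) := by positivity
        linarith
      have h3 : ((min v (N - v) : ℕ) : ℤ) ≤ v := by exact_mod_cast min_le_left _ _
      linarith
    · rw [abs_of_neg hn]
      have h1 : n / (N : ℤ) ≤ -1 := by
        have := Int.ediv_lt_of_lt_mul (a := n) (b := 0) (c := (N : ℤ)) (by positivity) (by simpa using hn)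
        omega
      have h2 : (N : ℤ) * (n / N) ≤ -N := by nlinarith
      have h4 : ((N - v : ℕ) : ℤ) ≤ -n := by
        rw [Nat.cast_sub hvlt.le]; linarith
      have h3 : ((min v (N - v) : ℕ) : ℤ) ≤ (N - v : ℕ) := by exact_mod_cast min_le_right _ _
      linarith
  have : (((min v (N - v) : ℕ) : ℤ) : ℝ) ≤ ((|n| : ℤ) : ℝ) := by exact_mod_cast hgoal
  simpa using this

/-- points in the same cell of level `a` are close -/
theorem cd_pos_le (a : ℕ) (ha : a ≤ M) (x y : Fin M → Bool) (h : ∀ j : Fin M, j.val < a → x j = y j) :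
    cd (pos x - pos y) ≤ (1 / 2 : ℝ) ^ a := by
  have h1 : pos x - pos y = (((posN x : ℤ) - posN y : ℤ) : ZMod (2 ^ M)) := by
    rw [pos_eq_posN, pos_eq_posN]; push_cast; rfl
  rw [h1]
  refine (cd_intCast_le _).trans ?_
  have h2 : ((posN x : ℤ) - posN y : ℤ) = (loN a x : ℤ) - loN a y := by
    rw [posN_eq a x, posN_eq a y, hiN_congr h]; push_cast; ring
  have hx := loN_lt ha x
  have hy := loN_lt ha y
  have h3 : |((posN x : ℤ) - posN y : ℤ)| ≤ 2 ^ (M - a) := by
    rw [h2, abs_le]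
    have hx' : (loN a x : ℤ) < 2 ^ (M - a) := by exact_mod_cast hx
    have hy' : (loN a y : ℤ) < 2 ^ (M - a) := by exact_mod_cast hy
    constructor <;> omega
  have h4 : |(((posN x : ℤ) - posN y : ℤ) : ℝ)| ≤ 2 ^ (M - a) := by
    rw [← Int.cast_abs]
    exact_mod_cast h3
  rw [div_le_iff₀ (by positivity)]
  refine h4.trans (le_of_eq ?_)
  rw [one_div, inv_pow]
  have : (2 : ℝ) ^ M = 2 ^ a * 2 ^ (M - a) := by rw [← pow_add]; congr 1; omega
  rw [this]
  field_simp

/-- `Av (dig1 a)` is the mean over the interval of length `2 ^ (M - a)` containing the point -/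
lemma sum_range_mod {V : Type} [AddCommGroup V] (b q : ℕ) (φ : ℕ → V) :
    ∑ n ∈ range (q * b), φ (n % b) = q • ∑ i ∈ range b, φ i := by
  induction q with
  | zero => simp
  | succ q ih =>
    rw [Nat.succ_mul, Finset.sum_range_add, ih, succ_nsmul]
    congr 1
    apply Finset.sum_congr rfl
    intro i hi
    rw [Finset.mem_range] at hi
    rw [mul_comm q b, Nat.mul_add_mod, Nat.mod_eq_of_lt hi]

lemma sum_posN {V : Type} [AddCommGroup V] (φ : ℕ → V) :
    ∑ x : Fin M → Bool, φ (posN x) = ∑ n ∈ range (2 ^ M), φ n := by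
  rw [← Fin.sum_univ_eq_sum_range]
  rw [← Equiv.sum_comp (posE (M := M))]
  apply Finset.sum_congr rfl
  intro x _
  rw [posE_val]

lemma Av_dig1 {V : Type} [AddCommGroup V] [Module ℝ V] {a : ℕ} (ha : a ≤ M)
    (f : (Fin M → Bool) → V) (x : Fin M → Bool) :
    Av (dig1 a) f x = ((2 : ℝ) ^ (M - a))⁻¹ • ∑ i ∈ range (2 ^ (M - a)),
      f (pt ((hiN a x + i : ℕ) : ZMod (2 ^ M))) := by
  have h1 : ∀ y, f (mix (dig1 a) y x) = f (pt ((hiN a x + posN y % 2 ^ (M - a) : ℕ) : ZMod (2 ^ M))) := by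
    intro y
    congr 1
    rw [posN_mod ha, ← posN_mix, ← pos_eq_posN, pt_pos]
  simp only [Av, E, h1]
  rw [sum_posN (fun n => f (pt ((hiN a x + n % 2 ^ (M - a) : ℕ) : ZMod (2 ^ M))))]
  have h2 : 2 ^ M = 2 ^ a * 2 ^ (M - a) := by rw [← pow_add]; congr 1; omega
  have h3 : range (2 ^ M) = range (2 ^ a * 2 ^ (M - a)) := by rw [h2]
  rw [h3, sum_range_mod (2 ^ (M - a)) (2 ^ a)
    (fun n => f (pt ((hiN a x + n : ℕ) : ZMod (2 ^ M))))]
  rw [← Nat.cast_smul_eq_nsmul ℝ, smul_smul]
  congr 1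
  have h4 : (Fintype.card (Fin M → Bool) : ℝ) = 2 ^ M := by simp
  rw [h4]
  have h5 : (2 : ℝ) ^ M = 2 ^ a * 2 ^ (M - a) := by exact_mod_cast h2
  rw [h5]
  push_cast
  field_simp

end Pool.Agent.LBern
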