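import Pool.Agent.LBern.Norms
import Pool.Agent.LBern.Pos
import Pool.Agent.LBern.Kernel3

/-!
Kernel bounds on the dyadic grid.
-/

set_option autoImplicit false
set_option linter.unusedSectionVars false
open Finset

namespace Pool.Agent.LBern

variable {M : ℕ}

theorem ch1_eq_ee (k : ℤ) (g : ZMod (2 ^ M)) : ch1 k g = ee (k * (g.val / 2 ^ M : ℝ)) := by
  unfold ch1 ee
  have h : (k : ZMod (2 ^ M)) * g = ((k * (g.val : ℤ) : ℤ) : ZMod (2 ^ M)) := by
    push_cast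
    rw [ZMod.natCast_zmod_val]
  rw [h, ZMod.stdAddChar_coe]
  congr 1
  push_cast
  ring

theorem nd_eq_min (x : ℝ) : nd x = min (Int.fract x) (1 - Int.fract x) := abs_sub_round_eq_min x

theorem nd_add_int (x : ℝ) (n : ℤ) : nd (x + n) = nd x := by
  rw [nd_eq_min, nd_eq_min, Int.fract_add_intCast]

theorem cd_eq (g : ZMod (2 ^ M)) : cd g = nd (g.val / 2 ^ M) := by
  have hlt : g.val < 2 ^ M := ZMod.val_lt g
  have hp : (0:ℝ) < 2 ^ M := by positivity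
  have hlt' : (g.val : ℝ) < 2 ^ M := by exact_mod_cast hlt
  have hfr : Int.fract ((g.val : ℝ) / 2 ^ M) = g.val / 2 ^ M := by
    rw [Int.fract_eq_self]
    exact ⟨by positivity, by rw [div_lt_one hp]; exact hlt'⟩
  rw [nd_eq_min, hfr]
  unfold cd
  rw [Nat.cast_min, Nat.cast_sub hlt.le, Nat.cast_pow, Nat.cast_ofNat, ← min_div_div_right hp.le]
  congr 1
  field_simp

theorem trig_add_int (c : ℤ → ℂ) (x : ℝ) (n : ℤ) : trig c (x + n) = trig c x := by
  unfold trig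
  apply tsum_congr
  intro k
  rw [mul_add, ee_add]
  have : ee ((k:ℝ) * (n:ℝ)) = 1 := by
    have := ee_int (k * n)
    push_cast at this
    exact this
  rw [this, mul_one]

/-- the difference of two grid points -/
theorem exists_shift (g h : ZMod (2 ^ M)) :
    ∃ n : ℤ, |(g.val / 2 ^ M : ℝ) - (h.val / 2 ^ M + n)| = cd (g - h) := by
  have hp : (2 : ℝ) ^ M ≠ 0 := by positivity
  obtain ⟨m, hm⟩ : ∃ m : ℤ, ((g - h).val : ℤ) = g.val - h.val + m * 2 ^ M := by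
    have h1 : (((g - h).val : ℤ) : ZMod (2 ^ M)) = (((g.val : ℤ) - (h.val : ℤ) : ℤ) : ZMod (2 ^ M)) := by
      push_cast
      rw [ZMod.natCast_zmod_val, ZMod.natCast_zmod_val, ZMod.natCast_zmod_val]
    rw [ZMod.intCast_eq_intCast_iff_dvd_sub] at h1
    obtain ⟨c, hc⟩ := h1
    push_cast at hc
    exact ⟨-c, by linarith⟩
  have hm' : ((g - h).val : ℝ) = g.val - h.val + m * 2 ^ M := by exact_mod_cast hm
  refine ⟨round ((g.val / 2 ^ M : ℝ) - h.val / 2 ^ M), ?_⟩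
  rw [cd_eq, hm']
  have : ((g.val : ℝ) - h.val + m * 2 ^ M) / 2 ^ M = ((g.val / 2 ^ M : ℝ) - h.val / 2 ^ M) + m := by
    field_simp
  rw [this, nd_add_int]
  unfold nd
  congr 1
  ring

theorem cd_le_add (g h : ZMod (2 ^ M)) : cd g ≤ cd h + cd (g - h) := by
  obtain ⟨n, hn⟩ := exists_shift g h
  rw [← hn, cd_eq, cd_eq, ← nd_add_int (h.val / 2 ^ M : ℝ) n]
  exact nd_le_add _ _

theorem ph_eq {a : ℕ} (ha : 1 ≤ a) (M : ℕ) (k : ℤ) : ph M a k = phiL (M - a) (k / 2 ^ a) := by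
  unfold ph phiL
  rw [Finset.prod_Ico_eq_prod_range, if_neg (by omega)]
  congr 1
  · congr 2; ring
  · apply prod_congr rfl
    intro i _
    congr 2
    rw [show a + i + 1 = a + (i + 1) by ring, pow_add]
    field_simp

theorem sum_eq_trig {Θ : ℝ → ℂ} (hsupp : ∀ ξ, Θ ξ ≠ 0 → 1 / 8 ≤ |ξ| ∧ |ξ| ≤ 1 / 2) (j : ℕ)
    {M a : ℕ} (ha : 1 ≤ a) {R : ℤ} (hR : 2 ^ a ≤ R) (g : ZMod (2 ^ M)) :
    ∑ k ∈ Icc (-R) R, Θ ((k:ℝ) / 2 ^ a) / ((ph M a k : ℝ) : ℂ) ^ j * ch1 k g =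
      trig (fun k => Θ (k / 2 ^ a) / ((phiL (M - a) (k / 2 ^ a) : ℝ) : ℂ) ^ j) (g.val / 2 ^ M) := by
  rw [trig_eq_sum (s := Icc (-R) R)]
  · apply sum_congr rfl
    intro k _
    rw [ph_eq ha, ch1_eq_ee]
  · intro k hk
    have : Θ (k / 2 ^ a) = 0 := by
      by_contra hne
      apply hk
      have h1 := (hsupp _ hne).2
      have hp : (0:ℝ) < 2 ^ a := by positivity
      have hR' : (2:ℝ) ^ a ≤ (R : ℝ) := by exact_mod_cast hR
      rw [abs_div, abs_of_pos hp, div_le_iff₀ hp, abs_le] at h1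
      rw [mem_Icc]
      constructor
      · have : ((-R : ℤ) : ℝ) ≤ (k : ℝ) := by push_cast; nlinarith [h1.1]
        exact_mod_cast this
      · have : (k : ℝ) ≤ (R : ℝ) := by nlinarith [h1.2]
        exact_mod_cast this
    rw [this, zero_div]

/-- **Kernel bounds on the grid**, uniform in the depth `M` and the level `a`. -/
theorem kern_grid (Θ : ℝ → ℂ) (hΘ : ContDiff ℝ 3 Θ)
    (hs : ∀ ξ, Θ ξ ≠ 0 → 1 / 8 ≤ |ξ| ∧ |ξ| ≤ 1 / 2) (j : ℕ) :
    ∃ C : ℝ, 0 < C ∧ ∀ (M a : ℕ), 1 ≤ a → a ≤ M → ∀ R : ℤ, 2 ^ a ≤ R →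
      KB a C (fun g : ZMod (2 ^ M) =>
        ∑ k ∈ Finset.Icc (-R) R, Θ ((k : ℝ) / 2 ^ a) / ((ph M a k : ℝ) : ℂ) ^ j * ch1 k g) := by
  obtain ⟨C, hC, hker⟩ := kernel_family hΘ hs j
  refine ⟨C + 1, by linarith, ?_⟩
  intro M a ha _ R hRa
  have hR : (1:ℝ) ≤ 2 ^ a := one_le_pow₀ (by norm_num)
  obtain ⟨h1, h2⟩ := hker (M - a) (2 ^ a) hR
  have hwg : ∀ g : ZMod (2 ^ M), 0 ≤ wg a g := by
    intro g
    unfold wg
    have := cd_nonneg g
    positivity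
  constructor
  · intro g
    beta_reduce
    rw [sum_eq_trig hs j ha hRa]
    refine (h1 _).trans ?_
    have : C * 2 ^ a / (1 + 2 ^ a * nd (g.val / 2 ^ M)) ^ 3 = C * wg a g := by
      unfold wg
      rw [cd_eq]
      ring
    rw [this]
    have := hwg g
    nlinarith
  · intro g h hgh
    beta_reduce
    rw [sum_eq_trig hs j ha hRa, sum_eq_trig hs j ha hRa]
    obtain ⟨n, hn⟩ := exists_shift g h
    rw [← trig_add_int _ (h.val / 2 ^ M : ℝ) n]
    refine (h2 _ _ ?_).trans ?_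
    · rw [hn]
      refine hgh.trans (le_of_eq ?_)
      rw [one_div, one_div, inv_pow]
    · rw [hn]
      have : C * (2 ^ a) ^ 2 * cd (g - h) / (1 + 2 ^ a * nd (g.val / 2 ^ M)) ^ 3 =
          C * 2 ^ a * cd (g - h) * wg a g := by
        unfold wg
        rw [cd_eq g]
        ring
      rw [this]
      have h3 := hwg g
      have h4 := cd_nonneg (g - h)
      have : 0 ≤ 2 ^ a * cd (g - h) * wg a g := by positivity
      nlinarith

theorem cd_le_half (g : ZMod (2 ^ M)) : cd g ≤ 1 / 2 := by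
  rw [cd_eq]
  exact nd_le_half _

theorem wg_nonneg (a : ℕ) (g : ZMod (2 ^ M)) : 0 ≤ wg a g := by
  unfold wg
  have h : 0 ≤ cd g := cd_nonneg g
  positivity

/-- level zero -/
theorem kern_zero (M : ℕ) : KB 0 8 (fun _ : ZMod (2 ^ M) => (1 : ℂ)) := by
  constructor
  · intro g
    rw [norm_one]
    unfold wg
    have h1 := cd_le_half g
    have h0 := cd_nonneg g
    have h2 : (1 + 2 ^ 0 * cd g) ^ 3 ≤ 8 := by
      have : (1 + 2 ^ 0 * cd g) ≤ 2 := by linarith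
      calc (1 + 2 ^ 0 * cd g) ^ 3 ≤ 2 ^ 3 := pow_le_pow_left₀ (by positivity) this 3
        _ = 8 := by norm_num
    have h3 : (0:ℝ) < (1 + 2 ^ 0 * cd g) ^ 3 := by positivity
    rw [pow_zero, mul_one_div, le_div_iff₀ (by simpa using h3)]
    simpa using h2
  · intro g h _
    rw [sub_self, norm_zero]
    have h0 := cd_nonneg (g - h)
    have h1 := wg_nonneg 0 g
    positivity

/-- the weight varies slowly -/
theorem wg_slow (a : ℕ) {g h : ZMod (2 ^ M)} (hgh : cd (h - g) ≤ (1 / 2 : ℝ) ^ a) :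
    wg a g ≤ 8 * wg a h := by
  unfold wg
  have h0 := cd_nonneg g
  have h0' := cd_nonneg h
  have h1 := cd_le_add h g
  have hp : (0:ℝ) < 2 ^ a := by positivity
  have h2 : 2 ^ a * cd h ≤ 2 ^ a * cd g + 1 := by
    have h3 : (2:ℝ) ^ a * (1 / 2) ^ a = 1 := by rw [← mul_pow]; norm_num
    calc 2 ^ a * cd h ≤ 2 ^ a * (cd g + cd (h - g)) := mul_le_mul_of_nonneg_left h1 hp.le
      _ ≤ 2 ^ a * (cd g + (1 / 2) ^ a) := by
          apply mul_le_mul_of_nonneg_left _ hp.le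
          linarith
      _ = _ := by rw [mul_add, h3]
  have h4 : (1 + 2 ^ a * cd h) ^ 3 ≤ 8 * (1 + 2 ^ a * cd g) ^ 3 := by
    have : 1 + 2 ^ a * cd h ≤ 2 * (1 + 2 ^ a * cd g) := by
      have : 0 ≤ 2 ^ a * cd g := by positivity
      linarith
    calc (1 + 2 ^ a * cd h) ^ 3 ≤ (2 * (1 + 2 ^ a * cd g)) ^ 3 :=
          pow_le_pow_left₀ (by positivity) this 3
      _ = _ := by ring
  have h5 : (0:ℝ) < (1 + 2 ^ a * cd g) ^ 3 := by positivity
  have h6 : (0:ℝ) < (1 + 2 ^ a * cd h) ^ 3 := by positivity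
  rw [← mul_div_assoc, div_le_div_iff₀ h5 h6]
  nlinarith

end Pool.Agent.LBern
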