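import Pool.Agent.LBern.Fin0
import Pool.Agent.LBern.KernGrid

/-!
The dyadic decomposition of a trigonometric polynomial with frequencies in the hyperbolic cross.
-/

set_option autoImplicit false
set_option linter.unusedSectionVars false

namespace Pool.Agent.LBern

open Finset

/-- multiplier `η`: `η_0 = 1_{k = 0}`, `η_a (k) = Ψ (k / 2^a)` -/
noncomputable def etaM (a : ℕ) (k : ℤ) : ℂ :=
  if a = 0 then (if k = 0 then 1 else 0) else ((Psi ((k : ℝ) / 2 ^ a) : ℝ) : ℂ)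

/-- multiplier of the dyadic piece of the derivative -/
noncomputable def psiM (r α : ℝ) (a : ℕ) (k : ℤ) : ℂ :=
  if a = 0 then (if k = 0 then 1 else 0) else psiR r α ((k : ℝ) / 2 ^ a)

theorem etaM_ne_zero {a : ℕ} {k : ℤ} (h : etaM a k ≠ 0) : 2 ^ a ≤ 8 * max |k| 1 := by
  unfold etaM at h
  split_ifs at h with h0 h1
  · subst h0
    have := le_max_right |k| 1
    simp only [pow_zero]
    linarith
  · exact absurd rfl h
  · have h2 : Psi ((k : ℝ) / 2 ^ a) ≠ 0 := by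
      intro h3
      apply h
      rw [h3]
      simp
    have h3 := (Psi_supp h2).1
    have hp : (0:ℝ) < 2 ^ a := by positivity
    rw [abs_div, abs_of_pos hp, le_div_iff₀ hp] at h3
    have h4 : (2:ℝ) ^ a ≤ 8 * |(k:ℝ)| := by linarith
    have h5 : (2:ℤ) ^ a ≤ 8 * |k| := by exact_mod_cast h4
    have := le_max_left |k| 1
    linarith

theorem sum_etaM {m : ℕ} {k : ℤ} (hk : 4 * |k| ≤ 2 ^ m) :
    ∑ a ∈ range (m + 1), etaM a k = 1 := by
  rw [sum_range_succ']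
  by_cases h0 : k = 0
  · subst h0
    have h1 : etaM 0 0 = 1 := by simp [etaM]
    have h2 : ∀ a ∈ range m, etaM (a + 1) 0 = 0 := by
      intro a _
      simp [etaM, Psi_zero]
    rw [sum_eq_zero h2, h1, zero_add]
  · have h1 : etaM 0 k = 0 := by simp [etaM, h0]
    have h2 : ∀ a ∈ range m, etaM (a + 1) k = ((Psi ((k:ℝ) / 2 ^ (a + 1)) : ℝ) : ℂ) := by
      intro a _
      simp [etaM]
    rw [h1, add_zero, sum_congr rfl h2, ← Complex.ofReal_sum, sum_Psi_int h0]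
    · simp
    · exact_mod_cast hk

theorem mem_Gam_aux {d N : ℕ} {k : Fin d → ℤ} (hk : k ∈ Gam d N) :
    (∀ i, |k i| ≤ N) ∧ ∏ j, max |k j| 1 ≤ (N : ℤ) := by
  unfold Gam at hk
  rw [mem_filter, Fintype.mem_piFinset] at hk
  refine ⟨fun i => ?_, hk.2⟩
  have := hk.1 i
  rw [mem_Icc] at this
  exact abs_le.mpr this

/-- only the levels of weight at most `n + 3 d` matter -/
theorem prod_etaM_ne_zero {d n N : ℕ} (hN : N ≤ 2 ^ n) {k : Fin d → ℤ} (hk : k ∈ Gam d N)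
    {a : Fin d → ℕ} (h : ∏ i, etaM (a i) (k i) ≠ 0) : wt a ≤ n + 3 * d := by
  have h1 : ∀ i, (2:ℤ) ^ a i ≤ 8 * max |k i| 1 := by
    intro i
    exact etaM_ne_zero (fun h0 => h (prod_eq_zero (mem_univ i) h0))
  have h2 : ∏ i, (2:ℤ) ^ a i ≤ ∏ i, (8 * max |k i| 1) :=
    prod_le_prod (fun i _ => by positivity) (fun i _ => h1 i)
  rw [prod_pow_eq_pow_sum, prod_mul_distrib, prod_const, card_univ, Fintype.card_fin] at h2
  have h3 : (8:ℤ) ^ d * ∏ i, max |k i| 1 ≤ 8 ^ d * 2 ^ n := by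
    apply mul_le_mul_of_nonneg_left _ (by positivity)
    refine (mem_Gam_aux hk).2.trans ?_
    exact_mod_cast hN
  have h4 : (2:ℤ) ^ (wt a) ≤ 2 ^ (n + 3 * d) := by
    calc (2:ℤ) ^ (wt a) ≤ 8 ^ d * ∏ i, max |k i| 1 := h2
      _ ≤ 8 ^ d * 2 ^ n := h3
      _ = 2 ^ (n + 3 * d) := by
          rw [pow_add, pow_mul]
          norm_num
          ring
  exact (pow_le_pow_iff_right₀ (by norm_num : (1:ℤ) < 2)).mp h4

theorem abs_le_of_mem_Gam {d n N M : ℕ} (hN : N ≤ 2 ^ n) (hM : n + 2 ≤ M) {k : Fin d → ℤ}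
    (hk : k ∈ Gam d N) (i : Fin d) : 4 * |k i| ≤ 2 ^ M := by
  have h1 := (mem_Gam_aux hk).1 i
  have h2 : (N : ℤ) ≤ 2 ^ n := by exact_mod_cast hN
  calc 4 * |k i| ≤ 2 ^ 2 * 2 ^ n := by linarith
    _ = 2 ^ (n + 2) := by rw [pow_add]; ring
    _ ≤ 2 ^ M := pow_le_pow_right₀ (by norm_num) hM

/-- the blocks of `t` sum to `t` -/
theorem eta_sum (d M n N : ℕ) (hN : N ≤ 2 ^ n) (hM : n + 3 * d + 2 ≤ M) (k : Fin d → ℤ)
    (hk : k ∈ Gam d N) :
    ∑ a ∈ (lev d M).filter (fun a => wt a ≤ n + 3 * d), ∏ i, etaM (a i) (k i) = 1 := by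
  rw [sum_filter_of_ne]
  · unfold lev
    rw [← prod_univ_sum (fun _ : Fin d => range (M + 1)) (fun i a => etaM a (k i))]
    apply prod_eq_one
    intro i _
    exact sum_etaM (abs_le_of_mem_Gam hN (by omega) hk i)
  · intro a _ h
    exact prod_etaM_ne_zero hN hk h

theorem psiM_eq (r α : ℝ) (a : ℕ) (k : ℤ) :
    ((((2 : ℝ) ^ a) ^ r : ℝ) : ℂ) * psiM r α a k = etaM a k * mu r α k := by
  unfold psiM etaM mu
  by_cases ha : a = 0
  · subst ha
    by_cases hk : k = 0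
    · simp [hk]
    · simp [hk]
  · rw [if_neg ha, if_neg ha]
    by_cases hk : k = 0
    · subst hk
      simp [psiR, Psi_zero]
    · rw [if_neg hk]
      unfold psiR
      have hp : (0:ℝ) < 2 ^ a := by positivity
      have hk' : (k : ℝ) ≠ 0 := by exact_mod_cast hk
      have h1 : SignType.sign ((k:ℝ) / 2 ^ a) = SignType.sign (k:ℝ) := by
        rcases lt_or_gt_of_ne hk' with h | h
        · rw [sign_neg h, sign_neg (div_neg_of_neg_of_pos h hp)]
        · rw [sign_pos h, sign_pos (div_pos h hp)]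
      have h2 : |(k:ℝ) / 2 ^ a| ^ r = |(k:ℝ)| ^ r / ((2:ℝ) ^ a) ^ r := by
        rw [abs_div, abs_of_pos hp, Real.div_rpow (abs_nonneg _) hp.le]
      have h3 : ((((2 : ℝ) ^ a) ^ r : ℝ) : ℂ) ≠ 0 := by
        exact_mod_cast (Real.rpow_pos_of_pos hp r).ne'
      rw [h1, h2, mul_comm Complex.I]
      push_cast
      field_simp

/-- dyadic decomposition of the multiplier of the derivative -/
theorem psi_sum (d M n N : ℕ) (hN : N ≤ 2 ^ n) (hM : n + 3 * d + 2 ≤ M) (r : ℝ) (α : Fin d → ℝ)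
    (k : Fin d → ℤ) (hk : k ∈ Gam d N) :
    ∑ a ∈ (lev d M).filter (fun a => wt a ≤ n + 3 * d),
      ((((2 : ℝ) ^ wt a) ^ r : ℝ) : ℂ) * ∏ i, psiM r (α i) (a i) (k i) = muv r α k := by
  have h1 : ∀ a : Fin d → ℕ, ((((2 : ℝ) ^ wt a) ^ r : ℝ) : ℂ) * ∏ i, psiM r (α i) (a i) (k i) =
      (∏ i, etaM (a i) (k i)) * muv r α k := by
    intro a
    have h2 : (((2 : ℝ) ^ wt a) ^ r : ℝ) = ∏ i, (((2 : ℝ) ^ a i) ^ r) := by
      unfold wt
      rw [← prod_pow_eq_pow_sum, Real.finsetProd_rpow]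
      intro i _
      positivity
    rw [h2, Complex.ofReal_prod, ← prod_mul_distrib]
    unfold muv
    rw [← prod_mul_distrib]
    apply prod_congr rfl
    intro i _
    exact psiM_eq r (α i) (a i) (k i)
  rw [sum_congr rfl (fun a _ => h1 a), ← sum_mul, eta_sum d M n N hN hM k hk, one_mul]

/-- general one dimensional multiplier -/
noncomputable def thM (Θ : ℝ → ℂ) (a : ℕ) (k : ℤ) : ℂ :=
  if a = 0 then (if k = 0 then 1 else 0) else Θ ((k : ℝ) / 2 ^ a)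

theorem ph_zero (M : ℕ) : ph M 0 0 = 1 := by
  simp [ph]

theorem ph_ne_zero {Θ : ℝ → ℂ} (hs : ∀ ξ, Θ ξ ≠ 0 → 1 / 8 ≤ |ξ| ∧ |ξ| ≤ 1 / 2) (M : ℕ) {a : ℕ}
    {k : ℤ} (h : thM Θ a k ≠ 0) : ((ph M a k : ℝ) : ℂ) ≠ 0 := by
  unfold thM at h
  split_ifs at h with h0 h1
  · subst h0 h1
    rw [ph_zero]
    simp
  · exact absurd rfl h
  · rw [ph_eq (by omega)]
    obtain ⟨h2, h3⟩ := hs _ h
    have h4 := sin_ne_zero_of_mem h2 h3
    have hid := phiL_mul (M - a) ((k : ℝ) / 2 ^ a)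
    intro h5
    have h6 : phiL (M - a) ((k : ℝ) / 2 ^ a) = 0 := by exact_mod_cast h5
    rw [h6, zero_mul] at hid
    exact pow_ne_zero 4 h4 hid.symm

theorem KB.mono {M a : ℕ} {C C' : ℝ} {K : ZMod (2 ^ M) → ℂ} (h : KB a C K) (hC : C ≤ C') :
    KB a C' K := by
  constructor
  · intro g
    refine (h.1 g).trans ?_
    exact mul_le_mul_of_nonneg_right hC (wg_nonneg _ _)
  · intro g g' hg
    refine (h.2 g g' hg).trans ?_
    have h1 := cd_nonneg (g - g')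
    have h2 := wg_nonneg a g
    have : 0 ≤ 2 ^ a * cd (g - g') * wg a g := by positivity
    nlinarith

/-- the statement of the block lemma -/
def BlkCv (d : ℕ) : Prop :=
  ∀ C : ℝ, 0 < C → ∃ B : ℝ, 0 < B ∧ ∀ (M : ℕ) (a : Fin d → ℕ),
    a ∈ lev d M → ∀ (K1 : Fin d → ZMod (2 ^ M) → ℂ), (∀ i, KB (a i) C (K1 i)) →
    ∀ f : Gr d M → ℂ, Blk B a f (cv (fun g => ∏ i, K1 i (g i)) a f)

theorem tp_box {d M : ℕ} (R : ℤ) (κ : Fin d → ℤ → ℂ) (g : Gr d M) :
    tp (Fintype.piFinset fun _ => Icc (-R) R) (fun k => ∏ i, κ i (k i)) g =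
      ∏ i, ∑ k ∈ Icc (-R) R, κ i k * ch1 k (g i) := by
  unfold tp ch
  rw [prod_univ_sum]
  apply sum_congr rfl
  intro k _
  rw [prod_mul_distrib]

theorem blk_gen {d : ℕ} (hcv : BlkCv d) (Θ : Fin d → ℝ → ℂ) (hΘ : ∀ i, ContDiff ℝ 3 (Θ i))
    (hs : ∀ i ξ, Θ i ξ ≠ 0 → 1 / 8 ≤ |ξ| ∧ |ξ| ≤ 1 / 2) (j : ℕ) :
    ∃ B : ℝ, 0 < B ∧ ∀ (M n N : ℕ), N ≤ 2 ^ n → n + 3 * d + 2 ≤ M →
    ∀ (c : (Fin d → ℤ) → ℂ), ∀ a ∈ lev d M, wt a ≤ n + 3 * d →
    Blk (M := M) B a (tp (Gam d N) c) (tp (Gam d N) fun k =>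
      c k * ∏ i, (thM (Θ i) (a i) (k i) / ((ph M (a i) (k i) : ℝ) : ℂ) ^ j *
        ((ph M (a i) (k i) : ℝ) : ℂ))) := by
  choose C hC hKB using fun i => kern_grid (Θ i) (hΘ i) (hs i) j
  obtain ⟨B, hB, hblk⟩ := hcv (8 + ∑ i, C i)
    (by have := sum_nonneg (fun i (_ : i ∈ univ) => (hC i).le); linarith)
  refine ⟨B, hB, ?_⟩
  intro M n N hN hM c a ha hwt
  have haM : ∀ i, a i ≤ M := by
    intro i
    simp only [lev, Fintype.mem_piFinset, mem_range] at ha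
    have := ha i
    omega
  have hawt : ∀ i, a i ≤ n + 3 * d := fun i =>
    (single_le_sum (fun _ _ => Nat.zero_le _) (mem_univ i)).trans hwt
  set R : ℤ := 2 ^ (n + 3 * d) with hR
  have hK : ∀ i, KB (a i) (8 + ∑ i, C i) (fun g : ZMod (2 ^ M) =>
      ∑ k ∈ Icc (-R) R, thM (Θ i) (a i) k / ((ph M (a i) k : ℝ) : ℂ) ^ j * ch1 k g) := by
    intro i
    by_cases h0 : a i = 0
    · have h1 : (fun g : ZMod (2 ^ M) =>
          ∑ k ∈ Icc (-R) R, thM (Θ i) (a i) k / ((ph M (a i) k : ℝ) : ℂ) ^ j * ch1 k g) =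
          fun _ => 1 := by
        funext g
        rw [h0, sum_eq_single 0]
        · simp [thM, ph_zero, ch1, AddChar.map_zero_eq_one]
        · intro k _ hk
          simp [thM, hk]
        · intro h
          exfalso
          apply h
          rw [mem_Icc, hR]
          constructor
          · have : (0:ℤ) ≤ 2 ^ (n + 3 * d) := by positivity
            linarith
          · positivity
      rw [h1, h0]
      apply (kern_zero M).mono
      have := sum_nonneg (fun i (_ : i ∈ univ) => (hC i).le)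
      linarith
    · have h1 := hKB i M (a i) (by omega) (haM i) R (by
        rw [hR]
        exact pow_le_pow_right₀ (by norm_num) (hawt i))
      have h2 : (fun g : ZMod (2 ^ M) =>
          ∑ k ∈ Icc (-R) R, thM (Θ i) (a i) k / ((ph M (a i) k : ℝ) : ℂ) ^ j * ch1 k g) =
          fun g : ZMod (2 ^ M) => ∑ k ∈ Icc (-R) R,
            Θ i ((k : ℝ) / 2 ^ a i) / ((ph M (a i) k : ℝ) : ℂ) ^ j * ch1 k g := by
        funext g
        apply sum_congr rfl
        intro k _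
        simp [thM, h0]
      rw [h2]
      apply h1.mono
      have h3 := single_le_sum (f := C) (fun i (_ : i ∈ univ) => (hC i).le) (mem_univ i)
      linarith
  have h1 := hblk M a ha _ hK (tp (Gam d N) c)
  have h2 : cv (fun g : Gr d M => ∏ i, ∑ k ∈ Icc (-R) R,
        thM (Θ i) (a i) k / ((ph M (a i) k : ℝ) : ℂ) ^ j * ch1 k (g i)) a (tp (Gam d N) c) =
      tp (Gam d N) fun k => c k * ∏ i, (thM (Θ i) (a i) (k i) / ((ph M (a i) (k i) : ℝ) : ℂ) ^ j *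
        ((ph M (a i) (k i) : ℝ) : ℂ)) := by
    funext g
    unfold cv
    have h3 : (fun g : Gr d M => ∏ i, ∑ k ∈ Icc (-R) R,
        thM (Θ i) (a i) k / ((ph M (a i) k : ℝ) : ℂ) ^ j * ch1 k (g i)) =
        tp (Fintype.piFinset fun _ => Icc (-R) R) (fun k => ∏ i,
          (thM (Θ i) (a i) (k i) / ((ph M (a i) (k i) : ℝ) : ℂ) ^ j)) := by
      funext g
      exact (tp_box R (fun i k => thM (Θ i) (a i) k / ((ph M (a i) k : ℝ) : ℂ) ^ j) g).symm
    rw [h3]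
    rw [repr_formula ha]
    · congr 1
      funext k
      congr 1
      rw [Complex.ofReal_prod, ← prod_mul_distrib]
    · intro k hk
      rw [Fintype.mem_piFinset]
      intro i
      rw [mem_Icc, ← abs_le]
      have h4 := (mem_Gam_aux hk).1 i
      refine h4.trans ?_
      rw [hR]
      calc (N:ℤ) ≤ 2 ^ n := by exact_mod_cast hN
        _ ≤ 2 ^ (n + 3 * d) := pow_le_pow_right₀ (by norm_num) (by omega)
    · intro k hk i
      rw [Fintype.mem_piFinset] at hk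
      have h4 := hk i
      rw [mem_Icc, ← abs_le] at h4
      refine h4.trans_lt ?_
      rw [hR]
      exact pow_lt_pow_right₀ (by norm_num) (by omega)
    · omega
  rw [h2] at h1
  exact h1

theorem psiM_div_ph (r α : ℝ) (M a : ℕ) (_ha : a ≤ M) (k : ℤ) :
    psiM r α a k / ((ph M a k : ℝ) : ℂ) * ((ph M a k : ℝ) : ℂ) = psiM r α a k := by
  by_cases h : psiM r α a k = 0
  · rw [h]; simp
  · rw [div_mul_cancel₀]
    exact ph_ne_zero (Θ := psiR r α) (fun ξ h => psiR_supp h) M h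

/-- the blocks of `t` are blocks in the sense of `Blk` -/
theorem blk_eta_of {d : ℕ} (hcv : BlkCv d) :
    ∃ B : ℝ, 0 < B ∧ ∀ (M n N : ℕ), N ≤ 2 ^ n → n + 3 * d + 2 ≤ M →
    ∀ (c : (Fin d → ℤ) → ℂ), ∀ a ∈ lev d M, wt a ≤ n + 3 * d →
    Blk (M := M) B a (tp (Gam d N) c) (tp (Gam d N) fun k => c k * ∏ i, etaM (a i) (k i)) := by
  obtain ⟨B, hB, h⟩ := blk_gen hcv (fun _ ξ => (Psi ξ : ℂ)) (fun _ => PsiC_contDiff)
    (fun _ ξ h => Psi_supp (by exact_mod_cast h)) 1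
  refine ⟨B, hB, ?_⟩
  intro M n N hN hM c a ha hwt
  have h1 := h M n N hN hM c a ha hwt
  have h2 : ∀ (a : ℕ) (k : ℤ), thM (fun ξ => (Psi ξ : ℂ)) a k / ((ph M a k : ℝ) : ℂ) ^ 1 *
      ((ph M a k : ℝ) : ℂ) = etaM a k := by
    intro a k
    have h3 : thM (fun ξ => (Psi ξ : ℂ)) a k = etaM a k := rfl
    rw [pow_one]
    by_cases h4 : etaM a k = 0
    · rw [h3, h4]; simp
    · rw [div_mul_cancel₀, h3]
      exact ph_ne_zero (Θ := fun ξ => (Psi ξ : ℂ)) (fun ξ h => Psi_supp (by exact_mod_cast h)) M h4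
  simp only [h2] at h1
  exact h1

/-- the functions `h_a = (ψ_a / ph_a)(D) t` are blocks -/
theorem blk_psi_of {d : ℕ} (hcv : BlkCv d) (r : ℝ) (α : Fin d → ℝ) :
    ∃ B : ℝ, 0 < B ∧ ∀ (M n N : ℕ), N ≤ 2 ^ n →
    n + 3 * d + 2 ≤ M → ∀ (c : (Fin d → ℤ) → ℂ), ∀ a ∈ lev d M, wt a ≤ n + 3 * d →
    Blk (M := M) B a (tp (Gam d N) c) (tp (Gam d N) fun k =>
      c k * ∏ i, (psiM r (α i) (a i) (k i) / ((ph M (a i) (k i) : ℝ) : ℂ))) := by
  obtain ⟨B, hB, h⟩ := blk_gen hcv (fun i => psiR r (α i)) (fun i => psiR_contDiff r (α i))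
    (fun i ξ h => psiR_supp h) 2
  refine ⟨B, hB, ?_⟩
  intro M n N hN hM c a ha hwt
  have h1 := h M n N hN hM c a ha hwt
  have h2 : ∀ (i : Fin d) (a : ℕ) (k : ℤ), thM (psiR r (α i)) a k / ((ph M a k : ℝ) : ℂ) ^ 2 *
      ((ph M a k : ℝ) : ℂ) = psiM r (α i) a k / ((ph M a k : ℝ) : ℂ) := by
    intro i a k
    have h3 : thM (psiR r (α i)) a k = psiM r (α i) a k := rfl
    rw [h3]
    by_cases h4 : ((ph M a k : ℝ) : ℂ) = 0
    · rw [h4]; simp
    · field_simp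
  simp only [h2] at h1
  exact h1

end Pool.Agent.LBern
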