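import Pool.Agent.LBern.Fin0

/-!
The definitions of the final statement.
-/

set_option linter.unusedSectionVars false

namespace Pool.Agent.LBern

open Finset MeasureTheory

/-- the hyperbolic cross `Γ(N)` as a set -/
def cross (d N : ℕ) : Set (Fin d → ℤ) := {k | ∏ j, max |k j| 1 ≤ (N : ℤ)}

/-- the trigonometric polynomial with coefficients `c` on the hyperbolic cross `Γ(N)` -/
noncomputable def poly (d N : ℕ) (c : (Fin d → ℤ) → ℂ) (x : Fin d → ℝ) : ℂ :=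
  ∑ k ∈ Gam d N, c k * Complex.exp (Complex.I * ∑ j, (k j : ℂ) * (x j : ℂ))

/-- the normalised `L_1` norm on the torus `[0, 2π]^d` -/
noncomputable def norm1 (d : ℕ) (f : (Fin d → ℝ) → ℂ) : ℝ :=
  ((2 * Real.pi) ^ d)⁻¹ * ∫ x in Set.pi Set.univ (fun _ => Set.Icc (0 : ℝ) (2 * Real.pi)), ‖f x‖

/-- the ratios `‖t^{(r)}(·, α)‖_1 / ‖t‖_1`, `t ≠ 0` in `T(N)` -/
noncomputable def ratios (d : ℕ) (r : ℝ) (α : Fin d → ℝ) (N : ℕ) : Set ℝ :=
  {ρ | ∃ c : (Fin d → ℤ) → ℂ, poly d N c ≠ 0 ∧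
    ρ = norm1 d (poly d N fun k => c k * muv r α k) / norm1 d (poly d N c)}

/-- the quantity `B_1(N)` -/
noncomputable def B1 (d : ℕ) (r : ℝ) (α : Fin d → ℝ) (N : ℕ) : ℝ := sSup (ratios d r α N)

end Pool.Agent.LBern
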