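import Pool.Agent.LBern.FinDefs

/-!
The passage from the grid to the torus, and the final theorem from the discrete inequality.
-/

set_option linter.unusedSectionVars false

namespace Pool.Agent.LBern

open Finset MeasureTheory

theorem mem_Gam (d N : ℕ) (k : Fin d → ℤ) : k ∈ Gam d N ↔ k ∈ cross d N := by
  unfold Gam cross
  rw [mem_filter]
  constructor
  · exact fun h => h.2
  · intro h
    have h : ∏ j, max |k j| 1 ≤ (N : ℤ) := h
    refine ⟨?_, h⟩
    rw [Fintype.mem_piFinset]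
    intro i
    have h1 : max |k i| 1 ≤ ∏ j, max |k j| 1 := by
      rw [← Finset.mul_prod_erase univ (fun j => max |k j| 1) (mem_univ i)]
      have h2 : (1 : ℤ) ≤ ∏ j ∈ univ.erase i, max |k j| 1 :=
        Finset.one_le_prod (fun j _ => le_max_right _ _)
      have h3 : (1 : ℤ) ≤ max |k i| 1 := le_max_right _ _
      nlinarith
    have h2 : |k i| ≤ N := (le_max_left _ _).trans (h1.trans h)
    rw [Finset.mem_Icc]
    exact abs_le.1 h2

/-! ### translation invariance -/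

/-- functions which come from the torus -/
def FromT {d : ℕ} (f : (Fin d → ℝ) → ℝ) : Prop :=
  ∃ F : (Fin d → AddCircle (2 * Real.pi)) → ℝ, Continuous F ∧
    ∀ x, f x = F (fun i => (x i : AddCircle (2 * Real.pi)))

instance : Fact (0 < 2 * Real.pi) := ⟨Real.two_pi_pos⟩

/-- the box -/
abbrev Bx (d : ℕ) : Set (Fin d → ℝ) := Set.pi Set.univ (fun _ => Set.Icc (0 : ℝ) (2 * Real.pi))

lemma Bx_eq (d : ℕ) : Bx d = Set.Icc (fun _ : Fin d => (0 : ℝ)) (fun _ => 2 * Real.pi) := by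
  rw [← Set.pi_univ_Icc]

lemma integral_box {d : ℕ} (F : (Fin d → AddCircle (2 * Real.pi)) → ℝ) (hF : Continuous F) :
    ∫ x in Bx d, F (fun i => (x i : AddCircle (2 * Real.pi))) =
    ∫ y, F y ∂(Measure.pi fun _ : Fin d => (volume : Measure (AddCircle (2 * Real.pi)))) := by
  have hmp := measurePreserving_pi
    (fun _ : Fin d => (volume : Measure ℝ).restrict (Set.Ioc 0 (0 + 2 * Real.pi)))
    (fun _ : Fin d => (volume : Measure (AddCircle (2 * Real.pi))))
    (fun _ => AddCircle.measurePreserving_mk (2 * Real.pi) 0)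
  rw [← hmp.map_eq, integral_map hmp.measurable.aemeasurable hF.aestronglyMeasurable]
  have h1 : (Measure.pi fun _ : Fin d => (volume : Measure ℝ).restrict
      (Set.Ioc 0 (0 + 2 * Real.pi))) = (volume : Measure (Fin d → ℝ)).restrict (Bx d) := by
    rw [← Measure.restrict_pi_pi, volume_pi, Bx_eq]
    apply Measure.restrict_congr_set
    have := Measure.univ_pi_Ioc_ae_eq_Icc (μ := fun _ : Fin d => (volume : Measure ℝ))
      (f := fun _ => 0) (g := fun _ => 0 + 2 * Real.pi)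
    simpa using this
  rw [h1]

lemma integral_box_add {d : ℕ} {f : (Fin d → ℝ) → ℝ} (hf : FromT f) (v : Fin d → ℝ) :
    ∫ x in Bx d, f (x + v) = ∫ x in Bx d, f x := by
  obtain ⟨F, hF, hfF⟩ := hf
  have h1 : ∀ x, f (x + v) = (fun y => F (y + fun i => (v i : AddCircle (2 * Real.pi))))
      (fun i => (x i : AddCircle (2 * Real.pi))) := by
    intro x
    rw [hfF]
    congr 1
  simp only [h1]
  rw [integral_box (fun y => F (y + fun i => (v i : AddCircle (2 * Real.pi)))) (by fun_prop)]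
  simp only [hfF]
  rw [integral_box F hF]
  exact integral_add_right_eq_self F _

/-! ### polynomials -/

lemma poly_continuous (d N : ℕ) (c : (Fin d → ℤ) → ℂ) : Continuous (poly d N c) := by
  unfold poly
  fun_prop

lemma exp_eq_prod {d : ℕ} (k : Fin d → ℤ) (x : Fin d → ℝ) :
    Complex.exp (Complex.I * ∑ j, (k j : ℂ) * (x j : ℂ)) =
      ∏ j, fourier (k j) ((x j : ℝ) : AddCircle (2 * Real.pi)) := by
  rw [mul_sum, Complex.exp_sum]
  apply prod_congr rfl
  intro j _
  rw [fourier_coe_apply]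
  congr 1
  have : (Real.pi : ℂ) ≠ 0 := by exact_mod_cast Real.pi_ne_zero
  push_cast
  field_simp

lemma poly_fromT (d N : ℕ) (c : (Fin d → ℤ) → ℂ) : FromT (fun x => ‖poly d N c x‖) := by
  refine ⟨fun y => ‖∑ k ∈ Gam d N, c k * ∏ j, fourier (k j) (y j)‖, by fun_prop, ?_⟩
  intro x
  simp only [poly, exp_eq_prod]

/-- the shift belonging to a grid point -/
noncomputable def gv {d M : ℕ} (g : Gr d M) : Fin d → ℝ := fun i => 2 * Real.pi * (g i).val / 2 ^ M

lemma ch1_eq_exp {M : ℕ} (k : ℤ) (g : ZMod (2 ^ M)) :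
    ch1 k g = Complex.exp (Complex.I * ((k : ℂ) * ((2 * Real.pi * g.val / 2 ^ M : ℝ) : ℂ))) := by
  have h : (k : ZMod (2 ^ M)) * g = ((k * g.val : ℤ) : ZMod (2 ^ M)) := by
    push_cast
    rw [ZMod.natCast_zmod_val]
  rw [ch1, h, ZMod.stdAddChar_coe]
  congr 1
  push_cast
  ring

lemma poly_add_gv {d M : ℕ} (N : ℕ) (c : (Fin d → ℤ) → ℂ) (x : Fin d → ℝ) (g : Gr d M) :
    poly d N c (x + gv g) =
      tp (Gam d N) (fun k => c k * Complex.exp (Complex.I * ∑ j, (k j : ℂ) * (x j : ℂ))) g := by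
  unfold poly tp
  apply sum_congr rfl
  intro k _
  rw [mul_assoc]
  congr 1
  unfold ch
  have h1 : (∏ i, ch1 (k i) (g i)) = Complex.exp (Complex.I * ∑ j, (k j : ℂ) * (gv g j : ℂ)) := by
    rw [mul_sum, Complex.exp_sum]
    apply prod_congr rfl
    intro i _
    exact ch1_eq_exp (k i) (g i)
  rw [h1, ← Complex.exp_add, ← mul_add, ← sum_add_distrib]
  congr 2
  apply sum_congr rfl
  intro j _
  rw [Pi.add_apply]
  push_cast
  ring

lemma integrable_poly (d N : ℕ) (c : (Fin d → ℤ) → ℂ) (v : Fin d → ℝ) :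
    IntegrableOn (fun x => ‖poly d N c (x + v)‖) (Bx d) := by
  rw [Bx_eq]
  apply Continuous.integrableOn_Icc
  have := poly_continuous d N c
  fun_prop

/-- the norm as an average of grid norms -/
lemma int_poly {d : ℕ} (M N : ℕ) (c : (Fin d → ℤ) → ℂ) :
    ∫ x in Bx d, ‖poly d N c x‖ = ∫ x in Bx d, n1 (M := M)
      (tp (Gam d N) (fun k => c k * Complex.exp (Complex.I * ∑ j, (k j : ℂ) * (x j : ℂ)))) := by
  have h1 : ∀ x : Fin d → ℝ, n1 (M := M)
      (tp (Gam d N) (fun k => c k * Complex.exp (Complex.I * ∑ j, (k j : ℂ) * (x j : ℂ)))) =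
      E (fun z : Cu d M => ‖poly d N c (x + gv (posd z))‖) := by
    intro x
    unfold n1
    congr 1
    funext z
    rw [poly_add_gv]
  simp only [h1]
  simp only [E, smul_eq_mul]
  rw [integral_const_mul, integral_finsetSum]
  · have h2 : ∀ z : Cu d M, ∫ x in Bx d, ‖poly d N c (x + gv (posd z))‖ =
        ∫ x in Bx d, ‖poly d N c x‖ := fun z => integral_box_add (poly_fromT d N c) _
    rw [sum_congr rfl (fun z _ => h2 z), sum_const, card_univ, nsmul_eq_mul, ← mul_assoc,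
      inv_mul_cancel₀ card_ne', one_mul]
  · intro z _
    exact integrable_poly d N c _

lemma integrable_n1 {d : ℕ} (M N : ℕ) (c : (Fin d → ℤ) → ℂ) :
    IntegrableOn (fun x : Fin d → ℝ => n1 (M := M)
      (tp (Gam d N) (fun k => c k * Complex.exp (Complex.I * ∑ j, (k j : ℂ) * (x j : ℂ)))))
      (Bx d) := by
  rw [Bx_eq]
  apply Continuous.integrableOn_Icc
  unfold n1 tp
  simp only [E, smul_eq_mul]
  fun_prop

lemma upper_of_grid {d : ℕ} {r : ℝ} {α : Fin d → ℝ} (M N : ℕ) (K : ℝ)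
    (h : ∀ c : (Fin d → ℤ) → ℂ, n1 (M := M) (tp (Gam d N) fun k => c k * muv r α k)
          ≤ K * n1 (M := M) (tp (Gam d N) c)) (c : (Fin d → ℤ) → ℂ) :
    norm1 d (poly d N fun k => c k * muv r α k) ≤ K * norm1 d (poly d N c) := by
  unfold norm1
  have e1 := int_poly M N c
  have e2 := int_poly M N (fun k => c k * muv r α k)
  unfold Bx at e1 e2
  rw [e1, e2]
  have h1 : ∫ x in Bx d, n1 (M := M) (tp (Gam d N) (fun k => c k * muv r α k *
        Complex.exp (Complex.I * ∑ j, (k j : ℂ) * (x j : ℂ)))) ≤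
      ∫ x in Bx d, K * n1 (M := M) (tp (Gam d N) (fun k => c k *
        Complex.exp (Complex.I * ∑ j, (k j : ℂ) * (x j : ℂ)))) := by
    apply setIntegral_mono (integrable_n1 M N _) ((integrable_n1 M N c).const_mul _)
    intro x
    have := h (fun k => c k * Complex.exp (Complex.I * ∑ j, (k j : ℂ) * (x j : ℂ)))
    have e3 : (fun k : Fin d → ℤ => c k * Complex.exp (Complex.I * ∑ j, (k j : ℂ) * (x j : ℂ)) *
        muv r α k) = fun k => c k * muv r α k *
        Complex.exp (Complex.I * ∑ j, (k j : ℂ) * (x j : ℂ)) := by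
      funext k
      ring
    rw [e3] at this
    exact this
  rw [integral_const_mul] at h1
  have h2 : 0 ≤ ((2 * Real.pi) ^ d)⁻¹ := by positivity
  calc _ ≤ ((2 * Real.pi) ^ d)⁻¹ * _ := mul_le_mul_of_nonneg_left h1 h2
    _ = _ := by ring

/-! ### the lower bound -/

lemma norm1_nonneg {d : ℕ} (f : (Fin d → ℝ) → ℂ) : 0 ≤ norm1 d f := by
  unfold norm1
  have h : 0 ≤ ∫ x in Set.pi Set.univ (fun _ : Fin d => Set.Icc (0 : ℝ) (2 * Real.pi)), ‖f x‖ :=
    integral_nonneg fun _ => norm_nonneg _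
  positivity

lemma norm1_of_norm_const {d : ℕ} (f : (Fin d → ℝ) → ℂ) (b : ℝ) (h : ∀ x, ‖f x‖ = b) :
    norm1 d f = b := by
  unfold norm1
  simp only [h]
  rw [integral_const]
  have h1 : ((volume : Measure (Fin d → ℝ)).restrict (Set.pi Set.univ
      (fun _ => Set.Icc (0 : ℝ) (2 * Real.pi)))).real Set.univ = (2 * Real.pi) ^ d := by
    have e := Bx_eq d
    unfold Bx at e
    rw [e, measureReal_restrict_apply_univ, measureReal_def, Real.volume_Icc_pi_toReal]
    · simp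
    · intro i
      exact Real.two_pi_pos.le
  rw [h1, smul_eq_mul, ← mul_assoc, inv_mul_cancel₀ (by positivity), one_mul]

lemma norm_exp_I_sum {d : ℕ} (k : Fin d → ℤ) (x : Fin d → ℝ) :
    ‖Complex.exp (Complex.I * ∑ j, (k j : ℂ) * (x j : ℂ))‖ = 1 := by
  have : Complex.I * ∑ j, (k j : ℂ) * (x j : ℂ) =
      ((∑ j, (k j : ℝ) * x j : ℝ) : ℂ) * Complex.I := by
    push_cast
    ring
  rw [this, Complex.norm_exp_ofReal_mul_I]

lemma norm_mu_pos (r a : ℝ) (k : ℤ) (hk : k ≠ 0) : ‖mu r a k‖ = |(k : ℝ)| ^ r := by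
  unfold mu
  rw [if_neg hk, norm_mul, Complex.norm_exp_ofReal_mul_I, mul_one, Complex.norm_real,
    Real.norm_eq_abs, abs_of_nonneg]
  exact Real.rpow_nonneg (abs_nonneg _) _

lemma ratio_mem {d : ℕ} (hd : 1 ≤ d) (r : ℝ) (α : Fin d → ℝ) (N : ℕ) (hN : 1 ≤ N) :
    (N : ℝ) ^ r ∈ ratios d r α N := by
  classical
  let i0 : Fin d := ⟨0, hd⟩
  let k0 : Fin d → ℤ := Pi.single i0 (N : ℤ)
  have hk0 : ∀ j, j ≠ i0 → k0 j = 0 := fun j hj => by simp [k0, hj]
  have hk1 : k0 i0 = N := by simp [k0]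
  have hmem : k0 ∈ Gam d N := by
    rw [mem_Gam]
    show ∏ j, max |k0 j| 1 ≤ (N : ℤ)
    rw [← Finset.mul_prod_erase univ (fun j => max |k0 j| 1) (mem_univ i0), hk1]
    have h1 : ∏ j ∈ univ.erase i0, max |k0 j| 1 = 1 := by
      apply prod_eq_one
      intro j hj
      rw [hk0 j (ne_of_mem_erase hj)]
      simp
    rw [h1, mul_one]
    simp only [Nat.abs_cast]
    have : (1 : ℤ) ≤ N := by exact_mod_cast hN
    exact max_le le_rfl this
  have hpoly : ∀ b : ℂ, ∀ x, poly d N (fun k => if k = k0 then b else 0) x =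
      b * Complex.exp (Complex.I * ∑ j, (k0 j : ℂ) * (x j : ℂ)) := by
    intro b x
    unfold poly
    rw [sum_eq_single k0]
    · simp
    · intro k _ hk
      simp [hk]
    · intro h
      exact absurd hmem h
  have hnorm : ∀ b : ℂ, norm1 d (poly d N (fun k => if k = k0 then b else 0)) = ‖b‖ := by
    intro b
    apply norm1_of_norm_const
    intro x
    rw [hpoly, norm_mul, norm_exp_I_sum, mul_one]
  refine ⟨fun k => if k = k0 then 1 else 0, ?_, ?_⟩
  · intro h
    have h1 := congrFun h 0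
    rw [hpoly] at h1
    simp at h1
  · have h2 : (fun k => (if k = k0 then (1:ℂ) else 0) * muv r α k) =
        fun k => if k = k0 then muv r α k0 else 0 := by
      funext k
      by_cases hk : k = k0
      · simp [hk]
      · simp [hk]
    rw [h2, hnorm, hnorm]
    unfold muv
    rw [norm_prod, ← Finset.mul_prod_erase univ _ (mem_univ i0), hk1]
    have h3 : ∏ j ∈ univ.erase i0, ‖mu r (α j) (k0 j)‖ = 1 := by
      apply prod_eq_one
      intro j hj
      rw [hk0 j (ne_of_mem_erase hj)]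
      simp [mu]
    rw [h3, mul_one, norm_mu_pos r _ _ (by omega)]
    simp

/-- the final theorem from the discrete inequality -/
theorem final_of_discrete
    (hdisc : ∀ (d : ℕ) (r : ℝ), 0 < r → ∀ (α : Fin d → ℝ), ∃ C : ℝ, 0 < C ∧
      ∀ (M n N : ℕ), N ≤ 2 ^ n → n + 3 * d + 2 ≤ M → ∀ c : (Fin d → ℤ) → ℂ,
        n1 (M := M) (tp (Gam d N) fun k => c k * muv r α k)
          ≤ C * ((2 : ℝ) ^ n) ^ r * n1 (M := M) (tp (Gam d N) c))
    (d : ℕ) (hd : 1 ≤ d) (r : ℝ) (hr : 0 < r) (α : Fin d → ℝ) :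
    ∃ C : ℝ, 0 < C ∧ ∀ N : ℕ, 1 ≤ N →
      BddAbove (ratios d r α N) ∧ (N : ℝ) ^ r ≤ B1 d r α N ∧ B1 d r α N ≤ C * (N : ℝ) ^ r := by
  obtain ⟨C, hC, hdis⟩ := hdisc d r hr α
  refine ⟨C * 2 ^ r, by positivity, ?_⟩
  intro N hN
  have hN' : (0 : ℝ) < N := by exact_mod_cast hN
  -- the exponent
  obtain ⟨n, hn1, hn2⟩ : ∃ n : ℕ, N ≤ 2 ^ n ∧ (2 : ℝ) ^ n ≤ 2 * N := by
    refine ⟨Nat.clog 2 N, Nat.le_pow_clog (by norm_num) N, ?_⟩
    rcases Nat.lt_or_ge 1 N with h | h
    · have h1 := Nat.pow_pred_clog_lt_self (by norm_num : 1 < 2) h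
      have h2 : 0 < Nat.clog 2 N := Nat.clog_pos (by norm_num) h
      have h3 : (2 : ℝ) ^ Nat.clog 2 N = 2 * 2 ^ (Nat.clog 2 N).pred := by
        rw [← pow_succ']
        congr 1
        exact (Nat.succ_pred_eq_of_pos h2).symm
      rw [h3]
      have h4 : ((2 ^ (Nat.clog 2 N).pred : ℕ) : ℝ) < N := by exact_mod_cast h1
      push_cast at h4
      linarith
    · have h1 : N = 1 := le_antisymm h hN
      subst h1
      simp
  have hle : ∀ ρ ∈ ratios d r α N, ρ ≤ C * 2 ^ r * (N : ℝ) ^ r := by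
    rintro ρ ⟨c, _, rfl⟩
    have h1 := upper_of_grid (n + 3 * d + 2) N (C * ((2 : ℝ) ^ n) ^ r)
      (hdis (n + 3 * d + 2) n N hn1 le_rfl) c
    have h3 : ((2 : ℝ) ^ n) ^ r ≤ 2 ^ r * (N : ℝ) ^ r := by
      rw [← Real.mul_rpow (by norm_num) hN'.le]
      exact Real.rpow_le_rpow (by positivity) hn2 hr.le
    rcases (norm1_nonneg (poly d N c)).eq_or_lt with h0 | h0
    · rw [← h0, div_zero]
      positivity
    · rw [div_le_iff₀ h0]
      refine h1.trans ?_
      gcongr ?_ * _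
      calc C * ((2 : ℝ) ^ n) ^ r ≤ C * (2 ^ r * (N : ℝ) ^ r) := by gcongr
        _ = _ := by ring
  have hb : BddAbove (ratios d r α N) := ⟨_, hle⟩
  exact ⟨hb, le_csSup hb (ratio_mem hd r α N hN), csSup_le ⟨_, ratio_mem hd r α N hN⟩ hle⟩

end Pool.Agent.LBern
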