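import Pool.Agent.LBern.Walsh

/-!
Product functions on the cube, characters of the grid, the multiplier of the random grid difference,
and the representation formula.
-/

set_option linter.unusedSectionVars false

namespace Pool.Agent.LBern

open Finset

section prod
variable {𝒟 : Type} [Fintype 𝒟] [DecidableEq 𝒟]

/-- mean over one digit -/
noncomputable def mb (F : Bool → ℂ) : ℂ := (F true + F false) / 2

lemma E_complex (f : (𝒟 → Bool) → ℂ) : E f = (∑ x, f x) / (Fintype.card (𝒟 → Bool) : ℂ) := by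
  simp only [E, Complex.real_smul]
  push_cast
  rw [div_eq_inv_mul]

lemma E_prod (F : 𝒟 → Bool → ℂ) : E (fun x => ∏ e, F e (x e)) = ∏ e, mb (F e) := by
  rw [E_complex]
  have h1 : ∑ x : 𝒟 → Bool, ∏ e, F e (x e) = ∏ e, ∑ b : Bool, F e b := by
    rw [Finset.prod_univ_sum]
    rw [Fintype.piFinset_univ]
  rw [h1]
  have h2 : (Fintype.card (𝒟 → Bool) : ℂ) = ∏ _e : 𝒟, (2 : ℂ) := by
    rw [Fintype.card_fun, Fintype.card_bool, Finset.prod_const, Finset.card_univ]
    norm_num
  rw [h2, ← Finset.prod_div_distrib]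
  refine Finset.prod_congr rfl fun e _ => ?_
  simp [mb]

lemma Av_prod (D : Finset 𝒟) (F : 𝒟 → Bool → ℂ) (x : 𝒟 → Bool) :
    Av D (fun x => ∏ e, F e (x e)) x = ∏ e, (if e ∈ D then mb (F e) else F e (x e)) := by
  have h : ∀ y : 𝒟 → Bool, ∏ e, F e (mix D y x e)
      = ∏ e, (fun (e : 𝒟) (b : Bool) => if e ∈ D then F e b else F e (x e)) e (y e) := by
    intro y
    refine Finset.prod_congr rfl fun e _ => ?_
    by_cases h : e ∈ D <;> simp [mix, h]
  simp only [Av]
  simp only [h]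
  rw [E_prod (fun e b => if e ∈ D then F e b else F e (x e))]
  refine Finset.prod_congr rfl fun e _ => ?_
  by_cases h : e ∈ D
  · simp [h, mb]
  · simp [h, mb]

end prod

variable {d M : ℕ}

/-- the grid -/
abbrev Gr (d M : ℕ) : Type := Fin d → ZMod (2 ^ M)

/-- position of a point of the cube in the grid -/
def posd (z : Cu d M) : Gr d M := fun i => pos (fun j => z (i, j))

/-- characters of the one dimensional grid -/
noncomputable def ch1 (k : ℤ) (g : ZMod (2 ^ M)) : ℂ := ZMod.stdAddChar ((k : ZMod (2 ^ M)) * g)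

/-- characters of the grid -/
noncomputable def ch (k : Fin d → ℤ) (g : Gr d M) : ℂ := ∏ i, ch1 (k i) (g i)

lemma ch1_add (k : ℤ) (g h : ZMod (2 ^ M)) : ch1 k (g + h) = ch1 k g * ch1 k h := by
  simp only [ch1, mul_add, AddChar.map_add_eq_mul]

lemma ch1_zero (k : ℤ) : ch1 k (0 : ZMod (2 ^ M)) = 1 := by
  simp only [ch1, mul_zero, AddChar.map_zero_eq_one]

lemma norm_ch1 (k : ℤ) (g : ZMod (2 ^ M)) : ‖ch1 k g‖ = 1 := by
  simp only [ch1, ZMod.stdAddChar_apply, Circle.norm_coe]

lemma ch1_neg (k : ℤ) (g : ZMod (2 ^ M)) : ch1 k (-g) = (starRingEnd ℂ) (ch1 k g) := by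
  simp only [ch1, mul_neg, AddChar.map_neg_eq_conj]

lemma ch1_mul_ch1 (k l : ℤ) (g : ZMod (2 ^ M)) : ch1 k g * ch1 l g = ch1 (k + l) g := by
  simp only [ch1]
  rw [← AddChar.map_add_eq_mul]
  congr 1; push_cast; ring

lemma ch_add (k : Fin d → ℤ) (g h : Gr d M) : ch k (g + h) = ch k g * ch k h := by
  simp only [ch, Pi.add_apply, ch1_add, Finset.prod_mul_distrib]

lemma norm_ch (k : Fin d → ℤ) (g : Gr d M) : ‖ch k g‖ = 1 := by
  simp [ch, norm_ch1]

lemma ch_neg (k : Fin d → ℤ) (g : Gr d M) : ch k (-g) = (starRingEnd ℂ) (ch k g) := by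
  simp only [ch, Pi.neg_apply, ch1_neg, map_prod]

/-- `exp(2 π i k / 2^{j+1})` -/
noncomputable def zt (k : ℤ) (j : ℕ) : ℂ := Complex.exp (2 * Real.pi * Complex.I * k / 2 ^ (j + 1))

lemma ch1_pow (k : ℤ) (j : Fin M) :
    ch1 k ((2 : ZMod (2 ^ M)) ^ (M - 1 - j.val)) = zt k j.val := by
  have h : ((k : ZMod (2 ^ M)) * (2 : ZMod (2 ^ M)) ^ (M - 1 - j.val))
      = ((k * 2 ^ (M - 1 - j.val) : ℤ) : ZMod (2 ^ M)) := by push_cast; ring
  simp only [ch1, h, ZMod.stdAddChar_coe, zt]
  congr 1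
  have hj := j.isLt
  have e : (2 : ℂ) ^ M = 2 ^ (M - 1 - j.val) * 2 ^ (j.val + 1) := by
    rw [← pow_add]; congr 1; omega
  push_cast
  rw [e]
  have h2 : (2 : ℂ) ^ (M - 1 - j.val) ≠ 0 := pow_ne_zero _ two_ne_zero
  have h3 : (2 : ℂ) ^ (j.val + 1) ≠ 0 := pow_ne_zero _ two_ne_zero
  field_simp

lemma ch1_sum {κ : Type} (k : ℤ) (s : Finset κ) (g : κ → ZMod (2 ^ M)) :
    ch1 k (∑ i ∈ s, g i) = ∏ i ∈ s, ch1 k (g i) := by
  classical
  induction s using Finset.induction_on with
  | empty => simp [ch1_zero]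
  | insert a s ha ih => rw [Finset.sum_insert ha, Finset.prod_insert ha, ch1_add, ih]

/-- value of the character on a digit -/
noncomputable def dgf (k : Fin d → ℤ) (e : Dg d M) (b : Bool) : ℂ :=
  if b then zt (k e.1) e.2.val else 1

lemma ch1_pos (k : ℤ) (x : Fin M → Bool) :
    ch1 k (pos x) = ∏ j : Fin M, (if x j then zt k j.val else 1) := by
  simp only [pos]
  rw [ch1_sum]
  refine Finset.prod_congr rfl fun j _ => ?_
  split_ifs
  · exact ch1_pow k j
  · exact ch1_zero k

lemma ch_posd (k : Fin d → ℤ) (z : Cu d M) : ch k (posd z) = ∏ e : Dg d M, dgf k e (z e) := by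
  simp only [ch, posd, ch1_pos, dgf]
  rw [Fintype.prod_prod_type]

lemma zt_eq (k : ℤ) (j : ℕ) :
    zt k j = Complex.exp (((2 * (Real.pi * k / 2 ^ (j + 1)) : ℝ) : ℂ) * Complex.I) := by
  rw [zt]; congr 1; push_cast; ring

lemma norm_zt (k : ℤ) (j : ℕ) : ‖zt k j‖ = 1 := by
  rw [zt_eq, Complex.norm_exp_ofReal_mul_I]

lemma normSq_one_add_zt (k : ℤ) (j : ℕ) :
    Complex.normSq ((zt k j + 1) / 2) = Real.cos (Real.pi * k / 2 ^ (j + 1)) ^ 2 := by
  rw [zt_eq, Complex.exp_mul_I, ← Complex.ofReal_cos, ← Complex.ofReal_sin]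
  rw [Complex.normSq_div, Complex.normSq_apply]
  simp only [Complex.add_re, Complex.ofReal_re, Complex.mul_re, Complex.I_re, mul_zero,
    Complex.ofReal_im, Complex.I_im, mul_one, sub_self, add_zero, Complex.one_re, Complex.add_im,
    Complex.mul_im, zero_add, Complex.one_im]
  rw [Real.cos_two_mul, Real.sin_two_mul]
  have h : Complex.normSq 2 = 4 := by
    rw [Complex.normSq_apply]; simp; norm_num
  rw [h]
  have := Real.sin_sq_add_cos_sq (Real.pi * k / 2 ^ (j + 1))
  set c := Real.cos (Real.pi * k / 2 ^ (j + 1))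
  set s := Real.sin (Real.pi * k / 2 ^ (j + 1))
  have hs : s ^ 2 = 1 - c ^ 2 := by linarith
  field_simp
  nlinarith [hs]

lemma normSq_zt_sub_one (k : ℤ) (j : ℕ) :
    Complex.normSq ((zt k j - 1) / 2) = Real.sin (Real.pi * k / 2 ^ (j + 1)) ^ 2 := by
  rw [zt_eq, Complex.exp_mul_I, ← Complex.ofReal_cos, ← Complex.ofReal_sin]
  rw [Complex.normSq_div, Complex.normSq_apply]
  simp only [Complex.sub_re, Complex.add_re, Complex.ofReal_re, Complex.mul_re, Complex.I_re,
    mul_zero, Complex.ofReal_im, Complex.I_im, mul_one, sub_self, add_zero, Complex.one_re,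
    Complex.sub_im, Complex.add_im, Complex.mul_im, zero_add, Complex.one_im, sub_zero]
  rw [Real.cos_two_mul', Real.sin_two_mul]
  have h : Complex.normSq 2 = 4 := by
    rw [Complex.normSq_apply]; simp; norm_num
  rw [h]
  have := Real.sin_sq_add_cos_sq (Real.pi * k / 2 ^ (j + 1))
  set c := Real.cos (Real.pi * k / 2 ^ (j + 1))
  set s := Real.sin (Real.pi * k / 2 ^ (j + 1))
  have hc : c ^ 2 = 1 - s ^ 2 := by linarith
  rw [hc]
  field_simp
  nlinarith [hc]

/-- the multiplier of the random grid difference of level `a` (one dimension) -/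
noncomputable def ph (M a : ℕ) (k : ℤ) : ℝ :=
  (if a = 0 then 1 else Real.sin (Real.pi * k / 2 ^ a) ^ 2) *
    ∏ j ∈ Finset.Ico a M, Real.cos (Real.pi * k / 2 ^ (j + 1)) ^ 2

/-- sign factor of the digit `e` in `epsL a` -/
noncomputable def Rf (a : Fin d → ℕ) (e : Dg d M) (b : Bool) : ℂ :=
  if e.2.val + 1 = a e.1 then (if b then 1 else -1) else 1

lemma epsL_complex (a : Fin d → ℕ) (z : Cu d M) :
    ((epsL a z : ℝ) : ℂ) = ∏ e : Dg d M, Rf a e (z e) := by
  rw [epsL_eq_walsh]
  simp only [walsh, topd, Finset.prod_filter, Complex.ofReal_prod]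
  refine Finset.prod_congr rfl fun e _ => ?_
  unfold Rf rad
  split_ifs <;> simp

lemma Rf_sq (a : Fin d → ℕ) (e : Dg d M) (b : Bool) : Rf a e b * Rf a e b = 1 := by
  unfold Rf; split_ifs <;> norm_num

lemma conj_Rf (a : Fin d → ℕ) (e : Dg d M) (b : Bool) : (starRingEnd ℂ) (Rf a e b) = Rf a e b := by
  unfold Rf; split_ifs <;> simp

lemma dgf_conj (k : Fin d → ℤ) (e : Dg d M) (b : Bool) :
    (starRingEnd ℂ) (dgf k e b) * dgf k e b = 1 := by
  unfold dgf
  split_ifs
  · rw [mul_comm, Complex.mul_conj, Complex.normSq_eq_norm_sq, norm_zt]; simp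
  · simp

noncomputable def Hf (a : Fin d → ℕ) (k : Fin d → ℤ) (e : Dg d M) (b : Bool) : ℂ :=
  Rf a e b * dgf k e b

lemma Dl_ch (a : Fin d → ℕ) (k : Fin d → ℤ) (z : Cu d M) :
    Dl a (fun z => ch k (posd z)) z
      = ∏ e : Dg d M, (Rf a e (z e) * (if e ∈ dig (fun i => a i - 1)
          then mb (Hf a k e) else Hf a k e (z e))) := by
  simp only [Dl, AL, Complex.real_smul, epsL_complex, ch_posd]
  have h : (fun y : Cu d M => (∏ e : Dg d M, Rf a e (y e)) * ∏ e : Dg d M, dgf k e (y e))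
      = fun y => ∏ e, Hf a k e (y e) := by
    funext y; rw [← Finset.prod_mul_distrib]; rfl
  rw [h, Av_prod (dig fun i => a i - 1) (Hf a k), ← Finset.prod_mul_distrib]

lemma prod_fin_ph (a : ℕ) (ha : a ≤ M) (k : ℤ) :
    (∏ j : Fin M, (if a - 1 ≤ j.val then
      (if j.val + 1 = a then Real.sin (Real.pi * k / 2 ^ (j.val + 1)) ^ 2
        else Real.cos (Real.pi * k / 2 ^ (j.val + 1)) ^ 2) else 1)) = ph M a k := by
  rw [Fin.prod_univ_eq_prod_range (fun j => if a - 1 ≤ j then
      (if j + 1 = a then Real.sin (Real.pi * k / 2 ^ (j + 1)) ^ 2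
        else Real.cos (Real.pi * k / 2 ^ (j + 1)) ^ 2) else 1) M]
  unfold ph
  rcases Nat.eq_zero_or_pos a with h0 | hpos
  · subst h0
    simp only [Nat.zero_sub, Nat.zero_le, if_true, one_mul]
    rw [Finset.range_eq_Ico]
    refine Finset.prod_congr rfl fun j _ => ?_
    rw [if_neg (by omega)]
  · rw [if_neg (by omega)]
    have h1 : Finset.range M = Finset.range (a - 1) ∪ Finset.Ico (a - 1) M := by
      ext j; simp only [Finset.mem_range, Finset.mem_union, Finset.mem_Ico]; omega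
    have hd : Disjoint (Finset.range (a - 1)) (Finset.Ico (a - 1) M) := by
      rw [Finset.disjoint_left]; intro j h1 h2
      rw [Finset.mem_range] at h1; rw [Finset.mem_Ico] at h2; omega
    rw [h1, Finset.prod_union hd]
    have h2 : ∏ j ∈ Finset.range (a - 1), (if a - 1 ≤ j then
      (if j + 1 = a then Real.sin (Real.pi * k / 2 ^ (j + 1)) ^ 2
        else Real.cos (Real.pi * k / 2 ^ (j + 1)) ^ 2) else 1) = 1 := by
      apply Finset.prod_eq_one
      intro j hj
      rw [Finset.mem_range] at hj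
      rw [if_neg (by omega)]
    have h3 : Finset.Ico (a - 1) M = insert (a - 1) (Finset.Ico a M) := by
      ext j; simp only [Finset.mem_insert, Finset.mem_Ico]; omega
    rw [h2, one_mul, h3, Finset.prod_insert (by simp only [Finset.mem_Ico]; omega)]
    congr 1
    · rw [if_pos le_rfl, if_pos (by omega)]
      rw [show a - 1 + 1 = a by omega]
    · refine Finset.prod_congr rfl fun j hj => ?_
      rw [Finset.mem_Ico] at hj
      rw [if_pos (by omega), if_neg (by omega)]

noncomputable def Jf (a : Fin d → ℕ) (k : Fin d → ℤ) (e : Dg d M) (b : Bool) : ℂ :=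
  (starRingEnd ℂ) (dgf k e b) * (Rf a e b * (if e ∈ dig (fun i => a i - 1)
          then mb (Hf a k e) else Hf a k e b))

/-- the multiplier of the random grid difference -/
lemma E_conj_Dl_ch {a : Fin d → ℕ} (ha : a ∈ lev d M) (k : Fin d → ℤ) :
    E (fun z : Cu d M => (starRingEnd ℂ) (ch k (posd z)) * Dl a (fun z => ch k (posd z)) z)
      = ((∏ i, ph M (a i) (k i) : ℝ) : ℂ) := by
  have hM : ∀ i, a i ≤ M := fun i => by
    have := Fintype.mem_piFinset.1 ha i
    exact Nat.le_of_lt_succ (Finset.mem_range.1 this)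
  have h1 : (fun z : Cu d M => (starRingEnd ℂ) (ch k (posd z)) * Dl a (fun z => ch k (posd z)) z)
      = fun z => ∏ e, Jf a k e (z e) := by
    funext z
    rw [Dl_ch, ch_posd, map_prod, ← Finset.prod_mul_distrib]; rfl
  rw [h1, E_prod (Jf a k)]
  have h2 : ∀ e : Dg d M, mb (Jf a k e)
      = ((if a e.1 - 1 ≤ e.2.val then
      (if e.2.val + 1 = a e.1 then Real.sin (Real.pi * k e.1 / 2 ^ (e.2.val + 1)) ^ 2
        else Real.cos (Real.pi * k e.1 / 2 ^ (e.2.val + 1)) ^ 2) else 1 : ℝ) : ℂ) := by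
    intro e
    by_cases he : a e.1 - 1 ≤ e.2.val
    · have he' : e ∈ dig (M := M) (fun i => a i - 1) := by
        simp only [dig, Finset.mem_filter, Finset.mem_univ, true_and]; exact he
      rw [if_pos he]
      have h3 : mb (Jf a k e) = (starRingEnd ℂ) (mb (Hf a k e)) * mb (Hf a k e) := by
        have e1 : Jf a k e = fun b => (starRingEnd ℂ) (Hf a k e b) * mb (Hf a k e) := by
          funext b
          simp only [Jf, he', if_true, Hf, map_mul, conj_Rf]
          ring
        rw [e1]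
        simp only [mb, map_div₀, map_add, Complex.conj_ofNat]
        ring
      rw [h3, mul_comm, Complex.mul_conj]
      congr 1
      by_cases ht : e.2.val + 1 = a e.1
      · rw [if_pos ht, ← normSq_zt_sub_one]
        congr 1
        simp [mb, Hf, Rf, dgf, ht]; ring
      · rw [if_neg ht, ← normSq_one_add_zt]
        congr 1
        simp [mb, Hf, Rf, dgf, ht]
    · have he' : e ∉ dig (M := M) (fun i => a i - 1) := by
        simp only [dig, Finset.mem_filter, Finset.mem_univ, true_and]; exact he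
      rw [if_neg he]
      have h4 : ∀ b, Jf a k e b = 1 := by
        intro b
        simp only [Jf, he', if_false, Hf]
        rw [← mul_assoc (Rf a e b), Rf_sq, one_mul, dgf_conj]
      simp only [mb, h4]; norm_num
  rw [Finset.prod_congr rfl fun e _ => h2 e, ← Complex.ofReal_prod, Fintype.prod_prod_type]
  congr 1
  refine Finset.prod_congr rfl fun i _ => ?_
  exact prod_fin_ph (a i) (hM i) (k i)

lemma exists_zt {M : ℕ} {k : ℤ} (hk : k ≠ 0) (hk2 : |k| < 2 ^ M) : ∃ j < M, zt k j = -1 := by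
  obtain ⟨j, m, hm, hkm⟩ : ∃ j : ℕ, ∃ m : ℤ, ¬ (2 : ℤ) ∣ m ∧ k = 2 ^ j * m := by
    have hfin : FiniteMultiplicity (2 : ℤ) k := by
      rw [Int.finiteMultiplicity_iff]; exact ⟨by norm_num, hk⟩
    obtain ⟨m, h1, h2⟩ := hfin.exists_eq_pow_mul_and_not_dvd
    exact ⟨_, m, h2, h1⟩
  refine ⟨j, ?_, ?_⟩
  · by_contra hc
    have hc' : M ≤ j := by omega
    have hm0 : m ≠ 0 := fun h => hm (h ▸ dvd_zero 2)
    have h1 : (1 : ℤ) ≤ |m| := Int.one_le_abs hm0
    have h2 : (2 : ℤ) ^ M ≤ 2 ^ j := pow_le_pow_right₀ (by norm_num) hc'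
    rw [hkm, abs_mul, abs_of_pos (by positivity : (0 : ℤ) < 2 ^ j)] at hk2
    have h3 : (2 : ℤ) ^ j * 1 ≤ 2 ^ j * |m| := mul_le_mul_of_nonneg_left h1 (by positivity)
    linarith
  · obtain ⟨r, hr⟩ : ∃ r, m = 2 * r + 1 := by
      rcases Int.even_or_odd m with h | h
      · exact absurd h.two_dvd hm
      · exact h
    rw [zt]
    have e : (2 * (Real.pi : ℂ) * Complex.I * (k : ℂ) / 2 ^ (j + 1))
        = (r : ℂ) * (2 * Real.pi * Complex.I) + Real.pi * Complex.I := by
      rw [hkm, hr]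
      push_cast
      have h2 : (2 : ℂ) ^ j ≠ 0 := pow_ne_zero _ two_ne_zero
      rw [pow_succ]
      field_simp
    rw [e, Complex.exp_add, Complex.exp_int_mul_two_pi_mul_I, one_mul, Complex.exp_pi_mul_I]

lemma ch_zero_left (g : Gr d M) : ch (0 : Fin d → ℤ) g = 1 := by
  simp [ch, ch1]

/-- orthogonality -/
lemma E_ch (k : Fin d → ℤ) (hk : ∀ i, |k i| < 2 ^ M) :
    E (fun w : Cu d M => ch k (posd w)) = if k = 0 then 1 else 0 := by
  by_cases h0 : k = 0
  · subst h0
    rw [if_pos rfl]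
    simp only [ch_zero_left]
    exact E_const 1
  · rw [if_neg h0]
    obtain ⟨i, hi⟩ := Function.ne_iff.1 h0
    obtain ⟨j, hj, hz⟩ := exists_zt hi (hk i)
    have : (fun w : Cu d M => ch k (posd w)) = fun w => ∏ e, dgf k e (w e) := by
      funext w; exact ch_posd k w
    rw [this, E_prod (dgf k)]
    apply Finset.prod_eq_zero (Finset.mem_univ ((i, ⟨j, hj⟩) : Dg d M))
    simp [mb, dgf, hz]

lemma ch_sub_left (k l : Fin d → ℤ) (g : Gr d M) :
    ch k g * (starRingEnd ℂ) (ch l g) = ch (k - l) g := by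
  simp only [ch, map_prod]
  rw [← Finset.prod_mul_distrib]
  refine Finset.prod_congr rfl fun i _ => ?_
  rw [← ch1_neg, Pi.sub_apply]
  simp only [ch1]
  rw [← AddChar.map_add_eq_mul]
  congr 1; push_cast; ring

/-- translate of a grid function, seen on the cube -/
def fw (f : Gr d M → ℂ) (w : Gr d M) (z : Cu d M) : ℂ := f (posd z + w)

/-- trigonometric polynomial on the grid -/
noncomputable def tp (Λ : Finset (Fin d → ℤ)) (c : (Fin d → ℤ) → ℂ) (g : Gr d M) : ℂ :=
  ∑ k ∈ Λ, c k * ch k g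

lemma Dl_mul_left (a : Fin d → ℕ) (c : ℂ) (f : Cu d M → ℂ) :
    Dl a (fun z => c * f z) = fun z => c * Dl a f z := by
  funext x
  simp only [Dl, AL, Complex.real_smul]
  have h : (fun y : Cu d M => ((epsL a y : ℝ) : ℂ) * (c * f y))
      = fun y => c * (((epsL a y : ℝ) : ℂ) * f y) := by funext y; ring
  rw [h]
  have h2 : Av (dig fun i => a i - 1) (fun y => c * (((epsL a y : ℝ) : ℂ) * f y)) x
      = c * Av (dig fun i => a i - 1) (fun y => ((epsL a y : ℝ) : ℂ) * f y) x := by
    simp only [Av, E_complex]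
    rw [← Finset.mul_sum, mul_div_assoc]
  rw [h2]; ring

lemma Dl_fw_ch (a : Fin d → ℕ) (k : Fin d → ℤ) (w : Gr d M) (z : Cu d M) :
    Dl a (fun z => ch k (posd z + w)) z = ch k w * Dl a (fun z => ch k (posd z)) z := by
  have h : (fun z : Cu d M => ch k (posd z + w)) = fun z => ch k w * ch k (posd z) := by
    funext z; rw [ch_add, mul_comm]
  rw [h, Dl_mul_left]

lemma E_mul_left_complex {𝒟 : Type} [Fintype 𝒟] [DecidableEq 𝒟] (c : ℂ) (f : (𝒟 → Bool) → ℂ) :
    E (fun x => c * f x) = c * E f := by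
  simp only [E_complex]
  rw [← Finset.mul_sum, mul_div_assoc]

/-- REPRESENTATION FORMULA: the multiplier `κ * ∏ ph` as a random grid average -/
theorem repr_formula {a : Fin d → ℕ} (ha : a ∈ lev d M) (Λ Λ' : Finset (Fin d → ℤ))
    (hΛ : Λ ⊆ Λ') (hb : ∀ k ∈ Λ', ∀ i, |k i| < 2 ^ (M - 1)) (hM : 1 ≤ M)
    (c κ : (Fin d → ℤ) → ℂ) (g : Gr d M) :
    E (fun w : Cu d M => E (fun z : Cu d M =>
        tp Λ' κ (g - posd z - posd w) * Dl a (fw (tp Λ c) (posd w)) z))
      = tp Λ (fun k => c k * (κ k * ((∏ i, ph M (a i) (k i) : ℝ) : ℂ))) g := by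
  have h1 : ∀ w z : Cu d M, Dl a (fw (tp Λ c) (posd w)) z
      = ∑ k ∈ Λ, c k * (ch k (posd w) * Dl a (fun z => ch k (posd z)) z) := by
    intro w z
    have : fw (tp Λ c) (posd w) = fun z => ∑ k ∈ Λ, c k * ch k (posd z + posd w) := by
      funext z; rfl
    rw [this, Dl_sum]
    refine Finset.sum_congr rfl fun k _ => ?_
    rw [Dl_mul_left, ← Dl_fw_ch]
  have h2 : ∀ w z : Cu d M, tp Λ' κ (g - posd z - posd w) * Dl a (fw (tp Λ c) (posd w)) z
      = ∑ l ∈ Λ', ∑ k ∈ Λ, (κ l * c k * ch l g) *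
        (((starRingEnd ℂ) (ch l (posd z)) * Dl a (fun z => ch k (posd z)) z) *
          ch (k - l) (posd w)) := by
    intro w z
    rw [h1, tp, Finset.sum_mul_sum]
    refine Finset.sum_congr rfl fun l _ => Finset.sum_congr rfl fun k _ => ?_
    have e : ch l (g - posd z - posd w)
        = ch l g * (starRingEnd ℂ) (ch l (posd z)) * (starRingEnd ℂ) (ch l (posd w)) := by
      rw [sub_eq_add_neg, sub_eq_add_neg, ch_add, ch_add, ch_neg, ch_neg]
    rw [e, ← ch_sub_left]; ring
  have h3 : E (fun w : Cu d M => E (fun z : Cu d M =>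
        tp Λ' κ (g - posd z - posd w) * Dl a (fw (tp Λ c) (posd w)) z))
      = ∑ l ∈ Λ', ∑ k ∈ Λ, (κ l * c k * ch l g) *
        (E (fun z : Cu d M => (starRingEnd ℂ) (ch l (posd z)) * Dl a (fun z => ch k (posd z)) z) *
          E (fun w : Cu d M => ch (k - l) (posd w))) := by
    simp only [h2]
    simp only [E_sum, E_mul_left_complex]
    refine Finset.sum_congr rfl fun l _ => Finset.sum_congr rfl fun k _ => ?_
    congr 1
    have h5 : ∀ w : Cu d M, E (fun z : Cu d M => (starRingEnd ℂ) (ch l (posd z)) *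
        Dl a (fun z => ch k (posd z)) z * ch (k - l) (posd w))
        = E (fun z : Cu d M => (starRingEnd ℂ) (ch l (posd z)) *
        Dl a (fun z => ch k (posd z)) z) * ch (k - l) (posd w) := by
      intro w
      simp_rw [mul_comm _ (ch (k - l) (posd w))]
      rw [E_mul_left_complex]
    simp only [h5]
    rw [E_mul_left_complex]
  rw [h3, Finset.sum_comm]
  simp only [tp]
  refine Finset.sum_congr rfl fun k hk => ?_
  rw [Finset.sum_eq_single k]
  · rw [sub_self, E_ch 0 (by intro i; simp), if_pos rfl, mul_one, E_conj_Dl_ch ha]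
    ring
  · intro l hl hne
    rw [E_ch (k - l), if_neg (sub_ne_zero.2 hne.symm)]
    · ring
    · intro i
      have h1 := hb k (hΛ hk) i
      have h2 := hb l hl i
      have h3 : (2 : ℤ) ^ M = 2 ^ (M - 1) + 2 ^ (M - 1) := by
        obtain ⟨M', rfl⟩ : ∃ M', M = M' + 1 := ⟨M - 1, by omega⟩
        rw [pow_succ]; simp; ring
      rw [Pi.sub_apply, h3]
      calc |k i - l i| ≤ |k i| + |l i| := abs_sub _ _
        _ < _ := by linarith
  · intro h; exact absurd (hΛ hk) h

end Pool.Agent.LBern
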