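import Pool.Agent.LBern.Cube

/-!
Layer cake lemma: `E min(u², l²) ≤ K E min(v², l²)` for all `l > 0` implies `E u ≤ K E v`.
-/

set_option linter.unusedSectionVars false

namespace Pool.Agent.LBern

open Finset MeasureTheory Set

/-- the elementary integral -/
lemma min_sq_integral {v : ℝ} (hv : 0 ≤ v) :
    IntegrableOn (fun l : ℝ => min (v ^ 2) (l ^ 2) / l ^ 2) (Ioi 0) volume ∧
      ∫ l in Ioi (0 : ℝ), min (v ^ 2) (l ^ 2) / l ^ 2 = 2 * v := by
  rcases eq_or_lt_of_le hv with h0 | hpos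
  · subst h0
    have h : ∀ l : ℝ, min ((0 : ℝ) ^ 2) (l ^ 2) / l ^ 2 = 0 := fun l => by
      have : min ((0 : ℝ) ^ 2) (l ^ 2) = 0 := by
        rw [min_eq_left]
        · norm_num
        · rw [zero_pow two_ne_zero]; positivity
      rw [this, zero_div]
    have e : (fun l : ℝ => min ((0 : ℝ) ^ 2) (l ^ 2) / l ^ 2) = fun _ => 0 := funext h
    rw [e]
    exact ⟨integrableOn_zero, by simp⟩
  · have hsplit : Ioi (0 : ℝ) = Ioc 0 v ∪ Ioi v := (Ioc_union_Ioi_eq_Ioi hv).symm
    have h1 : ∀ l ∈ Ioc (0 : ℝ) v, min (v ^ 2) (l ^ 2) / l ^ 2 = 1 := by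
      intro l hl
      have hl2 : l ^ 2 ≤ v ^ 2 := by
        have := hl.1; have := hl.2; nlinarith
      rw [min_eq_right hl2]
      have : l ^ 2 ≠ 0 := by have := hl.1; positivity
      exact div_self this
    have h2 : ∀ l ∈ Ioi v, min (v ^ 2) (l ^ 2) / l ^ 2 = v ^ 2 * l ^ (-2 : ℝ) := by
      intro l hl
      have hl' : v < l := hl
      have hl0 : 0 < l := lt_trans hpos hl'
      have hl2 : v ^ 2 ≤ l ^ 2 := by nlinarith
      rw [min_eq_left hl2, Real.rpow_neg hl0.le, div_eq_mul_inv]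
      congr 2
      exact (Real.rpow_natCast l 2).symm
    have i1 : IntegrableOn (fun l : ℝ => min (v ^ 2) (l ^ 2) / l ^ 2) (Ioc 0 v) volume := by
      exact (integrableOn_congr_fun h1 measurableSet_Ioc).2 continuous_const.integrableOn_Ioc
    have i2 : IntegrableOn (fun l : ℝ => min (v ^ 2) (l ^ 2) / l ^ 2) (Ioi v) volume := by
      exact (integrableOn_congr_fun h2 measurableSet_Ioi).2
        ((integrableOn_Ioi_rpow_of_lt (by norm_num) hpos).const_mul _)
    constructor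
    · rw [hsplit]; exact i1.union i2
    · rw [hsplit, setIntegral_union (Ioc_disjoint_Ioi le_rfl) measurableSet_Ioi i1 i2,
        setIntegral_congr_fun measurableSet_Ioc h1, setIntegral_congr_fun measurableSet_Ioi h2]
      rw [integral_const_mul, integral_Ioi_rpow_of_lt (by norm_num) hpos]
      have : v ^ 2 * (-v ^ ((-2 : ℝ) + 1) / (-2 + 1)) = v := by
        have h3 : v ^ ((-2 : ℝ) + 1) = v⁻¹ := by
          rw [show ((-2 : ℝ) + 1) = -1 by norm_num, Real.rpow_neg_one]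
        rw [h3]
        field_simp
        norm_num
      rw [this]
      simp [hv]
      ring

/-- layer cake: from `E min(u², l²) ≤ K E min(v², l²)` for all `l > 0` to `E u ≤ K E v` -/
theorem layer_cake {𝒟 𝒟' : Type} [Fintype 𝒟] [DecidableEq 𝒟] [Fintype 𝒟'] [DecidableEq 𝒟']
    (u : (𝒟 → Bool) → ℝ) (v : (𝒟' → Bool) → ℝ)
    (hu : ∀ x, 0 ≤ u x) (hv : ∀ x, 0 ≤ v x) (K : ℝ)
    (h : ∀ l : ℝ, 0 < l → E (fun x => min (u x ^ 2) (l ^ 2)) ≤ K * E (fun x => min (v x ^ 2) (l ^ 2))) :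
    E u ≤ K * E v := by
  have key : ∀ {𝒟₀ : Type} [Fintype 𝒟₀] [DecidableEq 𝒟₀] (w : (𝒟₀ → Bool) → ℝ),
      (∀ x, 0 ≤ w x) →
      IntegrableOn (fun l : ℝ => E (fun x => min (w x ^ 2) (l ^ 2)) / l ^ 2) (Ioi 0) ∧
      ∫ l in Ioi (0 : ℝ), E (fun x => min (w x ^ 2) (l ^ 2)) / l ^ 2 = 2 * E w := by
    intro 𝒟₀ _ _ w hw
    have e1 : (fun l : ℝ => E (fun x => min (w x ^ 2) (l ^ 2)) / l ^ 2)
        = fun l => (Fintype.card (𝒟₀ → Bool) : ℝ)⁻¹ * ∑ x, min (w x ^ 2) (l ^ 2) / l ^ 2 := by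
      funext l
      simp only [E, smul_eq_mul]
      rw [mul_div_assoc, Finset.sum_div]
    rw [e1]
    constructor
    · apply Integrable.const_mul
      apply integrable_finsetSum
      intro x _
      exact (min_sq_integral (hw x)).1
    · rw [integral_const_mul, integral_finsetSum]
      · simp only [(min_sq_integral (hw _)).2, E, smul_eq_mul]
        rw [← Finset.mul_sum]; ring
      · intro x _
        exact (min_sq_integral (hw x)).1
  obtain ⟨iu, eu⟩ := key u hu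
  obtain ⟨iv, ev⟩ := key v hv
  have hle : ∫ l in Ioi (0 : ℝ), E (fun x => min (u x ^ 2) (l ^ 2)) / l ^ 2
      ≤ ∫ l in Ioi (0 : ℝ), K * (E (fun x => min (v x ^ 2) (l ^ 2)) / l ^ 2) := by
    apply setIntegral_mono_on iu (iv.const_mul K) measurableSet_Ioi
    intro l hl
    have hl' : (0 : ℝ) < l := hl
    rw [← mul_div_assoc]
    exact div_le_div_of_nonneg_right (h l hl') (by positivity)
  rw [eu, integral_const_mul, ev] at hle
  linarith

end Pool.Agent.LBern
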