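import Pool.Agent.LBern.PosD
import Pool.Agent.LBern.SL1
import Pool.Agent.LBern.Norms

/-!
Averaged random grid differences (`avg_Dl`) and the layer bound.
-/

set_option linter.unusedSectionVars false

namespace Pool.Agent.LBern

open Finset

variable {d M : ℕ}

/-- reflection `w ↦ ptd (g - posd w)` -/
noncomputable def reflE (g : Gr d M) : Cu d M ≃ Cu d M where
  toFun w := ptd (g - posd w)
  invFun w := ptd (g - posd w)
  left_inv w := by
    simp only [posd_ptd, sub_sub_cancel, ptd_posd]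
  right_inv w := by
    simp only [posd_ptd, sub_sub_cancel, ptd_posd]

lemma E_refl {V : Type} [AddCommGroup V] [Module ℝ V] (g : Gr d M) (F : Cu d M → V) :
    E (fun w : Cu d M => F (ptd (g - posd w))) = E F := by
  simp only [E]
  congr 1
  exact Equiv.sum_comp (reflE g) F

/-- translation of the cube -/
noncomputable def trE (g : Gr d M) : Cu d M ≃ Cu d M where
  toFun w := ptd (posd w + g)
  invFun w := ptd (posd w - g)
  left_inv w := by
    simp only [posd_ptd, add_sub_cancel_right, ptd_posd]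
  right_inv w := by
    simp only [posd_ptd, sub_add_cancel, ptd_posd]

lemma E_trans {V : Type} [AddCommGroup V] [Module ℝ V] (g : Gr d M) (F : Cu d M → V) :
    E (fun w : Cu d M => F (ptd (posd w + g))) = E F := by
  simp only [E]
  congr 1
  exact Equiv.sum_comp (trE g) F

theorem avg_Dl {a : Fin d → ℕ} (ha : a ∈ lev d M) (Λ : Finset (Fin d → ℤ))
    (c : (Fin d → ℤ) → ℂ) (g : Gr d M) :
    E (fun w : Cu d M => Dl a (fw (tp Λ c) (posd w)) (ptd (g - posd w)))
      = tp Λ (fun k => c k * ((∏ i, ph M (a i) (k i) : ℝ) : ℂ)) g := by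
  have h1 : ∀ w z : Cu d M, Dl a (fw (tp Λ c) (posd w)) z
      = ∑ k ∈ Λ, c k * (ch k (posd w) * Dl a (fun z => ch k (posd z)) z) := by
    intro w z
    have : fw (tp Λ c) (posd w) = fun z => ∑ k ∈ Λ, c k * ch k (posd z + posd w) := by
      funext z; rfl
    rw [this, Dl_sum]
    refine Finset.sum_congr rfl fun k _ => ?_
    rw [Dl_mul_left, ← Dl_fw_ch]
  simp only [h1]
  rw [E_sum]
  simp only [tp]
  refine Finset.sum_congr rfl fun k _ => ?_
  rw [E_mul_left_complex]
  have h2 : ∀ w : Cu d M, ch k (posd w) * Dl a (fun z => ch k (posd z)) (ptd (g - posd w))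
      = (fun z : Cu d M => ch k (g - posd z) * Dl a (fun z => ch k (posd z)) z) (ptd (g - posd w)) := by
    intro w
    simp only [posd_ptd, sub_sub_cancel]
  simp only [h2]
  rw [E_refl g (fun z : Cu d M => ch k (g - posd z) * Dl a (fun z => ch k (posd z)) z)]
  have h3 : ∀ z : Cu d M, ch k (g - posd z) * Dl a (fun z => ch k (posd z)) z
      = ch k g * ((starRingEnd ℂ) (ch k (posd z)) * Dl a (fun z => ch k (posd z)) z) := by
    intro z
    rw [sub_eq_add_neg, ch_add, ch_neg]; ring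
  simp only [h3]
  rw [E_mul_left_complex, E_conj_Dl_ch ha]
  ring

/-- norm inequality for means -/
lemma norm_E_le' {𝒟 : Type} [Fintype 𝒟] [DecidableEq 𝒟] (f : (𝒟 → Bool) → ℂ) :
    ‖E f‖ ≤ E (fun x => ‖f x‖) := by
  simp only [E, smul_eq_mul]
  rw [norm_smul, Real.norm_of_nonneg (by positivity)]
  exact mul_le_mul_of_nonneg_left (norm_sum_le _ _) (by positivity)

/-- real and imaginary parts of differences -/
lemma re_E {𝒟 : Type} [Fintype 𝒟] [DecidableEq 𝒟] (f : (𝒟 → Bool) → ℂ) :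
    (E f).re = E (fun x => (f x).re) := by
  simp only [E]
  rw [Complex.smul_re, Complex.re_sum]

lemma im_E {𝒟 : Type} [Fintype 𝒟] [DecidableEq 𝒟] (f : (𝒟 → Bool) → ℂ) :
    (E f).im = E (fun x => (f x).im) := by
  simp only [E]
  rw [Complex.smul_im, Complex.im_sum]

lemma re_Dl (a : Fin d → ℕ) (f : Cu d M → ℂ) (z : Cu d M) :
    (Dl a f z).re = Dl a (fun z => (f z).re) z := by
  simp only [Dl, AL, Av, Complex.real_smul, smul_eq_mul, Complex.re_ofReal_mul, re_E]

lemma im_Dl (a : Fin d → ℕ) (f : Cu d M → ℂ) (z : Cu d M) :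
    (Dl a f z).im = Dl a (fun z => (f z).im) z := by
  simp only [Dl, AL, Av, Complex.real_smul, smul_eq_mul, Complex.im_ofReal_mul, im_E]

/-- `sl1` for complex functions -/
theorem sl1C (d : ℕ) : ∃ C : ℝ, 0 < C ∧ ∀ (M : ℕ) (f : Cu d M → ℂ),
    E (fun x => ‖f x‖) ≤ C * E (fun x => Real.sqrt (∑ a ∈ lev d M, ‖Dl a f x‖ ^ 2)) := by
  obtain ⟨C, hC, h⟩ := sl1 d
  refine ⟨2 * C, by positivity, fun M f => ?_⟩
  have h1 := h M (fun x => (f x).re)
  have h2 := h M (fun x => (f x).im)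
  have hre : E (fun x : Cu d M => Real.sqrt (∑ a ∈ lev d M, (Dl a (fun x => (f x).re) x) ^ 2))
      ≤ E (fun x : Cu d M => Real.sqrt (∑ a ∈ lev d M, ‖Dl a f x‖ ^ 2)) := by
    apply E_mono
    intro x
    apply Real.sqrt_le_sqrt
    apply Finset.sum_le_sum
    intro a _
    rw [← re_Dl]
    have := Complex.abs_re_le_norm (Dl a f x)
    rw [← sq_abs]
    exact pow_le_pow_left₀ (abs_nonneg _) this 2
  have him : E (fun x : Cu d M => Real.sqrt (∑ a ∈ lev d M, (Dl a (fun x => (f x).im) x) ^ 2))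
      ≤ E (fun x : Cu d M => Real.sqrt (∑ a ∈ lev d M, ‖Dl a f x‖ ^ 2)) := by
    apply E_mono
    intro x
    apply Real.sqrt_le_sqrt
    apply Finset.sum_le_sum
    intro a _
    rw [← im_Dl]
    have := Complex.abs_im_le_norm (Dl a f x)
    rw [← sq_abs]
    exact pow_le_pow_left₀ (abs_nonneg _) this 2
  have h3 : E (fun x => ‖f x‖) ≤ E (fun x => |(f x).re|) + E (fun x => |(f x).im|) := by
    rw [← E_add]
    apply E_mono
    intro x
    exact Complex.norm_le_abs_re_add_abs_im _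
  calc E (fun x => ‖f x‖) ≤ E (fun x => |(f x).re|) + E (fun x => |(f x).im|) := h3
    _ ≤ _ + _ := add_le_add h1 h2
    _ ≤ C * E (fun x : Cu d M => Real.sqrt (∑ a ∈ lev d M, ‖Dl a f x‖ ^ 2))
        + C * E (fun x : Cu d M => Real.sqrt (∑ a ∈ lev d M, ‖Dl a f x‖ ^ 2)) :=
        add_le_add (mul_le_mul_of_nonneg_left hre hC.le) (mul_le_mul_of_nonneg_left him hC.le)
    _ = _ := by ring

lemma DD_self (a : Fin d → ℕ) : DD (M := M) a a = DDq (fun _ => 1) a := by
  ext p; simp [DD, DDq]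

/-- layers of the derivative, from `tail_q` -/
theorem layer_bound_of (d : ℕ)
    (tail_q : ∃ C : ℝ, 0 < C ∧ ∀ (M l : ℕ) (f : Gr d M → ℂ) (w0 : Gr d M)
      (q : Fin d → ℕ),
      E (fun z : Cu d M => Real.sqrt (∑ a ∈ levw d M l,
          (Av (DDq q a) (fun z => Wa f a (posd z + w0)) z) ^ 2))
        ≤ C * (∏ i, (2 * q i + 1 : ℝ)) * Nl f l) :
    ∃ C : ℝ, 0 < C ∧ ∀ (M l : ℕ) (B : ℝ), 0 < B →
    ∀ (f : Gr d M → ℂ) (h : (Fin d → ℕ) → Gr d M → ℂ) (A : Finset (Fin d → ℕ)), A ⊆ levw d M l →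
    (∀ a ∈ A, Blk B a f (h a)) →
    n1 (fun g => ∑ a ∈ A, E (fun w : Cu d M => Dl a (fw (h a) (posd w)) (ptd (g - posd w))))
      ≤ C * B * Nl f l := by
  obtain ⟨C1, hC1, hsl⟩ := sl1C d
  obtain ⟨C2, hC2, htl⟩ := tail_q
  refine ⟨C1 * (C2 * 3 ^ d), by positivity, ?_⟩
  intro M l B hB f h A hA hBlk
  have hAlev : ∀ a ∈ A, a ∈ lev d M := fun a ha => (Finset.mem_filter.1 (hA ha)).1
  -- move the norm inside
  have step1 : n1 (fun g => ∑ a ∈ A, E (fun w : Cu d M => Dl a (fw (h a) (posd w)) (ptd (g - posd w))))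
      ≤ E (fun w : Cu d M => E (fun z : Cu d M => ‖∑ a ∈ A, Dl a (fw (h a) (posd w)) z‖)) := by
    unfold n1
    have e1 : ∀ z : Cu d M, ‖∑ a ∈ A, E (fun w : Cu d M =>
          Dl a (fw (h a) (posd w)) (ptd (posd z - posd w)))‖
        ≤ E (fun w : Cu d M => ‖∑ a ∈ A, Dl a (fw (h a) (posd w)) (ptd (posd z - posd w))‖) := by
      intro z
      rw [← E_sum]
      exact norm_E_le' _
    refine (E_mono e1).trans (le_of_eq ?_)
    rw [E_comm]
    congr 1; funext w
    have e2 : ∀ z : Cu d M, ‖∑ a ∈ A, Dl a (fw (h a) (posd w)) (ptd (posd z - posd w))‖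
        = (fun z' : Cu d M => ‖∑ a ∈ A, Dl a (fw (h a) (posd w)) z'‖) (ptd (posd z + -posd w)) := by
      intro z; rw [← sub_eq_add_neg]
    simp only [e2]
    exact E_trans (-posd w) (fun z' : Cu d M => ‖∑ a ∈ A, Dl a (fw (h a) (posd w)) z'‖)
  refine step1.trans ?_
  -- square function
  have step2 : ∀ w : Cu d M, E (fun z : Cu d M => ‖∑ a ∈ A, Dl a (fw (h a) (posd w)) z‖)
      ≤ C1 * (C2 * 3 ^ d * B * Nl f l) := by
    intro w
    have h1 := hsl M (fun z => ∑ a ∈ A, Dl a (fw (h a) (posd w)) z)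
    refine h1.trans ?_
    apply mul_le_mul_of_nonneg_left _ hC1.le
    have e3 : ∀ z : Cu d M, ∑ b ∈ lev d M, ‖Dl b (fun z => ∑ a ∈ A, Dl a (fw (h a) (posd w)) z) z‖ ^ 2
        = ∑ a ∈ A, ‖Dl a (fw (h a) (posd w)) z‖ ^ 2 := by
      intro z
      have e4 : ∀ b ∈ lev d M, ‖Dl b (fun z => ∑ a ∈ A, Dl a (fw (h a) (posd w)) z) z‖ ^ 2
          = if b ∈ A then ‖Dl b (fw (h b) (posd w)) z‖ ^ 2 else 0 := by
        intro b hb
        rw [Dl_sum]
        have e5 : ∀ a ∈ A, Dl b (Dl a (fw (h a) (posd w))) z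
            = if b = a then Dl b (fw (h b) (posd w)) z else 0 := by
          intro a ha
          rw [Dl_Dl hb (hAlev a ha)]
          split_ifs with hba
          · subst hba; rfl
          · rfl
        have e5' : (fun x => ∑ i ∈ A, Dl b (Dl i (fw (h i) (posd w))) x) z
            = ∑ a ∈ A, (if b = a then Dl b (fw (h b) (posd w)) z else 0) :=
          Finset.sum_congr rfl e5
        have e5'' : (fun x => ∑ i ∈ A, Dl b (fun z => Dl i (fw (h i) (posd w)) z) x) z
            = ∑ a ∈ A, (if b = a then Dl b (fw (h b) (posd w)) z else 0) := e5'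
        rw [e5'', Finset.sum_ite_eq]
        split_ifs
        · rfl
        · simp
      rw [Finset.sum_congr rfl e4, ← Finset.sum_filter]
      apply Finset.sum_congr _ (fun _ _ => rfl)
      ext b
      simp only [Finset.mem_filter]
      exact ⟨fun hb => hb.2, fun hb => ⟨hAlev b hb, hb⟩⟩
    simp only [e3]
    -- block bound
    have e6 : ∀ z : Cu d M, Real.sqrt (∑ a ∈ A, ‖Dl a (fw (h a) (posd w)) z‖ ^ 2)
        ≤ B * Real.sqrt (∑ a ∈ levw d M l,
          (Av (DDq (fun _ => 1) a) (fun z => Wa f a (posd z + posd w)) z) ^ 2) := by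
      intro z
      have hBs : ∀ t : ℝ, B * Real.sqrt t = Real.sqrt (B ^ 2 * t) := fun t => by
        rw [Real.sqrt_mul (sq_nonneg B), Real.sqrt_sq hB.le]
      rw [hBs]
      apply Real.sqrt_le_sqrt
      rw [Finset.mul_sum]
      refine le_trans (Finset.sum_le_sum (g := fun a => B ^ 2 *
        (Av (DDq (fun _ => 1) a) (fun z => Wa f a (posd z + posd w)) z) ^ 2) ?_) ?_
      · intro a ha
        have h2 := hBlk a ha a (hAlev a ha) (posd w) z
        simp only [Nat.sub_self, pow_zero, Finset.prod_const_one, mul_one, DD_self] at h2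
        rw [← mul_pow]
        exact pow_le_pow_left₀ (norm_nonneg _) h2 2
      · apply Finset.sum_le_sum_of_subset_of_nonneg hA
        intro a _ _
        positivity
    refine (E_mono e6).trans ?_
    rw [E_mul_left]
    have h3 := htl M l f (posd w) (fun _ => 1)
    have e7 : (∏ _i : Fin d, (2 * ((1 : ℕ) : ℝ) + 1)) = 3 ^ d := by
      rw [Finset.prod_const, Finset.card_univ, Fintype.card_fin]; norm_num
    rw [e7] at h3
    calc B * _ ≤ B * (C2 * 3 ^ d * Nl f l) := mul_le_mul_of_nonneg_left h3 hB.le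
      _ = _ := by ring
  refine (E_mono step2).trans (le_of_eq ?_)
  rw [E_const]; ring

end Pool.Agent.LBern
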