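import Pool.Agent.LBern.Cube

/-!
Lepingle's inequality on a decreasing chain of digit sets, and Minkowski's inequality
for means.
-/

set_option linter.unusedSectionVars false

namespace Pool.Agent.LBern

open Finset

variable {𝒟 : Type} [Fintype 𝒟] [DecidableEq 𝒟]

/-! ### numerical lemmas -/

lemma sq_div_sqrt_le {s b : ℝ} (hs : 0 ≤ s) :
    b ^ 2 / Real.sqrt (s + b ^ 2) ≤ 2 * (Real.sqrt (s + b ^ 2) - Real.sqrt s) := by
  have h1 : 0 ≤ s + b ^ 2 := by positivity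
  have hle : Real.sqrt s ≤ Real.sqrt (s + b ^ 2) := Real.sqrt_le_sqrt (by nlinarith [sq_nonneg b])
  rcases eq_or_lt_of_le (Real.sqrt_nonneg (s + b ^ 2)) with h | h
  · rw [← h]
    have : Real.sqrt s = 0 := le_antisymm (by rw [h]; exact hle) (Real.sqrt_nonneg _)
    rw [this]; simp
  · rw [div_le_iff₀ h]
    have e1 : Real.sqrt (s + b ^ 2) ^ 2 = s + b ^ 2 := Real.sq_sqrt h1
    have e2 : Real.sqrt s ^ 2 = s := Real.sq_sqrt hs
    nlinarith [Real.sqrt_nonneg s]

lemma filter_le_insert_max {J : Finset ℕ} {m : ℕ} (hm : ∀ j ∈ J, j < m) {j : ℕ} (hj : j ∈ J) :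
    (insert m J).filter (fun i => i ≤ j) = J.filter (fun i => i ≤ j) := by
  have : ¬ m ≤ j := not_le.mpr (hm j hj)
  rw [Finset.filter_insert, if_neg this]

lemma filter_lt_insert_max {J : Finset ℕ} {m : ℕ} (hm : ∀ j ∈ J, j < m) {j : ℕ} (hj : j ∈ J) :
    (insert m J).filter (fun i => i < j) = J.filter (fun i => i < j) := by
  have : ¬ m < j := not_lt.mpr (hm j hj).le
  rw [Finset.filter_insert, if_neg this]

lemma filter_le_insert_self {J : Finset ℕ} {m : ℕ} (hm : ∀ j ∈ J, j < m) :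
    (insert m J).filter (fun i => i ≤ m) = insert m J := by
  apply Finset.filter_true_of_mem
  intro i hi
  rcases Finset.mem_insert.mp hi with h | h
  · exact h.le
  · exact (hm i h).le

lemma filter_lt_insert_self {J : Finset ℕ} {m : ℕ} (hm : ∀ j ∈ J, j < m) :
    (insert m J).filter (fun i => i < m) = J := by
  rw [Finset.filter_insert, if_neg (lt_irrefl m)]
  exact Finset.filter_true_of_mem hm

/-- `∑ a_j² / (∑_{i ≤ j} a_i²)^{1/2} ≤ 2 (∑ a_j²)^{1/2}` -/
lemma sum_sq_div_sqrt_le (J : Finset ℕ) (a : ℕ → ℝ) :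
    ∑ j ∈ J, a j ^ 2 / Real.sqrt (∑ i ∈ J.filter (fun i => i ≤ j), a i ^ 2)
      ≤ 2 * Real.sqrt (∑ i ∈ J, a i ^ 2) := by
  induction J using Finset.induction_on_max with
  | empty => simp
  | insert m J hm ih =>
    have hmJ : m ∉ J := fun h => lt_irrefl _ (hm m h)
    rw [Finset.sum_insert hmJ, filter_le_insert_self hm, Finset.sum_insert hmJ]
    have e : ∑ j ∈ J, a j ^ 2 / Real.sqrt (∑ i ∈ (insert m J).filter (fun i => i ≤ j), a i ^ 2)
        = ∑ j ∈ J, a j ^ 2 / Real.sqrt (∑ i ∈ J.filter (fun i => i ≤ j), a i ^ 2) :=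
      Finset.sum_congr rfl fun j hj => by rw [filter_le_insert_max hm hj]
    rw [e]
    have h := sq_div_sqrt_le (s := ∑ i ∈ J, a i ^ 2) (b := a m)
      (Finset.sum_nonneg fun i _ => sq_nonneg _)
    rw [add_comm (a m ^ 2)]
    linarith

lemma sum_sqrt_sub_sqrt (J : Finset ℕ) (a : ℕ → ℝ) :
    ∑ j ∈ J, (Real.sqrt (∑ i ∈ J.filter (fun i => i ≤ j), a i ^ 2)
        - Real.sqrt (∑ i ∈ J.filter (fun i => i < j), a i ^ 2))
      = Real.sqrt (∑ i ∈ J, a i ^ 2) := by
  induction J using Finset.induction_on_max with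
  | empty => simp
  | insert m J hm ih =>
    have hmJ : m ∉ J := fun h => lt_irrefl _ (hm m h)
    rw [Finset.sum_insert hmJ, filter_le_insert_self hm, filter_lt_insert_self hm]
    have e : ∑ j ∈ J, (Real.sqrt (∑ i ∈ (insert m J).filter (fun i => i ≤ j), a i ^ 2)
        - Real.sqrt (∑ i ∈ (insert m J).filter (fun i => i < j), a i ^ 2))
        = ∑ j ∈ J, (Real.sqrt (∑ i ∈ J.filter (fun i => i ≤ j), a i ^ 2)
        - Real.sqrt (∑ i ∈ J.filter (fun i => i < j), a i ^ 2)) :=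
      Finset.sum_congr rfl fun j hj => by
        rw [filter_le_insert_max hm hj, filter_lt_insert_max hm hj]
    rw [e, ih]
    ring

/-! ### Minkowski -/

lemma minkowski_E {α : Type} (S : Finset α) (f : α → (𝒟 → Bool) → ℝ) :
    Real.sqrt (∑ s ∈ S, (E (f s)) ^ 2) ≤ E (fun x => Real.sqrt (∑ s ∈ S, (f s x) ^ 2)) := by
  have hR0 : 0 ≤ Real.sqrt (∑ s ∈ S, (E (f s)) ^ 2) := Real.sqrt_nonneg _
  have hE0 : 0 ≤ E (fun x => Real.sqrt (∑ s ∈ S, (f s x) ^ 2)) :=
    E_nonneg fun x => Real.sqrt_nonneg _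
  rcases eq_or_lt_of_le hR0 with h | h
  · rw [← h]; exact hE0
  · have h2 : Real.sqrt (∑ s ∈ S, (E (f s)) ^ 2) ^ 2 = ∑ s ∈ S, (E (f s)) ^ 2 :=
      Real.sq_sqrt (Finset.sum_nonneg fun i _ => sq_nonneg _)
    have h3 : ∑ s ∈ S, (E (f s)) ^ 2 = E (fun x => ∑ s ∈ S, E (f s) * f s x) := by
      rw [E_sum S (fun s x => E (f s) * f s x)]
      exact Finset.sum_congr rfl fun s _ => by rw [E_mul_left, sq]
    have h4 : E (fun x => ∑ s ∈ S, E (f s) * f s x)
        ≤ E (fun x => Real.sqrt (∑ s ∈ S, (E (f s)) ^ 2) * Real.sqrt (∑ s ∈ S, (f s x) ^ 2)) := by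
      apply E_mono
      intro x
      exact Real.sum_mul_le_sqrt_mul_sqrt S (fun s => E (f s)) (fun s => f s x)
    rw [E_mul_left] at h4
    have h5 : Real.sqrt (∑ s ∈ S, (E (f s)) ^ 2) * Real.sqrt (∑ s ∈ S, (E (f s)) ^ 2)
        ≤ Real.sqrt (∑ s ∈ S, (E (f s)) ^ 2) * E (fun x => Real.sqrt (∑ s ∈ S, (f s x) ^ 2)) := by
      calc Real.sqrt (∑ s ∈ S, (E (f s)) ^ 2) * Real.sqrt (∑ s ∈ S, (E (f s)) ^ 2)
          = E (fun x => ∑ s ∈ S, E (f s) * f s x) := by rw [← sq, h2, h3]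
        _ ≤ _ := h4
    exact le_of_mul_le_mul_left h5 h

lemma minkowski_Av {α : Type} (D : Finset 𝒟) (S : Finset α) (f : α → (𝒟 → Bool) → ℝ)
    (x : 𝒟 → Bool) :
    Real.sqrt (∑ s ∈ S, (Av D (f s) x) ^ 2)
      ≤ Av D (fun y => Real.sqrt (∑ s ∈ S, (f s y) ^ 2)) x :=
  minkowski_E S (fun s y => f s (mix D y x))

/-! ### Lepingle -/

/-- LEPINGLE on a decreasing chain of digit sets -/
theorem lepingle (D : ℕ → Finset 𝒟)
    (_hD : ∀ s t, s ≤ t → D t ⊆ D s) (J : Finset ℕ) (H : ℕ → (𝒟 → Bool) → ℝ)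
    (h0 : ∀ j ∈ J, ∀ x, 0 ≤ H j x) (hH : ∀ i ∈ J, ∀ j ∈ J, i < j → Inv (D j) (H i)) :
    E (fun x => Real.sqrt (∑ j ∈ J, (Av (D j) (H j) x) ^ 2))
      ≤ 2 * E (fun x => Real.sqrt (∑ j ∈ J, (H j x) ^ 2)) := by
  set R : (𝒟 → Bool) → ℝ := fun x => Real.sqrt (∑ j ∈ J, (Av (D j) (H j) x) ^ 2) with hR
  set v : ℕ → (𝒟 → Bool) → ℝ := fun j x => Av (D j) (H j) x / R x with hv
  set w : ℕ → (𝒟 → Bool) → ℝ := fun j => Av (D j) (v j) with hw
  set T : (𝒟 → Bool) → ℝ := fun x => Real.sqrt (∑ j ∈ J, (H j x) ^ 2) with hT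
  set P : ℕ → (𝒟 → Bool) → ℝ :=
    fun j x => Real.sqrt (∑ i ∈ J.filter (fun i => i ≤ j), (H i x) ^ 2) with hP
  set Q : ℕ → (𝒟 → Bool) → ℝ :=
    fun j x => Real.sqrt (∑ i ∈ J.filter (fun i => i < j), (H i x) ^ 2) with hQ
  have hR0 : ∀ x, 0 ≤ R x := fun x => Real.sqrt_nonneg _
  have hRsq : ∀ x, R x ^ 2 = ∑ j ∈ J, (Av (D j) (H j) x) ^ 2 := fun x =>
    Real.sq_sqrt (Finset.sum_nonneg fun i _ => sq_nonneg _)
  -- `R = ∑ v_j A_j`
  have hR1 : ∀ x, R x = ∑ j ∈ J, v j x * Av (D j) (H j) x := by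
    intro x
    have : ∑ j ∈ J, v j x * Av (D j) (H j) x = (∑ j ∈ J, (Av (D j) (H j) x) ^ 2) / R x := by
      rw [Finset.sum_div]
      exact Finset.sum_congr rfl fun j _ => by simp only [hv]; ring
    rw [this, ← hRsq]
    rcases eq_or_lt_of_le (hR0 x) with h | h
    · rw [← h]; simp
    · field_simp
  -- `∑ v_j² ≤ 1`
  have hv1 : ∀ x, ∑ j ∈ J, v j x ^ 2 ≤ 1 := by
    intro x
    have : ∑ j ∈ J, v j x ^ 2 = (∑ j ∈ J, (Av (D j) (H j) x) ^ 2) / R x ^ 2 := by
      rw [Finset.sum_div]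
      exact Finset.sum_congr rfl fun j _ => by simp only [hv]; rw [div_pow]
    rw [this, ← hRsq]
    exact div_self_le_one _
  have hvj : ∀ j ∈ J, ∀ x, v j x ^ 2 ≤ 1 := fun j hj x =>
    (Finset.single_le_sum (f := fun j => v j x ^ 2) (fun i _ => sq_nonneg _) hj).trans (hv1 x)
  have hwv : ∀ j x, w j x ^ 2 ≤ Av (D j) (fun x => v j x ^ 2) x := fun j x => sq_Av_le _ _ _
  have hw1 : ∀ j ∈ J, ∀ x, w j x ^ 2 ≤ 1 := by
    intro j hj x
    refine (hwv j x).trans ?_
    have := Av_mono (D j) (f := fun x => v j x ^ 2) (g := fun _ => (1 : ℝ)) (hvj j hj) x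
    rwa [Av_const] at this
  -- step 1
  have s1 : E R = E (fun x => ∑ j ∈ J, w j x * H j x) := by
    have : E R = E (fun x => ∑ j ∈ J, v j x * Av (D j) (H j) x) := by
      congr 1; funext x; exact hR1 x
    rw [this, E_sum J (fun j x => v j x * Av (D j) (H j) x),
      E_sum J (fun j x => w j x * H j x)]
    exact Finset.sum_congr rfl fun j _ => E_mul_Av (D j) (H j) (v j)
  -- step 2
  have s2 : ∀ x, ∑ j ∈ J, w j x * H j x
      ≤ (1 / 2) * (∑ j ∈ J, H j x ^ 2 / P j x) + (1 / 2) * ∑ j ∈ J, w j x ^ 2 * P j x := by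
    intro x
    rw [Finset.mul_sum, Finset.mul_sum, ← Finset.sum_add_distrib]
    apply Finset.sum_le_sum
    intro j hj
    have hP0 : 0 ≤ P j x := Real.sqrt_nonneg _
    have hHP : H j x ≤ P j x := by
      apply Real.le_sqrt_of_sq_le
      exact Finset.single_le_sum (f := fun i => H i x ^ 2) (fun i _ => sq_nonneg _)
        (Finset.mem_filter.mpr ⟨hj, le_refl j⟩)
    rcases eq_or_lt_of_le hP0 with h | h
    · have : H j x = 0 := le_antisymm (by rw [h]; exact hHP) (h0 j hj x)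
      rw [this, ← h]; simp
    · have : w j x * H j x = (w j x * Real.sqrt (P j x)) * (H j x / Real.sqrt (P j x)) := by
        have : Real.sqrt (P j x) ≠ 0 := (Real.sqrt_pos.mpr h).ne'
        field_simp
      have e1 : H j x ^ 2 / P j x = (H j x / Real.sqrt (P j x)) ^ 2 := by
        rw [div_pow, Real.sq_sqrt hP0]
      have e2 : w j x ^ 2 * P j x = (w j x * Real.sqrt (P j x)) ^ 2 := by
        rw [mul_pow, Real.sq_sqrt hP0]
      rw [this, e1, e2]
      nlinarith [sq_nonneg (w j x * Real.sqrt (P j x) - H j x / Real.sqrt (P j x))]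
  have s3 : ∀ x, ∑ j ∈ J, H j x ^ 2 / P j x ≤ 2 * T x := fun x =>
    sum_sq_div_sqrt_le J (fun j => H j x)
  -- step 4: the second sum
  have hQT : ∀ j x, Q j x ≤ T x := fun j x => by
    apply Real.sqrt_le_sqrt
    exact Finset.sum_le_sum_of_subset_of_nonneg (Finset.filter_subset _ _)
      (fun i _ _ => sq_nonneg _)
  have hQP : ∀ j x, Q j x ≤ P j x := fun j x => by
    apply Real.sqrt_le_sqrt
    apply Finset.sum_le_sum_of_subset_of_nonneg
    · intro i hi
      rw [Finset.mem_filter] at hi ⊢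
      exact ⟨hi.1, hi.2.le⟩
    · exact fun i _ _ => sq_nonneg _
  have hQinv : ∀ j ∈ J, Inv (D j) (Q j) := by
    intro j hj x y hxy
    simp only [hQ]
    congr 1
    apply Finset.sum_congr rfl
    intro i hi
    rw [Finset.mem_filter] at hi
    rw [hH i hi.1 j hj hi.2 x y hxy]
  have s4 : ∀ j ∈ J, E (fun x => w j x ^ 2 * P j x)
      ≤ E (fun x => P j x - Q j x) + E (fun x => v j x ^ 2 * T x) := by
    intro j hj
    have a1 : E (fun x => w j x ^ 2 * P j x)
        = E (fun x => w j x ^ 2 * (P j x - Q j x)) + E (fun x => w j x ^ 2 * Q j x) := by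
      rw [← E_add]; congr 1; funext x; ring
    have a2 : E (fun x => w j x ^ 2 * (P j x - Q j x)) ≤ E (fun x => P j x - Q j x) := by
      apply E_mono; intro x
      have := hw1 j hj x
      have h' : 0 ≤ P j x - Q j x := sub_nonneg.mpr (hQP j x)
      nlinarith
    have a3 : E (fun x => w j x ^ 2 * Q j x) ≤ E (fun x => v j x ^ 2 * T x) := by
      calc E (fun x => w j x ^ 2 * Q j x)
          ≤ E (fun x => Av (D j) (fun x => v j x ^ 2) x * Q j x) := by
            apply E_mono; intro x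
            exact mul_le_mul_of_nonneg_right (hwv j x) (Real.sqrt_nonneg _)
        _ = E (fun x => v j x ^ 2 * Q j x) := by
            rw [← Av_mul_of_Inv' (hQinv j hj), E_Av]
        _ ≤ E (fun x => v j x ^ 2 * T x) := by
            apply E_mono; intro x
            exact mul_le_mul_of_nonneg_left (hQT j x) (sq_nonneg _)
    rw [a1]; exact add_le_add a2 a3
  have s5 : E (fun x => ∑ j ∈ J, w j x ^ 2 * P j x) ≤ 2 * E T := by
    rw [E_sum J (fun j x => w j x ^ 2 * P j x)]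
    calc ∑ j ∈ J, E (fun x => w j x ^ 2 * P j x)
        ≤ ∑ j ∈ J, (E (fun x => P j x - Q j x) + E (fun x => v j x ^ 2 * T x)) :=
          Finset.sum_le_sum s4
      _ = E (fun x => ∑ j ∈ J, (P j x - Q j x)) + E (fun x => ∑ j ∈ J, v j x ^ 2 * T x) := by
          rw [Finset.sum_add_distrib, E_sum J (fun j x => P j x - Q j x),
            E_sum J (fun j x => v j x ^ 2 * T x)]
      _ ≤ E T + E T := by
          apply add_le_add
          · apply E_mono; intro x
            exact (sum_sqrt_sub_sqrt J (fun j => H j x)).le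
          · apply E_mono; intro x
            rw [← Finset.sum_mul]
            have hTx : 0 ≤ T x := Real.sqrt_nonneg _
            nlinarith [hv1 x]
      _ = 2 * E T := by ring
  calc E R = E (fun x => ∑ j ∈ J, w j x * H j x) := s1
    _ ≤ E (fun x => (1 / 2) * (∑ j ∈ J, H j x ^ 2 / P j x)
          + (1 / 2) * ∑ j ∈ J, w j x ^ 2 * P j x) := E_mono s2
    _ = (1 / 2) * E (fun x => ∑ j ∈ J, H j x ^ 2 / P j x)
          + (1 / 2) * E (fun x => ∑ j ∈ J, w j x ^ 2 * P j x) := by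
        rw [E_add, E_mul_left, E_mul_left]
    _ ≤ (1 / 2) * E (fun x => 2 * T x) + (1 / 2) * (2 * E T) := by
        have := E_mono s3
        linarith
    _ = 2 * E T := by rw [E_mul_left]; ring

end Pool.Agent.LBern
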