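import Pool.Agent.LBern.SL1
import Pool.Agent.LBern.Norms

/-!
The iterated Lepingle inequality, with lags.
-/

set_option linter.unusedSectionVars false

namespace Pool.Agent.LBern

open Finset

lemma sqrt_add_le' {a b : ℝ} (ha : 0 ≤ a) (hb : 0 ≤ b) :
    Real.sqrt (a + b) ≤ Real.sqrt a + Real.sqrt b := by
  apply Real.sqrt_le_iff.mpr
  refine ⟨by positivity, ?_⟩
  have h1 := Real.sq_sqrt ha
  have h2 := Real.sq_sqrt hb
  nlinarith [mul_nonneg (Real.sqrt_nonneg a) (Real.sqrt_nonneg b)]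

lemma sqrt_sum_le' {β : Type} (C : Finset β) (ψ : β → ℝ) (h : ∀ c ∈ C, 0 ≤ ψ c) :
    Real.sqrt (∑ c ∈ C, ψ c) ≤ ∑ c ∈ C, Real.sqrt (ψ c) := by
  classical
  induction C using Finset.induction_on with
  | empty => simp
  | insert c C hc ih =>
    rw [Finset.sum_insert hc, Finset.sum_insert hc]
    refine (sqrt_add_le' (h c (Finset.mem_insert_self c C))
      (Finset.sum_nonneg fun j hj => h j (Finset.mem_insert_of_mem hj))).trans ?_
    have := ih (fun j hj => h j (Finset.mem_insert_of_mem hj))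
    linarith

/-- covering of a square function -/
lemma sqrt_sum_le_of_cover {α β : Type} [DecidableEq α] (S : Finset α) (C : Finset β)
    (P : β → Finset α) (φ : α → ℝ) (h0 : ∀ s, 0 ≤ φ s) (hcov : ∀ s ∈ S, ∃ c ∈ C, s ∈ P c) :
    Real.sqrt (∑ s ∈ S, φ s) ≤ ∑ c ∈ C, Real.sqrt (∑ s ∈ P c, φ s) := by
  have h1 : ∑ s ∈ S, φ s ≤ ∑ c ∈ C, ∑ s ∈ P c, φ s := by
    calc ∑ s ∈ S, φ s ≤ ∑ s ∈ S, ∑ c ∈ C, (if s ∈ P c then φ s else 0) := by
          apply Finset.sum_le_sum
          intro s hs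
          obtain ⟨c, hc, hsc⟩ := hcov s hs
          have := Finset.single_le_sum (f := fun c => if s ∈ P c then φ s else 0)
            (fun c _ => by
              show (0 : ℝ) ≤ if s ∈ P c then φ s else 0
              split_ifs
              · exact h0 s
              · exact le_rfl) hc
          simpa [hsc] using this
      _ = ∑ c ∈ C, ∑ s ∈ S.filter (fun s => s ∈ P c), φ s := by
          rw [Finset.sum_comm]
          exact Finset.sum_congr rfl fun c _ => (Finset.sum_filter _ _).symm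
      _ ≤ ∑ c ∈ C, ∑ s ∈ P c, φ s := by
          apply Finset.sum_le_sum
          intro c _
          apply Finset.sum_le_sum_of_subset_of_nonneg
          · intro s hs; exact (Finset.mem_filter.mp hs).2
          · exact fun s _ _ => h0 s
  exact (Real.sqrt_le_sqrt h1).trans
    (sqrt_sum_le' C _ fun c _ => Finset.sum_nonneg fun s _ => h0 s)

variable {d M : ℕ}

lemma digW_insert (i : Fin d) (W : Finset (Fin d)) (s : Fin d → ℕ) :
    (digW (insert i W) s : Finset (Dg d M)) = digc i (s i) ∪ digW W s := by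
  ext ⟨p, j⟩
  simp only [digW, digc, mem_filter, mem_univ, true_and, mem_insert, mem_union]
  constructor
  · rintro ⟨h1 | h1, h2⟩
    · left; subst h1; exact ⟨rfl, h2⟩
    · right; exact ⟨h1, h2⟩
  · rintro (⟨h1, h2⟩ | ⟨h1, h2⟩)
    · subst h1; exact ⟨Or.inl rfl, h2⟩
    · exact ⟨Or.inr h1, h2⟩

/-- Lepingle in one coordinate for a family with levels `σ` -/
lemma lep_coord {α : Type} [DecidableEq α] (i : Fin d) (S : Finset α) (σ : α → ℕ)
    (k : α → Cu d M → ℝ)
    (hyp : ∀ s ∈ S, ∀ s' ∈ S, σ s < σ s' → Inv (digc i (σ s')) (k s)) :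
    E (fun x => Real.sqrt (∑ s ∈ S, (Av (digc i (σ s)) (k s) x) ^ 2))
      ≤ 2 * E (fun x => Real.sqrt (∑ s ∈ S, (k s x) ^ 2)) := by
  set J : Finset ℕ := S.image σ with hJ
  set H : ℕ → Cu d M → ℝ :=
    fun j x => Real.sqrt (∑ s ∈ S.filter (fun s => σ s = j), (k s x) ^ 2) with hH
  have hpart : ∀ φ : α → ℝ, ∑ s ∈ S, φ s = ∑ j ∈ J, ∑ s ∈ S.filter (fun s => σ s = j), φ s := by
    intro φ
    exact (Finset.sum_fiberwise_of_maps_to (fun s hs => Finset.mem_image_of_mem σ hs) φ).symm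
  have h1 : ∀ x, Real.sqrt (∑ s ∈ S, (Av (digc i (σ s)) (k s) x) ^ 2)
      ≤ Real.sqrt (∑ j ∈ J, (Av (digc i j) (H j) x) ^ 2) := by
    intro x
    apply Real.sqrt_le_sqrt
    rw [hpart]
    apply Finset.sum_le_sum
    intro j _
    have e : ∑ s ∈ S.filter (fun s => σ s = j), (Av (digc i (σ s)) (k s) x) ^ 2
        = ∑ s ∈ S.filter (fun s => σ s = j), (Av (digc i j) (k s) x) ^ 2 :=
      Finset.sum_congr rfl fun s hs => by rw [(Finset.mem_filter.mp hs).2]
    rw [e]
    have h := minkowski_Av (digc i j) (S.filter (fun s => σ s = j)) k x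
    have h0 : 0 ≤ ∑ s ∈ S.filter (fun s => σ s = j), (Av (digc i j) (k s) x) ^ 2 :=
      Finset.sum_nonneg fun _ _ => sq_nonneg _
    calc ∑ s ∈ S.filter (fun s => σ s = j), (Av (digc i j) (k s) x) ^ 2
        = Real.sqrt (∑ s ∈ S.filter (fun s => σ s = j), (Av (digc i j) (k s) x) ^ 2) ^ 2 :=
          (Real.sq_sqrt h0).symm
      _ ≤ (Av (digc i j) (H j) x) ^ 2 := by
          apply pow_le_pow_left₀ (Real.sqrt_nonneg _)
          exact h
  have h2 := lepingle (fun j => (digc i j : Finset (Dg d M))) (fun s t hst => digc_anti i hst) J H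
    (fun j _ x => Real.sqrt_nonneg _)
    (by
      intro j hj j' hj' hlt x y hxy
      simp only [hH]
      congr 1
      apply Finset.sum_congr rfl
      intro s hs
      obtain ⟨s', hs', rfl⟩ := Finset.mem_image.mp hj'
      rw [Finset.mem_filter] at hs
      have := hyp s hs.1 s' hs' (by rw [hs.2]; exact hlt) x y hxy
      rw [this])
  have h3 : ∀ x, Real.sqrt (∑ j ∈ J, (H j x) ^ 2) = Real.sqrt (∑ s ∈ S, (k s x) ^ 2) := by
    intro x
    congr 1
    rw [hpart]
    apply Finset.sum_congr rfl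
    intro j _
    exact Real.sq_sqrt (Finset.sum_nonneg fun _ _ => sq_nonneg _)
  simp only [h3] at h2
  exact (E_mono h1).trans h2

/-- iterated Lepingle -/
lemma lep_multi {α : Type} [DecidableEq α] (W : Finset (Fin d)) (S : Finset α)
    (σ : α → Fin d → ℕ) (h : α → Cu d M → ℝ)
    (hyp : ∀ i ∈ W, ∀ s ∈ S, ∀ s' ∈ S, σ s i < σ s' i → Inv (digc i (σ s' i)) (h s)) :
    E (fun x => Real.sqrt (∑ s ∈ S, (Av (digW W (σ s)) (h s) x) ^ 2))
      ≤ 2 ^ W.card * E (fun x => Real.sqrt (∑ s ∈ S, (h s x) ^ 2)) := by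
  induction W using Finset.induction_on with
  | empty =>
    have : ∀ s, (digW ∅ (σ s) : Finset (Dg d M)) = ∅ := by
      intro s; ext p; simp [digW]
    simp [this, Av_empty]
  | insert i W hi ih =>
    have ih' := ih (fun j hj => hyp j (Finset.mem_insert_of_mem hj))
    have e : ∀ s, Av (digW (insert i W) (σ s)) (h s)
        = Av (digc i (σ s i)) (Av (digW W (σ s)) (h s)) := by
      intro s
      rw [digW_insert, Av_Av]
    simp only [e]
    have h1 := lep_coord i S (fun s => σ s i) (fun s => Av (digW W (σ s)) (h s))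
      (fun s hs s' hs' hlt =>
        Inv_Av_of_Inv (hyp i (Finset.mem_insert_self i W) s hs s' hs' hlt))
    rw [Finset.card_insert_of_notMem hi, pow_succ]
    calc E (fun x => Real.sqrt (∑ s ∈ S, (Av (digc i (σ s i)) (Av (digW W (σ s)) (h s)) x) ^ 2))
        ≤ 2 * E (fun x => Real.sqrt (∑ s ∈ S, (Av (digW W (σ s)) (h s) x) ^ 2)) := h1
      _ ≤ 2 * (2 ^ W.card * E (fun x => Real.sqrt (∑ s ∈ S, (h s x) ^ 2))) := by gcongr
      _ = _ := by ring

/-- Lepingle in one coordinate with lag `q ≥ 1` -/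
lemma lep_lag {α : Type} [DecidableEq α] (i : Fin d) (S : Finset α) (σ : α → ℕ) (q : ℕ)
    (hq : 1 ≤ q) (k : α → Cu d M → ℝ) (hyp : ∀ s ∈ S, Inv (digc i (σ s)) (k s)) :
    E (fun x => Real.sqrt (∑ s ∈ S, (Av (digc i (σ s - q)) (k s) x) ^ 2))
      ≤ (2 * q : ℝ) * E (fun x => Real.sqrt (∑ s ∈ S, (k s x) ^ 2)) := by
  set P : ℕ → Finset α := fun r => S.filter (fun s => σ s % q = r) with hP
  have h1 : ∀ x, Real.sqrt (∑ s ∈ S, (Av (digc i (σ s - q)) (k s) x) ^ 2)
      ≤ ∑ r ∈ range q, Real.sqrt (∑ s ∈ P r, (Av (digc i (σ s - q)) (k s) x) ^ 2) := by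
    intro x
    apply sqrt_sum_le_of_cover S (range q) P _ (fun s => sq_nonneg _)
    intro s hs
    exact ⟨σ s % q, Finset.mem_range.mpr (Nat.mod_lt _ hq), Finset.mem_filter.mpr ⟨hs, rfl⟩⟩
  have h2 : ∀ r ∈ range q,
      E (fun x => Real.sqrt (∑ s ∈ P r, (Av (digc i (σ s - q)) (k s) x) ^ 2))
      ≤ 2 * E (fun x => Real.sqrt (∑ s ∈ S, (k s x) ^ 2)) := by
    intro r _
    have h3 := lep_coord i (P r) (fun s => σ s - q) k (by
      intro s hs s' hs' hlt
      rw [hP, Finset.mem_filter] at hs hs'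
      apply (hyp s hs.1).mono
      apply digc_anti
      show σ s ≤ σ s' - q
      have hlt' : σ s - q < σ s' - q := hlt
      have e1 := Nat.div_add_mod (σ s) q
      have e2 := Nat.div_add_mod (σ s') q
      rw [hs.2] at e1
      rw [hs'.2] at e2
      have hlt2 : σ s < σ s' := by omega
      have hd : σ s / q < σ s' / q := by
        by_contra hcon
        push Not at hcon
        have : q * (σ s' / q) ≤ q * (σ s / q) := Nat.mul_le_mul_left q hcon
        omega
      have : q * (σ s / q + 1) ≤ q * (σ s' / q) := Nat.mul_le_mul_left q hd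
      rw [mul_add, mul_one] at this
      omega)
    refine h3.trans ?_
    have : E (fun x => Real.sqrt (∑ s ∈ P r, (k s x) ^ 2))
        ≤ E (fun x => Real.sqrt (∑ s ∈ S, (k s x) ^ 2)) := by
      apply E_mono
      intro x
      apply Real.sqrt_le_sqrt
      exact Finset.sum_le_sum_of_subset_of_nonneg (Finset.filter_subset _ _)
        (fun s _ _ => sq_nonneg _)
    linarith
  calc E (fun x => Real.sqrt (∑ s ∈ S, (Av (digc i (σ s - q)) (k s) x) ^ 2))
      ≤ E (fun x => ∑ r ∈ range q,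
          Real.sqrt (∑ s ∈ P r, (Av (digc i (σ s - q)) (k s) x) ^ 2)) := E_mono h1
    _ = ∑ r ∈ range q,
          E (fun x => Real.sqrt (∑ s ∈ P r, (Av (digc i (σ s - q)) (k s) x) ^ 2)) :=
        E_sum (range q) (fun r x =>
          Real.sqrt (∑ s ∈ P r, (Av (digc i (σ s - q)) (k s) x) ^ 2))
    _ ≤ ∑ _r ∈ range q, 2 * E (fun x => Real.sqrt (∑ s ∈ S, (k s x) ^ 2)) :=
        Finset.sum_le_sum h2
    _ = (2 * q : ℝ) * E (fun x => Real.sqrt (∑ s ∈ S, (k s x) ^ 2)) := by
        rw [Finset.sum_const, Finset.card_range, nsmul_eq_mul]; ring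

/-- the part of `DDq` in the coordinates `W` -/
def DDqW (W : Finset (Fin d)) (q a : Fin d → ℕ) : Finset (Dg d M) :=
  univ.filter fun p => p.1 ∈ W ∧ 1 ≤ q p.1 ∧ a p.1 - q p.1 ≤ p.2.val

lemma lepM_W (W : Finset (Fin d)) (A : Finset (Fin d → ℕ)) (q : Fin d → ℕ)
    (H : (Fin d → ℕ) → Cu d M → ℝ) (hI : ∀ a ∈ A, Inv (dig a) (H a)) :
    E (fun x => Real.sqrt (∑ a ∈ A, (Av (DDqW W q a) (H a) x) ^ 2))
      ≤ (∏ i ∈ W, (2 * q i + 1 : ℝ)) * E (fun x => Real.sqrt (∑ a ∈ A, (H a x) ^ 2)) := by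
  induction W using Finset.induction_on with
  | empty =>
    have : ∀ a, (DDqW ∅ q a : Finset (Dg d M)) = ∅ := by
      intro a; ext p; simp [DDqW]
    simp [this, Av_empty]
  | insert i W hi ih =>
    rw [Finset.prod_insert hi]
    have hpos : 0 ≤ E (fun x => Real.sqrt (∑ a ∈ A, (H a x) ^ 2)) :=
      E_nonneg fun x => Real.sqrt_nonneg _
    have hprod : 0 ≤ ∏ j ∈ W, (2 * q j + 1 : ℝ) :=
      Finset.prod_nonneg fun j _ => by positivity
    rcases Nat.eq_zero_or_pos (q i) with h0 | h0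
    · have e : ∀ a, (DDqW (insert i W) q a : Finset (Dg d M)) = DDqW W q a := by
        intro a; ext ⟨p, j⟩
        simp only [DDqW, mem_filter, mem_univ, true_and, mem_insert]
        constructor
        · rintro ⟨h1 | h1, h2, h3⟩
          · subst h1; omega
          · exact ⟨h1, h2, h3⟩
        · rintro ⟨h1, h2, h3⟩
          exact ⟨Or.inr h1, h2, h3⟩
      simp only [e]
      rw [h0]
      simpa using ih
    · have e : ∀ a, Av (DDqW (insert i W) q a) (H a)
          = Av (digc i (a i - q i)) (Av (DDqW W q a) (H a)) := by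
        intro a
        rw [Av_Av]
        congr 1
        ext ⟨p, j⟩
        simp only [DDqW, digc, mem_filter, mem_univ, true_and, mem_insert, mem_union]
        constructor
        · rintro ⟨h1 | h1, h2, h3⟩
          · subst h1; exact Or.inl ⟨rfl, h3⟩
          · exact Or.inr ⟨h1, h2, h3⟩
        · rintro (⟨h1, h2⟩ | ⟨h1, h2, h3⟩)
          · subst h1; exact ⟨Or.inl rfl, h0, h2⟩
          · exact ⟨Or.inr h1, h2, h3⟩
      simp only [e]
      have h1 := lep_lag i A (fun a => a i) (q i) h0 (fun a => Av (DDqW W q a) (H a)) (by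
        intro a ha
        apply Inv_Av_of_Inv
        apply (hI a ha).mono
        intro p hp
        simp only [digc, dig, mem_filter, mem_univ, true_and] at hp ⊢
        rw [hp.1]; exact hp.2)
      calc E (fun x => Real.sqrt (∑ a ∈ A,
            (Av (digc i (a i - q i)) (Av (DDqW W q a) (H a)) x) ^ 2))
          ≤ (2 * q i : ℝ) * E (fun x => Real.sqrt (∑ a ∈ A, (Av (DDqW W q a) (H a) x) ^ 2)) := h1
        _ ≤ (2 * q i + 1 : ℝ) * ((∏ j ∈ W, (2 * q j + 1 : ℝ)) *
              E (fun x => Real.sqrt (∑ a ∈ A, (H a x) ^ 2))) := by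
            apply mul_le_mul (by linarith) ih
              (E_nonneg fun x => Real.sqrt_nonneg _) (by positivity)
        _ = _ := by ring

/-- Lepingle with lags -/
theorem lepM (d M : ℕ) (A : Finset (Fin d → ℕ)) (_hA : A ⊆ lev d M) (q : Fin d → ℕ)
    (H : (Fin d → ℕ) → Cu d M → ℝ) (_h0 : ∀ a ∈ A, ∀ x, 0 ≤ H a x)
    (hI : ∀ a ∈ A, Inv (dig a) (H a)) :
    E (fun x => Real.sqrt (∑ a ∈ A, (Av (DDq q a) (H a) x) ^ 2))
      ≤ (∏ i, (2 * q i + 1 : ℝ)) * E (fun x => Real.sqrt (∑ a ∈ A, (H a x) ^ 2)) := by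
  have h := lepM_W univ A q H hI
  have e : ∀ a, (DDqW univ q a : Finset (Dg d M)) = DDq q a := by
    intro a; ext p; simp [DDqW, DDq]
  simp only [e] at h
  exact h

end Pool.Agent.LBern
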