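import Pool.Agent.LBern.Lev
import Pool.Agent.LBern26.Main
import Pool.Agent.LBern26.Level

set_option linter.unusedSectionVars false

namespace Pool.Agent.LBern

open Finset

/-- towers of digits -/
structure Tower (ι 𝒟 : Type) [DecidableEq 𝒟] where
  D : ι → ℕ → Finset 𝒟
  L : ℕ
  J : ι → Finset ℕ
  e : ι → ℕ → 𝒟
  anti : ∀ i s t, s ≤ t → D i t ⊆ D i s
  top : ∀ i, D i L = ∅
  disj : ∀ i j, i ≠ j → Disjoint (D i 0) (D j 0)
  mem : ∀ i, ∀ s ∈ J i, e i s ∈ D i s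
  not_mem : ∀ i, ∀ s ∈ J i, ∀ t, s < t → e i s ∉ D i t

/-- averaging over the digits `D i (s i)`, `i ∈ W` -/
noncomputable def Tower.A {ι 𝒟 : Type} [Fintype 𝒟] [DecidableEq 𝒟] (T : Tower ι 𝒟)
    (W : Finset ι) (s : ι → ℕ) (f : (𝒟 → Bool) → ℝ) : (𝒟 → Bool) → ℝ :=
  Av (W.biUnion fun i => T.D i (s i)) f

noncomputable def Tower.eps {ι 𝒟 : Type} [DecidableEq 𝒟] (T : Tower ι 𝒟)
    (W : Finset ι) (s : ι → ℕ) (x : 𝒟 → Bool) : ℝ := ∏ i ∈ W, rad (T.e i (s i)) x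

section
variable {𝒟 : Type} [Fintype 𝒟] [DecidableEq 𝒟]

lemma E_eq_mean (f : (𝒟 → Bool) → ℝ) : E f = LBern26.mean f := by
  unfold E LBern26.mean
  rw [smul_eq_mul, inv_mul_eq_div]

lemma Av_eq_Av26 (S : Finset 𝒟) (f : (𝒟 → Bool) → ℝ) : Av S f = LBern26.Av S f := by
  funext x
  rw [LBern26.Av_apply]
  unfold Av
  rw [E_eq_mean]
  congr 1

end

/-- THEOREM A -/
theorem thmA (n : ℕ) : ∃ C : ℝ, 0 < C ∧ ∀ (ι 𝒟 : Type) [Fintype ι] [DecidableEq ι] [Fintype 𝒟]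
    [DecidableEq 𝒟] (T : Tower ι 𝒟), Fintype.card ι = n →
    ∀ (S : Finset (ι → ℕ)) (f : (𝒟 → Bool) → ℝ), (∀ s ∈ S, ∀ i, s i ∈ T.J i) →
    (∀ s ∈ S, ∀ x, ∑ W ∈ (univ : Finset ι).powerset, (-1 : ℝ) ^ W.card * T.A W s f x
        = T.eps univ s x * T.A univ s (fun y => T.eps univ s y * f y) x) →
    E (fun x => Real.sqrt (∑ s ∈ S, (T.A univ s (fun y => T.eps univ s y * f y) x) ^ 2))
      ≤ C * E (fun x => |f x|) := by
  refine ⟨12 * LBern26.KK n, by have := LBern26.KK_pos n; positivity, ?_⟩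
  intro ι 𝒟 _ _ _ _ T hn S f hS hf
  let T' : LBern26.TW 𝒟 ι :=
    { Dg := T.D
      J := T.J
      e := T.e
      anti := T.anti
      disj := by
        intro i j hij s t
        exact (T.disj i j hij).mono (T.anti i 0 s (Nat.zero_le _)) (T.anti j 0 t (Nat.zero_le _))
      mem := T.mem
      not_mem := T.not_mem }
  have hA : ∀ (W : Finset ι) (s : ι → ℕ) (g : (𝒟 → Bool) → ℝ),
      T.A W s g = LBern26.AS T'.Dg W s g := by
    intro W s g
    unfold Tower.A LBern26.AS LBern26.AW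
    exact Av_eq_Av26 _ _
  have heps : ∀ (W : Finset ι) (s : ι → ℕ), T.eps W s = LBern26.ep T'.e W s := by
    intro W s
    funext x
    unfold Tower.eps LBern26.ep
    rw [prod_apply]
    rfl
  have hmul : ∀ (s : ι → ℕ), (fun y => T.eps univ s y * f y) = LBern26.ep T'.e univ s * f := by
    intro s
    rw [heps]
    rfl
  have hf' : ∀ s ∈ S, LBern26.NN (fun i => T'.Dg i (s i)) univ f =
      LBern26.ep T'.e univ s * LBern26.AS T'.Dg univ s (LBern26.ep T'.e univ s * f) := by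
    intro s hs
    funext x
    have h1 := hf s hs x
    rw [hmul, hA, heps] at h1
    rw [LBern26.NN_apply, Finset.sum_apply, Pi.mul_apply, ← h1]
    apply sum_congr rfl
    intro W _
    rw [hA]
    rfl
  simp only [hmul, hA]
  rw [E_eq_mean, E_eq_mean]
  apply LBern26.mean_of_level _ _ (fun x => Real.sqrt_nonneg _) (fun x => abs_nonneg _) _
    (LBern26.KK_pos n).le
  intro lam hlam
  have h1 := LBern26.thm_level T' S hS f hf' lam hlam
  rw [hn] at h1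
  have h2 : (fun x => min (√(∑ s ∈ S, LBern26.AS T'.Dg univ s
      (LBern26.ep T'.e univ s * f) x ^ 2) ^ 2) (lam ^ 2)) = fun x =>
      min (∑ s ∈ S, LBern26.AS T'.Dg univ s (LBern26.ep T'.e univ s * f) x ^ 2) (lam ^ 2) := by
    funext x
    rw [Real.sq_sqrt (sum_nonneg fun _ _ => sq_nonneg _)]
  have h3 : (fun x => min (|f x| ^ 2) (lam ^ 2)) = fun x => min (f x ^ 2) (lam ^ 2) := by
    funext x
    rw [sq_abs]
  rw [h2, h3]
  exact h1

end Pool.Agent.LBern
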