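import Pool.Agent.LBern.Lev

/-!
Walsh functions and the diagonal form of the operators `Av`, `AL`, `Dl`.
-/

set_option linter.unusedSectionVars false

namespace Pool.Agent.LBern

open Finset

section gen
variable {𝒟 : Type} [Fintype 𝒟] [DecidableEq 𝒟]
variable {V : Type} [AddCommGroup V] [Module ℝ V]

noncomputable def walsh (B : Finset 𝒟) (x : 𝒟 → Bool) : ℝ := ∏ e ∈ B, rad e x

lemma walsh_empty (x : 𝒟 → Bool) : walsh ∅ x = 1 := by simp [walsh]

lemma walsh_sq (B : Finset 𝒟) (x : 𝒟 → Bool) : walsh B x * walsh B x = 1 := by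
  simp only [walsh]
  rw [← Finset.prod_mul_distrib]
  exact Finset.prod_eq_one fun e _ => rad_sq e x

lemma abs_walsh (B : Finset 𝒟) (x : 𝒟 → Bool) : |walsh B x| = 1 := by
  simp only [walsh, Finset.abs_prod]
  exact Finset.prod_eq_one fun e _ => abs_rad e x

lemma walsh_union {B C : Finset 𝒟} (h : Disjoint B C) (x : 𝒟 → Bool) :
    walsh (B ∪ C) x = walsh B x * walsh C x := by
  simp only [walsh]; exact Finset.prod_union h

lemma walsh_mul (B C : Finset 𝒟) (x : 𝒟 → Bool) :
    walsh B x * walsh C x = walsh (symmDiff B C) x := by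
  have h1 : walsh B x = walsh (B \ C) x * walsh (B ∩ C) x := by
    rw [← walsh_union (Finset.disjoint_sdiff_inter B C), Finset.sdiff_union_inter]
  have h2 : walsh C x = walsh (C \ B) x * walsh (B ∩ C) x := by
    rw [Finset.inter_comm, ← walsh_union (Finset.disjoint_sdiff_inter C B), Finset.sdiff_union_inter]
  have h3 : walsh (symmDiff B C) x = walsh (B \ C) x * walsh (C \ B) x := by
    have hd : Disjoint (B \ C) (C \ B) := disjoint_sdiff_sdiff
    rw [← walsh_union hd]; rfl
  rw [h3, h1, h2]
  have := walsh_sq (B ∩ C) x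
  calc walsh (B \ C) x * walsh (B ∩ C) x * (walsh (C \ B) x * walsh (B ∩ C) x)
      = walsh (B \ C) x * walsh (C \ B) x * (walsh (B ∩ C) x * walsh (B ∩ C) x) := by ring
    _ = _ := by rw [this]; ring

lemma Inv_walsh {B D : Finset 𝒟} (h : Disjoint B D) : Inv D (walsh B) := by
  apply Inv.prod
  intro e he
  exact Inv_rad (Finset.disjoint_left.1 h he)

lemma Av_walsh_smul (B D : Finset 𝒟) (v : V) :
    Av D (fun x => walsh B x • v) = if Disjoint B D then (fun x => walsh B x • v) else fun _ => 0 := by
  split_ifs with h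
  · exact Av_of_Inv ((Inv_walsh h).smul (Inv_const D v))
  · rw [Finset.not_disjoint_iff] at h
    obtain ⟨e, heB, heD⟩ := h
    have h1 : ∀ x, walsh B x = rad e x * walsh (B.erase e) x := by
      intro x; simp only [walsh]; exact (Finset.mul_prod_erase B (fun e => rad e x) heB).symm
    have h2 : Inv {e} (walsh (B.erase e)) := Inv_walsh (by simp)
    have h3 : Av D (walsh B) = fun _ => 0 := by
      have : walsh B = fun x => rad e x * walsh (B.erase e) x := funext h1
      rw [this]; exact Av_rad_mul heD h2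
    funext x
    have h4 : Av D (fun x => walsh B x • v) x = Av D (walsh B) x • v := by
      simp only [Av, E]
      rw [← Finset.sum_smul, smul_assoc]
    rw [h4, h3, zero_smul]

lemma Av_walsh (B D : Finset 𝒟) :
    Av D (walsh B) = if Disjoint B D then walsh B else fun _ => 0 := by
  have := Av_walsh_smul B D (1 : ℝ)
  simpa using this

lemma E_walsh (B : Finset 𝒟) : E (walsh B) = if B = ∅ then 1 else 0 := by
  have x : 𝒟 → Bool := fun _ => true
  rw [← Av_univ (walsh B) x, Av_walsh]
  by_cases h : B = ∅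
  · subst h; simp [walsh]
  · have : ¬ Disjoint B (univ : Finset 𝒟) := by
      rw [Finset.not_disjoint_iff]
      obtain ⟨e, he⟩ := Finset.nonempty_iff_ne_empty.2 h
      exact ⟨e, he, Finset.mem_univ e⟩
    rw [if_neg this, if_neg h]

lemma sum_walsh_mul (x y : 𝒟 → Bool) :
    ∑ B : Finset 𝒟, walsh B x * walsh B y = if x = y then (Fintype.card (𝒟 → Bool) : ℝ) else 0 := by
  have h1 : ∑ B : Finset 𝒟, walsh B x * walsh B y = ∏ e, (1 + rad e x * rad e y) := by
    rw [Finset.prod_one_add, Finset.powerset_univ]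
    refine Finset.sum_congr rfl fun B _ => ?_
    simp only [walsh, Finset.prod_mul_distrib]
  rw [h1]
  split_ifs with h
  · subst h
    simp only [rad_sq]
    rw [Finset.prod_const, Finset.card_univ, Fintype.card_fun, Fintype.card_bool]
    norm_num
  · obtain ⟨e, he⟩ := Function.ne_iff.1 h
    apply Finset.prod_eq_zero (Finset.mem_univ e)
    unfold rad
    cases hx : x e <;> cases hy : y e <;> simp_all

/-- Walsh expansion -/
lemma walsh_expansion (f : (𝒟 → Bool) → V) (x : 𝒟 → Bool) :
    f x = ∑ B : Finset 𝒟, walsh B x • E (fun y => walsh B y • f y) := by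
  have h : ∑ B : Finset 𝒟, walsh B x • E (fun y => walsh B y • f y)
      = E (fun y => (∑ B : Finset 𝒟, walsh B x * walsh B y) • f y) := by
    simp only [← E_smul, smul_smul]
    rw [← E_sum]
    congr 1; funext y
    rw [Finset.sum_smul]
  rw [h]
  simp only [sum_walsh_mul, E]
  have h2 : ∑ y, (if x = y then (Fintype.card (𝒟 → Bool) : ℝ) else 0) • f y
      = (Fintype.card (𝒟 → Bool) : ℝ) • f x := by
    rw [Finset.sum_eq_single x]
    · simp
    · intro y _ hy; simp [Ne.symm hy]
    · simp
  rw [h2, smul_smul, inv_mul_cancel₀ card_ne', one_smul]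

/-- `Av D` as a linear map -/
noncomputable def AvL (D : Finset 𝒟) : ((𝒟 → Bool) → V) →ₗ[ℝ] ((𝒟 → Bool) → V) where
  toFun f := Av D f
  map_add' f g := Av_add D f g
  map_smul' c f := Av_smul D c f

/-- linear maps are determined by their values on Walsh functions -/
lemma ext_walsh {W : Type} [AddCommGroup W] [Module ℝ W] {L L' : ((𝒟 → Bool) → V) →ₗ[ℝ] W}
    (h : ∀ (B : Finset 𝒟) (v : V), L (fun x => walsh B x • v) = L' (fun x => walsh B x • v)) :
    L = L' := by
  apply LinearMap.ext
  intro f
  have hf : f = ∑ B : Finset 𝒟, (fun x => walsh B x • E (fun y => walsh B y • f y)) := by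
    funext x
    rw [Finset.sum_apply]
    exact walsh_expansion f x
  rw [hf, map_sum, map_sum]
  exact Finset.sum_congr rfl fun B _ => h B _

end gen

section lev
variable {d M : ℕ} {V : Type} [AddCommGroup V] [Module ℝ V]

/-- level of a set of digits -/
def lvl (B : Finset (Dg d M)) : Fin d → ℕ := fun i =>
  (B.filter fun p => p.1 = i).sup fun p => p.2.val + 1

lemma lvl_le_iff {B : Finset (Dg d M)} {b : Fin d → ℕ} :
    lvl B ≤ b ↔ ∀ p ∈ B, p.2.val + 1 ≤ b p.1 := by
  constructor
  · intro h p hp
    refine le_trans ?_ (h p.1)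
    exact Finset.le_sup (f := fun p : Dg d M => p.2.val + 1)
      (Finset.mem_filter.2 ⟨hp, rfl⟩)
  · intro h i
    apply Finset.sup_le
    intro p hp
    obtain ⟨hp', rfl⟩ := Finset.mem_filter.1 hp
    exact h p hp'

lemma lvl_mem (B : Finset (Dg d M)) : lvl B ∈ lev d M := by
  simp only [lev, Fintype.mem_piFinset, Finset.mem_range]
  intro i
  have : lvl B ≤ fun _ => M := lvl_le_iff.2 fun p _ => p.2.isLt
  exact Nat.lt_succ_of_le (this i)

lemma disjoint_dig_iff {B : Finset (Dg d M)} {b : Fin d → ℕ} :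
    Disjoint B (dig b) ↔ lvl B ≤ b := by
  rw [lvl_le_iff, Finset.disjoint_left]
  simp only [dig, Finset.mem_filter, Finset.mem_univ, true_and, not_le]
  exact Iff.rfl

/-- the digits used by `epsL a` -/
def topd (a : Fin d → ℕ) : Finset (Dg d M) := univ.filter fun p => p.2.val + 1 = a p.1

lemma epsL_eq_walsh (a : Fin d → ℕ) (x : Cu d M) : epsL a x = walsh (topd a) x := by
  simp only [epsL, walsh, topd, Finset.prod_filter]
  rw [Fintype.prod_prod_type]
  refine Finset.prod_congr rfl fun i _ => ?_
  unfold sgl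
  split_ifs with h
  · rw [Finset.prod_eq_single (⟨a i - 1, by omega⟩ : Fin M)]
    · simp only
      rw [if_pos (by omega)]
    · intro j _ hj
      rw [if_neg]
      intro h'
      apply hj
      apply Fin.ext
      simp only at h' ⊢
      omega
    · simp
  · symm
    apply Finset.prod_eq_one
    intro j _
    rw [if_neg]
    intro h'
    apply h
    have := j.isLt
    simp only at h'
    omega

lemma topd_sub_iff {B : Finset (Dg d M)} {a : Fin d → ℕ} (ha : a ∈ lev d M) :
    Disjoint (symmDiff (topd a) B) (dig fun i => a i - 1) ↔ lvl B = a := by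
  have hM : ∀ i, a i ≤ M := fun i => by
    have := Fintype.mem_piFinset.1 ha i
    exact Nat.le_of_lt_succ (Finset.mem_range.1 this)
  rw [disjoint_dig_iff, lvl_le_iff]
  simp only [Finset.mem_symmDiff, topd, Finset.mem_filter, Finset.mem_univ, true_and]
  constructor
  · intro h
    apply le_antisymm
    · rw [lvl_le_iff]
      intro p hp
      by_contra hc
      have := h p (Or.inr ⟨hp, by omega⟩)
      omega
    · intro i
      by_cases h0 : a i = 0
      · rw [h0]; exact Nat.zero_le _
      · have hlt : a i - 1 < M := by have := hM i; omega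
        have hpB : ((i, ⟨a i - 1, hlt⟩) : Dg d M) ∈ B := by
          by_contra hc
          have := h (i, ⟨a i - 1, hlt⟩) (Or.inl ⟨by show a i - 1 + 1 = a i; omega, hc⟩)
          replace this : a i - 1 + 1 ≤ a i - 1 := this
          omega
        have h2 := lvl_le_iff.1 (le_refl (lvl B)) _ hpB
        replace h2 : a i - 1 + 1 ≤ lvl B i := h2
        show a i ≤ lvl B i
        omega
  · intro h p hp
    rcases hp with ⟨h1, h2⟩ | ⟨h1, h2⟩
    · exfalso
      -- the level of B at p.1 is a p.1 > 0 hence attained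
      have hne : (B.filter fun q => q.1 = p.1).Nonempty := by
        rw [Finset.nonempty_iff_ne_empty]
        intro he
        have : lvl B p.1 = 0 := by simp [lvl, he]
        rw [h] at this
        omega
      obtain ⟨q, hq, hq2⟩ := Finset.exists_mem_eq_sup _ hne (fun p : Dg d M => p.2.val + 1)
      obtain ⟨hqB, hq1⟩ := Finset.mem_filter.1 hq
      have h3 : q.2.val + 1 = a p.1 := by
        rw [← h]; exact hq2.symm
      apply h2
      have : q = p := by
        apply Prod.ext hq1
        apply Fin.ext; omega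
      rwa [← this]
    · have h3 := lvl_le_iff.1 (le_of_eq h) p h1
      omega

lemma Dl_walsh {a : Fin d → ℕ} (ha : a ∈ lev d M) (B : Finset (Dg d M)) (v : V) :
    Dl a (fun x => walsh B x • v) = if lvl B = a then (fun x => walsh B x • v) else fun _ => 0 := by
  have h1 : (fun y : Cu d M => epsL a y • walsh B y • v)
      = fun y => walsh (symmDiff (topd a) B) y • v := by
    funext y
    rw [epsL_eq_walsh, smul_smul, walsh_mul]
  funext x
  simp only [Dl, AL, h1]
  rw [Av_walsh_smul]
  by_cases h : lvl B = a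
  · rw [if_pos ((topd_sub_iff ha).2 h), if_pos h]
    rw [epsL_eq_walsh, smul_smul, ← walsh_mul, ← mul_assoc, walsh_sq, one_mul]
  · rw [if_neg (fun h' => h ((topd_sub_iff ha).1 h')), if_neg h]
    simp only [smul_zero]

lemma AL_walsh_of_le {b : Fin d → ℕ} {B : Finset (Dg d M)} (h : lvl B ≤ b) (v : V) :
    AL b (fun x => walsh B x • v) = fun x => walsh B x • v := by
  simp only [AL, Av_walsh_smul]
  rw [if_pos (disjoint_dig_iff.2 h)]

lemma AL_walsh_of_not_le {b : Fin d → ℕ} {B : Finset (Dg d M)} (h : ¬ lvl B ≤ b) (v : V) :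
    AL b (fun x => walsh B x • v) = fun _ => 0 := by
  simp only [AL, Av_walsh_smul]
  rw [if_neg (fun h' => h (disjoint_dig_iff.1 h'))]

/-- `Dl a` as a linear map -/
noncomputable def DlL (a : Fin d → ℕ) : (Cu d M → V) →ₗ[ℝ] (Cu d M → V) where
  toFun f := Dl a f
  map_add' f g := by
    funext x
    simp only [Dl, AL, Pi.add_apply, smul_add, Av_add]
  map_smul' c f := by
    funext x
    simp only [Dl, AL, Pi.smul_apply, RingHom.id_apply]
    have : (fun y : Cu d M => epsL a y • c • f y) = fun y => c • (epsL a y • f y) := by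
      funext y; rw [smul_comm]
    rw [this, Av_smul, smul_comm]

lemma Dl_add (a : Fin d → ℕ) (f g : Cu d M → V) :
    Dl a (fun x => f x + g x) = fun x => Dl a f x + Dl a g x := (DlL a).map_add f g

lemma Dl_sub (a : Fin d → ℕ) (f g : Cu d M → V) :
    Dl a (fun x => f x - g x) = fun x => Dl a f x - Dl a g x := (DlL a).map_sub f g

lemma Dl_smul (a : Fin d → ℕ) (c : ℝ) (f : Cu d M → V) :
    Dl a (fun x => c • f x) = fun x => c • Dl a f x := (DlL a).map_smul c f

lemma Dl_sum {κ : Type} (a : Fin d → ℕ) (s : Finset κ) (f : κ → Cu d M → V) :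
    Dl a (fun x => ∑ i ∈ s, f i x) = fun x => ∑ i ∈ s, Dl a (f i) x := by
  have h := map_sum (DlL a) f s
  funext x
  have h2 := congrFun h x
  rw [Finset.sum_apply] at h2
  rw [← Finset.sum_fn]
  exact h2

lemma Dl_zero (a : Fin d → ℕ) : Dl a (fun _ : Cu d M => (0 : V)) = fun _ => 0 :=
  (DlL a).map_zero

theorem sum_Dl (f : Cu d M → V) (x : Cu d M) : ∑ a ∈ lev d M, Dl a f x = f x := by
  have h : (∑ a ∈ lev d M, (DlL a : (Cu d M → V) →ₗ[ℝ] (Cu d M → V))) = LinearMap.id := by
    apply ext_walsh
    intro B v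
    rw [LinearMap.sum_apply, LinearMap.id_apply]
    rw [Finset.sum_eq_single (lvl B)]
    · have := Dl_walsh (lvl_mem B) B v
      rw [if_pos rfl] at this
      exact this
    · intro a ha hne
      have := Dl_walsh ha B v
      rw [if_neg (Ne.symm hne)] at this
      exact this
    · intro h; exact absurd (lvl_mem B) h
  have h2 := congrFun (congrArg (fun L => L f) h) x
  simp only [LinearMap.sum_apply, Finset.sum_apply, LinearMap.id_apply] at h2
  exact h2

theorem Dl_Dl {a b : Fin d → ℕ} (ha : a ∈ lev d M) (hb : b ∈ lev d M) (f : Cu d M → V) :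
    Dl a (Dl b f) = if a = b then Dl a f else fun _ => 0 := by
  have h : (DlL a : (Cu d M → V) →ₗ[ℝ] (Cu d M → V)) ∘ₗ DlL b
      = if a = b then DlL a else 0 := by
    apply ext_walsh
    intro B v
    rw [LinearMap.comp_apply]
    have e1 : (DlL b : (Cu d M → V) →ₗ[ℝ] _) (fun x => walsh B x • v)
        = if lvl B = b then (fun x => walsh B x • v) else fun _ => 0 := Dl_walsh hb B v
    have e2 : (DlL a : (Cu d M → V) →ₗ[ℝ] _) (fun x => walsh B x • v)
        = if lvl B = a then (fun x => walsh B x • v) else fun _ => 0 := Dl_walsh ha B v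
    rw [e1]
    by_cases h1 : lvl B = b
    · rw [if_pos h1, e2]
      by_cases h2 : a = b
      · rw [if_pos h2, e2]
      · rw [if_neg h2, if_neg (fun h3 => h2 (h3.symm.trans h1))]; rfl
    · rw [if_neg h1]
      by_cases h2 : a = b
      · rw [if_pos h2, e2, if_neg (fun h3 => h1 (h3.trans h2))]
        exact (DlL a).map_zero
      · rw [if_neg h2]
        exact (DlL a).map_zero
  have h2 := congrArg (fun L => L f) h
  by_cases h3 : a = b
  · rw [if_pos h3] at h2 ⊢; exact h2
  · rw [if_neg h3] at h2 ⊢; exact h2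

theorem AL_Dl_of_le {b a : Fin d → ℕ} (ha : a ∈ lev d M) (hab : a ≤ b) (f : Cu d M → V) :
    AL b (Dl a f) = Dl a f := by
  have h : (AvL (dig b) : (Cu d M → V) →ₗ[ℝ] (Cu d M → V)) ∘ₗ DlL a = DlL a := by
    apply ext_walsh
    intro B v
    rw [LinearMap.comp_apply]
    have e1 : (DlL a : (Cu d M → V) →ₗ[ℝ] _) (fun x => walsh B x • v)
        = if lvl B = a then (fun x => walsh B x • v) else fun _ => 0 := Dl_walsh ha B v
    rw [e1]
    by_cases h1 : lvl B = a
    · rw [if_pos h1]; exact AL_walsh_of_le (h1 ▸ hab) v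
    · rw [if_neg h1]; exact (AvL (dig b)).map_zero
  exact congrArg (fun L => L f) h

theorem AL_Dl_of_not_le {b a : Fin d → ℕ} (ha : a ∈ lev d M) (hab : ¬ a ≤ b) (f : Cu d M → V) :
    AL b (Dl a f) = fun _ => 0 := by
  have h : (AvL (dig b) : (Cu d M → V) →ₗ[ℝ] (Cu d M → V)) ∘ₗ DlL a = 0 := by
    apply ext_walsh
    intro B v
    rw [LinearMap.comp_apply]
    have e1 : (DlL a : (Cu d M → V) →ₗ[ℝ] _) (fun x => walsh B x • v)
        = if lvl B = a then (fun x => walsh B x • v) else fun _ => 0 := Dl_walsh ha B v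
    rw [e1]
    by_cases h1 : lvl B = a
    · rw [if_pos h1]; exact AL_walsh_of_not_le (fun h => hab (h1 ▸ h)) v
    · rw [if_neg h1]; exact (AvL (dig b)).map_zero
  exact congrArg (fun L => L f) h

theorem Inv_Dl {a : Fin d → ℕ} (ha : a ∈ lev d M) (f : Cu d M → V) : Inv (dig a) (Dl a f) := by
  rw [Inv_iff]; exact AL_Dl_of_le ha le_rfl f

end lev

end Pool.Agent.LBern
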