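import Pool.Agent.LBern.LepMulti
import Pool.Agent.LBern.ThmA
import Pool.Agent.LBern.Walsh

/-!
Lower layers: the square function of the layer `l` of a function in `T_m`.
-/

set_option linter.unusedSectionVars false

namespace Pool.Agent.LBern

open Finset

/-! ### towers and Walsh functions -/

section tower

variable {ι 𝒟 : Type} [Fintype ι] [DecidableEq ι] [Fintype 𝒟] [DecidableEq 𝒟]

lemma Tower.A_walsh (T : Tower ι 𝒟) (W : Finset ι) (s : ι → ℕ) (B : Finset 𝒟)
    (x : 𝒟 → Bool) :
    T.A W s (walsh B) x = (∏ i ∈ W, if Disjoint B (T.D i (s i)) then (1 : ℝ) else 0)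
      * walsh B x := by
  unfold Tower.A
  rw [Av_walsh]
  by_cases h : Disjoint B (W.biUnion fun i => T.D i (s i))
  · rw [if_pos h]
    have : ∏ i ∈ W, (if Disjoint B (T.D i (s i)) then (1 : ℝ) else 0) = 1 := by
      apply Finset.prod_eq_one
      intro i hi
      rw [if_pos ((Finset.disjoint_biUnion_right _ _ _).mp h i hi)]
    rw [this, one_mul]
  · rw [if_neg h]
    have : ∏ i ∈ W, (if Disjoint B (T.D i (s i)) then (1 : ℝ) else 0) = 0 := by
      rw [Finset.disjoint_biUnion_right] at h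
      push Not at h
      obtain ⟨i, hi, hd⟩ := h
      exact Finset.prod_eq_zero hi (if_neg hd)
    rw [this, zero_mul]

lemma Tower.altsum_walsh (T : Tower ι 𝒟) (s : ι → ℕ) (B : Finset 𝒟) (x : 𝒟 → Bool) :
    ∑ W ∈ (univ : Finset ι).powerset, (-1 : ℝ) ^ W.card * T.A W s (walsh B) x
      = (∏ i, (1 - if Disjoint B (T.D i (s i)) then (1 : ℝ) else 0)) * walsh B x := by
  have h1 : ∏ i, (1 - if Disjoint B (T.D i (s i)) then (1 : ℝ) else 0)
      = ∑ W ∈ (univ : Finset ι).powerset,
        (-1 : ℝ) ^ W.card * ∏ i ∈ W, (if Disjoint B (T.D i (s i)) then (1 : ℝ) else 0) := by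
    have : ∀ i : ι, (1 - if Disjoint B (T.D i (s i)) then (1 : ℝ) else 0)
        = 1 + (-1) * (if Disjoint B (T.D i (s i)) then (1 : ℝ) else 0) := fun i => by ring
    simp only [this]
    rw [Finset.prod_one_add]
    apply Finset.sum_congr rfl
    intro W _
    rw [Finset.prod_mul_distrib, Finset.prod_const]
  rw [h1, Finset.sum_mul]
  apply Finset.sum_congr rfl
  intro W _
  rw [Tower.A_walsh]
  ring

/-- the set of digits of `eps` -/
noncomputable def Tower.Es (T : Tower ι 𝒟) (s : ι → ℕ) : Finset 𝒟 :=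
  univ.image fun i => T.e i (s i)

lemma Tower.eps_eq (T : Tower ι 𝒟) (s : ι → ℕ) (hs : ∀ i, s i ∈ T.J i) (x : 𝒟 → Bool) :
    T.eps univ s x = walsh (T.Es s) x := by
  unfold Tower.eps walsh Tower.Es
  rw [Finset.prod_image]
  intro i _ j _ hij
  by_contra hne
  have h1 : T.e i (s i) ∈ T.D i 0 := T.anti i 0 (s i) (Nat.zero_le _) (T.mem i _ (hs i))
  have h2 : T.e j (s j) ∈ T.D j 0 := T.anti j 0 (s j) (Nat.zero_le _) (T.mem j _ (hs j))
  have hij' : T.e i (s i) = T.e j (s j) := hij
  rw [hij'] at h1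
  exact (Finset.disjoint_left.mp (T.disj i j hne) h1) h2

/-- the digits of the tower at `s` -/
def Tower.TB (T : Tower ι 𝒟) (s : ι → ℕ) : Finset 𝒟 := univ.biUnion fun i => T.D i (s i)

lemma Tower.A_eps_walsh (T : Tower ι 𝒟) (s : ι → ℕ) (hs : ∀ i, s i ∈ T.J i) (B : Finset 𝒟) :
    T.A univ s (fun y => T.eps univ s y * walsh B y)
      = if Disjoint (symmDiff (T.Es s) B) (T.TB s) then walsh (symmDiff (T.Es s) B)
        else fun _ => 0 := by
  have : (fun y => T.eps univ s y * walsh B y) = walsh (symmDiff (T.Es s) B) := by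
    funext y
    rw [T.eps_eq s hs, walsh_mul]
  rw [this]
  unfold Tower.A
  exact Av_walsh _ _

end tower

/-! ### vanishing coefficients -/

variable {d M : ℕ}

lemma E_mul_Dl (a : Fin d → ℕ) (f g : Cu d M → ℝ) :
    E (fun x => Dl a f x * g x) = E (fun x => f x * Dl a g x) := by
  simp only [Dl, AL, smul_eq_mul]
  have h := E_mul_Av (dig fun i => a i - 1) (fun y : Cu d M => epsL a y * f y)
    (fun y => epsL a y * g y)
  calc E (fun x => epsL a x * Av (dig fun i => a i - 1) (fun y => epsL a y * f y) x * g x)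
      = E (fun x => (epsL a x * g x)
          * Av (dig fun i => a i - 1) (fun y => epsL a y * f y) x) := by
        congr 1; funext x; ring
    _ = _ := h
    _ = _ := by congr 1; funext x; ring

lemma coef_zero {g : Cu d M → ℝ} {m : ℕ}
    (hg : ∀ a ∈ lev d M, m < wt a → Dl a g = fun _ => 0) (B : Finset (Dg d M))
    (hB : m < wt (lvl B)) : E (fun y => walsh B y * g y) = 0 := by
  have h1 : Dl (lvl B) (walsh B) = walsh (𝒟 := Dg d M) B := by
    have := Dl_walsh (lvl_mem B) B (1 : ℝ)
    simpa using this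
  have h2 : E (fun y => walsh B y * g y) = E (fun y => Dl (lvl B) (walsh B) y * g y) := by
    rw [h1]
  rw [h2, E_mul_Dl, hg _ (lvl_mem B) hB]
  simp [E_zero]

/-! ### the tower of a class -/

/-- tower of the coordinates in `U`, digits `≡ r_i` modulo `q + 1` -/
noncomputable def clTower (hM : 0 < M) (q : ℕ) (U : Finset (Fin d)) (r : Fin d → ℕ) :
    Tower {i // i ∈ U} (Dg d M) where
  D := fun i s => univ.filter fun p => p.1 = i.1 ∧ s ≤ p.2.val ∧ p.2.val % (q + 1) = r i.1
  L := M
  J := fun i => (range M).filter fun s => s % (q + 1) = r i.1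
  e := fun i s => (i.1, ⟨s % M, Nat.mod_lt _ hM⟩)
  anti := by
    intro i s t hst p hp
    simp only [mem_filter, mem_univ, true_and] at hp ⊢
    exact ⟨hp.1, hst.trans hp.2.1, hp.2.2⟩
  top := by
    intro i
    ext p
    simp only [mem_filter, mem_univ, true_and, notMem_empty, iff_false, not_and]
    intro _ h
    exact absurd p.2.isLt (not_lt.mpr h)
  disj := by
    intro i j hij
    rw [Finset.disjoint_left]
    intro p hp hp'
    simp only [mem_filter, mem_univ, true_and] at hp hp'
    exact hij (Subtype.ext (hp.1.symm.trans hp'.1))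
  mem := by
    intro i s hs
    simp only [mem_filter, mem_univ, true_and, mem_range] at hs ⊢
    rw [Nat.mod_eq_of_lt hs.1]
    exact ⟨le_rfl, hs.2⟩
  not_mem := by
    intro i s hs t hst
    simp only [mem_filter, mem_univ, true_and, mem_range, not_and] at hs ⊢
    rw [Nat.mod_eq_of_lt hs.1]
    intro h
    exact absurd h (not_le.mpr hst)

/-- the class of levels -/
def cls (d M l q : ℕ) (U : Finset (Fin d)) (r : Fin d → ℕ) : Finset (Fin d → ℕ) :=
  (lev d M).filter fun a => wt a = l ∧ (∀ i, i ∈ U ↔ 1 ≤ a i)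
    ∧ ∀ i ∈ U, (a i - 1) % (q + 1) = r i

section cls

variable {l m : ℕ} {U : Finset (Fin d)} {r : Fin d → ℕ} {a : Fin d → ℕ}

lemma cls_le (ha : a ∈ cls d M l (m - l) U r) (i : Fin d) : a i ≤ M := by
  have h := Fintype.mem_piFinset.1 (Finset.mem_filter.mp ha).1 i
  exact Nat.le_of_lt_succ (Finset.mem_range.1 h)

lemma cls_J (hM : 0 < M) (ha : a ∈ cls d M l (m - l) U r) (i : {i // i ∈ U}) :
    a i.1 - 1 ∈ (clTower hM (m - l) U r).J i := by
  obtain ⟨_, _, h2, h3⟩ := Finset.mem_filter.mp ha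
  have h4 := cls_le ha i.1
  have h5 := (h2 i.1).mp i.2
  simp only [clTower, mem_filter, mem_range]
  exact ⟨by omega, h3 i.1 i.2⟩

/-- weight bound for the digit sets -/
lemma cls_wt (ha : a ∈ cls d M l (m - l) U r) (hlm : l ≤ m) {B : Finset (Dg d M)}
    (hB : wt (lvl B) ≤ m) (hall : ∀ i ∈ U, a i ≤ lvl B i) (i : Fin d) :
    lvl B i ≤ a i + (m - l) := by
  obtain ⟨_, h1, h2, _⟩ := Finset.mem_filter.mp ha
  by_contra hcon
  push Not at hcon
  have hle : ∀ j, a j ≤ lvl B j := by
    intro j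
    by_cases hj : j ∈ U
    · exact hall j hj
    · have : ¬ 1 ≤ a j := fun h => hj ((h2 j).mpr h)
      omega
  have h3 : wt (lvl B) = lvl B i + ∑ j ∈ univ.erase i, lvl B j := by
    unfold wt; rw [Finset.add_sum_erase _ _ (Finset.mem_univ i)]
  have h4 : wt a = a i + ∑ j ∈ univ.erase i, a j := by
    unfold wt; rw [Finset.add_sum_erase _ _ (Finset.mem_univ i)]
  have h5 : ∑ j ∈ univ.erase i, a j ≤ ∑ j ∈ univ.erase i, lvl B j :=
    Finset.sum_le_sum fun j _ => hle j
  omega

lemma lvl_ge {B : Finset (Dg d M)} {p : Dg d M} (hp : p ∈ B) : p.2.val + 1 ≤ lvl B p.1 :=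
  lvl_le_iff.1 (le_refl (lvl B)) p hp

lemma mod_gap {q s j r : ℕ} (h1 : s % (q + 1) = r) (h2 : j % (q + 1) = r) (h3 : s ≤ j)
    (h4 : j ≠ s) : s + q + 1 ≤ j := by
  have e1 := Nat.div_add_mod s (q + 1)
  have e2 := Nat.div_add_mod j (q + 1)
  rw [h1] at e1
  rw [h2] at e2
  have hd : s / (q + 1) < j / (q + 1) := by
    by_contra hcon
    push Not at hcon
    have : (q + 1) * (j / (q + 1)) ≤ (q + 1) * (s / (q + 1)) := Nat.mul_le_mul_left _ hcon
    omega
  have : (q + 1) * (s / (q + 1) + 1) ≤ (q + 1) * (j / (q + 1)) := Nat.mul_le_mul_left _ hd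
  rw [mul_add, mul_one] at this
  omega

/-- a digit of the class tower in `B` other than the top one is too deep -/
lemma cls_digit (hM : 0 < M) (ha : a ∈ cls d M l (m - l) U r) (hlm : l ≤ m)
    {B : Finset (Dg d M)} (hB : wt (lvl B) ≤ m) (hall : ∀ i ∈ U, a i ≤ lvl B i)
    {p : Dg d M} (hp : p ∈ B) (i : {i // i ∈ U})
    (hpD : p ∈ (clTower hM (m - l) U r).D i (a i.1 - 1)) :
    p = (clTower hM (m - l) U r).e i (a i.1 - 1) := by
  obtain ⟨_, _, h2, h3⟩ := Finset.mem_filter.mp ha
  have h1 := (h2 i.1).mp i.2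
  have h4 := cls_le ha i.1
  have h5 := h3 i.1 i.2
  simp only [clTower, mem_filter, mem_univ, true_and] at hpD ⊢
  obtain ⟨q1, q2, q3⟩ := hpD
  have h6 := lvl_ge hp
  have h7 := cls_wt ha hlm hB hall p.1
  have : p.2.val = a i.1 - 1 := by
    by_contra hne
    have h8 := mod_gap h5 q3 q2 hne
    rw [q1] at h7 h6
    omega
  apply Prod.ext q1
  apply Fin.ext
  show p.2.val = (a i.1 - 1) % M
  rw [Nat.mod_eq_of_lt (by omega)]
  exact this

lemma cls_level_of_meet (hM : 0 < M) (ha : a ∈ cls d M l (m - l) U r)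
    {B : Finset (Dg d M)} (hmeet : ∀ i : {i // i ∈ U},
      ¬ Disjoint B ((clTower hM (m - l) U r).D i (a i.1 - 1))) :
    ∀ i ∈ U, a i ≤ lvl B i := by
  intro i hi
  obtain ⟨p, hpB, hpD⟩ := Finset.not_disjoint_iff.mp (hmeet ⟨i, hi⟩)
  simp only [clTower, mem_filter, mem_univ, true_and] at hpD
  have := lvl_ge hpB
  rw [hpD.1] at this
  have h2 := hpD.2.1
  omega

/-- the hypothesis `(H_s)` for a Walsh function of weight at most `m` -/
lemma cls_H_walsh (hM : 0 < M) (ha : a ∈ cls d M l (m - l) U r) (hlm : l ≤ m)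
    {B : Finset (Dg d M)} (hB : wt (lvl B) ≤ m) :
    (∏ i : {i // i ∈ U},
        (1 - if Disjoint B ((clTower hM (m - l) U r).D i (a i.1 - 1)) then (1 : ℝ) else 0))
      = if Disjoint (symmDiff ((clTower hM (m - l) U r).Es fun i => a i.1 - 1) B)
          ((clTower hM (m - l) U r).TB fun i => a i.1 - 1) then 1 else 0 := by
  set T := clTower hM (m - l) U r with hT
  by_cases hmeet : ∀ i : {i // i ∈ U}, ¬ Disjoint B (T.D i (a i.1 - 1))
  · have hall := cls_level_of_meet hM ha hmeet
    have e1 : (∏ i : {i // i ∈ U},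
        (1 - if Disjoint B (T.D i (a i.1 - 1)) then (1 : ℝ) else 0)) = 1 := by
      apply Finset.prod_eq_one
      intro i _
      rw [if_neg (hmeet i)]; ring
    rw [e1, if_pos]
    rw [Finset.disjoint_left]
    intro p hp hpT
    simp only [Tower.TB, mem_biUnion, mem_univ, true_and] at hpT
    obtain ⟨i, hpi⟩ := hpT
    rw [Finset.mem_symmDiff] at hp
    rcases hp with ⟨h1, h2⟩ | ⟨h1, h2⟩
    · -- `p ∈ Es`, `p ∉ B`
      simp only [Tower.Es, mem_image, mem_univ, true_and] at h1
      obtain ⟨j, rfl⟩ := h1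
      obtain ⟨p', hp'B, hp'D⟩ := Finset.not_disjoint_iff.mp (hmeet j)
      have := cls_digit hM ha hlm hB hall hp'B j hp'D
      exact h2 (this ▸ hp'B)
    · apply h2
      have := cls_digit hM ha hlm hB hall h1 i hpi
      rw [this]
      simp only [Tower.Es, mem_image, mem_univ, true_and]
      exact ⟨i, rfl⟩
  · push Not at hmeet
    obtain ⟨i, hi⟩ := hmeet
    have e1 : (∏ i : {i // i ∈ U},
        (1 - if Disjoint B (T.D i (a i.1 - 1)) then (1 : ℝ) else 0)) = 0 := by
      apply Finset.prod_eq_zero (Finset.mem_univ i)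
      rw [if_pos hi]; ring
    rw [e1, if_neg]
    rw [Finset.not_disjoint_iff]
    have hmem : T.e i (a i.1 - 1) ∈ T.D i (a i.1 - 1) := T.mem i _ (cls_J hM ha i)
    refine ⟨T.e i (a i.1 - 1), ?_, ?_⟩
    · rw [Finset.mem_symmDiff]
      left
      refine ⟨?_, fun h => (Finset.disjoint_left.mp hi h) hmem⟩
      simp only [Tower.Es, mem_image, mem_univ, true_and]
      exact ⟨i, rfl⟩
    · simp only [Tower.TB, mem_biUnion, mem_univ, true_and]
      exact ⟨i, hmem⟩

lemma expand (g : Cu d M → ℝ) :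
    g = fun x => ∑ B : Finset (Dg d M), E (fun y => walsh B y * g y) * walsh B x := by
  funext x
  have := walsh_expansion g x
  simp only [smul_eq_mul] at this
  rw [this]
  exact Finset.sum_congr rfl fun B _ => mul_comm _ _

lemma Tower.A_sum {ι : Type} [Fintype ι] [DecidableEq ι] (T : Tower ι (Dg d M))
    (W : Finset ι) (s : ι → ℕ) (c : Finset (Dg d M) → ℝ) (φ : Finset (Dg d M) → Cu d M → ℝ) :
    T.A W s (fun x => ∑ B : Finset (Dg d M), c B * φ B x)
      = fun x => ∑ B : Finset (Dg d M), c B * T.A W s (φ B) x := by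
  unfold Tower.A
  rw [Av_sum _ univ (fun B x => c B * φ B x)]
  funext x
  apply Finset.sum_congr rfl
  intro B _
  rw [Av_mul_left]

/-- `(H_s)` -/
lemma cls_H (hM : 0 < M) (ha : a ∈ cls d M l (m - l) U r) (hlm : l ≤ m) {g : Cu d M → ℝ}
    (hg : ∀ a ∈ lev d M, m < wt a → Dl a g = fun _ => 0) (x : Cu d M) :
    ∑ W ∈ (univ : Finset {i // i ∈ U}).powerset,
        (-1 : ℝ) ^ W.card * (clTower hM (m - l) U r).A W (fun i => a i.1 - 1) g x
      = (clTower hM (m - l) U r).eps univ (fun i => a i.1 - 1) x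
        * (clTower hM (m - l) U r).A univ (fun i => a i.1 - 1)
          (fun y => (clTower hM (m - l) U r).eps univ (fun i => a i.1 - 1) y * g y) x := by
  set T := clTower hM (m - l) U r with hT
  set s : {i // i ∈ U} → ℕ := fun i => a i.1 - 1 with hs
  set c : Finset (Dg d M) → ℝ := fun B => E (fun y => walsh B y * g y) with hc
  have hJ : ∀ i, s i ∈ T.J i := fun i => cls_J hM ha i
  have hgx : g = fun x => ∑ B : Finset (Dg d M), c B * walsh B x := expand g
  have h1 : ∀ W, T.A W s g x = ∑ B : Finset (Dg d M), c B * T.A W s (walsh B) x := by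
    intro W
    have := congrFun (Tower.A_sum T W s c (fun B => walsh B)) x
    rw [← hgx] at this
    exact this
  have h2 : (fun y => T.eps univ s y * g y)
      = fun y => ∑ B : Finset (Dg d M), c B * (T.eps univ s y * walsh B y) := by
    funext y
    have := congrFun hgx y
    rw [this, Finset.mul_sum]
    exact Finset.sum_congr rfl fun B _ => by ring
  have h3 : T.A univ s (fun y => T.eps univ s y * g y) x
      = ∑ B : Finset (Dg d M), c B * T.A univ s (fun y => T.eps univ s y * walsh B y) x := by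
    rw [h2]
    exact congrFun (Tower.A_sum T univ s c (fun B y => T.eps univ s y * walsh B y)) x
  have h4 : ∑ W ∈ (univ : Finset {i // i ∈ U}).powerset, (-1 : ℝ) ^ W.card * T.A W s g x
      = ∑ B : Finset (Dg d M), c B * ∑ W ∈ (univ : Finset {i // i ∈ U}).powerset,
        (-1 : ℝ) ^ W.card * T.A W s (walsh B) x := by
    simp only [h1, Finset.mul_sum]
    rw [Finset.sum_comm]
    exact Finset.sum_congr rfl fun B _ => Finset.sum_congr rfl fun W _ => by ring
  rw [h4, h3, Finset.mul_sum]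
  apply Finset.sum_congr rfl
  intro B _
  by_cases hB : m < wt (lvl B)
  · have : c B = 0 := coef_zero hg B hB
    rw [this]; ring
  · push Not at hB
    rw [Tower.altsum_walsh, cls_H_walsh hM ha hlm hB, T.A_eps_walsh s hJ]
    by_cases hd : Disjoint (symmDiff (T.Es s) B) (T.TB s)
    · rw [if_pos hd, if_pos hd, T.eps_eq s hJ, ← walsh_mul]
      have := walsh_sq (T.Es s) x
      calc c B * (1 * walsh B x) = c B * ((walsh (T.Es s) x * walsh (T.Es s) x) * walsh B x) := by
            rw [this]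
        _ = _ := by ring
    · rw [if_neg hd, if_neg hd]; ring

/-- digits on which the reduced function depends -/
lemma cls_Inv (hM : 0 < M) (ha : a ∈ cls d M l (m - l) U r) (hlm : l ≤ m) {g : Cu d M → ℝ}
    (hg : ∀ a ∈ lev d M, m < wt a → Dl a g = fun _ => 0) (i : Fin d) (hi : i ∈ U) :
    Inv (digc i (a i - 1 + (m - l) + 1)) ((clTower hM (m - l) U r).A univ (fun i => a i.1 - 1)
          (fun y => (clTower hM (m - l) U r).eps univ (fun i => a i.1 - 1) y * g y)) := by
  set T := clTower hM (m - l) U r with hT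
  set s : {i // i ∈ U} → ℕ := fun i => a i.1 - 1 with hs
  set c : Finset (Dg d M) → ℝ := fun B => E (fun y => walsh B y * g y) with hc
  have hJ : ∀ i, s i ∈ T.J i := fun i => cls_J hM ha i
  have hgx : g = fun x => ∑ B : Finset (Dg d M), c B * walsh B x := expand g
  have h2 : (fun y => T.eps univ s y * g y)
      = fun y => ∑ B : Finset (Dg d M), c B * (T.eps univ s y * walsh B y) := by
    funext y
    have := congrFun hgx y
    rw [this, Finset.mul_sum]
    exact Finset.sum_congr rfl fun B _ => by ring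
  rw [h2, Tower.A_sum T univ s c (fun B y => T.eps univ s y * walsh B y)]
  apply Inv.sum
  intro B _
  by_cases hB : m < wt (lvl B)
  · have : c B = 0 := coef_zero hg B hB
    rw [this]
    simp only [zero_mul]
    exact Inv_const _ _
  · push Not at hB
    apply (Inv_const _ _).mul
    rw [T.A_eps_walsh s hJ]
    split_ifs with hd
    · apply Inv_walsh
      -- all top digits are in `B`
      have htop : ∀ j : {i // i ∈ U}, T.e j (s j) ∈ B := by
        intro j
        by_contra hcon
        have h5 : T.e j (s j) ∈ symmDiff (T.Es s) B := by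
          rw [Finset.mem_symmDiff]
          left
          refine ⟨?_, hcon⟩
          simp only [Tower.Es, mem_image, mem_univ, true_and]
          exact ⟨j, rfl⟩
        have h6 : T.e j (s j) ∈ T.TB s := by
          simp only [Tower.TB, mem_biUnion, mem_univ, true_and]
          exact ⟨j, T.mem j _ (hJ j)⟩
        exact (Finset.disjoint_left.mp hd h5) h6
      have hall : ∀ j ∈ U, a j ≤ lvl B j := by
        apply cls_level_of_meet hM ha
        intro j
        rw [Finset.not_disjoint_iff]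
        exact ⟨T.e j (s j), htop j, T.mem j _ (hJ j)⟩
      rw [Finset.disjoint_left]
      intro p hp hpd
      simp only [digc, mem_filter, mem_univ, true_and] at hpd
      have hai : 1 ≤ a i := ((Finset.mem_filter.mp ha).2.2.1 i).mp hi
      rw [Finset.mem_symmDiff] at hp
      rcases hp with ⟨h1, _⟩ | ⟨h1, _⟩
      · simp only [Tower.Es, mem_image, mem_univ, true_and] at h1
        obtain ⟨j, rfl⟩ := h1
        have hj : j.1 = i := hpd.1
        have h7 : (s j) % M = s j := by
          apply Nat.mod_eq_of_lt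
          have := cls_le ha j.1
          have h8 : s j = a j.1 - 1 := rfl
          rw [hj] at this h8
          omega
        have h9 : (T.e j (s j)).2.val = s j % M := rfl
        have h10 := hpd.2
        rw [h9, h7] at h10
        have h11 : s j = a i - 1 := by rw [← hj]
        omega
      · have h8 := lvl_ge h1
        have h9 := cls_wt ha hlm hB hall p.1
        rw [hpd.1] at h8 h9
        have h10 := hpd.2
        omega
    · exact Inv_const _ _

lemma cls_Dl_sq (hM : 0 < M) (ha : a ∈ cls d M l (m - l) U r) (g : Cu d M → ℝ)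
    (x : Cu d M) :
    (Dl a g x) ^ 2 = (Av (digW univ fun i => a i - 1)
        ((clTower hM (m - l) U r).A univ (fun i => a i.1 - 1)
          (fun y => (clTower hM (m - l) U r).eps univ (fun i => a i.1 - 1) y * g y)) x) ^ 2 := by
  set T := clTower hM (m - l) U r with hT
  set s : {i // i ∈ U} → ℕ := fun i => a i.1 - 1 with hs
  obtain ⟨_, _, h2, h3⟩ := Finset.mem_filter.mp ha
  have hJ : ∀ i, s i ∈ T.J i := fun i => cls_J hM ha i
  -- the signs agree
  have heps : ∀ y, T.eps univ s y = epsL a y := by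
    intro y
    rw [T.eps_eq s hJ, epsL_eq_walsh]
    congr 1
    ext p
    simp only [Tower.Es, mem_image, mem_univ, true_and, topd, mem_filter]
    constructor
    · rintro ⟨j, rfl⟩
      show (s j) % M + 1 = a j.1
      have h4 := cls_le ha j.1
      have h5 := (h2 j.1).mp j.2
      have h6 : s j = a j.1 - 1 := rfl
      rw [Nat.mod_eq_of_lt (by omega)]
      omega
    · intro hp
      have h5 : p.1 ∈ U := (h2 p.1).mpr (by omega)
      refine ⟨⟨p.1, h5⟩, ?_⟩
      show (p.1, (⟨(a p.1 - 1) % M, Nat.mod_lt _ hM⟩ : Fin M)) = p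
      refine Prod.ext (by rfl) ?_
      apply Fin.ext
      show (a p.1 - 1) % M = p.2.val
      have := p.2.isLt
      rw [Nat.mod_eq_of_lt (by omega)]
      omega
  have hdig : (digW univ (fun i => a i - 1) : Finset (Dg d M)) = dig fun i => a i - 1 := by
    ext p; simp [digW, dig]
  have hsub : T.TB s ⊆ (dig fun i => a i - 1 : Finset (Dg d M)) := by
    intro p hp
    simp only [Tower.TB, mem_biUnion, mem_univ, true_and] at hp
    obtain ⟨i, hp⟩ := hp
    have hp' : p.1 = i.1 ∧ s i ≤ p.2.val ∧ p.2.val % (m - l + 1) = r i.1 := by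
      have : p ∈ (univ.filter fun p : Dg d M =>
        p.1 = i.1 ∧ s i ≤ p.2.val ∧ p.2.val % (m - l + 1) = r i.1) := hp
      simpa using this
    simp only [dig, mem_filter, mem_univ, true_and]
    rw [hp'.1]; exact hp'.2.1
  have e1 : Av (dig fun i => a i - 1) (T.A univ s (fun y => T.eps univ s y * g y))
      = Av (dig fun i => a i - 1) (fun y => T.eps univ s y * g y) := by
    unfold Tower.A
    rw [Av_Av]
    congr 1
    exact Finset.union_eq_left.mpr hsub
  rw [hdig, e1]
  simp only [Dl, AL, smul_eq_mul, heps]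
  rw [mul_pow]
  have : epsL a x ^ 2 = 1 := by rw [epsL_eq_walsh, sq]; exact walsh_sq _ _
  rw [this, one_mul]

/-- one class -/
lemma cls_bound (hM : 0 < M) (hlm : l ≤ m) {g : Cu d M → ℝ}
    (hg : ∀ a ∈ lev d M, m < wt a → Dl a g = fun _ => 0) (U : Finset (Fin d)) (r : Fin d → ℕ)
    {C : ℝ} (hC : ∀ (ι 𝒟 : Type) [Fintype ι] [DecidableEq ι] [Fintype 𝒟]
    [DecidableEq 𝒟] (T : Tower ι 𝒟), Fintype.card ι = U.card →
    ∀ (S : Finset (ι → ℕ)) (f : (𝒟 → Bool) → ℝ), (∀ s ∈ S, ∀ i, s i ∈ T.J i) →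
    (∀ s ∈ S, ∀ x, ∑ W ∈ (univ : Finset ι).powerset, (-1 : ℝ) ^ W.card * T.A W s f x
        = T.eps univ s x * T.A univ s (fun y => T.eps univ s y * f y) x) →
    E (fun x => Real.sqrt (∑ s ∈ S, (T.A univ s (fun y => T.eps univ s y * f y) x) ^ 2))
      ≤ C * E (fun x => |f x|)) :
    E (fun x => Real.sqrt (∑ a ∈ cls d M l (m - l) U r, (Dl a g x) ^ 2))
      ≤ 2 ^ d * (C * E (fun x => |g x|)) := by
  set T := clTower hM (m - l) U r with hT
  set h : (Fin d → ℕ) → Cu d M → ℝ := fun a => T.A univ (fun i => a i.1 - 1)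
          (fun y => T.eps univ (fun i => a i.1 - 1) y * g y) with hh
  set A := cls d M l (m - l) U r with hA
  have h1 : ∀ x, Real.sqrt (∑ a ∈ A, (Dl a g x) ^ 2)
      = Real.sqrt (∑ a ∈ A, (Av (digW univ fun i => a i - 1) (h a) x) ^ 2) := by
    intro x
    congr 1
    exact Finset.sum_congr rfl fun a ha => cls_Dl_sq hM ha g x
  simp only [h1]
  have h2 := lep_multi (M := M) univ A (fun a i => a i - 1) h (by
    intro i _ a ha a' ha' hlt
    have hlt' : a i - 1 < a' i - 1 := hlt
    obtain ⟨_, _, p2, p3⟩ := Finset.mem_filter.mp ha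
    obtain ⟨_, _, p2', p3'⟩ := Finset.mem_filter.mp ha'
    have hi : i ∈ U := (p2' i).mpr (by omega)
    apply (cls_Inv hM ha hlm hg i hi).mono
    apply digc_anti
    have := mod_gap (p3 i hi) (p3' i hi) hlt'.le hlt'.ne'
    show a i - 1 + (m - l) + 1 ≤ a' i - 1
    omega)
  rw [Finset.card_univ, Fintype.card_fin] at h2
  refine h2.trans ?_
  apply mul_le_mul_of_nonneg_left _ (by positivity)
  -- pass to the index set of the tower
  set S : Finset ({i // i ∈ U} → ℕ) := A.image (fun a i => a i.1 - 1) with hS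
  have hinj : ∀ a ∈ A, ∀ b ∈ A,
      (fun i : {i // i ∈ U} => a i.1 - 1) = (fun i : {i // i ∈ U} => b i.1 - 1) → a = b := by
    intro a ha b hb hab
    obtain ⟨_, _, p2, _⟩ := Finset.mem_filter.mp ha
    obtain ⟨_, _, p2', _⟩ := Finset.mem_filter.mp hb
    funext i
    by_cases hi : i ∈ U
    · have := congrFun hab ⟨i, hi⟩
      have e1 := (p2 i).mp hi
      have e2 := (p2' i).mp hi
      have e3 : a i - 1 = b i - 1 := this
      omega
    · have e1 : ¬ 1 ≤ a i := fun h => hi ((p2 i).mpr h)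
      have e2 : ¬ 1 ≤ b i := fun h => hi ((p2' i).mpr h)
      omega
  have h3 : ∀ x, ∑ a ∈ A, (h a x) ^ 2
      = ∑ s ∈ S, (T.A univ s (fun y => T.eps univ s y * g y) x) ^ 2 := by
    intro x
    rw [hS, Finset.sum_image]
    intro a ha b hb hab
    exact hinj a ha b hb hab
  simp only [h3]
  apply hC _ _ T (by simp) S g
  · intro s hs i
    obtain ⟨a, ha, rfl⟩ := Finset.mem_image.mp hs
    exact cls_J hM ha i
  · intro s hs x
    obtain ⟨a, ha, rfl⟩ := Finset.mem_image.mp hs
    exact cls_H hM ha hlm hg x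

end cls

/-- Lower layers -/
theorem lower (d : ℕ) : ∃ C : ℝ, 0 < C ∧ ∀ (M : ℕ) (g : Cu d M → ℝ) (m : ℕ),
    (∀ a ∈ lev d M, m < wt a → Dl a g = fun _ => 0) → ∀ l, l ≤ m →
    E (fun x => Real.sqrt (∑ a ∈ (lev d M).filter (fun a => wt a = l), (Dl a g x) ^ 2))
      ≤ C * ((m - l : ℕ) + 1 : ℝ) ^ d * E (fun x => |g x|) := by
  choose C hC0 hC using thmA
  set K : ℝ := 1 + ∑ n ∈ range (d + 1), C n with hK
  have hKpos : 0 < K := by
    have : 0 ≤ ∑ n ∈ range (d + 1), C n := Finset.sum_nonneg fun n _ => (hC0 n).le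
    linarith
  have hCK : ∀ n ≤ d, C n ≤ K := by
    intro n hn
    have := Finset.single_le_sum (f := C) (fun i _ => (hC0 i).le)
      (Finset.mem_range.mpr (Nat.lt_succ_of_le hn))
    linarith
  refine ⟨4 ^ d * K, by positivity, ?_⟩
  intro M g m hg l hlm
  have hEg : 0 ≤ E (fun x => |g x|) := E_nonneg fun x => abs_nonneg _
  rcases Nat.eq_zero_or_pos M with hM | hM
  · -- trivial grid
    subst hM
    have h1 : ∀ x : Cu d 0, Real.sqrt (∑ a ∈ (lev d 0).filter (fun a => wt a = l), (Dl a g x) ^ 2)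
        ≤ |g x| := by
      intro x
      rw [← Real.sqrt_sq_eq_abs]
      apply Real.sqrt_le_sqrt
      have hlev : (lev d 0).filter (fun a => wt a = l) ⊆ {fun _ => 0} := by
        intro a ha
        have h2 := Fintype.mem_piFinset.1 (Finset.mem_filter.mp ha).1
        rw [Finset.mem_singleton]
        funext i
        have := Finset.mem_range.1 (h2 i)
        omega
      calc ∑ a ∈ (lev d 0).filter (fun a => wt a = l), (Dl a g x) ^ 2
          ≤ ∑ a ∈ ({fun _ => 0} : Finset (Fin d → ℕ)), (Dl a g x) ^ 2 :=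
            Finset.sum_le_sum_of_subset_of_nonneg hlev fun _ _ _ => sq_nonneg _
        _ = (Dl (fun _ => 0) g x) ^ 2 := by rw [Finset.sum_singleton]
        _ = (g x) ^ 2 := by
            congr 1
            have hd0 : (dig (fun i => (fun _ : Fin d => 0) i - 1) : Finset (Dg d 0)) = ∅ := by
              ext p; exact p.2.elim0
            simp only [Dl, AL, hd0, Av_empty, epsL, sgl_zero, Finset.prod_const_one, one_smul]
        _ ≤ (g x) ^ 2 := le_rfl
    refine (E_mono h1).trans ?_
    have h3 : (1 : ℝ) ≤ 4 ^ d * K * ((m - l : ℕ) + 1 : ℝ) ^ d := by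
      have a1 : (1 : ℝ) ≤ 4 ^ d := one_le_pow₀ (by norm_num)
      have a2 : (1 : ℝ) ≤ K := by
        have : 0 ≤ ∑ n ∈ range (d + 1), C n := Finset.sum_nonneg fun n _ => (hC0 n).le
        linarith
      have a3 : (1 : ℝ) ≤ ((m - l : ℕ) + 1 : ℝ) ^ d := by
        apply one_le_pow₀
        have : (0 : ℝ) ≤ ((m - l : ℕ) : ℝ) := Nat.cast_nonneg _
        linarith
      calc (1 : ℝ) = 1 * 1 * 1 := by ring
        _ ≤ _ := by gcongr
    nlinarith
  · set q := m - l with hq
    set P : Finset (Fin d) × (Fin d → Fin (q + 1)) → Finset (Fin d → ℕ) :=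
      fun c => cls d M l (m - l) c.1 (fun i => (c.2 i).val) with hP
    have h1 : ∀ x : Cu d M,
        Real.sqrt (∑ a ∈ (lev d M).filter (fun a => wt a = l), (Dl a g x) ^ 2)
        ≤ ∑ c : Finset (Fin d) × (Fin d → Fin (q + 1)),
          Real.sqrt (∑ a ∈ P c, (Dl a g x) ^ 2) := by
      intro x
      apply sqrt_sum_le_of_cover _ univ P _ (fun a => sq_nonneg _)
      intro a ha
      obtain ⟨ha1, ha2⟩ := Finset.mem_filter.mp ha
      refine ⟨(univ.filter fun i => 1 ≤ a i,
        fun i => ⟨(a i - 1) % (q + 1), Nat.mod_lt _ (Nat.succ_pos q)⟩), Finset.mem_univ _, ?_⟩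
      show a ∈ cls d M l (m - l) _ _
      rw [cls, Finset.mem_filter]
      refine ⟨ha1, ha2, fun i => ?_, fun i _ => rfl⟩
      show i ∈ univ.filter (fun i => 1 ≤ a i) ↔ 1 ≤ a i
      simp
    have h2 : ∀ c, E (fun x => Real.sqrt (∑ a ∈ P c, (Dl a g x) ^ 2))
        ≤ 2 ^ d * (K * E (fun x => |g x|)) := by
      intro c
      have h3 := cls_bound (d := d) (m := m) (l := l) hM hlm hg c.1 (fun i => (c.2 i).val)
        (C := C c.1.card) (fun ι 𝒟 _ _ _ _ T hT S f => hC c.1.card ι 𝒟 T hT S f)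
      refine h3.trans ?_
      apply mul_le_mul_of_nonneg_left _ (by positivity)
      apply mul_le_mul_of_nonneg_right _ hEg
      apply hCK
      have := Finset.card_le_univ c.1
      rwa [Fintype.card_fin] at this
    calc E (fun x => Real.sqrt (∑ a ∈ (lev d M).filter (fun a => wt a = l), (Dl a g x) ^ 2))
        ≤ E (fun x => ∑ c : Finset (Fin d) × (Fin d → Fin (q + 1)),
          Real.sqrt (∑ a ∈ P c, (Dl a g x) ^ 2)) := E_mono h1
      _ = ∑ c : Finset (Fin d) × (Fin d → Fin (q + 1)),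
          E (fun x => Real.sqrt (∑ a ∈ P c, (Dl a g x) ^ 2)) :=
          E_sum univ (fun c x => Real.sqrt (∑ a ∈ P c, (Dl a g x) ^ 2))
      _ ≤ ∑ _c : Finset (Fin d) × (Fin d → Fin (q + 1)), 2 ^ d * (K * E (fun x => |g x|)) :=
          Finset.sum_le_sum fun c _ => h2 c
      _ = 4 ^ d * K * ((q : ℕ) + 1 : ℝ) ^ d * E (fun x => |g x|) := by
          rw [Finset.sum_const, Finset.card_univ, Fintype.card_prod, Fintype.card_finset,
            Fintype.card_fun, Fintype.card_fin, Fintype.card_fin, nsmul_eq_mul]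
          push_cast
          have : (4 : ℝ) ^ d = 2 ^ d * 2 ^ d := by rw [← mul_pow]; norm_num
          rw [this]; ring

end Pool.Agent.LBern
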