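import Pool.Agent.LBern.Pos
import Pool.Agent.LBern.Layer
import Pool.Agent.LBern.Norms

/-!
Shift lemma and weighted average lemma (one dimension).
-/

set_option linter.unusedSectionVars false

namespace Pool.Agent.LBern

open Finset

variable {M : ℕ}

/-- maximal ergodic lemma -/
lemma maximal_ergodic {α : Type} [Fintype α] (T : α ≃ α) (f : α → ℝ) (L : ℕ) (B : Finset α)
    (hB : ∀ x, x ∈ B ↔ ∃ n, 1 ≤ n ∧ n ≤ L ∧ 0 < ∑ j ∈ range n, f ((T^[j]) x)) :
    0 ≤ ∑ x ∈ B, f x := by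
  classical
  let S : ℕ → α → ℝ := fun n x => ∑ j ∈ range n, f ((T^[j]) x)
  have hne : (range (L + 1)).Nonempty := ⟨0, by simp⟩
  let Mx : α → ℝ := fun x => (range (L + 1)).sup' hne (fun n => S n x)
  have hS0 : ∀ x, S 0 x = 0 := fun x => by simp [S]
  have hSsucc : ∀ n x, S (n + 1) x = f x + S n (T x) := by
    intro n x
    simp only [S]
    rw [Finset.sum_range_succ']
    simp only [Function.iterate_succ_apply, Function.iterate_zero, id_eq]
    rw [add_comm]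
  have hM0 : ∀ x, 0 ≤ Mx x := fun x => by
    have h1 : S 0 x ≤ Mx x :=
      Finset.le_sup' (fun n => S n x) (b := 0) (s := range (L + 1)) (by simp)
    rwa [hS0] at h1
  have hMB : ∀ x ∈ B, Mx x - Mx (T x) ≤ f x := by
    intro x hx
    obtain ⟨n, hn1, hnL, hpos⟩ := (hB x).1 hx
    obtain ⟨m, hm, hmax⟩ := Finset.exists_mem_eq_sup' hne (fun n => S n x)
    have hMm : Mx x = S m x := hmax
    have hm0 : m ≠ 0 := by
      rintro rfl
      have h1 : S n x ≤ Mx x :=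
        Finset.le_sup' (fun n => S n x) (by simp; omega)
      rw [hMm, hS0] at h1
      have : 0 < S n x := hpos
      linarith
    obtain ⟨m', rfl⟩ := Nat.exists_eq_succ_of_ne_zero hm0
    rw [Nat.succ_eq_add_one, hSsucc] at hMm
    have h2 : S m' (T x) ≤ Mx (T x) := by
      apply Finset.le_sup' (fun n => S n (T x))
      simp only [Finset.mem_range] at hm ⊢
      omega
    linarith
  have hMB' : ∀ x, x ∉ B → Mx x - Mx (T x) ≤ 0 := by
    intro x hx
    have : Mx x ≤ 0 := by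
      apply Finset.sup'_le
      intro n hn
      by_contra hcon
      push Not at hcon
      apply hx
      rw [hB]
      have hn0 : n ≠ 0 := by
        rintro rfl
        rw [hS0] at hcon; exact lt_irrefl _ hcon
      exact ⟨n, Nat.one_le_iff_ne_zero.2 hn0, by simpa using hn, hcon⟩
    linarith [hM0 (T x)]
  have hsum : ∑ x, (Mx x - Mx (T x)) = 0 := by
    rw [Finset.sum_sub_distrib, Equiv.sum_comp T Mx, sub_self]
  calc (0 : ℝ) = ∑ x, (Mx x - Mx (T x)) := hsum.symm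
    _ = ∑ x ∈ B, (Mx x - Mx (T x)) + ∑ x ∈ Bᶜ, (Mx x - Mx (T x)) :=
        (Finset.sum_add_sum_compl B _).symm
    _ ≤ ∑ x ∈ B, f x + 0 := by
        apply add_le_add
        · exact Finset.sum_le_sum hMB
        · apply Finset.sum_nonpos
          intro x hx
          exact hMB' x (by simpa using hx)
    _ = ∑ x ∈ B, f x := add_zero _

/-- weak type bound for one-sided averages along `T` -/
lemma weak_type {α : Type} [Fintype α] (T : α ≃ α) (f : α → ℝ) (hf : ∀ x, 0 ≤ f x)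
    (c : ℝ) (L : ℕ) (B : Finset α)
    (hB : ∀ x ∈ B, ∃ n, 1 ≤ n ∧ n ≤ L ∧ c * n < ∑ j ∈ range n, f ((T^[j]) x)) :
    c * B.card ≤ ∑ x, f x := by
  classical
  let B' : Finset α := univ.filter fun x => ∃ n, 1 ≤ n ∧ n ≤ L ∧
    0 < ∑ j ∈ range n, (fun y => f y - c) ((T^[j]) x)
  have h1 := maximal_ergodic T (fun y => f y - c) L B' (fun x => by simp [B'])
  have hsub : B ⊆ B' := by
    intro x hx
    obtain ⟨n, hn1, hnL, h⟩ := hB x hx
    simp only [B', Finset.mem_filter, Finset.mem_univ, true_and]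
    refine ⟨n, hn1, hnL, ?_⟩
    rw [Finset.sum_sub_distrib, Finset.sum_const, Finset.card_range, nsmul_eq_mul]
    linarith [mul_comm c (n : ℝ)]
  rw [Finset.sum_sub_distrib, Finset.sum_const, nsmul_eq_mul] at h1
  have h2 : ∑ x ∈ B', f x ≤ ∑ x, f x :=
    Finset.sum_le_sum_of_subset_of_nonneg (Finset.subset_univ _) fun x _ _ => hf x
  have h3 : (B.card : ℝ) ≤ B'.card := by exact_mod_cast Finset.card_le_card hsub
  rcases le_or_gt c 0 with hc | hc
  · have : c * (B.card : ℝ) ≤ 0 := mul_nonpos_of_nonpos_of_nonneg hc (by positivity)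
    have : 0 ≤ ∑ x, f x := Finset.sum_nonneg fun x _ => hf x
    linarith
  · nlinarith

lemma tr1_iterate (g : ZMod (2 ^ M)) (j : ℕ) (x : Fin M → Bool) :
    ((tr1 g)^[j]) x = tr1 (j • g) x := by
  induction j with
  | zero => simp [tr1_zero]
  | succ j ih =>
    rw [Function.iterate_succ_apply', ih, tr1_tr1, succ_nsmul]

/-- comparison of sums along an orbit -/
lemma sum_orbit_le {α : Type} (T : α → α) (φ : α → ℝ) (hφ : ∀ y, 0 ≤ φ y) (b n : ℕ) (e : ℕ → ℕ)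
    (he : ∀ i, i < b → e i < n) (hinj : ∀ i j, i < b → j < b → e i = e j → i = j) (x : α) :
    ∑ i ∈ range b, φ ((T^[e i]) x) ≤ ∑ j ∈ range n, φ ((T^[j]) x) := by
  classical
  have h1 : ∑ i ∈ range b, φ ((T^[e i]) x) = ∑ j ∈ (range b).image e, φ ((T^[j]) x) := by
    rw [Finset.sum_image]
    intro i hi j hj hij
    simp only [Finset.coe_range, Set.mem_Iio] at hi hj
    exact hinj i j hi hj hij
  rw [h1]
  apply Finset.sum_le_sum_of_subset_of_nonneg
  · intro j hj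
    rw [Finset.mem_image] at hj
    obtain ⟨i, hi, rfl⟩ := hj
    rw [Finset.mem_range] at hi ⊢
    exact he i hi
  · intro j _ _; exact hφ _

/-- exceptional set of the shift lemma is small -/
lemma shift_exceptional (k : ℤ) (hk0 : k ≠ 0) (O : Finset (Fin M → Bool))
    (B : Finset (Fin M → Bool))
    (hB : ∀ x ∈ B, ∃ a, a ≤ M ∧
      1 / 2 < Av (dig1 a) (fun y => if y ∈ O then (1 : ℝ) else 0)
        (tr1 ((k * 2 ^ (M - a) : ℤ) : ZMod (2 ^ M)) x)) :
    (B.card : ℝ) ≤ 2 * (1 + |(k : ℝ)|) * O.card := by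
  classical
  set φ : (Fin M → Bool) → ℝ := fun y => if y ∈ O then (1 : ℝ) else 0 with hφ
  have hφ0 : ∀ y, 0 ≤ φ y := fun y => by simp only [hφ]; split_ifs <;> norm_num
  have hsumφ : ∑ y, φ y = O.card := by simp [hφ]
  have hk : 0 < 1 + |(k : ℝ)| := by positivity
  -- reduce to the weak type bound
  have main : ∃ T : (Fin M → Bool) ≃ (Fin M → Bool), ∃ L : ℕ, ∀ x ∈ B, ∃ n, 1 ≤ n ∧ n ≤ L ∧
      (1 / (2 * (1 + |(k : ℝ)|))) * n < ∑ j ∈ range n, φ ((T^[j]) x) := by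
    -- common data for a point of `B`
    have data : ∀ x ∈ B, ∃ b s : ℕ, 0 < b ∧ s < b ∧ b ≤ 2 ^ M ∧
        (b : ℝ) / 2 < ∑ i ∈ range b, φ (tr1 ((k * b - s + i : ℤ) : ZMod (2 ^ M)) x) := by
      intro x hx
      obtain ⟨a, ha, h⟩ := hB x hx
      set y := tr1 ((k * 2 ^ (M - a) : ℤ) : ZMod (2 ^ M)) x with hy
      refine ⟨2 ^ (M - a), loN a y, by positivity, loN_lt ha y,
        Nat.pow_le_pow_right (by norm_num) (Nat.sub_le _ _), ?_⟩
      rw [Av_dig1 ha, smul_eq_mul] at h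
      have hb : (0 : ℝ) < 2 ^ (M - a) := by positivity
      have h' : (2 : ℝ) ^ (M - a) / 2 < ∑ i ∈ range (2 ^ (M - a)),
          φ (pt ((hiN a y + i : ℕ) : ZMod (2 ^ M))) := by
        have := mul_lt_mul_of_pos_left h hb
        rw [← mul_assoc, mul_inv_cancel₀ hb.ne', one_mul] at this
        linarith
      push_cast
      refine h'.trans_le (le_of_eq ?_)
      apply Finset.sum_congr rfl
      intro i _
      congr 1
      rw [tr1_eq]
      congr 1
      have h3 : pos y = pos x + ((k * 2 ^ (M - a) : ℤ) : ZMod (2 ^ M)) := by rw [hy, pos_tr1]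
      have h4 : (hiN a y : ZMod (2 ^ M)) = pos y - (loN a y : ZMod (2 ^ M)) := by
        rw [pos_eq_posN, posN_eq a y]; push_cast; ring
      push_cast
      rw [h4, h3]
      push_cast
      ring
    -- the final numerical comparison
    have fin_cmp : ∀ (b n : ℕ) (S : ℝ), (n : ℝ) ≤ (1 + |(k : ℝ)|) * b → (b : ℝ) / 2 < S →
        (1 / (2 * (1 + |(k : ℝ)|))) * n < S := by
      intro b n S hn hS
      refine lt_of_le_of_lt ?_ hS
      rw [one_div, inv_mul_le_iff₀ (by positivity)]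
      linarith
    rcases lt_or_gt_of_ne hk0 with hneg | hpos
    · -- backward
      obtain ⟨κ, hκ⟩ : ∃ κ : ℕ, k = -(κ : ℤ) := ⟨k.natAbs, by omega⟩
      have hκ1 : 1 ≤ κ := by omega
      have habs : |(k : ℝ)| = κ := by
        rw [hκ]; push_cast; rw [abs_neg]; exact Nat.abs_cast κ
      refine ⟨tr1 (-1), (κ + 1) * 2 ^ M, ?_⟩
      intro x hx
      obtain ⟨b, s, hb, hs, hbM, h⟩ := data x hx
      have hκb : b ≤ κ * b := Nat.le_mul_of_pos_left _ hκ1
      have hle : κ * b + s + 1 ≤ (κ + 1) * b := by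
        have : (κ + 1) * b = κ * b + b := by ring
        omega
      refine ⟨κ * b + s + 1, by omega, ?_, ?_⟩
      · exact hle.trans (Nat.mul_le_mul_left _ hbM)
      · refine fin_cmp b _ _ ?_ (h.trans_le ?_)
        · rw [habs]
          have : ((κ * b + s + 1 : ℕ) : ℝ) ≤ (((κ + 1) * b : ℕ) : ℝ) := by exact_mod_cast hle
          refine this.trans (le_of_eq ?_)
          push_cast; ring
        · refine le_trans (le_of_eq ?_)
            (sum_orbit_le (tr1 (-1)) φ hφ0 b (κ * b + s + 1) (fun i => κ * b + s - i) ?_ ?_ x)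
          · apply Finset.sum_congr rfl
            intro i hi
            rw [Finset.mem_range] at hi
            rw [tr1_iterate]
            congr 3
            have : i ≤ κ * b + s := by omega
            rw [smul_neg, nsmul_one, Nat.cast_sub this, hκ]
            push_cast
            ring
          · intro i hi; omega
          · intro i j hi hj hij
            omega
    · -- forward
      obtain ⟨κ, hκ⟩ : ∃ κ : ℕ, k = (κ : ℤ) := ⟨k.natAbs, by omega⟩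
      have hκ1 : 1 ≤ κ := by omega
      have habs : |(k : ℝ)| = κ := by
        rw [hκ]; push_cast; exact Nat.abs_cast κ
      refine ⟨tr1 1, (κ + 1) * 2 ^ M, ?_⟩
      intro x hx
      obtain ⟨b, s, hb, hs, hbM, h⟩ := data x hx
      have hκb : b ≤ κ * b := Nat.le_mul_of_pos_left _ hκ1
      have hle : κ * b - s + b ≤ (κ + 1) * b := by
        have : (κ + 1) * b = κ * b + b := by ring
        omega
      refine ⟨κ * b - s + b, by omega, ?_, ?_⟩
      · exact hle.trans (Nat.mul_le_mul_left _ hbM)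
      · refine fin_cmp b _ _ ?_ (h.trans_le ?_)
        · rw [habs]
          have : ((κ * b - s + b : ℕ) : ℝ) ≤ (((κ + 1) * b : ℕ) : ℝ) := by exact_mod_cast hle
          refine this.trans (le_of_eq ?_)
          push_cast; ring
        · refine le_trans (le_of_eq ?_)
            (sum_orbit_le (tr1 1) φ hφ0 b (κ * b - s + b) (fun i => κ * b - s + i) ?_ ?_ x)
          · apply Finset.sum_congr rfl
            intro i hi
            rw [Finset.mem_range] at hi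
            rw [tr1_iterate]
            congr 3
            have : s ≤ κ * b := by omega
            rw [nsmul_one, Nat.cast_add, Nat.cast_sub this, hκ]
            push_cast
            ring
          · intro i hi; omega
          · intro i j hi hj hij
            omega
  obtain ⟨T, L, hT⟩ := main
  have h := weak_type T φ hφ0 _ L B hT
  rw [hsumφ] at h
  have h2 : (B.card : ℝ) = 2 * (1 + |(k : ℝ)|) * (1 / (2 * (1 + |(k : ℝ)|)) * B.card) := by
    field_simp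
  rw [h2]
  exact mul_le_mul_of_nonneg_left h (by positivity)

lemma E_indicator {𝒟 : Type} [Fintype 𝒟] [DecidableEq 𝒟] (B : Finset (𝒟 → Bool)) :
    E (fun x => if x ∈ B then (1 : ℝ) else 0) = (Fintype.card (𝒟 → Bool) : ℝ)⁻¹ * B.card := by
  simp [E]

/-- SHIFT LEMMA, one dimension, finite family `A` with level function `ℓ` -/
theorem shift1_aux (M : ℕ) (A : Type) [Fintype A] (ℓ : A → ℕ) (hℓ : ∀ a, ℓ a ≤ M)
    (H : A → (Fin M → Bool) → ℝ) (hH : ∀ a, Inv (dig1 (ℓ a)) (H a))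
    (k : ℤ) : E (fun x => Real.sqrt (∑ a, (H a (tr1 ((k * 2 ^ (M - ℓ a) : ℤ) : ZMod (2 ^ M)) x)) ^ 2))
      ≤ 2 * (1 + |(k : ℝ)|) * E (fun x => Real.sqrt (∑ a, (H a x) ^ 2)) := by
  classical
  by_cases hk0 : k = 0
  · subst hk0
    have h1 : ∀ a : A, ∀ x : Fin M → Bool,
        tr1 (((0 : ℤ) * 2 ^ (M - ℓ a) : ℤ) : ZMod (2 ^ M)) x = x := by
      intro a x
      rw [zero_mul, Int.cast_zero, tr1_zero]
    simp only [h1]
    have h2 : 0 ≤ E (fun x => Real.sqrt (∑ a, (H a x) ^ 2)) := E_nonneg fun x => Real.sqrt_nonneg _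
    simp only [Int.cast_zero, abs_zero, add_zero, mul_one]
    linarith
  have hk : 0 < 1 + |(k : ℝ)| := by positivity
  apply layer_cake _ _ (fun x => Real.sqrt_nonneg _) (fun x => Real.sqrt_nonneg _)
  intro l hl
  have hsq : ∀ (F : A → ℝ), (Real.sqrt (∑ a, (F a) ^ 2)) ^ 2 = ∑ a, (F a) ^ 2 := fun F =>
    Real.sq_sqrt (Finset.sum_nonneg fun a _ => sq_nonneg _)
  simp only [hsq]
  set O : Finset (Fin M → Bool) := univ.filter fun x => l ^ 2 < ∑ a, (H a x) ^ 2 with hO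
  set φ : (Fin M → Bool) → ℝ := fun y => if y ∈ O then (1 : ℝ) else 0 with hφ
  set B : Finset (Fin M → Bool) := univ.filter fun x => ∃ a : A,
    1 / 2 < Av (dig1 (ℓ a)) φ (tr1 ((k * 2 ^ (M - ℓ a) : ℤ) : ZMod (2 ^ M)) x) with hB
  have hBO : (B.card : ℝ) ≤ 2 * (1 + |(k : ℝ)|) * O.card := by
    apply shift_exceptional k hk0 O B
    intro x hx
    rw [hB, Finset.mem_filter] at hx
    obtain ⟨_, a, ha⟩ := hx
    exact ⟨ℓ a, hℓ a, ha⟩
  -- complement indicator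
  set ψ : (Fin M → Bool) → ℝ := fun y => if y ∈ O then (0 : ℝ) else 1 with hψ
  have hφψ : ∀ y, φ y + ψ y = 1 := fun y => by simp only [hφ, hψ]; split_ifs <;> norm_num
  have hAψ : ∀ (D : Finset (Fin M)) y, Av D φ y + Av D ψ y = 1 := by
    intro D y
    have h1 := congrFun (Av_add D φ ψ) y
    simp only [hφψ] at h1
    rw [Av_const] at h1
    exact h1.symm
  have hψ0 : ∀ y, 0 ≤ ψ y := fun y => by simp only [hψ]; split_ifs <;> norm_num
  -- pointwise bound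
  have hpt : ∀ x, min (∑ a, (H a (tr1 ((k * 2 ^ (M - ℓ a) : ℤ) : ZMod (2 ^ M)) x)) ^ 2) (l ^ 2)
      ≤ l ^ 2 * (if x ∈ B then (1 : ℝ) else 0)
        + ∑ a, 2 * Av (dig1 (ℓ a)) (fun y => H a y ^ 2 * ψ y)
          (tr1 ((k * 2 ^ (M - ℓ a) : ℤ) : ZMod (2 ^ M)) x) := by
    intro x
    have hnn : 0 ≤ ∑ a, 2 * Av (dig1 (ℓ a)) (fun y => H a y ^ 2 * ψ y)
          (tr1 ((k * 2 ^ (M - ℓ a) : ℤ) : ZMod (2 ^ M)) x) :=
      Finset.sum_nonneg fun a _ => mul_nonneg zero_le_two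
        (Av_nonneg _ (fun y => mul_nonneg (sq_nonneg _) (hψ0 y)) _)
    by_cases hx : x ∈ B
    · rw [if_pos hx]
      refine (min_le_right _ _).trans ?_
      linarith
    · rw [if_neg hx, mul_zero, zero_add]
      refine (min_le_left _ _).trans ?_
      apply Finset.sum_le_sum
      intro a _
      have h1 : ¬ (1 / 2 < Av (dig1 (ℓ a)) φ (tr1 ((k * 2 ^ (M - ℓ a) : ℤ) : ZMod (2 ^ M)) x)) := by
        intro hcon
        apply hx
        rw [hB, Finset.mem_filter]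
        exact ⟨Finset.mem_univ _, a, hcon⟩
      set y := tr1 ((k * 2 ^ (M - ℓ a) : ℤ) : ZMod (2 ^ M)) x
      have h2 := hAψ (dig1 (ℓ a)) y
      have h3 : Inv (dig1 (ℓ a)) (fun y => H a y ^ 2) := by
        intro x' y' h'
        simp only [hH a x' y' h']
      rw [Av_mul_of_Inv h3]
      have h4 : 1 / 2 ≤ Av (dig1 (ℓ a)) ψ y := by linarith [not_lt.1 h1]
      nlinarith [sq_nonneg (H a y)]
  refine (E_mono hpt).trans ?_
  rw [E_add, E_mul_left, E_indicator, E_sum]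
  have h5 : ∀ a : A, E (fun x => 2 * Av (dig1 (ℓ a)) (fun y => H a y ^ 2 * ψ y)
        (tr1 ((k * 2 ^ (M - ℓ a) : ℤ) : ZMod (2 ^ M)) x)) = 2 * E (fun y => H a y ^ 2 * ψ y) := by
    intro a
    rw [E_mul_left, E_tr1 _ (fun z => Av (dig1 (ℓ a)) (fun y => H a y ^ 2 * ψ y) z), E_Av]
  simp only [h5]
  rw [← Finset.mul_sum, ← E_sum]
  have h6 : ∀ x, ∑ a, H a x ^ 2 * ψ x = (∑ a, H a x ^ 2) * ψ x := fun x => by
    rw [Finset.sum_mul]
  simp only [h6]
  have h7 : ∀ x, min (∑ a, (H a x) ^ 2) (l ^ 2)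
      = l ^ 2 * (if x ∈ O then (1 : ℝ) else 0) + (∑ a, H a x ^ 2) * ψ x := by
    intro x
    by_cases hx : x ∈ O
    · have : l ^ 2 < ∑ a, (H a x) ^ 2 := by simpa [hO] using hx
      simp only [hψ, if_pos hx]
      rw [min_eq_right this.le]; ring
    · have : ∑ a, (H a x) ^ 2 ≤ l ^ 2 := by simpa [hO] using hx
      simp only [hψ, if_neg hx]
      rw [min_eq_left this]; ring
  simp only [h7]
  rw [E_add, E_mul_left, E_indicator]
  have h8 : 0 ≤ E (fun x => (∑ a, H a x ^ 2) * ψ x) :=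
    E_nonneg fun x => mul_nonneg (Finset.sum_nonneg fun a _ => sq_nonneg _) (hψ0 x)
  have hcard : (0 : ℝ) ≤ (Fintype.card (Fin M → Bool) : ℝ)⁻¹ := by positivity
  have h9 : l ^ 2 * ((Fintype.card (Fin M → Bool) : ℝ)⁻¹ * B.card)
      ≤ l ^ 2 * ((Fintype.card (Fin M → Bool) : ℝ)⁻¹ * (2 * (1 + |(k : ℝ)|) * O.card)) := by
    apply mul_le_mul_of_nonneg_left _ (sq_nonneg l)
    exact mul_le_mul_of_nonneg_left hBO hcard
  have h10 : 2 * E (fun x => (∑ a, H a x ^ 2) * ψ x)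
      ≤ 2 * (1 + |(k : ℝ)|) * E (fun x => (∑ a, H a x ^ 2) * ψ x) := by
    nlinarith [abs_nonneg (k : ℝ)]
  calc _ ≤ l ^ 2 * ((Fintype.card (Fin M → Bool) : ℝ)⁻¹ * (2 * (1 + |(k : ℝ)|) * O.card))
        + 2 * (1 + |(k : ℝ)|) * E (fun x => (∑ a, H a x ^ 2) * ψ x) := add_le_add h9 h10
    _ = _ := by ring

theorem shift1 : ∃ C : ℝ, 0 < C ∧ ∀ (M : ℕ) (A : Type) [Fintype A] (ℓ : A → ℕ), (∀ a, ℓ a ≤ M) →
    ∀ (H : A → (Fin M → Bool) → ℝ), (∀ a x, 0 ≤ H a x) → (∀ a, Inv (dig1 (ℓ a)) (H a)) →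
    ∀ k : ℤ, E (fun x => Real.sqrt (∑ a, (H a (tr1 ((k * 2 ^ (M - ℓ a) : ℤ) : ZMod (2 ^ M)) x)) ^ 2))
      ≤ C * (1 + |(k : ℝ)|) * E (fun x => Real.sqrt (∑ a, (H a x) ^ 2)) :=
  ⟨2, two_pos, fun M A _ ℓ hℓ H _ hH k => shift1_aux M A ℓ hℓ H hH k⟩

/-! ### weighted averages -/

/-- moving inside a cell does not change the value -/
lemma Inv.tr1_eq_of_mod {V : Type} [AddCommGroup V] [Module ℝ V] {a : ℕ} (ha : a ≤ M)
    {f : (Fin M → Bool) → V} (hf : Inv (dig1 a) f) (x : Fin M → Bool) (t : ℤ)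
    (h0 : 0 ≤ (posN x % 2 ^ (M - a) : ℕ) + t) (h1 : (posN x % 2 ^ (M - a) : ℕ) + t < 2 ^ (M - a)) :
    f (tr1 (t : ZMod (2 ^ M)) x) = f x := by
  apply hf.eq_of_div_eq ha
  have h := (val_add_div (dvd_pow_M (M := M) (a := a)) (by positivity) (pos x) t
    (by rw [val_pos]; exact h0) (by rw [val_pos]; exact_mod_cast h1)).1
  rw [← pos_tr1, val_pos, val_pos] at h
  exact h

lemma posN_tr1_mul_mod {a : ℕ} (x : Fin M → Bool) (k : ℤ) :
    posN (tr1 ((k * 2 ^ (M - a) : ℤ) : ZMod (2 ^ M)) x) % 2 ^ (M - a) = posN x % 2 ^ (M - a) := by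
  rw [← val_pos, ← val_pos, pos_tr1]
  have := val_add_mul_mod (dvd_pow_M (M := M) (a := a)) (pos x) k
  push_cast at this ⊢
  exact this

lemma Inv.tr1_le_add {a : ℕ} (ha : a ≤ M) {f : (Fin M → Bool) → ℝ} (hf : Inv (dig1 a) f)
    (hf0 : ∀ x, 0 ≤ f x) (x : Fin M → Bool) (r : ℕ) (hr : r < 2 ^ (M - a)) :
    f (tr1 ((r : ℤ) : ZMod (2 ^ M)) x) ≤ f x + f (tr1 ((1 * 2 ^ (M - a) : ℤ) : ZMod (2 ^ M)) x) := by
  set b : ℕ := 2 ^ (M - a) with hb
  have hb0 : 0 < b := by positivity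
  have hbZ : (2 : ℤ) ^ (M - a) = (b : ℤ) := by rw [hb]; push_cast; rfl
  set s := posN x % b with hs
  have hsb : s < b := Nat.mod_lt _ hb0
  by_cases h : s + r < b
  · rw [hf.tr1_eq_of_mod ha x r (by positivity) (by rw [← hb, ← hs, hbZ]; omega)]
    linarith [hf0 (tr1 ((1 * 2 ^ (M - a) : ℤ) : ZMod (2 ^ M)) x)]
  · have h1 : tr1 ((r : ℤ) : ZMod (2 ^ M)) x
        = tr1 (((r : ℤ) - b : ℤ) : ZMod (2 ^ M)) (tr1 ((1 * 2 ^ (M - a) : ℤ) : ZMod (2 ^ M)) x) := by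
      rw [tr1_tr1]; congr 2; rw [hb]; push_cast; ring
    have hmod := posN_tr1_mul_mod (M := M) (a := a) x 1
    rw [h1, hf.tr1_eq_of_mod ha]
    · linarith [hf0 x]
    · rw [hmod, ← hb, ← hs]; omega
    · rw [hmod, ← hb, ← hs, hbZ]; omega

lemma Inv.tr1_neg_le_add {a : ℕ} (ha : a ≤ M) {f : (Fin M → Bool) → ℝ} (hf : Inv (dig1 a) f)
    (hf0 : ∀ x, 0 ≤ f x) (x : Fin M → Bool) (r : ℕ) (hr : r < 2 ^ (M - a)) :
    f (tr1 ((-r : ℤ) : ZMod (2 ^ M)) x)
      ≤ f x + f (tr1 ((-1 * 2 ^ (M - a) : ℤ) : ZMod (2 ^ M)) x) := by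
  set b : ℕ := 2 ^ (M - a) with hb
  have hb0 : 0 < b := by positivity
  have hbZ : (2 : ℤ) ^ (M - a) = (b : ℤ) := by rw [hb]; push_cast; rfl
  set s := posN x % b with hs
  have hsb : s < b := Nat.mod_lt _ hb0
  by_cases h : r ≤ s
  · rw [hf.tr1_eq_of_mod ha x (-r) (by rw [← hb, ← hs]; omega)
      (by rw [← hb, ← hs, hbZ]; omega)]
    linarith [hf0 (tr1 ((-1 * 2 ^ (M - a) : ℤ) : ZMod (2 ^ M)) x)]
  · have h1 : tr1 ((-r : ℤ) : ZMod (2 ^ M)) x
        = tr1 (((b : ℤ) - r : ℤ) : ZMod (2 ^ M)) (tr1 ((-1 * 2 ^ (M - a) : ℤ) : ZMod (2 ^ M)) x) := by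
      rw [tr1_tr1]; congr 2; rw [hb]; push_cast; ring
    have hmod := posN_tr1_mul_mod (M := M) (a := a) x (-1)
    rw [h1, hf.tr1_eq_of_mod ha]
    · linarith [hf0 x]
    · rw [hmod, ← hb, ← hs]; omega
    · rw [hmod, ← hb, ← hs, hbZ]; omega

/-- Minkowski in `ℓ²` -/
lemma sqrt_sum_sq_le {A K : Type} [Fintype A] (s : Finset K) (F : K → A → ℝ) :
    Real.sqrt (∑ a, (∑ k ∈ s, F k a) ^ 2) ≤ ∑ k ∈ s, Real.sqrt (∑ a, F k a ^ 2) := by
  have h := norm_sum_le s (fun k => (WithLp.toLp 2 (F k) : EuclideanSpace ℝ A))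
  rw [EuclideanSpace.norm_eq] at h
  simp only [EuclideanSpace.norm_eq, Real.norm_eq_abs, sq_abs] at h
  simpa using h

lemma sqrt_sum_sq_mono {A : Type} [Fintype A] {F G : A → ℝ} (h0 : ∀ a, 0 ≤ F a)
    (h : ∀ a, F a ≤ G a) : Real.sqrt (∑ a, F a ^ 2) ≤ Real.sqrt (∑ a, G a ^ 2) := by
  apply Real.sqrt_le_sqrt
  apply Finset.sum_le_sum
  intro a _
  exact pow_le_pow_left₀ (h0 a) (h a) 2

lemma sqrt_sum_sq_smul {A : Type} [Fintype A] {F : A → ℝ} {c : ℝ} (hc : 0 ≤ c) :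
    Real.sqrt (∑ a, (c * F a) ^ 2) = c * Real.sqrt (∑ a, F a ^ 2) := by
  have : ∑ a, (c * F a) ^ 2 = c ^ 2 * ∑ a, F a ^ 2 := by
    rw [Finset.mul_sum]; apply Finset.sum_congr rfl; intro a _; ring
  rw [this, Real.sqrt_mul (sq_nonneg c), Real.sqrt_sq hc]

lemma sum_inv_sq_le (K : ℕ) : ∑ k ∈ range K, 1 / (1 + (k : ℝ)) ^ 2 ≤ 2 := by
  have h : ∀ K : ℕ, ∑ k ∈ range (K + 1), 1 / (1 + (k : ℝ)) ^ 2 ≤ 2 - 1 / (K + 1 : ℝ) := by
    intro K
    induction K with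
    | zero => norm_num
    | succ K ih =>
      rw [Finset.sum_range_succ]
      have h1 : 1 / (1 + ((K + 1 : ℕ) : ℝ)) ^ 2 ≤ 1 / (K + 1 : ℝ) - 1 / ((K + 1 : ℕ) + 1 : ℝ) := by
        push_cast
        rw [div_sub_div _ _ (by positivity) (by positivity)]
        rw [div_le_div_iff₀ (by positivity) (by positivity)]
        ring_nf
        nlinarith [(Nat.cast_nonneg K : (0 : ℝ) ≤ K)]
      linarith
  cases K with
  | zero => norm_num
  | succ K =>
    have h1 := h K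
    have : (0 : ℝ) ≤ 1 / (K + 1 : ℝ) := by positivity
    linarith

/-- sum over a range of a product length, by blocks -/
lemma sum_range_blocks {V : Type} [AddCommMonoid V] (K b : ℕ) (φ : ℕ → V) :
    ∑ n ∈ range (K * b), φ n = ∑ q ∈ range K, ∑ r ∈ range b, φ (q * b + r) := by
  induction K with
  | zero => simp
  | succ K ih => rw [Nat.succ_mul, Finset.sum_range_add, ih, Finset.sum_range_succ]

/-- one sided weighted sums, by blocks (`σ = 1` or `σ = -1`) -/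
lemma block_sum_le {a : ℕ} (ha : a ≤ M) {f : (Fin M → Bool) → ℝ} (hf : Inv (dig1 a) f)
    (hf0 : ∀ x, 0 ≤ f x) (x : Fin M → Bool) (σ : ℤ) (hσ : σ = 1 ∨ σ = -1) (K : ℕ) :
    ∑ n ∈ range (K * 2 ^ (M - a)), (2 ^ a / (1 + (n : ℝ) / 2 ^ (M - a)) ^ 3)
        * f (tr1 ((σ * n : ℤ) : ZMod (2 ^ M)) x)
      ≤ 2 ^ M * ∑ q ∈ range K, (1 / (1 + (q : ℝ)) ^ 3) *
          (f (tr1 ((σ * q * 2 ^ (M - a) : ℤ) : ZMod (2 ^ M)) x)
            + f (tr1 ((σ * (q + 1) * 2 ^ (M - a) : ℤ) : ZMod (2 ^ M)) x)) := by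
  rw [sum_range_blocks, Finset.mul_sum]
  apply Finset.sum_le_sum
  intro q _
  set b : ℕ := 2 ^ (M - a) with hb
  have hb0 : 0 < b := by positivity
  have hbR : (2 : ℝ) ^ (M - a) = (b : ℝ) := by rw [hb]; push_cast; rfl
  have hbZ : (2 : ℤ) ^ (M - a) = (b : ℤ) := by rw [hb]; push_cast; rfl
  have hbpos : (0 : ℝ) < b := by exact_mod_cast hb0
  have hM : (2 : ℝ) ^ M = 2 ^ a * b := by
    rw [← hbR, ← pow_add]; congr 1; omega
  have hterm : ∀ r ∈ range b, (2 ^ a / (1 + ((q * b + r : ℕ) : ℝ) / 2 ^ (M - a)) ^ 3)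
        * f (tr1 ((σ * (q * b + r : ℕ) : ℤ) : ZMod (2 ^ M)) x)
      ≤ (2 ^ a / (1 + (q : ℝ)) ^ 3) *
          (f (tr1 ((σ * q * 2 ^ (M - a) : ℤ) : ZMod (2 ^ M)) x)
            + f (tr1 ((σ * (q + 1) * 2 ^ (M - a) : ℤ) : ZMod (2 ^ M)) x)) := by
    intro r hr
    rw [Finset.mem_range] at hr
    have h1 : (1 + (q : ℝ)) ^ 3 ≤ (1 + ((q * b + r : ℕ) : ℝ) / 2 ^ (M - a)) ^ 3 := by
      apply pow_le_pow_left₀ (by positivity)
      have : (q : ℝ) ≤ ((q * b + r : ℕ) : ℝ) / 2 ^ (M - a) := by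
        rw [hbR, le_div_iff₀ hbpos]
        push_cast
        have : (0 : ℝ) ≤ r := by positivity
        linarith
      linarith
    have h2 : (2 ^ a / (1 + ((q * b + r : ℕ) : ℝ) / 2 ^ (M - a)) ^ 3 : ℝ)
        ≤ 2 ^ a / (1 + (q : ℝ)) ^ 3 := by
      apply div_le_div_of_nonneg_left (by positivity) (by positivity) h1
    have h3 : f (tr1 ((σ * (q * b + r : ℕ) : ℤ) : ZMod (2 ^ M)) x)
        ≤ f (tr1 ((σ * q * 2 ^ (M - a) : ℤ) : ZMod (2 ^ M)) x)
            + f (tr1 ((σ * (q + 1) * 2 ^ (M - a) : ℤ) : ZMod (2 ^ M)) x) := by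
      rcases hσ with rfl | rfl
      · have := hf.tr1_le_add ha hf0 (tr1 (((1 : ℤ) * q * 2 ^ (M - a) : ℤ) : ZMod (2 ^ M)) x) r hr
        rw [tr1_tr1, tr1_tr1] at this
        refine le_trans (le_of_eq ?_) (this.trans (le_of_eq ?_))
        · congr 2
          rw [← Int.cast_add, hbZ]; congr 1; push_cast; ring
        · rw [← Int.cast_add]
          ring_nf
      · have := hf.tr1_neg_le_add ha hf0
          (tr1 (((-1 : ℤ) * q * 2 ^ (M - a) : ℤ) : ZMod (2 ^ M)) x) r hr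
        rw [tr1_tr1, tr1_tr1] at this
        refine le_trans (le_of_eq ?_) (this.trans (le_of_eq ?_))
        · congr 2
          rw [← Int.cast_add, hbZ]; congr 1; push_cast; ring
        · rw [← Int.cast_add]
          ring_nf
    calc _ ≤ (2 ^ a / (1 + (q : ℝ)) ^ 3) * f (tr1 ((σ * (q * b + r : ℕ) : ℤ) : ZMod (2 ^ M)) x) :=
          mul_le_mul_of_nonneg_right h2 (hf0 _)
      _ ≤ _ := mul_le_mul_of_nonneg_left h3 (by positivity)
  refine (Finset.sum_le_sum hterm).trans (le_of_eq ?_)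
  rw [Finset.sum_const, Finset.card_range, nsmul_eq_mul, hM]
  ring

/-- pointwise bound for the weighted average -/
lemma wavg_pointwise {a : ℕ} (ha : a ≤ M) {f : (Fin M → Bool) → ℝ} (hf : Inv (dig1 a) f)
    (hf0 : ∀ x, 0 ≤ f x) (x : Fin M → Bool) :
    E (fun y => wg a (pos x - pos y) * f y)
      ≤ ∑ q ∈ range (2 ^ M + 1), (1 / (1 + (q : ℝ)) ^ 3) *
          ((f (tr1 ((-1 * q * 2 ^ (M - a) : ℤ) : ZMod (2 ^ M)) x)
            + f (tr1 ((-1 * (q + 1) * 2 ^ (M - a) : ℤ) : ZMod (2 ^ M)) x))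
          + (f (tr1 ((1 * q * 2 ^ (M - a) : ℤ) : ZMod (2 ^ M)) x)
            + f (tr1 ((1 * (q + 1) * 2 ^ (M - a) : ℤ) : ZMod (2 ^ M)) x))) := by
  have hb0 : 0 < 2 ^ (M - a) := by positivity
  -- the left side as a sum over `n < 2^M`
  have e1 : E (fun y => wg a (pos x - pos y) * f y)
      = ((2 : ℝ) ^ M)⁻¹ * ∑ n ∈ range (2 ^ M), wg a ((n : ℕ) : ZMod (2 ^ M))
          * f (tr1 ((-1 * n : ℤ) : ZMod (2 ^ M)) x) := by
    rw [E_eq_sum_pt, smul_eq_mul]
    congr 1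
    rw [← Equiv.sum_comp (Equiv.subLeft (pos x))]
    have h2 : ∀ g : ZMod (2 ^ M), wg a (pos x - pos (pt (Equiv.subLeft (pos x) g)))
        * f (pt (Equiv.subLeft (pos x) g))
        = (fun n : ℕ => wg a ((n : ℕ) : ZMod (2 ^ M)) * f (tr1 ((-1 * n : ℤ) : ZMod (2 ^ M)) x)) g.val := by
      intro g
      simp only [Equiv.subLeft_apply, pos_pt, sub_sub_cancel, ZMod.natCast_val, ZMod.cast_id', id_eq]
      congr 2
      rw [tr1_eq]
      congr 1
      push_cast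
      simp [sub_eq_add_neg]
    rw [Finset.sum_congr rfl (fun g _ => h2 g)]
    rw [← Equiv.sum_comp (posEquiv (M := M))]
    simp only [posEquiv_apply, val_pos]
    rw [sum_posN (fun n : ℕ => wg a ((n : ℕ) : ZMod (2 ^ M)) * f (tr1 ((-1 * n : ℤ) : ZMod (2 ^ M)) x))]
  rw [e1]
  set W : ℕ → ℝ := fun n => 2 ^ a / (1 + (n : ℝ) / 2 ^ (M - a)) ^ 3 with hW
  have hW0 : ∀ n, 0 ≤ W n := fun n => by simp only [hW]; positivity
  have hM : (2 : ℝ) ^ M = 2 ^ a * 2 ^ (M - a) := by rw [← pow_add]; congr 1; omega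
  have hwgW : ∀ n, n < 2 ^ M → wg a ((n : ℕ) : ZMod (2 ^ M)) ≤ W n + W (2 ^ M - n) := by
    intro n hn
    have hcd : cd ((n : ℕ) : ZMod (2 ^ M)) = (min n (2 ^ M - n) : ℕ) / (2 : ℝ) ^ M := by
      unfold cd
      rw [ZMod.val_natCast, Nat.mod_eq_of_lt hn]
    have h3 : ∀ m : ℕ, (2 : ℝ) ^ a * ((m : ℝ) / 2 ^ M) = m / 2 ^ (M - a) := by
      intro m; rw [hM]; field_simp
    unfold wg
    rw [hcd, h3]
    rcases le_total n (2 ^ M - n) with h | h
    · rw [min_eq_left h]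
      have := hW0 (2 ^ M - n)
      simp only [hW] at this ⊢
      linarith
    · rw [min_eq_right h]
      have := hW0 n
      simp only [hW] at this ⊢
      linarith
  have hcard : 2 ^ M + 1 ≤ (2 ^ M + 1) * 2 ^ (M - a) := Nat.le_mul_of_pos_right _ hb0
  have hS1 : ∑ n ∈ range (2 ^ M), W n * f (tr1 ((-1 * n : ℤ) : ZMod (2 ^ M)) x)
      ≤ ∑ n ∈ range ((2 ^ M + 1) * 2 ^ (M - a)), W n * f (tr1 ((-1 * n : ℤ) : ZMod (2 ^ M)) x) := by
    apply Finset.sum_le_sum_of_subset_of_nonneg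
    · intro n hn
      rw [Finset.mem_range] at hn ⊢
      omega
    · intro n _ _; exact mul_nonneg (hW0 n) (hf0 _)
  have hS2 : ∑ n ∈ range (2 ^ M), W (2 ^ M - n) * f (tr1 ((-1 * n : ℤ) : ZMod (2 ^ M)) x)
      ≤ ∑ n ∈ range ((2 ^ M + 1) * 2 ^ (M - a)), W n * f (tr1 ((1 * n : ℤ) : ZMod (2 ^ M)) x) := by
    have h4 : ∀ n ∈ range (2 ^ M), W (2 ^ M - n) * f (tr1 ((-1 * n : ℤ) : ZMod (2 ^ M)) x)
        = (fun j : ℕ => W (j + 1) * f (tr1 ((1 * (j + 1 : ℕ) : ℤ) : ZMod (2 ^ M)) x)) (2 ^ M - 1 - n) := by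
      intro n hn
      rw [Finset.mem_range] at hn
      have h5 : 2 ^ M - 1 - n + 1 = 2 ^ M - n := by omega
      simp only [h5]
      congr 3
      rw [Nat.cast_sub hn.le]
      push_cast
      have h6 : (2 : ZMod (2 ^ M)) ^ M = 0 := by
        have := ZMod.natCast_self (2 ^ M)
        push_cast at this
        exact this
      rw [h6]
      ring_nf
    rw [Finset.sum_congr rfl h4, Finset.sum_range_reflect
      (fun j : ℕ => W (j + 1) * f (tr1 ((1 * (j + 1 : ℕ) : ℤ) : ZMod (2 ^ M)) x))]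
    have h7 : ∑ j ∈ range (2 ^ M), W (j + 1) * f (tr1 ((1 * (j + 1 : ℕ) : ℤ) : ZMod (2 ^ M)) x)
        ≤ ∑ n ∈ range (2 ^ M + 1), W n * f (tr1 ((1 * n : ℤ) : ZMod (2 ^ M)) x) := by
      rw [Finset.sum_range_succ']
      have := mul_nonneg (hW0 0) (hf0 (tr1 ((1 * (0 : ℕ) : ℤ) : ZMod (2 ^ M)) x))
      linarith
    refine h7.trans ?_
    apply Finset.sum_le_sum_of_subset_of_nonneg
    · intro n hn
      rw [Finset.mem_range] at hn ⊢
      omega
    · intro n _ _; exact mul_nonneg (hW0 n) (hf0 _)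
  have hB1 := block_sum_le ha hf hf0 x (-1) (Or.inr rfl) (2 ^ M + 1)
  have hB2 := block_sum_le ha hf hf0 x 1 (Or.inl rfl) (2 ^ M + 1)
  have hMpos : (0 : ℝ) < 2 ^ M := by positivity
  have hsum : ∑ n ∈ range (2 ^ M), wg a ((n : ℕ) : ZMod (2 ^ M)) * f (tr1 ((-1 * n : ℤ) : ZMod (2 ^ M)) x)
      ≤ ∑ n ∈ range (2 ^ M), W n * f (tr1 ((-1 * n : ℤ) : ZMod (2 ^ M)) x)
        + ∑ n ∈ range (2 ^ M), W (2 ^ M - n) * f (tr1 ((-1 * n : ℤ) : ZMod (2 ^ M)) x) := by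
    rw [← Finset.sum_add_distrib]
    apply Finset.sum_le_sum
    intro n hn
    rw [Finset.mem_range] at hn
    rw [← add_mul]
    exact mul_le_mul_of_nonneg_right (hwgW n hn) (hf0 _)
  have htot := hsum.trans (add_le_add (hS1.trans hB1) (hS2.trans hB2))
  rw [← mul_add, ← Finset.sum_add_distrib] at htot
  calc _ ≤ ((2 : ℝ) ^ M)⁻¹ * _ := mul_le_mul_of_nonneg_left htot (by positivity)
    _ = _ := by
      rw [← mul_assoc, inv_mul_cancel₀ hMpos.ne', one_mul]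
      apply Finset.sum_congr rfl
      intro q _
      ring

/-- WEIGHTED AVERAGE LEMMA, one dimension (from `shift1`): `g0` arbitrary translation -/
theorem wavg1_aux (M : ℕ) (A : Type) [Fintype A] (ℓ : A → ℕ) (hℓ : ∀ a, ℓ a ≤ M)
    (H : A → (Fin M → Bool) → ℝ) (hH0 : ∀ a x, 0 ≤ H a x) (hH : ∀ a, Inv (dig1 (ℓ a)) (H a))
    (g0 : ZMod (2 ^ M)) :
    E (fun x => Real.sqrt (∑ a, (E (fun y => wg (ℓ a) (pos x + g0 - pos y) * H a y)) ^ 2))
      ≤ 24 * E (fun x => Real.sqrt (∑ a, (H a x) ^ 2)) := by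
  classical
  -- remove `g0`
  have e0 : E (fun x => Real.sqrt (∑ a, (E (fun y => wg (ℓ a) (pos x + g0 - pos y) * H a y)) ^ 2))
      = E (fun x => Real.sqrt (∑ a, (E (fun y => wg (ℓ a) (pos x - pos y) * H a y)) ^ 2)) := by
    rw [← E_tr1 g0 (fun x => Real.sqrt (∑ a, (E (fun y => wg (ℓ a) (pos x - pos y) * H a y)) ^ 2))]
    simp only [pos_tr1]
  rw [e0]
  -- abbreviations
  let T : ℤ → A → (Fin M → Bool) → ℝ := fun k a x =>
    H a (tr1 ((k * 2 ^ (M - ℓ a) : ℤ) : ZMod (2 ^ M)) x)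
  have hT : ∀ k : ℤ, E (fun x => Real.sqrt (∑ a, (T k a x) ^ 2))
      ≤ 2 * (1 + |(k : ℝ)|) * E (fun x => Real.sqrt (∑ a, (H a x) ^ 2)) :=
    fun k => shift1_aux M A ℓ hℓ H hH k
  set F := E (fun x => Real.sqrt (∑ a, (H a x) ^ 2)) with hF
  have hF0 : 0 ≤ F := E_nonneg fun x => Real.sqrt_nonneg _
  have hT0 : ∀ k a x, 0 ≤ T k a x := fun k a x => hH0 _ _
  let c : ℕ → ℝ := fun q => 1 / (1 + (q : ℝ)) ^ 3
  have hc0 : ∀ q, 0 ≤ c q := fun q => by simp only [c]; positivity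
  have hpt : ∀ x, Real.sqrt (∑ a, (E (fun y => wg (ℓ a) (pos x - pos y) * H a y)) ^ 2)
      ≤ ∑ q ∈ range (2 ^ M + 1), (c q * Real.sqrt (∑ a, (T (-1 * q) a x) ^ 2)
        + c q * Real.sqrt (∑ a, (T (-1 * (q + 1)) a x) ^ 2)
        + (c q * Real.sqrt (∑ a, (T (1 * q) a x) ^ 2)
        + c q * Real.sqrt (∑ a, (T (1 * (q + 1)) a x) ^ 2))) := by
    intro x
    have h1 : Real.sqrt (∑ a, (E (fun y => wg (ℓ a) (pos x - pos y) * H a y)) ^ 2)
        ≤ Real.sqrt (∑ a, (∑ q ∈ range (2 ^ M + 1), c q * ((T (-1 * q) a x + T (-1 * (q + 1)) a x)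
          + (T (1 * q) a x + T (1 * (q + 1)) a x))) ^ 2) := by
      apply sqrt_sum_sq_mono
      · intro a
        apply E_nonneg
        intro y
        apply mul_nonneg _ (hH0 _ _)
        unfold wg
        have := cd_nonneg (pos x - pos y)
        positivity
      · intro a
        exact wavg_pointwise (hℓ a) (hH a) (hH0 a) x
    refine h1.trans ((sqrt_sum_sq_le _ _).trans ?_)
    apply Finset.sum_le_sum
    intro q _
    rw [sqrt_sum_sq_smul (hc0 q), ← mul_add, ← mul_add, ← mul_add]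
    apply mul_le_mul_of_nonneg_left _ (hc0 q)
    have tri : ∀ F G : A → ℝ, Real.sqrt (∑ a, (F a + G a) ^ 2)
        ≤ Real.sqrt (∑ a, F a ^ 2) + Real.sqrt (∑ a, G a ^ 2) := by
      intro F G
      have := sqrt_sum_sq_le (univ : Finset (Fin 2)) (fun i a => if i = 0 then F a else G a)
      simpa [Fin.sum_univ_two] using this
    refine (tri _ _).trans ?_
    exact add_le_add (tri _ _) (tri _ _)
  refine (E_mono hpt).trans ?_
  rw [E_sum]
  have hq : ∀ q ∈ range (2 ^ M + 1), E (fun x => c q * Real.sqrt (∑ a, (T (-1 * q) a x) ^ 2)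
        + c q * Real.sqrt (∑ a, (T (-1 * (q + 1)) a x) ^ 2)
        + (c q * Real.sqrt (∑ a, (T (1 * q) a x) ^ 2)
        + c q * Real.sqrt (∑ a, (T (1 * (q + 1)) a x) ^ 2)))
      ≤ 12 * F * (1 / (1 + (q : ℝ)) ^ 2) := by
    intro q _
    rw [E_add, E_add, E_add, E_mul_left, E_mul_left, E_mul_left, E_mul_left]
    have hqn : (0 : ℝ) ≤ q := Nat.cast_nonneg q
    have a1 : |((-1 * q : ℤ) : ℝ)| = q := by push_cast; rw [neg_one_mul, abs_neg, abs_of_nonneg hqn]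
    have a2 : |((-1 * (q + 1) : ℤ) : ℝ)| = q + 1 := by
      push_cast; rw [neg_one_mul, abs_neg, abs_of_nonneg (by positivity)]
    have a3 : |((1 * q : ℤ) : ℝ)| = q := by push_cast; rw [one_mul, abs_of_nonneg hqn]
    have a4 : |((1 * (q + 1) : ℤ) : ℝ)| = q + 1 := by
      push_cast; rw [one_mul, abs_of_nonneg (by positivity)]
    have t1 := hT (-1 * q)
    have t2 := hT (-1 * (q + 1))
    have t3 := hT (1 * q)
    have t4 := hT (1 * (q + 1))
    rw [a1] at t1; rw [a2] at t2; rw [a3] at t3; rw [a4] at t4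
    have hsum : c q * E (fun x => Real.sqrt (∑ a, (T (-1 * q) a x) ^ 2))
        + c q * E (fun x => Real.sqrt (∑ a, (T (-1 * (q + 1)) a x) ^ 2))
        + (c q * E (fun x => Real.sqrt (∑ a, (T (1 * q) a x) ^ 2))
        + c q * E (fun x => Real.sqrt (∑ a, (T (1 * (q + 1)) a x) ^ 2)))
        ≤ c q * (12 * (1 + q) * F) := by
      rw [← mul_add, ← mul_add, ← mul_add]
      apply mul_le_mul_of_nonneg_left _ (hc0 q)
      have : 0 ≤ (q : ℝ) * F := mul_nonneg hqn hF0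
      nlinarith
    refine hsum.trans (le_of_eq ?_)
    simp only [c]
    have : (1 + (q : ℝ)) ≠ 0 := by positivity
    field_simp
  refine (Finset.sum_le_sum hq).trans ?_
  rw [← Finset.mul_sum]
  have := sum_inv_sq_le (2 ^ M + 1)
  nlinarith

theorem wavg1 : ∃ C : ℝ, 0 < C ∧ ∀ (M : ℕ) (A : Type) [Fintype A] (ℓ : A → ℕ), (∀ a, ℓ a ≤ M) →
    ∀ (H : A → (Fin M → Bool) → ℝ), (∀ a x, 0 ≤ H a x) → (∀ a, Inv (dig1 (ℓ a)) (H a)) →
    ∀ g0 : ZMod (2 ^ M),
    E (fun x => Real.sqrt (∑ a, (E (fun y => wg (ℓ a) (pos x + g0 - pos y) * H a y)) ^ 2))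
      ≤ C * E (fun x => Real.sqrt (∑ a, (H a x) ^ 2)) :=
  ⟨24, by norm_num, fun M A _ ℓ hℓ H hH0 hH g0 => wavg1_aux M A ℓ hℓ H hH0 hH g0⟩

end Pool.Agent.LBern
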