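import Pool.Agent.LBern.KernGrid

/-!
The weighted average lemma in `d` dimensions from the one dimensional one.
-/

set_option autoImplicit false
set_option linter.unusedSectionVars false
open Finset

namespace Pool.Agent.LBern

variable {d M : ℕ}
variable {V : Type} [AddCommGroup V] [Module ℝ V]

/-- the `i`-th coordinate of a point of the cube -/
def co (i : Fin d) (x : Cu d M) : Fin M → Bool := fun j => x (i, j)

/-- replace the `i`-th coordinate -/
def upd (i : Fin d) (v : Fin M → Bool) (x : Cu d M) : Cu d M :=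
  fun p => if p.1 = i then v p.2 else x p

theorem co_upd (i : Fin d) (v : Fin M → Bool) (x : Cu d M) : co i (upd i v x) = v := by
  funext j; simp [co, upd]

theorem co_upd_ne {i k : Fin d} (h : k ≠ i) (v : Fin M → Bool) (x : Cu d M) :
    co k (upd i v x) = co k x := by
  funext j; simp [co, upd, h]

theorem upd_co (i : Fin d) (x : Cu d M) : upd i (co i x) x = x := by
  funext p
  unfold upd co
  split_ifs with h
  · rw [← h]
  · rfl

theorem upd_upd (i : Fin d) (u v : Fin M → Bool) (x : Cu d M) : upd i u (upd i v x) = upd i u x := by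
  funext p; unfold upd; split_ifs <;> rfl

/-- the digits of coordinate `i` -/
def dco (i : Fin d) : Finset (Dg d M) := univ.filter fun p => p.1 = i

theorem mix_dco (i : Fin d) (y x : Cu d M) : mix (dco i) y x = upd i (co i y) x := by
  funext p
  obtain ⟨k, j⟩ := p
  by_cases h : k = i
  · subst h
    simp [mix, dco, upd, co]
  · simp [mix, dco, upd, h]

/-- splitting off the `i`-th coordinate -/
def splitCo (i : Fin d) :
    Cu d M ≃ (Fin M → Bool) × ({p : Dg d M // p.1 ≠ i} → Bool) where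
  toFun x := (co i x, fun p => x p.1)
  invFun q := fun p => if h : p.1 = i then q.1 p.2 else q.2 ⟨p, h⟩
  left_inv x := by
    funext p
    obtain ⟨k, j⟩ := p
    by_cases h : k = i
    · subst h
      simp [co]
    · simp [h]
  right_inv q := by
    ext j
    · simp [co]
    · simp [j.2]

/-- the distribution of one coordinate -/
theorem E_co (i : Fin d) (G : (Fin M → Bool) → V) : E (fun x : Cu d M => G (co i x)) = E G := by
  have h1 : ∑ x : Cu d M, G (co i x) =
      ∑ q : (Fin M → Bool) × ({p : Dg d M // p.1 ≠ i} → Bool), G q.1 :=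
    Fintype.sum_equiv (splitCo i) _ _ (fun x => rfl)
  have h2 : Fintype.card (Cu d M) =
      Fintype.card (Fin M → Bool) * Fintype.card ({p : Dg d M // p.1 ≠ i} → Bool) := by
    rw [← Fintype.card_prod]
    exact Fintype.card_congr (splitCo i)
  unfold E
  rw [h1, Fintype.sum_prod_type]
  simp only [Finset.sum_const, Finset.card_univ]
  rw [← Finset.smul_sum, ← Nat.cast_smul_eq_nsmul ℝ, smul_smul, h2]
  congr 1
  have h3 : (Fintype.card ({p : Dg d M // p.1 ≠ i} → Bool) : ℝ) ≠ 0 := card_ne'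
  have h4 : (Fintype.card (Fin M → Bool) : ℝ) ≠ 0 := card_ne'
  push_cast
  field_simp

theorem Av_dco (i : Fin d) (f : Cu d M → V) (x : Cu d M) :
    Av (dco i) f x = E (fun v => f (upd i v x)) := by
  unfold Av
  simp only [mix_dco]
  exact E_co i (fun v => f (upd i v x))

theorem E_upd (i : Fin d) (f : Cu d M → V) : E (fun x => E (fun v => f (upd i v x))) = E f := by
  rw [← E_Av (dco i) f]
  congr 1
  funext x
  exact (Av_dco i f x).symm

/-- the digits of the coordinates in `W` -/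
def dcs (W : Finset (Fin d)) : Finset (Dg d M) := univ.filter fun p => p.1 ∈ W

/-- weighted average in the coordinates of `W` -/
noncomputable def KW (W : Finset (Fin d)) (ℓ : Fin d → ℕ) (g0 : Fin d → ZMod (2 ^ M))
    (H : Cu d M → ℝ) (x : Cu d M) : ℝ :=
  E (fun y => (∏ i ∈ W, wg (ℓ i) (pos (co i x) + g0 i - pos (co i y))) * H (mix (dcs W) y x))

/-- weighted average in one coordinate -/
noncomputable def Kop (i : Fin d) (ℓ : ℕ) (g0 : ZMod (2 ^ M)) (F : Cu d M → ℝ) (x : Cu d M) : ℝ :=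
  E (fun u => wg ℓ (pos (co i x) + g0 - pos u) * F (upd i u x))

theorem KW_insert {W : Finset (Fin d)} {i : Fin d} (hi : i ∉ W) (ℓ : Fin d → ℕ)
    (g0 : Fin d → ZMod (2 ^ M)) (H : Cu d M → ℝ) :
    KW (insert i W) ℓ g0 H = Kop i (ℓ i) (g0 i) (KW W ℓ g0 H) := by
  funext x
  unfold KW Kop
  rw [← E_upd i, E_comm]
  congr 1
  funext u
  rw [← E_mul_left]
  congr 1
  funext y
  rw [prod_insert hi, co_upd, mul_assoc]
  congr 2
  · apply prod_congr rfl
    intro k hk
    have hki : k ≠ i := by rintro rfl; exact hi hk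
    rw [co_upd_ne hki, co_upd_ne hki]
  · congr 1
    funext p
    obtain ⟨k, j⟩ := p
    by_cases h : k = i
    · subst h
      simp [mix, dcs, upd, hi]
    · simp [mix, dcs, upd, h]

theorem KW_nonneg (W : Finset (Fin d)) (ℓ : Fin d → ℕ) (g0 : Fin d → ZMod (2 ^ M))
    {H : Cu d M → ℝ} (hH : ∀ x, 0 ≤ H x) (x : Cu d M) : 0 ≤ KW W ℓ g0 H x :=
  E_nonneg fun _ => mul_nonneg (prod_nonneg fun _ _ => wg_nonneg _ _) (hH _)

theorem KW_inv {W : Finset (Fin d)} {i : Fin d} (hi : i ∉ W) (ℓ : Fin d → ℕ)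
    (g0 : Fin d → ZMod (2 ^ M)) {H : Cu d M → ℝ} (hH : Inv (dig ℓ) H) (x : Cu d M) :
    Inv (dig1 (ℓ i)) (fun v => KW W ℓ g0 H (upd i v x)) := by
  intro v v' hv
  show E _ = E _
  refine congrArg E (funext fun y => ?_)
  refine congrArg₂ (· * ·) ?_ ?_
  · apply prod_congr rfl
    intro k hk
    have hki : k ≠ i := by rintro rfl; exact hi hk
    rw [co_upd_ne hki, co_upd_ne hki]
  · apply hH
    intro p hp
    obtain ⟨k, j⟩ := p
    by_cases h : k = i
    · subst h
      have : j ∉ dig1 (M := M) (ℓ k) := by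
        simpa [dig1, dig] using hp
      simp [mix, dcs, upd, hi, hv j this]
    · simp [mix, dcs, upd, h]

/-- the one dimensional weighted average lemma with constant `C` -/
def WAvgOne (C : ℝ) : Prop :=
  ∀ (M : ℕ) (A : Type) [Fintype A] (ℓ : A → ℕ), (∀ a, ℓ a ≤ M) →
    ∀ (H : A → (Fin M → Bool) → ℝ), (∀ a x, 0 ≤ H a x) → (∀ a, Inv (dig1 (ℓ a)) (H a)) →
    ∀ g0 : ZMod (2 ^ M),
    E (fun x => Real.sqrt (∑ a, (E (fun y => wg (ℓ a) (pos x + g0 - pos y) * H a y)) ^ 2))
      ≤ C * E (fun x => Real.sqrt (∑ a, (H a x) ^ 2))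

theorem wavg_W {C : ℝ} (hC : 0 ≤ C) (h1 : WAvgOne C) {A : Type} [Fintype A]
    (ℓ : A → Fin d → ℕ) (hℓ : ∀ a i, ℓ a i ≤ M) (H : A → Cu d M → ℝ) (hH0 : ∀ a x, 0 ≤ H a x)
    (hH : ∀ a, Inv (dig (ℓ a)) (H a)) (g0 : Fin d → ZMod (2 ^ M)) (W : Finset (Fin d)) :
    E (fun x => Real.sqrt (∑ a, (KW W (ℓ a) g0 (H a) x) ^ 2)) ≤
      C ^ W.card * E (fun x => Real.sqrt (∑ a, (H a x) ^ 2)) := by
  induction W using Finset.induction_on with
  | empty =>
    simp only [card_empty, pow_zero, one_mul]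
    apply le_of_eq
    congr 1
    funext x
    congr 2
    funext a
    congr 1
    unfold KW
    have : dcs (M := M) (∅ : Finset (Fin d)) = ∅ := by simp [dcs]
    rw [this]
    simp only [prod_empty, one_mul, mix_empty]
    exact E_const _
  | insert i W hi ih =>
    rw [card_insert_of_notMem hi, pow_succ, mul_comm (C ^ _) C, mul_assoc]
    refine le_trans ?_ (mul_le_mul_of_nonneg_left ih hC)
    rw [← E_upd i, ← E_upd i (fun x => Real.sqrt (∑ a, (KW W (ℓ a) g0 (H a) x) ^ 2)),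
      ← E_mul_left]
    apply E_mono
    intro x
    have h2 := h1 M A (fun a => ℓ a i) (fun a => hℓ a i)
      (fun a v => KW W (ℓ a) g0 (H a) (upd i v x)) (fun a v => KW_nonneg _ _ _ (hH0 a) _)
      (fun a => KW_inv hi (ℓ a) g0 (hH a) x) (g0 i)
    refine le_trans (le_of_eq ?_) h2
    congr 1
    funext v
    congr 2
    funext a
    congr 1
    rw [KW_insert hi]
    unfold Kop
    rw [co_upd]
    congr 1
    funext u
    rw [upd_upd]

/-- **The weighted average lemma in `d` dimensions.** -/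
theorem wavg_of {C : ℝ} (hC : 0 ≤ C) (h1 : WAvgOne C) {A : Type} [Fintype A]
    (ℓ : A → Fin d → ℕ) (hℓ : ∀ a i, ℓ a i ≤ M) (H : A → Cu d M → ℝ) (hH0 : ∀ a x, 0 ≤ H a x)
    (hH : ∀ a, Inv (dig (ℓ a)) (H a)) (g0 : Fin d → ZMod (2 ^ M)) :
    E (fun x => Real.sqrt (∑ a,
      (E (fun y => (∏ i, wg (ℓ a i) (pos (co i x) + g0 i - pos (co i y))) * H a y)) ^ 2)) ≤
      C ^ d * E (fun x => Real.sqrt (∑ a, (H a x) ^ 2)) := by
  have h := wavg_W hC h1 ℓ hℓ H hH0 hH g0 univ
  rw [card_univ, Fintype.card_fin] at h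
  refine le_trans (le_of_eq ?_) h
  congr 1
  funext x
  congr 2
  funext a
  congr 1
  unfold KW
  have : dcs (M := M) (univ : Finset (Fin d)) = univ := by simp [dcs]
  rw [this]
  simp only [mix_univ]

theorem wavgd_of {C : ℝ} (hC : 0 < C) (h1 : WAvgOne C) (d : ℕ) :
    ∃ C : ℝ, 0 < C ∧ ∀ (M : ℕ) (A : Finset (Fin d → ℕ)), A ⊆ lev d M →
    ∀ (H : (Fin d → ℕ) → Cu d M → ℝ), (∀ a ∈ A, ∀ x, 0 ≤ H a x) → (∀ a ∈ A, Inv (dig a) (H a)) →
    ∀ g0 : Gr d M,
    E (fun x : Cu d M => Real.sqrt (∑ a ∈ A,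
        (E (fun y : Cu d M => (∏ i, wg (a i) (posd x i + g0 i - posd y i)) * H a y)) ^ 2))
      ≤ C * E (fun x => Real.sqrt (∑ a ∈ A, (H a x) ^ 2)) := by
  refine ⟨C ^ d, by positivity, ?_⟩
  intro M A hA H hH0 hH g0
  have h := wavg_of (d := d) (M := M) hC.le h1 (A := {a // a ∈ A}) (fun a => a.1)
    (fun a i => by
      have := hA a.2
      simp only [lev, Fintype.mem_piFinset, mem_range] at this
      have := this i
      omega) (fun a => H a.1) (fun a x => hH0 a.1 a.2 x) (fun a => hH a.1 a.2) g0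
  refine le_trans (le_of_eq ?_) (h.trans (le_of_eq ?_))
  · congr 1
    funext x
    congr 1
    exact (Finset.sum_coe_sort A (fun a => (E (fun y : Cu d M =>
      (∏ i, wg (a i) (posd x i + g0 i - posd y i)) * H a y)) ^ 2)).symm
  · congr 2
    funext x
    congr 1
    exact Finset.sum_coe_sort A (fun a => (H a x) ^ 2)

/-- Minkowski -/
theorem sqrt_sum_E_le {𝒟 : Type} [Fintype 𝒟] [DecidableEq 𝒟] {ι : Type} (A : Finset ι)
    (B : ι → (𝒟 → Bool) → ℝ) :
    Real.sqrt (∑ a ∈ A, (E (B a)) ^ 2) ≤ E (fun w => Real.sqrt (∑ a ∈ A, (B a w) ^ 2)) := by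
  set S := ∑ a ∈ A, (E (B a)) ^ 2 with hS
  have hS0 : 0 ≤ S := sum_nonneg fun _ _ => sq_nonneg _
  rcases hS0.eq_or_lt with h | h
  · rw [← h, Real.sqrt_zero]
    exact E_nonneg fun _ => Real.sqrt_nonneg _
  have h1 : S = E (fun w => ∑ a ∈ A, E (B a) * B a w) := by
    rw [E_sum]
    rw [hS]
    apply sum_congr rfl
    intro a _
    rw [E_mul_left, pow_two]
  have h2 : E (fun w => ∑ a ∈ A, E (B a) * B a w) ≤
      E (fun w => Real.sqrt S * Real.sqrt (∑ a ∈ A, (B a w) ^ 2)) := by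
    apply E_mono
    intro w
    exact Real.sum_mul_le_sqrt_mul_sqrt A (fun a => E (B a)) (fun a => B a w)
  rw [E_mul_left, ← h1] at h2
  have h3 : 0 < Real.sqrt S := Real.sqrt_pos.mpr h
  have h4 : Real.sqrt S * Real.sqrt S ≤
      Real.sqrt S * E (fun w => Real.sqrt (∑ a ∈ A, (B a w) ^ 2)) := by
    rwa [Real.mul_self_sqrt hS0]
  exact le_of_mul_le_mul_left h4 h3

theorem Wa_le_of {C : ℝ} (hC : 0 < C) (h1 : WAvgOne C) (d : ℕ) :
    ∃ C : ℝ, 0 < C ∧ ∀ (M l : ℕ) (f : Gr d M → ℂ) (w0 : Gr d M),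
    E (fun z : Cu d M => Real.sqrt (∑ a ∈ levw d M l, (Wa f a (posd z + w0)) ^ 2))
      ≤ C * Nl f l := by
  obtain ⟨C', hC', h2⟩ := wavgd_of hC h1 d
  refine ⟨C', hC', ?_⟩
  intro M l f w0
  have hlev : levw d M l ⊆ lev d M := filter_subset _ _
  have h3 : E (fun z : Cu d M => Real.sqrt (∑ a ∈ levw d M l, (Wa f a (posd z + w0)) ^ 2)) ≤
      E (fun z : Cu d M => E (fun w : Cu d M => Real.sqrt (∑ a ∈ levw d M l,
        (E (fun y : Cu d M => (∏ i, wg (a i) (posd z i + (w0 - posd w) i - posd y i)) *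
          ‖Dl a (fw f (posd w)) y‖)) ^ 2))) := by
    apply E_mono
    intro z
    refine le_trans (le_of_eq ?_) (sqrt_sum_E_le _ _)
    congr 1
    apply sum_congr rfl
    intro a _
    congr 1
    unfold Wa
    congr 1
    funext w
    congr 1
    funext y
    congr 1
    apply prod_congr rfl
    intro i _
    congr 1
    simp only [Pi.add_apply, Pi.sub_apply]
    ring
  refine h3.trans ?_
  rw [E_comm]
  unfold Nl
  rw [← E_mul_left]
  apply E_mono
  intro w
  exact h2 M (levw d M l) hlev (fun a y => ‖Dl a (fw f (posd w)) y‖) (fun _ _ _ => norm_nonneg _)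
    (fun a ha x y hxy => by
      show ‖Dl a (fw f (posd w)) x‖ = ‖Dl a (fw f (posd w)) y‖
      rw [Inv_Dl (hlev ha) (fw f (posd w)) x y hxy]) (w0 - posd w)

/-- slow variation of the majorant -/
theorem Wa_slow (d M : ℕ) (f : Gr d M → ℂ) (a : Fin d → ℕ) (ha : a ∈ lev d M) (w0 : Gr d M)
    (x y : Cu d M) (h : ∀ e, e ∉ dig a → x e = y e) :
    Wa f a (posd x + w0) ≤ 8 ^ d * Wa f a (posd y + w0) := by
  unfold Wa
  rw [← E_mul_left]
  apply E_mono
  intro w
  rw [← E_mul_left]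
  apply E_mono
  intro z
  rw [← mul_assoc]
  apply mul_le_mul_of_nonneg_right _ (norm_nonneg _)
  have h8 : (8:ℝ) ^ d = ∏ _i : Fin d, (8:ℝ) := by simp
  rw [h8, ← prod_mul_distrib]
  apply prod_le_prod
  · intro i _
    exact wg_nonneg _ _
  · intro i _
    apply wg_slow
    have h1 : ((posd y + w0) i - posd z i - posd w i) - ((posd x + w0) i - posd z i - posd w i) =
        pos (fun j => y (i, j)) - pos (fun j => x (i, j)) := by
      simp only [Pi.add_apply, posd]
      ring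
    rw [h1]
    have ha' : a i ≤ M := by
      simp only [lev, Fintype.mem_piFinset, mem_range] at ha
      have := ha i
      omega
    apply cd_pos_le (a i) ha'
    intro j hj
    exact (h (i, j) (by simp [dig]; omega)).symm

end Pool.Agent.LBern
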