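import Pool.Agent.LBern.LepMulti
import Pool.Agent.LBern.WAvg
import Pool.Agent.LBern.Shift

/-!
Lepingle with lags for the majorants.
-/

set_option linter.unusedSectionVars false

namespace Pool.Agent.LBern

open Finset

lemma wavgOne_24 : WAvgOne 24 := fun M A _ ℓ hℓ H hH0 hH g0 => wavg1_aux M A ℓ hℓ H hH0 hH g0

theorem Wa_le (d : ℕ) : ∃ C : ℝ, 0 < C ∧ ∀ (M l : ℕ) (f : Gr d M → ℂ) (w0 : Gr d M),
    E (fun z : Cu d M => Real.sqrt (∑ a ∈ levw d M l, (Wa f a (posd z + w0)) ^ 2))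
      ≤ C * Nl f l := Wa_le_of (by norm_num) wavgOne_24 d

lemma Wa_nonneg {d M : ℕ} (f : Gr d M → ℂ) (a : Fin d → ℕ) (g : Gr d M) : 0 ≤ Wa f a g :=
  E_nonneg fun _ => E_nonneg fun _ =>
    mul_nonneg (prod_nonneg fun _ _ => wg_nonneg _ _) (norm_nonneg _)

lemma mix_agree {d M : ℕ} (D : Finset (Dg d M)) (y x : Cu d M) (e : Dg d M) (he : e ∉ D) :
    x e = mix D y x e := by
  simp [mix, he]

theorem tail_q (d : ℕ) : ∃ C : ℝ, 0 < C ∧ ∀ (M l : ℕ) (f : Gr d M → ℂ) (w0 : Gr d M)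
    (q : Fin d → ℕ),
    E (fun z : Cu d M => Real.sqrt (∑ a ∈ levw d M l,
        (Av (DDq q a) (fun z => Wa f a (posd z + w0)) z) ^ 2))
      ≤ C * (∏ i, (2 * q i + 1 : ℝ)) * Nl f l := by
  obtain ⟨C, hC, hW⟩ := Wa_le d
  refine ⟨8 ^ d * (8 ^ d * C), by positivity, ?_⟩
  intro M l f w0 q
  have hlev : levw d M l ⊆ lev d M := filter_subset _ _
  let W : (Fin d → ℕ) → Cu d M → ℝ := fun a z => Wa f a (posd z + w0)
  let H : (Fin d → ℕ) → Cu d M → ℝ := fun a => Av (dig a) (W a)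
  have hW0 : ∀ a x, 0 ≤ W a x := fun a x => Wa_nonneg f a _
  have hH0 : ∀ a x, 0 ≤ H a x := fun a x => Av_nonneg _ (hW0 a) x
  have h8 : (0 : ℝ) < 8 ^ d := by positivity
  -- comparison
  have h1 : ∀ a ∈ levw d M l, ∀ x, W a x ≤ 8 ^ d * H a x := by
    intro a ha x
    have e1 : ∀ y, W a x ≤ 8 ^ d * W a (mix (dig a) y x) := fun y =>
      Wa_slow d M f a (hlev ha) w0 x (mix (dig a) y x) (fun e he => mix_agree _ _ _ _ he)
    have e2 := E_mono e1
    rw [E_const, E_mul_left] at e2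
    exact e2
  have h2 : ∀ a ∈ levw d M l, ∀ x, H a x ≤ 8 ^ d * W a x := by
    intro a ha x
    have e1 : ∀ y, W a (mix (dig a) y x) ≤ 8 ^ d * W a x := fun y =>
      Wa_slow d M f a (hlev ha) w0 (mix (dig a) y x) x (fun e he => (mix_agree _ _ _ _ he).symm)
    have e2 := E_mono e1
    rw [E_const] at e2
    exact e2
  have h3 : E (fun z : Cu d M => Real.sqrt (∑ a ∈ levw d M l, (Av (DDq q a) (W a) z) ^ 2)) ≤
      E (fun z : Cu d M => 8 ^ d * Real.sqrt (∑ a ∈ levw d M l, (Av (DDq q a) (H a) z) ^ 2)) := by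
    apply E_mono
    intro z
    have e0 : (8 : ℝ) ^ d * Real.sqrt (∑ a ∈ levw d M l, (Av (DDq q a) (H a) z) ^ 2) =
        Real.sqrt (∑ a ∈ levw d M l, (8 ^ d * Av (DDq q a) (H a) z) ^ 2) := by
      simp only [mul_pow]
      rw [← mul_sum, Real.sqrt_mul (by positivity), Real.sqrt_sq h8.le]
    rw [e0]
    apply Real.sqrt_le_sqrt
    apply sum_le_sum
    intro a ha
    apply pow_le_pow_left₀ (Av_nonneg _ (hW0 a) z)
    have e1 := Av_mono (DDq q a) (h1 a ha) z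
    have e2 : Av (DDq q a) (fun x => 8 ^ d * H a x) z = 8 ^ d * Av (DDq q a) (H a) z := by
      rw [Av_mul_left]
    rw [e2] at e1
    exact e1
  have h4 := lepM d M (levw d M l) hlev q H (fun a _ x => hH0 a x) (fun a _ => Inv_Av _ _)
  have h5 : E (fun x => Real.sqrt (∑ a ∈ levw d M l, (H a x) ^ 2)) ≤ 8 ^ d * (C * Nl f l) := by
    have e1 : E (fun x => Real.sqrt (∑ a ∈ levw d M l, (H a x) ^ 2)) ≤
        E (fun x => 8 ^ d * Real.sqrt (∑ a ∈ levw d M l, (W a x) ^ 2)) := by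
      apply E_mono
      intro z
      have e0 : (8 : ℝ) ^ d * Real.sqrt (∑ a ∈ levw d M l, (W a z) ^ 2) =
          Real.sqrt (∑ a ∈ levw d M l, (8 ^ d * W a z) ^ 2) := by
        simp only [mul_pow]
        rw [← mul_sum, Real.sqrt_mul (by positivity), Real.sqrt_sq h8.le]
      rw [e0]
      apply Real.sqrt_le_sqrt
      apply sum_le_sum
      intro a ha
      exact pow_le_pow_left₀ (hH0 a z) (h2 a ha z) 2
    rw [E_mul_left] at e1
    exact e1.trans (mul_le_mul_of_nonneg_left (hW M l f w0) h8.le)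
  rw [E_mul_left] at h3
  have hq : 0 ≤ ∏ i, (2 * q i + 1 : ℝ) := prod_nonneg fun i _ => by positivity
  calc E (fun z : Cu d M => Real.sqrt (∑ a ∈ levw d M l, (Av (DDq q a) (W a) z) ^ 2))
      ≤ 8 ^ d * E (fun z : Cu d M => Real.sqrt (∑ a ∈ levw d M l, (Av (DDq q a) (H a) z) ^ 2)) := h3
    _ ≤ 8 ^ d * ((∏ i, (2 * q i + 1 : ℝ)) *
        E (fun x => Real.sqrt (∑ a ∈ levw d M l, (H a x) ^ 2))) := by gcongr
    _ ≤ 8 ^ d * ((∏ i, (2 * q i + 1 : ℝ)) * (8 ^ d * (C * Nl f l))) := by gcongr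
    _ = _ := by ring

end Pool.Agent.LBern
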