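import Pool.Agent.LBern.Assem
import Pool.Agent.LBern.Low
import Pool.Agent.LBern.TailQ
import Pool.Agent.LBern.EtaPsi
import Pool.Agent.LBern.LayerB
import Pool.Agent.LBern.Blocks
import Pool.Agent.LBern.Final

/-!
The discrete inequality and the final theorem.
-/

set_option linter.unusedSectionVars false

namespace Pool.Agent.LBern

open Finset

theorem discrete (d : ℕ) (r : ℝ) (hr : 0 < r) (α : Fin d → ℝ) : ∃ C : ℝ, 0 < C ∧
    ∀ (M n N : ℕ), N ≤ 2 ^ n → n + 3 * d + 2 ≤ M → ∀ c : (Fin d → ℤ) → ℂ,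
    n1 (M := M) (tp (Gam d N) fun k => c k * muv r α k)
      ≤ C * ((2 : ℝ) ^ n) ^ r * n1 (M := M) (tp (Gam d N) c) := by
  obtain ⟨Cl, hCl, hl⟩ := lower d
  obtain ⟨Cs, hCs, hs⟩ := sl1 d
  obtain ⟨Ct, hCt, ht⟩ := tail_q d
  have hcv : BlkCv d := fun C hC => blk_cv d C hC
  obtain ⟨B, hB, hb⟩ := blk_eta_of hcv
  obtain ⟨B', hB', hb'⟩ := blk_psi_of hcv r α
  obtain ⟨C2, hC2, h2⟩ := layer_bound_of d (tail_q d)
  obtain ⟨C1, hC1, h1⟩ := layers_of (d := d) (η := etaM) hCl hl hCs hs hCt ht hB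
    (fun M n N hN hM => ⟨fun c a ha hw => hb M n N hN hM c a ha hw,
      fun k hk => eta_sum d M n N hN hM k hk⟩)
  exact discrete_of (d := d) hr (ψ := fun i a k => psiM r (α i) a k) (μ := muv r α) hC1 h1 hC2 h2
    (fun M a ha Λ c g => avg_Dl ha Λ c g) hB'
    (fun M n N hN hM => ⟨fun c a ha hw => hb' M n N hN hM c a ha hw,
      fun i a ha k => psiM_div_ph r (α i) M a ha k,
      fun k hk => psi_sum d M n N hN hM r α k hk⟩)

theorem main (d : ℕ) (hd : 1 ≤ d) (r : ℝ) (hr : 0 < r) (α : Fin d → ℝ) :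
    ∃ C : ℝ, 0 < C ∧ ∀ N : ℕ, 1 ≤ N →
      BddAbove (ratios d r α N) ∧ (N : ℝ) ^ r ≤ B1 d r α N ∧ B1 d r α N ≤ C * (N : ℝ) ^ r :=
  final_of_discrete discrete d hd r hr α

end Pool.Agent.LBern
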