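import Pool.Agent.LBern.Norms
import Pool.Agent.LBern.Pos

/-!
Positions in dimension `d`.
-/

set_option linter.unusedSectionVars false

namespace Pool.Agent.LBern

open Finset

variable {d M : ℕ} {V : Type} [AddCommGroup V] [Module ℝ V]

/-- the position map as an equivalence -/
noncomputable def posdE : Cu d M ≃ Gr d M :=
  (Equiv.curry (Fin d) (Fin M) Bool).trans (Equiv.piCongrRight fun _ => posEquiv)

lemma posdE_apply (z : Cu d M) : posdE z = posd z := rfl

/-- the point of the cube at position `g` -/
noncomputable def ptd (g : Gr d M) : Cu d M := fun p => pt (g p.1) p.2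

lemma posdE_symm (g : Gr d M) : posdE.symm g = ptd g := rfl

@[simp] lemma posd_ptd (g : Gr d M) : posd (ptd g) = g := by
  rw [← posdE_apply, ← posdE_symm, Equiv.apply_symm_apply]

@[simp] lemma ptd_posd (z : Cu d M) : ptd (posd z) = z := by
  rw [← posdE_apply, ← posdE_symm, Equiv.symm_apply_apply]

lemma E_posd (F : Gr d M → V) :
    E (fun z : Cu d M => F (posd z)) = ((Fintype.card (Cu d M) : ℝ)⁻¹) • ∑ g : Gr d M, F g := by
  simp only [E]
  congr 1
  exact Equiv.sum_comp posdE F

/-- the mean over the cube of a function of the position -/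
lemma E_eq_sum_ptd (F : Cu d M → V) :
    E F = ((Fintype.card (Cu d M) : ℝ)⁻¹) • ∑ g : Gr d M, F (ptd g) := by
  rw [← E_posd]; simp

/-- translation invariance -/
lemma E_posd_add (F : Gr d M → V) (g : Gr d M) :
    E (fun z : Cu d M => F (posd z + g)) = E (fun z : Cu d M => F (posd z)) := by
  rw [E_posd, E_posd (fun h => F (h + g))]
  congr 1
  exact Equiv.sum_comp (Equiv.addRight g) F

lemma E_add_posd (F : Gr d M → V) (g : Gr d M) :
    E (fun z : Cu d M => F (g + posd z)) = E (fun z : Cu d M => F (posd z)) := by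
  rw [← E_posd_add F g]; simp only [add_comm]

/-- reflection -/
lemma E_sub_posd (F : Gr d M → V) (g : Gr d M) :
    E (fun z : Cu d M => F (g - posd z)) = E (fun z : Cu d M => F (posd z)) := by
  rw [E_posd, E_posd (fun h => F (g - h))]
  congr 1
  exact Equiv.sum_comp (Equiv.subLeft g) F

lemma n1_nonneg (f : Gr d M → ℂ) : 0 ≤ n1 f := E_nonneg fun _ => norm_nonneg _

lemma n1_eq (f : Gr d M → ℂ) (g : Gr d M) : E (fun z : Cu d M => ‖fw f g z‖) = n1 f :=
  E_posd_add (fun h => ‖f h‖) g

end Pool.Agent.LBern
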